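import Pool.Agent.GEN.St

/-!
# GEN: a crossing between the left and the right region
-/

set_option autoImplicit false
set_option linter.unusedVariables false

namespace Pool.GEN

open LaurentPolynomial Pool.Agent.ARB Pool.Agent.Helper2 Pool.ALT Pool.LSP Pool.LSG

theorem adj2_nXd_append {α : Type} (u v : Wd α) : nXd (u ++ v) = nXd u + nXd v := by
  induction u with
  | nil =>
    show nXd v = 0 + nXd v
    rw [zero_add]
  | cons s u ih =>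
    obtain ⟨k, i⟩ := s
    cases k with
    | U => exact ih
    | N => exact ih
    | X a =>
      show nXd (u ++ v) + 1 = nXd u + 1 + nXd v
      rw [ih]
      omega

/-- the isotopy of the undecorated words -/
theorem adj2_iso (e : Bool) (A B : Word) (hA : Ok A 4 0) (hB : Ok B 4 0) :
    Iso 2 (wV ([pU 2, pU 4, pX 3 (!e)] ++ (A ++ B))) (wV A ++ (pX 0 e :: wV B)) := by
  -- the crossing, on four strands
  have s2 : Iso 4 [pU 2, pU 4, pX 3 (!e)] [pU 2, pU 3, pX 4 e] := by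
    have t1 : Iso 6 [pU 4, pX 3 (!e)] [pU 3, pX 4 (!(!e))] := Iso.slU (!e) (by decide)
    rw [Bool.not_not] at t1
    exact Iso.left (z := [pU 2]) (k := 6) ⟨by decide, rfl⟩ t1
  -- the outer cups are made later
  have s3 : Iso 2 ([pU 2, pU 3] ++ [pU 2, pU 3]) ([pU 2, pU 3] ++ [pU 6, pU 7]) := by
    have t1 := thm_Comm [pU 2, pU 3] [pU 0, pU 1] 2 6 0 4 ⟨by decide, by decide, rfl⟩
      ⟨by decide, by decide, rfl⟩
    exact t1.symm
  -- the crossing moves down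
  have s4 : Iso 6 ([pU 6, pU 7] ++ [pX 4 e]) ([pX 4 e] ++ [pU 6, pU 7]) := by
    have t1 := thm_Comm [pX 4 e] [pU 0, pU 1] 6 6 0 4 ⟨by show 4 + 2 ≤ 6; omega, rfl⟩
      ⟨by decide, by decide, rfl⟩
    exact t1.symm
  -- `A` moves down
  have s5 : Iso 6 ([pX 4 e, pU 6, pU 7] ++ A) (A ++ [pX 0 e, pU 2, pU 3]) := by
    have t1 := thm_Comm A [pX 0 e, pU 2, pU 3] 4 0 2 6 hA
      ⟨by show 0 + 2 ≤ 2; omega, by show 2 + 0 ≤ 2 - 2 + 2; omega,
        by show 3 + 0 ≤ 2 - 2 + 2 - 0 + 2; omega, rfl⟩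
    exact t1.symm
  have o23 : Ok [pU 2, pU 3] 2 6 := ⟨by decide, by decide, rfl⟩
  have u1 : Iso 2 ([pU 2, pU 3] ++ ([pU 2, pU 4, pX 3 (!e)] ++ (A ++ B)))
      ([pU 2, pU 3] ++ ([pU 2, pU 3, pX 4 e] ++ (A ++ B))) :=
    Iso.left o23 ((s2.le (by decide)).right _)
  have u2 : Iso 2 (([pU 2, pU 3] ++ [pU 2, pU 3]) ++ ([pX 4 e] ++ (A ++ B)))
      (([pU 2, pU 3] ++ [pU 6, pU 7]) ++ ([pX 4 e] ++ (A ++ B))) := s3.right _
  have u3 : Iso 2 ([pU 2, pU 3] ++ (([pU 6, pU 7] ++ [pX 4 e]) ++ (A ++ B)))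
      ([pU 2, pU 3] ++ (([pX 4 e] ++ [pU 6, pU 7]) ++ (A ++ B))) := Iso.left o23 (s4.right _)
  have u4 : Iso 2 ([pU 2, pU 3] ++ (([pX 4 e, pU 6, pU 7] ++ A) ++ B))
      ([pU 2, pU 3] ++ ((A ++ [pX 0 e, pU 2, pU 3]) ++ B)) := Iso.left o23 (s5.right _)
  have e1 : ([pU 2, pU 3] ++ [pU 2, pU 3]) ++ ([pX 4 e] ++ (A ++ B)) =
      [pU 2, pU 3] ++ ([pU 2, pU 3, pX 4 e] ++ (A ++ B)) := by simp
  have e2 : ([pU 2, pU 3] ++ [pU 6, pU 7]) ++ ([pX 4 e] ++ (A ++ B)) =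
      [pU 2, pU 3] ++ (([pU 6, pU 7] ++ [pX 4 e]) ++ (A ++ B)) := by simp
  have e3 : [pU 2, pU 3] ++ (([pX 4 e] ++ [pU 6, pU 7]) ++ (A ++ B)) =
      [pU 2, pU 3] ++ (([pX 4 e, pU 6, pU 7] ++ A) ++ B) := by simp
  have e4 : [pU 2, pU 3] ++ ((A ++ [pX 0 e, pU 2, pU 3]) ++ B) =
      wV A ++ (pX 0 e :: wV B) := by simp [wV]
  rw [e1, e2] at u2
  rw [e3] at u3
  rw [e4] at u4
  exact u1.trans (u2.trans (u3.trans u4))

theorem thm_ADJ2 : St_ADJ2 := by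
  intro κ e pr c W hN hex
  obtain ⟨a, ha, hev⟩ := hex
  have hD := hN.dec
  have hF := hN.fa
  have hne := hN.ne02
  have hFa := all_Fa
  have hIsl := all_Isl
  have hSL := all_SL
  have hT1 : Pool.LSG.St_T1 := Pool.LSG.all_T1
  have hMp := thm_Mp
  -- the crossing is pulled to the gap 2
  have hcor : a.l = c 2 ∨ a.b = c 2 ∨ a.r = c 2 ∨ a.t = c 2 := by
    rcases hev with ⟨-, h | h⟩ | ⟨-, h | h⟩
    · exact Or.inr (Or.inr (Or.inl h.2))
    · exact Or.inl h.1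
    · exact Or.inr (Or.inr (Or.inr h.2))
    · exact Or.inr (Or.inl h.1)
  obtain ⟨a', V, hb, hrot, hV, hiso⟩ := hT1 W 4 c (c 2) hD.ok hD.vl (hF _) 2 (by decide) rfl a ha
    hcor
  have hev' : Ev e a' (c 0) (c 2) := by
    rcases hrot with h | h | h | h
    · rw [h]; exact hev
    · rw [h]; exact adj_ev hev
    · rw [h]; exact adj_ev (adj_ev hev)
    · rw [h]; exact adj_ev (adj_ev (adj_ev hev))
  have hD2 : Dec e pr c 4 (isl 2 a' ++ V) := hFa.2.1 e pr c 4 W _ hiso hD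
  obtain ⟨hDV, -, -, hp⟩ := hIsl.2.1 e pr c 4 2 a' V (by decide) hD2
  have hp' : a'.p ≠ e := by
    intro h
    have := hp.1 h
    omega
  have hpe : a'.p = !e := by
    revert hp'
    cases a'.p <;> cases e <;> simp
  have ht : a'.t = c 0 := by
    rcases hev' with ⟨h, -⟩ | ⟨-, h | h⟩
    · exact absurd h hp'
    · exact absurd (h.1.symm.trans hb) hne
    · exact h.2
  -- cut along the region `c 0`
  have hFa2 : Fa (c 0) c 4 (isl 2 a' ++ V) := hFa.2.2.1 (c 0) c 4 W _ hiso (hF _)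
  have hFaV : Fa (c 0) (isc 2 a' c) 8 V :=
    hIsl.2.2.1 (c 0) c 4 2 a' V (by decide) hV hFa2 hb (by rw [hb]; exact Ne.symm hne)
  have hrel : Rel V 0 4 := by
    refine hFa.2.2.2.1 (c 0) (isc 2 a' c) 8 V hV hDV.vl hFaV 0 4 (by decide) (by decide) ?_ ?_
    · simp [isc]
    · simp [isc, ht]
  obtain ⟨A, B, hA, hB, -, hAB⟩ := hSL.1 V 8 hV 0 4 (by decide) (by decide) hrel
  rw [shd_zero] at hAB
  have hisoW : PIso 4 W (isl 2 a' ++ (A ++ B)) := by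
    refine hiso.trans (PIso.left (k := 8) ?_ hAB)
    exact ⟨by show 2 + 0 ≤ 4; omega, by show 4 + 0 ≤ 6; omega, by show 3 + 2 ≤ 8; omega, rfl⟩
  have hD3 : Dec e pr c 4 (isl 2 a' ++ (A ++ B)) := hFa.2.1 e pr c 4 W _ hisoW hD
  -- forget the colours
  obtain ⟨-, hMpI, hMpF, -, -, hMpX⟩ := hMp
  obtain ⟨fapp, fsh, fok, fn, fx⟩ := hMpF (κ := κ)
  have hOA : Ok (fgt A) 4 0 := (fok A 4 0).1 hA
  have hOB : Ok (fgt B) 4 0 := (fok B 4 0).1 hB
  have hfisl : fgt (isl 2 a') = [pU 2, pU 4, pX 3 (!e)] := by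
    simp [fgt, isl, hpe]
  have hIW : Iso 4 (fgt W) ([pU 2, pU 4, pX 3 (!e)] ++ (fgt A ++ fgt B)) := by
    have := hMpI 4 W _ hisoW
    rwa [fapp, fapp, hfisl] at this
  refine ⟨fgt A, fgt B, hOA, hOB, ?_, ?_, ?_, ?_⟩
  · intro p i hpi
    obtain ⟨b, rfl, hb2⟩ := (fx A p i).1 hpi
    exact hD3.al i b (by simp [hb2])
  · intro p i hpi
    obtain ⟨b, rfl, hb2⟩ := (fx B p i).1 hpi
    exact hD3.al i b (by simp [hb2])
  · rw [fn, fn, fn, hMpX 4 W _ hisoW, adj2_nXd_append, adj2_nXd_append]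
    show nXd A + nXd B + 1 = 1 + (nXd A + nXd B)
    omega
  · have o23 : Ok [pU 2, pU 3] 2 6 := ⟨by decide, by decide, rfl⟩
    have h1 : Iso 2 ([pU 2, pU 3] ++ fgt W)
        ([pU 2, pU 3] ++ ([pU 2, pU 4, pX 3 (!e)] ++ (fgt A ++ fgt B))) :=
      Iso.left o23 (hIW.le (by decide))
    exact h1.trans (adj2_iso e (fgt A) (fgt B) hOA hOB)

end Pool.GEN
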