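import Pool.Agent.GEN.St

/-! # GEN: St_AK8, an alternating diagram whose bracket is a unit modulo `T 4 + 1` -/

set_option autoImplicit false

namespace Pool.GEN

open LaurentPolynomial Pool.Agent.ARB Pool.Agent.Helper2 Pool.ALT Pool.LSP Pool.LSG

/-- every set of edges contains a forest with the same span -/
theorem ak8_basis {V E : Type} [Finite V] [DecidableEq E] (g : Gr V E) (σ : Setoid V)
    (A : Finset E) : ∃ B ⊆ A, g.sp σ B = g.sp σ A ∧ nc (g.sp σ A) + B.card = nc σ := by
  induction A using Finset.induction_on with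
  | empty => exact ⟨∅, subset_rfl, rfl, by rw [Gr.sp_empty]; simp⟩
  | insert e A he ih =>
    obtain ⟨B, h1, h2, h3⟩ := ih
    by_cases h : g.sp σ A (g.u e) (g.v e)
    · exact ⟨B, h1.trans (Finset.subset_insert _ _), by rw [Gr.sp_insert_of g h, h2],
        by rw [Gr.sp_insert_of g h, h3]⟩
    · refine ⟨insert e B, Finset.insert_subset_insert _ h1,
        by rw [Gr.sp_insert, Gr.sp_insert, h2], ?_⟩
      rw [Finset.card_insert_of_notMem (fun h4 => he (h1 h4))]
      have := Gr.nc_sp_insert g h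
      omega

theorem ak8_loop : (loopVal : LP) = -T (-2) * (T 4 + 1) := by
  unfold loopVal
  rw [neg_mul, mul_add, ← T_add, mul_one]
  norm_num

/-- the state sum modulo `T 4 + 1` -/
theorem ak8_sum (s : ℤ) (n : ℕ) (l : Finset (Fin n) → ℕ) (c : ℕ)
    (hc : ∀ A : Finset (Fin n), l A = 0 → A.card = c) :
    ((T 4 : LP) + 1) ∣ DS s n l -
      (((Finset.univ.filter fun A : Finset (Fin n) => l A = 0).card : ℤ) : LP) *
        T (s * ((n : ℤ) - 2 * c)) := by
  classical
  have h1 : DS s n l - (((Finset.univ.filter fun A : Finset (Fin n) => l A = 0).card : ℤ) : LP) *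
        T (s * ((n : ℤ) - 2 * c)) =
      ∑ A : Finset (Fin n) with ¬ l A = 0,
        T (s * ((n : ℤ) - 2 * A.card)) * (loopVal : LP) ^ l A := by
    unfold DS
    rw [← Finset.sum_filter_add_sum_filter_not Finset.univ (fun A => l A = 0)]
    have h2 : ∑ A : Finset (Fin n) with l A = 0,
        T (s * ((n : ℤ) - 2 * A.card)) * (loopVal : LP) ^ l A =
        (((Finset.univ.filter fun A : Finset (Fin n) => l A = 0).card : ℤ) : LP) *
        T (s * ((n : ℤ) - 2 * c)) := by
      rw [Finset.sum_congr rfl (g := fun _ => (T (s * ((n : ℤ) - 2 * c)) : LP)) ?_]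
      · rw [Finset.sum_const, nsmul_eq_mul, Int.cast_natCast]
      · intro A hA
        rw [Finset.mem_filter] at hA
        rw [hA.2, hc A hA.2, pow_zero, mul_one]
    rw [h2]
    ring
  rw [h1]
  refine Finset.dvd_sum fun A hA => ?_
  rw [Finset.mem_filter] at hA
  refine Dvd.dvd.mul_left ?_ _
  obtain ⟨j, hj⟩ : ∃ j, l A = j + 1 := ⟨l A - 1, by have := hA.2; omega⟩
  rw [hj, pow_succ, ak8_loop]
  exact ⟨(-T (-2) * (T 4 + 1)) ^ j * (-T (-2)), by ring⟩

/-- [AK8] -/
theorem thm_AK8 (hU8 : St_U8) : St_AK8 := by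
  classical
  intro e w h ha hn hu
  by_contra hc
  push Not at hc
  obtain ⟨c1, c2⟩ := hc
  obtain ⟨k, t, hkt⟩ := exists_kt h
  have hp := mo_HP e w k t h ha hkt
  rw [br_DW h hp] at hu
  obtain ⟨l, hl⟩ : ∃ l : Finset (Fin (nX w)) → ℕ, l = fun A => k A + (t A).toNat := ⟨_, rfl⟩
  have h3 : DS (Pool.ALT.sg e) (nX w) l =
      (∑ A : Finset (Fin (nX w)) with ¬ t A = true,
        T (Pool.ALT.sg e * ((nX w : ℤ) - 2 * A.card)) * loopVal ^ k A) +
      loopVal * (∑ A : Finset (Fin (nX w)) with t A = true,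
        T (Pool.ALT.sg e * ((nX w : ℤ) - 2 * A.card)) * loopVal ^ k A) := by
    rw [hl]
    unfold DS
    rw [← Finset.sum_filter_add_sum_filter_not Finset.univ (fun A => t A = true),
      Finset.mul_sum, add_comm]
    congr 1
    · refine Finset.sum_congr rfl fun A hA => ?_
      rw [Finset.mem_filter] at hA
      have h4 : t A = false := by simpa using hA.2
      show T (Pool.ALT.sg e * ((nX w : ℤ) - 2 * A.card)) * loopVal ^ (k A + (t A).toNat) = _
      rw [h4]
      rfl
    · refine Finset.sum_congr rfl fun A hA => ?_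
      rw [Finset.mem_filter] at hA
      show T (Pool.ALT.sg e * ((nX w : ℤ) - 2 * A.card)) * loopVal ^ (k A + (t A).toNat) = _
      rw [hA.2, show (true : Bool).toNat = 1 from rfl, pow_succ]
      ring
  have hU : U8 (DS (Pool.ALT.sg e) (nX w) l) := by
    rw [h3]
    exact hu
  -- numbers of classes with the marked vertices joined
  have hN : ∀ A : Finset (Fin (nX w)), nc ((gE w h).sp ⊥ A) + (t A).toNat =
      nc ((gE w h).sp ⊥ A ⊔ (gE w h).ab) + 1 := by
    intro A
    obtain ⟨-, h7, -⟩ := mo_CT w h A _ _ (hkt A)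
    cases ht : t A with
    | true =>
      have h5 : (gE w h).sp ⊥ A ⊔ (gE w h).ab = (gE w h).sp ⊥ A := sup_pr_of _ (h7.2 ht)
      rw [h5]
      rfl
    | false =>
      have h4 : ¬ (gE w h).sp ⊥ A (gE w h).a (gE w h).b := by
        intro h5
        rw [h7.1 h5] at ht
        exact absurd ht (by decide)
      exact (nc_sup_pr h4).symm
  obtain ⟨V, hV⟩ : ∃ V, V = Fintype.card (Reg true w) := ⟨_, rfl⟩
  obtain ⟨κ, hκ⟩ : ∃ κ, κ = nc ((gO w h).sp ⊥ Finset.univ ⊔ (gO w h).ab) := ⟨_, rfl⟩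
  have hnE : Nonempty (Reg true w) := ⟨(gE w h).a⟩
  have hnO : Nonempty (Reg false w) := ⟨(gO w h).a⟩
  have hκ1 : 1 ≤ κ := by
    rw [hκ]
    exact nc_pos _
  -- the number of loops
  have hL : ∀ A : Finset (Fin (nX w)), l A + V + 1 =
      2 * nc ((gE w h).sp ⊥ A ⊔ (gE w h).ab) + A.card + κ := by
    intro A
    obtain ⟨p1, p2, p3⟩ := k_eq h (hkt A)
    have p4 := hN A
    rw [← hV, ← hκ] at p3
    rw [hl]
    show k A + (t A).toNat + V + 1 = _
    omega
  have hab : V ≤ nc (gE w h).ab + 1 := by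
    have h4 := nc_sup_pr_le (⊥ : Setoid (Reg true w)) (gE w h).a (gE w h).b
    rw [bot_sup_eq, nc_bot, Nat.card_eq_fintype_card, ← hV] at h4
    exact h4
  have hsp : ∀ A : Finset (Fin (nX w)), (gE w h).sp ⊥ A ⊔ (gE w h).ab =
      (gE w h).sp (gE w h).ab A := by
    intro A
    have h4 := (gE w h).sp_sup ⊥ (gE w h).ab A
    rw [bot_sup_eq] at h4
    exact h4.symm
  have hrk : ∀ A : Finset (Fin (nX w)),
      nc (gE w h).ab ≤ nc ((gE w h).sp ⊥ A ⊔ (gE w h).ab) + A.card := by
    intro A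
    rw [hsp]
    exact (gE w h).nc_le_add_card _ _
  have hν : ∀ A : Finset (Fin (nX w)), 1 ≤ nc ((gE w h).sp ⊥ A ⊔ (gE w h).ab) := fun A =>
    nc_pos _
  have hzero : ∀ A : Finset (Fin (nX w)), l A = 0 →
      nc ((gE w h).sp ⊥ A ⊔ (gE w h).ab) = 1 ∧ κ = 1 ∧ A.card + 2 = V ∧
        nc (gE w h).ab + 1 = V := by
    intro A hA
    have h4 := hL A
    have h5 := hrk A
    have h6 := hν A
    omega
  -- there is exactly one set without loops
  have hm : (Finset.univ.filter fun A : Finset (Fin (nX w)) => l A = 0).card = 1 := by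
    have h4 := ak8_sum (Pool.ALT.sg e) (nX w) l (V - 2) (fun A hA => by
      have := (hzero A hA).2.2.1
      omega)
    obtain ⟨s', hs'⟩ := hU
    have h5 : U8 ((((Finset.univ.filter fun A : Finset (Fin (nX w)) => l A = 0).card : ℤ) : LP) *
        T (Pool.ALT.sg e * ((nX w : ℤ) - 2 * ((V - 2 : ℕ) : ℤ)))) := by
      refine ⟨s', ?_⟩
      have h6 := dvd_sub hs' (h4.mul_right s')
      have e1 : ∀ x y z : LP, y * z - 1 = (x * z - 1) - (x - y) * z := fun x y z => by ring
      rw [e1 (DS (Pool.ALT.sg e) (nX w) l)]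
      exact h6
    have h6 := (hU8.2.1 _ _ h5).1
    have h7 := hU8.2.2.2.1 _ h6
    omega
  rw [Finset.card_eq_one] at hm
  obtain ⟨A₀, hA₀⟩ := hm
  have hl0 : l A₀ = 0 := by
    have h4 : A₀ ∈ Finset.univ.filter fun A : Finset (Fin (nX w)) => l A = 0 := by
      rw [hA₀]
      exact Finset.mem_singleton_self _
    exact (Finset.mem_filter.1 h4).2
  have huniq : ∀ A : Finset (Fin (nX w)), l A = 0 → A = A₀ := by
    intro A hA
    have h4 : A ∈ Finset.univ.filter fun A : Finset (Fin (nX w)) => l A = 0 :=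
      Finset.mem_filter.2 ⟨Finset.mem_univ _, hA⟩
    rw [hA₀] at h4
    exact Finset.mem_singleton.1 h4
  obtain ⟨z1, z2, z3, z4⟩ := hzero A₀ hl0
  by_cases huni : A₀ = Finset.univ
  · -- remove an edge
    rw [huni] at hl0
    obtain ⟨x⟩ : Nonempty (Fin (nX w)) := ⟨⟨0, by omega⟩⟩
    obtain ⟨A, hA⟩ : ∃ A : Finset (Fin (nX w)), A = Finset.univ \ {x} := ⟨_, rfl⟩
    have hAx : Finset.univ \ A = {x} := by
      rw [hA, Finset.sdiff_sdiff_eq_self (Finset.subset_univ _)]
    have hins : insert x A = Finset.univ := by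
      rw [hA]
      ext y
      simp
    obtain ⟨q1, q2, q3⟩ := k_eq h (hkt Finset.univ)
    rw [Finset.sdiff_self, Gr.sp_empty] at q1 q2
    rw [bot_sup_eq] at q2
    obtain ⟨p1, p2, p3⟩ := k_eq h (hkt A)
    rw [hAx] at p1 p2
    rw [hl] at hl0
    have hl0' : k Finset.univ + (t Finset.univ).toNat = 0 := hl0
    -- the marked vertices of the dual graph are equal
    have habO : (gO w h).ab = ⊥ := by
      refine (eq_of_le_of_nc bot_le ?_).symm
      omega
    have h5 : (t A).toNat = 0 := by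
      rw [habO, sup_bot_eq] at p2
      omega
    have h6 : nc ((gO w h).sp ⊥ {x}) + 1 = nc (⊥ : Setoid (Reg false w)) := by
      have h7 := (gO w h).nc_sp_insert (σ := ⊥) (e := x) (A := ∅) (by
        rw [Gr.sp_empty]
        exact c2 x)
      rw [Gr.sp_empty] at h7
      exact h7
    have h7 : nc ((gE w h).sp ⊥ A) ≤ nc ((gE w h).sp ⊥ Finset.univ) + 1 := by
      rw [← hins, Gr.sp_insert]
      exact nc_sup_pr_le _ _ _
    have h8 : l A = 0 := by
      rw [hl]
      show k A + (t A).toNat = 0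
      omega
    have h9 := huniq A h8
    rw [huni, hA] at h9
    have h10 : x ∈ (Finset.univ : Finset (Fin (nX w))) \ {x} := by
      rw [h9]
      exact Finset.mem_univ _
    simp at h10
  · -- exchange an edge
    obtain ⟨x, hx⟩ : ∃ x, x ∉ A₀ := by
      by_contra h4
      push Not at h4
      exact huni (Finset.eq_univ_of_forall h4)
    have hxab : ¬ (gE w h).ab ((gE w h).u x) ((gE w h).v x) := by
      rintro (h6 | ⟨h6, h7⟩ | ⟨h6, h7⟩)
      · exact (c1 x).1 h6
      · exact (c1 x).2 (Or.inl ⟨h6, h7⟩)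
      · exact (c1 x).2 (Or.inr ⟨h6, h7⟩)
    have h4 := nc_sup_pr hxab
    obtain ⟨B, hB1, hB2, hB3⟩ := ak8_basis (gE w h) ((gE w h).ab ⊔ (gE w h).pe x) A₀
    have h5 : nc ((gE w h).sp ((gE w h).ab ⊔ (gE w h).pe x) A₀) = 1 := by
      apply le_antisymm
      · rw [← z1, hsp]
        exact nc_anti ((gE w h).sp_mono le_sup_left subset_rfl)
      · exact nc_pos _
    have hxB : x ∉ B := fun h6 => hx (hB1 h6)
    have h6 : (gE w h).sp ⊥ (insert x B) ⊔ (gE w h).ab =
        (gE w h).sp ((gE w h).ab ⊔ (gE w h).pe x) B := by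
      rw [hsp, Gr.sp_insert']
    have h7 : l (insert x B) = 0 := by
      have h8 := hL (insert x B)
      rw [h6, hB2, h5, Finset.card_insert_of_notMem hxB] at h8
      rw [h5] at hB3
      have h9 : nc ((gE w h).ab ⊔ (gE w h).pe x) + 1 = nc (gE w h).ab := h4
      omega
    have h8 := huniq _ h7
    exact hx (by rw [← h8]; exact Finset.mem_insert_self _ _)

end Pool.GEN
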