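import Pool.Agent.GEN.St

/-!
# GEN: module BR2 (canonical colourings from the graphs `gE`, `gO`)
-/

set_option autoImplicit false

namespace Pool.GEN

open LaurentPolynomial Pool.Agent.ARB Pool.Agent.Helper2 Pool.ALT Pool.LSP Pool.LSG

/-! ### undecorated words -/

private theorem br_ok {κ : Type} : ∀ (u : Wd (Cr κ)) (n m : ℕ), Okd u n m ↔ Ok (fgt u) n m
  | [], _, _ => Iff.rfl
  | ⟨.U, i⟩ :: u, n, m => by
      show i + 0 ≤ n ∧ Okd u (n - 0 + 2) m ↔ i + 0 ≤ n ∧ Ok (fgt u) (n - 0 + 2) m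
      rw [br_ok u]
  | ⟨.N, i⟩ :: u, n, m => by
      show i + 2 ≤ n ∧ Okd u (n - 2 + 0) m ↔ i + 2 ≤ n ∧ Ok (fgt u) (n - 2 + 0) m
      rw [br_ok u]
  | ⟨.X a, i⟩ :: u, n, m => by
      show i + 2 ≤ n ∧ Okd u (n - 2 + 2) m ↔ i + 2 ≤ n ∧ Ok (fgt u) (n - 2 + 2) m
      rw [br_ok u]

private theorem br_mem {κ : Type} {W : Wd (Cr κ)} {i : ℕ} {a : Cr κ} (h : cX i a ∈ W) :
    pX i a.p ∈ fgt W := by
  unfold fgt
  exact List.mem_map.2 ⟨_, h, rfl⟩

private theorem br_fgt_mp {κ κ' : Type} (g : κ → κ') : ∀ W : Wd (Cr κ),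
    fgt (mp (Cr.map g) W) = fgt W
  | [] => rfl
  | ⟨.U, i⟩ :: W => by
      show pU i :: fgt (mp (Cr.map g) W) = pU i :: fgt W
      rw [br_fgt_mp g W]
  | ⟨.N, i⟩ :: W => by
      show pN i :: fgt (mp (Cr.map g) W) = pN i :: fgt W
      rw [br_fgt_mp g W]
  | ⟨.X a, i⟩ :: W => by
      show pX i a.p :: fgt (mp (Cr.map g) W) = pX i a.p :: fgt W
      rw [br_fgt_mp g W]

/-! ### functions on the local regions -/

/-- `f` is constant on the regions -/
private def br_Rs {κ : Type} (n : ℕ) (w : Word) (f : Pool.ALT.Loc n w → κ) : Prop :=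
  ∀ x y, R0 n w x y → f x = f y

private theorem br_Rs_tail {κ : Type} {n : ℕ} {s : Piece} {w : Word}
    {f : Pool.ALT.Loc n (s :: w) → κ} (h : br_Rs n (s :: w) f) :
    br_Rs (n - s.k.inn + s.k.out) w (fun x => f (Sum.inr x)) :=
  fun x y hxy => h _ _ (Or.inr ⟨x, y, rfl, rfl, hxy⟩)

private theorem br_Rs_gl {κ : Type} {n : ℕ} {s : Piece} {w : Word}
    {f : Pool.ALT.Loc n (s :: w) → κ} (h : br_Rs n (s :: w) f) {j j' : ℕ} (hj : j ≤ n)
    (hj' : j' ≤ n - s.k.inn + s.k.out) (hg : gl s j j') :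
    f (bo n (s :: w) j) = f (Sum.inr (bo (n - s.k.inn + s.k.out) w j')) :=
  h _ _ (Or.inl ⟨j, j', hj, hj', hg, rfl, rfl⟩)

/-- extension by one piece -/
private def br_ext {κ : Type} {n : ℕ} (s : Piece) (w : Word) (c : ℕ → κ)
    (f : Pool.ALT.Loc (n - s.k.inn + s.k.out) w → κ) : Pool.ALT.Loc n (s :: w) → κ :=
  Sum.elim (fun j : Fin (n + 1) => c j.val) f

private theorem br_ext_bo {κ : Type} {n : ℕ} (s : Piece) (w : Word) (c : ℕ → κ)
    (f : Pool.ALT.Loc (n - s.k.inn + s.k.out) w → κ) {j : ℕ} (hj : j ≤ n) :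
    br_ext s w c f (bo n (s :: w) j) = c j := by
  show c (Fin.ofNat (n + 1) j).val = c j
  rw [Fin.val_ofNat, Nat.mod_eq_of_lt (show j < n + 1 by omega)]

private theorem br_Rs_ext {κ : Type} {n : ℕ} {s : Piece} {w : Word} {c : ℕ → κ}
    {f : Pool.ALT.Loc (n - s.k.inn + s.k.out) w → κ}
    (h : br_Rs (n - s.k.inn + s.k.out) w f)
    (hc : ∀ j j', j ≤ n → j' ≤ n - s.k.inn + s.k.out → gl s j j' →
      c j = f (bo (n - s.k.inn + s.k.out) w j')) :
    br_Rs n (s :: w) (br_ext s w c f) := by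
  rintro x y (⟨j, j', hj, hj', hg, rfl, rfl⟩ | ⟨x', y', rfl, rfl, hxy⟩)
  · have h1 := hc j j' hj hj' hg
    have h2 := br_ext_bo s w c f hj
    exact h2.trans h1
  · exact h x' y' hxy

private theorem br_gs {n : ℕ} {w : Word} {x y : Pool.ALT.Loc n w} (h : R0 n w x y) :
    gs n w x y :=
  (pr_le_iff x y (gs n w)).1 (le_iSup_of_le x (le_iSup_of_le y (le_iSup_of_le h le_rfl)))

private theorem br_ker {κ : Type} {n : ℕ} {w : Word} {f : Pool.ALT.Loc n w → κ}
    (h : br_Rs n w f) {x y : Pool.ALT.Loc n w} (hxy : gs n w x y) : f x = f y := by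
  have h1 : gs n w ≤ Setoid.ker f :=
    iSup_le fun x => iSup_le fun y => iSup_le fun h0 => (pr_le_iff _ _ _).2 (h x y h0)
  exact h1 hxy

/-! ### decorated words -/

/-- the word `w`, the corners of its crossings coloured by `f` -/
private noncomputable def br_dec {κ : Type} : (n : ℕ) → (w : Word) → (Pool.ALT.Loc n w → κ) →
    Wd (Cr κ)
  | _, [], _ => []
  | n, ⟨.U, i⟩ :: w, f => cU i :: br_dec (n - 0 + 2) w (fun x => f (Sum.inr x))
  | n, ⟨.N, i⟩ :: w, f => cN i :: br_dec (n - 2 + 0) w (fun x => f (Sum.inr x))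
  | n, ⟨.X p, i⟩ :: w, f => cX i ⟨p, f (bo n (⟨.X p, i⟩ :: w) i),
      f (bo n (⟨.X p, i⟩ :: w) (i + 1)), f (bo n (⟨.X p, i⟩ :: w) (i + 2)),
      f (Sum.inr (bo (n - 2 + 2) w (i + 1)))⟩ :: br_dec (n - 2 + 2) w (fun x => f (Sum.inr x))

private theorem br_fgt {κ : Type} : ∀ (w : Word) (n : ℕ) (f : Pool.ALT.Loc n w → κ),
    fgt (br_dec n w f) = w
  | [], _, _ => rfl
  | ⟨.U, i⟩ :: w, n, f => by
      show pU i :: fgt (br_dec (n - 0 + 2) w (fun x => f (Sum.inr x))) = pU i :: w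
      rw [br_fgt w]
  | ⟨.N, i⟩ :: w, n, f => by
      show pN i :: fgt (br_dec (n - 2 + 0) w (fun x => f (Sum.inr x))) = pN i :: w
      rw [br_fgt w]
  | ⟨.X p, i⟩ :: w, n, f => by
      show pX i p :: fgt (br_dec (n - 2 + 2) w (fun x => f (Sum.inr x))) = pX i p :: w
      rw [br_fgt w]

/-- a function on the regions is a colouring -/
private theorem br_A {κ : Type} : ∀ (w : Word) (n m : ℕ) (f : Pool.ALT.Loc n w → κ),
    Ok w n m → br_Rs n w f →
    Va Pd (fun j => f (bo n w (min j n))) (br_dec n w f) (fun j => f (tp n w (min j m)))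
  | [], n, m, f, h, _ => by
      have h' : n = m := h
      subst h'
      rfl
  | ⟨.U, i⟩ :: w, n, m, f, h, hf => by
      have hi : i + 0 ≤ n := h.1
      have ih := br_A w (n - 0 + 2) m (fun x => f (Sum.inr x)) h.2 (br_Rs_tail hf)
      refine ⟨f (Sum.inr (bo (n - 0 + 2) w (i + 1))), ?_⟩
      have e : insC i (f (Sum.inr (bo (n - 0 + 2) w (i + 1))))
          (fun j => f (bo n (⟨.U, i⟩ :: w) (min j n))) =
          fun j => f (Sum.inr (bo (n - 0 + 2) w (min j (n - 0 + 2)))) := by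
        funext j
        show (if j ≤ i then _ else if j = i + 1 then _ else _) = _
        split_ifs with h1 h2
        · have e1 : min j n = j := by omega
          have e2 : min j (n - 0 + 2) = j := by omega
          show f (bo n (⟨.U, i⟩ :: w) (min j n)) = _
          rw [e1, e2]
          exact br_Rs_gl hf (by omega) (by show j ≤ n - 0 + 2; omega) (Or.inl ⟨h1, rfl⟩)
        · subst h2
          have e2 : min (i + 1) (n - 0 + 2) = i + 1 := by omega
          rw [e2]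
        · have e2 : min j (n - 0 + 2) = min (j - 2) n + 2 := by omega
          show f (bo n (⟨.U, i⟩ :: w) (min (j - 2) n)) = _
          rw [e2]
          exact br_Rs_gl hf (by omega) (by show min (j - 2) n + 2 ≤ n - 0 + 2; omega)
            (Or.inr ⟨by show i ≤ min (j - 2) n; omega, rfl⟩)
      rw [e]
      exact ih
  | ⟨.N, i⟩ :: w, n, m, f, h, hf => by
      have hi : i + 2 ≤ n := h.1
      have ih := br_A w (n - 2 + 0) m (fun x => f (Sum.inr x)) h.2 (br_Rs_tail hf)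
      refine ⟨?_, ?_⟩
      · show f (bo n (⟨.N, i⟩ :: w) (min i n)) = f (bo n (⟨.N, i⟩ :: w) (min (i + 2) n))
        have e1 : min i n = i := by omega
        have e2 : min (i + 2) n = i + 2 := by omega
        rw [e1, e2]
        exact (br_Rs_gl hf (j' := i) (by omega) (by show i ≤ n - 2 + 0; omega)
          (Or.inl ⟨le_rfl, rfl⟩)).trans (br_Rs_gl hf (j := i + 2) (j' := i) (by omega)
          (by show i ≤ n - 2 + 0; omega) (Or.inr ⟨le_rfl, rfl⟩)).symm
      · have e : delC i (fun j => f (bo n (⟨.N, i⟩ :: w) (min j n))) =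
            fun j => f (Sum.inr (bo (n - 2 + 0) w (min j (n - 2 + 0)))) := by
          funext j
          show (if j ≤ i then _ else _) = _
          split_ifs with h1
          · have e1 : min j n = j := by omega
            have e2 : min j (n - 2 + 0) = j := by omega
            show f (bo n (⟨.N, i⟩ :: w) (min j n)) = _
            rw [e1, e2]
            exact br_Rs_gl hf (by omega) (by show j ≤ n - 2 + 0; omega) (Or.inl ⟨h1, rfl⟩)
          · have e1 : min (j + 2) n = min j (n - 2 + 0) + 2 := by omega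
            show f (bo n (⟨.N, i⟩ :: w) (min (j + 2) n)) = _
            rw [e1]
            exact br_Rs_gl hf (by omega) (by show min j (n - 2 + 0) ≤ n - 2 + 0; omega)
              (Or.inr ⟨by show i ≤ min j (n - 2 + 0); omega, rfl⟩)
        rw [e]
        exact ih
  | ⟨.X p, i⟩ :: w, n, m, f, h, hf => by
      have hi : i + 2 ≤ n := h.1
      have ih := br_A w (n - 2 + 2) m (fun x => f (Sum.inr x)) h.2 (br_Rs_tail hf)
      refine ⟨f (Sum.inr (bo (n - 2 + 2) w (i + 1))), ⟨?_, ?_, ?_, rfl⟩, ?_⟩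
      · show f (bo n (⟨.X p, i⟩ :: w) i) = f (bo n (⟨.X p, i⟩ :: w) (min i n))
        rw [show min i n = i by omega]
      · show f (bo n (⟨.X p, i⟩ :: w) (i + 1)) = f (bo n (⟨.X p, i⟩ :: w) (min (i + 1) n))
        rw [show min (i + 1) n = i + 1 by omega]
      · show f (bo n (⟨.X p, i⟩ :: w) (i + 2)) = f (bo n (⟨.X p, i⟩ :: w) (min (i + 2) n))
        rw [show min (i + 2) n = i + 2 by omega]
      · have e : updC (i + 1) (f (Sum.inr (bo (n - 2 + 2) w (i + 1))))
            (fun j => f (bo n (⟨.X p, i⟩ :: w) (min j n))) =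
            fun j => f (Sum.inr (bo (n - 2 + 2) w (min j (n - 2 + 2)))) := by
          funext j
          show (if j = i + 1 then _ else _) = _
          split_ifs with h1
          · subst h1
            rw [show min (i + 1) (n - 2 + 2) = i + 1 by omega]
          · rw [show min j (n - 2 + 2) = min j n by omega]
            exact br_Rs_gl hf (by omega) (by show min j n ≤ n - 2 + 2; omega)
              ⟨rfl, by show min j n ≠ i + 1; omega⟩
        rw [e]
        exact ih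

/-- every colouring is given by a function on the regions -/
private theorem br_B {κ : Type} : ∀ (w : Word) (n m : ℕ) (W : Wd (Cr κ)) (c c' : ℕ → κ),
    Ok w n m → fgt W = w → Va Pd c W c' →
    ∃ f : Pool.ALT.Loc n w → κ, br_Rs n w f ∧ br_dec n w f = W ∧ ∀ j ≤ n, f (bo n w j) = c j
  | [], n, m, W, c, c', _, hW, _ => by
      have h1 : W = [] := List.map_eq_nil_iff.1 hW
      subst h1
      refine ⟨fun j : Fin (n + 1) => c j.val, fun x y h => h.elim, rfl, fun j hj => ?_⟩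
      show c (Fin.ofNat (n + 1) j).val = c j
      rw [Fin.val_ofNat, Nat.mod_eq_of_lt (show j < n + 1 by omega)]
  | s :: w, n, m, W, c, c', h, hW, hV => by
      match W, hW, hV with
      | [], hW, _ => exact absurd hW (List.cons_ne_nil _ _).symm
      | ⟨.U, i⟩ :: W, hW, hV =>
        have hs : pU i = s := (List.cons.inj hW).1
        have hW' : fgt W = w := (List.cons.inj hW).2
        subst hs
        obtain ⟨t, hV⟩ := hV
        have hi : i + 0 ≤ n := h.1
        obtain ⟨f, h1, h2, h3⟩ := br_B w (n - 0 + 2) m W _ c' h.2 hW' hV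
        refine ⟨br_ext (pU i) w c f, br_Rs_ext h1 ?_, ?_, fun j hj => br_ext_bo _ _ _ _ hj⟩
        · intro j j' hj hj' hg
          have h4 := h3 j' hj'
          refine Eq.trans ?_ h4.symm
          show c j = (if j' ≤ i then c j' else if j' = i + 1 then t else c (j' - 2))
          rcases hg with ⟨h5, h6⟩ | ⟨h5, h6⟩
          · have h5' : j ≤ i := h5
            subst h6
            rw [if_pos h5']
          · have h5' : i ≤ j := h5
            subst h6
            rw [if_neg (by omega), if_neg (by omega), show j + 2 - 2 = j by omega]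
        · show cU i :: br_dec (n - 0 + 2) w f = _
          rw [h2]
      | ⟨.N, i⟩ :: W, hW, hV =>
        have hs : pN i = s := (List.cons.inj hW).1
        have hW' : fgt W = w := (List.cons.inj hW).2
        subst hs
        obtain ⟨hc, hV⟩ := hV
        have hi : i + 2 ≤ n := h.1
        obtain ⟨f, h1, h2, h3⟩ := br_B w (n - 2 + 0) m W _ c' h.2 hW' hV
        refine ⟨br_ext (pN i) w c f, br_Rs_ext h1 ?_, ?_, fun j hj => br_ext_bo _ _ _ _ hj⟩
        · intro j j' hj hj' hg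
          have h4 := h3 j' hj'
          refine Eq.trans ?_ h4.symm
          show c j = (if j' ≤ i then c j' else c (j' + 2))
          rcases hg with ⟨h5, h6⟩ | ⟨h5, h6⟩
          · have h5' : j' ≤ i := h5
            subst h6
            rw [if_pos h5']
          · have h5' : i ≤ j' := h5
            subst h6
            by_cases h7 : j' ≤ i
            · have h8 : j' = i := by omega
              subst h8
              rw [if_pos le_rfl, hc]
            · rw [if_neg h7]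
        · show cN i :: br_dec (n - 2 + 0) w f = _
          rw [h2]
      | ⟨.X a, i⟩ :: W, hW, hV =>
        have hs : pX i a.p = s := (List.cons.inj hW).1
        have hW' : fgt W = w := (List.cons.inj hW).2
        subst hs
        obtain ⟨t, hP, hV⟩ := hV
        have hi : i + 2 ≤ n := h.1
        obtain ⟨f, h1, h2, h3⟩ := br_B w (n - 2 + 2) m W _ c' h.2 hW' hV
        refine ⟨br_ext (pX i a.p) w c f, br_Rs_ext h1 ?_, ?_, fun j hj => br_ext_bo _ _ _ _ hj⟩
        · intro j j' hj hj' hg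
          have h4 := h3 j' hj'
          refine Eq.trans ?_ h4.symm
          obtain ⟨h5, h6⟩ := hg
          have h6' : j ≠ i + 1 := h6
          subst h5
          show c j = (if j = i + 1 then t else c j)
          rw [if_neg h6']
        · have e1 := br_ext_bo (pX i a.p) w c f (j := i) (by omega)
          have e2 := br_ext_bo (pX i a.p) w c f (j := i + 1) (by omega)
          have e3 := br_ext_bo (pX i a.p) w c f (j := i + 2) (by omega)
          have e4 : f (bo (n - 2 + 2) w (i + 1)) = t := by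
            rw [h3 (i + 1) (by omega)]
            show (if i + 1 = i + 1 then t else c (i + 1)) = t
            rw [if_pos rfl]
          obtain ⟨p, l, b, r, t'⟩ := a
          obtain ⟨h5, h6, h7, h8⟩ := hP
          show cX i ⟨p, br_ext (pX i p) w c f (bo n (pX i p :: w) i),
            br_ext (pX i p) w c f (bo n (pX i p :: w) (i + 1)),
            br_ext (pX i p) w c f (bo n (pX i p :: w) (i + 2)),
            f (bo (n - 2 + 2) w (i + 1))⟩ :: br_dec (n - 2 + 2) w f = _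
          rw [h2, e4]
          have h5' : l = c i := h5
          have h6' : b = c (i + 1) := h6
          have h7' : r = c (i + 2) := h7
          have h8' : t' = t := h8
          subst h5' h6' h7' h8'
          have e1' : br_ext (pX i p) w c f (bo n (pX i p :: w) i) = c i := e1
          have e2' : br_ext (pX i p) w c f (bo n (pX i p :: w) (i + 1)) = c (i + 1) := e2
          have e3' : br_ext (pX i p) w c f (bo n (pX i p :: w) (i + 2)) = c (i + 2) := e3
          rw [e1', e2', e3']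

/-! ### letters -/

private theorem br_Lt_cons {α : Type} {a : α} {s : Pc α} {W : Wd α} (h : Lt a W) :
    Lt a (s :: W) := by
  obtain ⟨i, hi⟩ := h
  exact ⟨i, List.mem_cons_of_mem _ hi⟩

private theorem br_alt {e : Bool} {s : Piece} {w : Word} (h : AltW e (s :: w)) : AltW e w :=
  fun p i hp => h p i (List.mem_cons_of_mem _ hp)

/-- the corners of the letter `k` -/
private theorem br_C {κ : Type} (e : Bool) : ∀ (w : Word) (n : ℕ) (f : Pool.ALT.Loc n w → κ),
    AltW e w → ∀ k : Fin (nX w), ∃ a, Lt a (br_dec n w f) ∧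
      Ev e a (f (ed true n w k).1) (f (ed true n w k).2) ∧
      Ev (!e) a (f (ed false n w k).1) (f (ed false n w k).2)
  | [], _, _, _, k => k.elim0
  | ⟨.U, i⟩ :: w, n, f, hA, k => by
      obtain ⟨a, h1, h2⟩ := br_C e w (n - 0 + 2) (fun x => f (Sum.inr x)) (br_alt hA) k
      exact ⟨a, br_Lt_cons h1, h2⟩
  | ⟨.N, i⟩ :: w, n, f, hA, k => by
      obtain ⟨a, h1, h2⟩ := br_C e w (n - 2 + 0) (fun x => f (Sum.inr x)) (br_alt hA) k
      exact ⟨a, br_Lt_cons h1, h2⟩
  | ⟨.X p, i⟩ :: w, n, f, hA, k => by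
      refine Fin.cases ?_ (fun k' => ?_) k
      · have hp : p = e ↔ i % 2 = 0 := hA p i List.mem_cons_self
        refine ⟨_, ⟨i, List.mem_cons_self⟩, ?_, ?_⟩
        · show Ev e _ (f (if decide (i % 2 = 0) = true then
            (bo n (⟨.X p, i⟩ :: w) i, bo n (⟨.X p, i⟩ :: w) (i + 2))
            else (bo n (⟨.X p, i⟩ :: w) (i + 1), Sum.inr (bo (n - 2 + 2) w (i + 1)))).1)
            (f (if decide (i % 2 = 0) = true then
            (bo n (⟨.X p, i⟩ :: w) i, bo n (⟨.X p, i⟩ :: w) (i + 2))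
            else (bo n (⟨.X p, i⟩ :: w) (i + 1), Sum.inr (bo (n - 2 + 2) w (i + 1)))).2)
          by_cases hi : i % 2 = 0
          · rw [if_pos (decide_eq_true hi)]
            exact Or.inl ⟨hp.2 hi, Or.inl ⟨rfl, rfl⟩⟩
          · rw [if_neg (by simpa using hi)]
            exact Or.inr ⟨fun h => hi (hp.1 h), Or.inl ⟨rfl, rfl⟩⟩
        · show Ev (!e) _ (f (if decide (i % 2 = 0) = false then
            (bo n (⟨.X p, i⟩ :: w) i, bo n (⟨.X p, i⟩ :: w) (i + 2))
            else (bo n (⟨.X p, i⟩ :: w) (i + 1), Sum.inr (bo (n - 2 + 2) w (i + 1)))).1)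
            (f (if decide (i % 2 = 0) = false then
            (bo n (⟨.X p, i⟩ :: w) i, bo n (⟨.X p, i⟩ :: w) (i + 2))
            else (bo n (⟨.X p, i⟩ :: w) (i + 1), Sum.inr (bo (n - 2 + 2) w (i + 1)))).2)
          by_cases hi : i % 2 = 0
          · have h1 : p = e := hp.2 hi
            rw [if_neg (by simpa using hi)]
            refine Or.inr ⟨?_, Or.inl ⟨rfl, rfl⟩⟩
            show p ≠ !e
            rw [h1]
            cases e <;> decide
          · have h1 : p ≠ e := fun h => hi (hp.1 h)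
            rw [if_pos (by simpa using hi)]
            refine Or.inl ⟨?_, Or.inl ⟨rfl, rfl⟩⟩
            show p = !e
            cases p <;> cases e <;> simp_all
      · obtain ⟨a, h1, h2⟩ := br_C e w (n - 2 + 2) (fun x => f (Sum.inr x)) (br_alt hA) k'
        exact ⟨a, br_Lt_cons h1, h2⟩

/-- every letter comes from some `k` -/
private theorem br_Cr {κ : Type} (e : Bool) : ∀ (w : Word) (n : ℕ) (f : Pool.ALT.Loc n w → κ),
    AltW e w → ∀ a, Lt a (br_dec n w f) → ∃ k : Fin (nX w),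
      Ev e a (f (ed true n w k).1) (f (ed true n w k).2) ∧
      Ev (!e) a (f (ed false n w k).1) (f (ed false n w k).2)
  | [], _, _, _, a, h => by
      obtain ⟨i, hi⟩ := h
      exact absurd hi List.not_mem_nil
  | ⟨.U, i⟩ :: w, n, f, hA, a, h => by
      obtain ⟨i', hi'⟩ := h
      rcases List.mem_cons.1 hi' with h1 | h1
      · exact absurd (congrArg Pc.k h1) (by intro h2; cases h2)
      · exact br_Cr e w (n - 0 + 2) (fun x => f (Sum.inr x)) (br_alt hA) a ⟨i', h1⟩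
  | ⟨.N, i⟩ :: w, n, f, hA, a, h => by
      obtain ⟨i', hi'⟩ := h
      rcases List.mem_cons.1 hi' with h1 | h1
      · exact absurd (congrArg Pc.k h1) (by intro h2; cases h2)
      · exact br_Cr e w (n - 2 + 0) (fun x => f (Sum.inr x)) (br_alt hA) a ⟨i', h1⟩
  | ⟨.X p, i⟩ :: w, n, f, hA, a, h => by
      obtain ⟨i', hi'⟩ := h
      rcases List.mem_cons.1 hi' with h1 | h1
      · have h2 : a = ⟨p, f (bo n (⟨.X p, i⟩ :: w) i), f (bo n (⟨.X p, i⟩ :: w) (i + 1)),
            f (bo n (⟨.X p, i⟩ :: w) (i + 2)), f (Sum.inr (bo (n - 2 + 2) w (i + 1)))⟩ := by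
          have h3 := congrArg Pc.k h1
          injection h3
        subst h2
        refine ⟨⟨0, Nat.succ_pos _⟩, ?_⟩
        have hp : p = e ↔ i % 2 = 0 := hA p i List.mem_cons_self
        refine ⟨?_, ?_⟩
        · show Ev e _ (f (if decide (i % 2 = 0) = true then
            (bo n (⟨.X p, i⟩ :: w) i, bo n (⟨.X p, i⟩ :: w) (i + 2))
            else (bo n (⟨.X p, i⟩ :: w) (i + 1), Sum.inr (bo (n - 2 + 2) w (i + 1)))).1)
            (f (if decide (i % 2 = 0) = true then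
            (bo n (⟨.X p, i⟩ :: w) i, bo n (⟨.X p, i⟩ :: w) (i + 2))
            else (bo n (⟨.X p, i⟩ :: w) (i + 1), Sum.inr (bo (n - 2 + 2) w (i + 1)))).2)
          by_cases hi : i % 2 = 0
          · rw [if_pos (decide_eq_true hi)]
            exact Or.inl ⟨hp.2 hi, Or.inl ⟨rfl, rfl⟩⟩
          · rw [if_neg (by simpa using hi)]
            exact Or.inr ⟨fun h => hi (hp.1 h), Or.inl ⟨rfl, rfl⟩⟩
        · show Ev (!e) _ (f (if decide (i % 2 = 0) = false then
            (bo n (⟨.X p, i⟩ :: w) i, bo n (⟨.X p, i⟩ :: w) (i + 2))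
            else (bo n (⟨.X p, i⟩ :: w) (i + 1), Sum.inr (bo (n - 2 + 2) w (i + 1)))).1)
            (f (if decide (i % 2 = 0) = false then
            (bo n (⟨.X p, i⟩ :: w) i, bo n (⟨.X p, i⟩ :: w) (i + 2))
            else (bo n (⟨.X p, i⟩ :: w) (i + 1), Sum.inr (bo (n - 2 + 2) w (i + 1)))).2)
          by_cases hi : i % 2 = 0
          · have h1 : p = e := hp.2 hi
            rw [if_neg (by simpa using hi)]
            refine Or.inr ⟨?_, Or.inl ⟨rfl, rfl⟩⟩
            show p ≠ !e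
            rw [h1]
            cases e <;> decide
          · have h1 : p ≠ e := fun h => hi (hp.1 h)
            rw [if_pos (by simpa using hi)]
            refine Or.inl ⟨?_, Or.inl ⟨rfl, rfl⟩⟩
            show p = !e
            cases p <;> cases e <;> simp_all
      · obtain ⟨k, h3⟩ := br_Cr e w (n - 2 + 2) (fun x => f (Sum.inr x)) (br_alt hA) a ⟨i', h1⟩
        exact ⟨k.succ, h3⟩

/-- the parities of the corners -/
private theorem br_D {κ : Type} (e : Bool) (q : κ → Bool) : ∀ (w : Word) (n m : ℕ)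
    (f : Pool.ALT.Loc n w → κ), Ok w n m → AltW e w → (∀ x, q (f x) = pa n w x) →
    ∀ a, Lt a (br_dec n w f) → Gl e q a
  | [], _, _, _, _, _, _, a, h => by
      obtain ⟨i, hi⟩ := h
      exact absurd hi List.not_mem_nil
  | ⟨.U, i⟩ :: w, n, m, f, hok, hA, hq, a, h => by
      obtain ⟨i', hi'⟩ := h
      rcases List.mem_cons.1 hi' with h1 | h1
      · exact absurd (congrArg Pc.k h1) (by intro h2; cases h2)
      · exact br_D e q w (n - 0 + 2) m (fun x => f (Sum.inr x)) hok.2 (br_alt hA)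
          (fun x => hq (Sum.inr x)) a ⟨i', h1⟩
  | ⟨.N, i⟩ :: w, n, m, f, hok, hA, hq, a, h => by
      obtain ⟨i', hi'⟩ := h
      rcases List.mem_cons.1 hi' with h1 | h1
      · exact absurd (congrArg Pc.k h1) (by intro h2; cases h2)
      · exact br_D e q w (n - 2 + 0) m (fun x => f (Sum.inr x)) hok.2 (br_alt hA)
          (fun x => hq (Sum.inr x)) a ⟨i', h1⟩
  | ⟨.X p, i⟩ :: w, n, m, f, hok, hA, hq, a, h => by
      have hi : i + 2 ≤ n := hok.1
      have hp : p = e ↔ i % 2 = 0 := hA p i List.mem_cons_self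
      obtain ⟨i', hi'⟩ := h
      rcases List.mem_cons.1 hi' with h1 | h1
      · have h2 : a = ⟨p, f (bo n (⟨.X p, i⟩ :: w) i), f (bo n (⟨.X p, i⟩ :: w) (i + 1)),
            f (bo n (⟨.X p, i⟩ :: w) (i + 2)), f (Sum.inr (bo (n - 2 + 2) w (i + 1)))⟩ := by
          have h3 := congrArg Pc.k h1
          injection h3
        subst h2
        have e1 := pa_bo n (⟨.X p, i⟩ :: w) i (by omega)
        have e2 := pa_bo n (⟨.X p, i⟩ :: w) (i + 1) (by omega)
        have e3 := pa_bo n (⟨.X p, i⟩ :: w) (i + 2) (by omega)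
        have e4 : pa n (⟨.X p, i⟩ :: w) (Sum.inr (bo (n - 2 + 2) w (i + 1))) =
            decide ((i + 1) % 2 = 0) := pa_bo (n - 2 + 2) w (i + 1) (by omega)
        refine ⟨(hq _).trans (e1.trans ?_), (hq _).trans (e3.trans ?_),
          (hq _).trans (e2.trans ?_), (hq _).trans (e4.trans ?_)⟩
        · show decide (i % 2 = 0) = decide (p = e)
          exact decide_eq_decide.2 hp.symm
        · show decide ((i + 2) % 2 = 0) = decide (p = e)
          exact decide_eq_decide.2 (by rw [hp]; omega)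
        · show decide ((i + 1) % 2 = 0) = !decide (p = e)
          rw [← decide_not]
          exact decide_eq_decide.2 (by rw [hp]; omega)
        · show decide ((i + 1) % 2 = 0) = !decide (p = e)
          rw [← decide_not]
          exact decide_eq_decide.2 (by rw [hp]; omega)
      · exact br_D e q w (n - 2 + 2) m (fun x => f (Sum.inr x)) hok.2 (br_alt hA)
          (fun x => hq (Sum.inr x)) a ⟨i', h1⟩

/-- comparison of a refinement with the colouring -/
private theorem br_E {κ : Type} : ∀ (w : Word) (n : ℕ) (F : Pool.ALT.Loc n w → κ)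
    (f : Pool.ALT.Loc n w → κ × Bool),
    mp (Cr.map Prod.fst) (br_dec n w f) = br_dec n w F → ∀ a, Lt a (br_dec n w f) →
    (∃ z, a.l = f z ∧ F z = a.l.1) ∧ (∃ z, a.b = f z ∧ F z = a.b.1) ∧
      (∃ z, a.r = f z ∧ F z = a.r.1) ∧ ∃ z, a.t = f z ∧ F z = a.t.1
  | [], _, _, _, _, a, h => by
      obtain ⟨i, hi⟩ := h
      exact absurd hi List.not_mem_nil
  | ⟨.U, i⟩ :: w, n, F, f, hF, a, h => by
      obtain ⟨i', hi'⟩ := h
      rcases List.mem_cons.1 hi' with h1 | h1
      · exact absurd (congrArg Pc.k h1) (by intro h2; cases h2)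
      · obtain ⟨⟨z1, h2⟩, ⟨z2, h3⟩, ⟨z3, h4⟩, z4, h5⟩ := br_E w (n - 0 + 2)
          (fun x => F (Sum.inr x)) (fun x => f (Sum.inr x)) (List.cons.inj hF).2 a ⟨i', h1⟩
        exact ⟨⟨Sum.inr z1, h2⟩, ⟨Sum.inr z2, h3⟩, ⟨Sum.inr z3, h4⟩, Sum.inr z4, h5⟩
  | ⟨.N, i⟩ :: w, n, F, f, hF, a, h => by
      obtain ⟨i', hi'⟩ := h
      rcases List.mem_cons.1 hi' with h1 | h1
      · exact absurd (congrArg Pc.k h1) (by intro h2; cases h2)
      · obtain ⟨⟨z1, h2⟩, ⟨z2, h3⟩, ⟨z3, h4⟩, z4, h5⟩ := br_E w (n - 2 + 0)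
          (fun x => F (Sum.inr x)) (fun x => f (Sum.inr x)) (List.cons.inj hF).2 a ⟨i', h1⟩
        exact ⟨⟨Sum.inr z1, h2⟩, ⟨Sum.inr z2, h3⟩, ⟨Sum.inr z3, h4⟩, Sum.inr z4, h5⟩
  | ⟨.X p, i⟩ :: w, n, F, f, hF, a, h => by
      obtain ⟨i', hi'⟩ := h
      rcases List.mem_cons.1 hi' with h1 | h1
      · have h2 : a = ⟨p, f (bo n (⟨.X p, i⟩ :: w) i), f (bo n (⟨.X p, i⟩ :: w) (i + 1)),
            f (bo n (⟨.X p, i⟩ :: w) (i + 2)), f (Sum.inr (bo (n - 2 + 2) w (i + 1)))⟩ := by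
          have h3 := congrArg Pc.k h1
          injection h3
        subst h2
        have h4 := congrArg Pc.k (List.cons.inj hF).1
        have h5 : Cr.map Prod.fst (⟨p, f (bo n (⟨.X p, i⟩ :: w) i),
            f (bo n (⟨.X p, i⟩ :: w) (i + 1)), f (bo n (⟨.X p, i⟩ :: w) (i + 2)),
            f (Sum.inr (bo (n - 2 + 2) w (i + 1)))⟩ : Cr (κ × Bool)) =
            ⟨p, F (bo n (⟨.X p, i⟩ :: w) i), F (bo n (⟨.X p, i⟩ :: w) (i + 1)),
            F (bo n (⟨.X p, i⟩ :: w) (i + 2)), F (Sum.inr (bo (n - 2 + 2) w (i + 1)))⟩ := by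
          injection h4
        refine ⟨⟨_, rfl, (congrArg Cr.l h5).symm⟩, ⟨_, rfl, (congrArg Cr.b h5).symm⟩,
          ⟨_, rfl, (congrArg Cr.r h5).symm⟩, ⟨_, rfl, (congrArg Cr.t h5).symm⟩⟩
      · obtain ⟨⟨z1, h2⟩, ⟨z2, h3⟩, ⟨z3, h4⟩, z4, h5⟩ := br_E w (n - 2 + 2)
          (fun x => F (Sum.inr x)) (fun x => f (Sum.inr x)) (List.cons.inj hF).2 a ⟨i', h1⟩
        exact ⟨⟨Sum.inr z1, h2⟩, ⟨Sum.inr z2, h3⟩, ⟨Sum.inr z3, h4⟩, Sum.inr z4, h5⟩

/-! ### the decorated word of a canonical colouring -/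

private theorem br_Dec {κ : Type} {n m N : ℕ} {V : Word} {F : Pool.ALT.Loc n V → κ}
    (hF : br_Rs n V F) (hn : Ok V n m) (hN : Ok V N 0) (hNn : N ≤ n) {e : Bool}
    (hA : AltW e V) {q : κ → Bool} (hq : ∀ x, q (F x) = pa n V x) :
    Dec e q (fun j => F (bo n V (min j n))) N (br_dec n V F) where
  ok := (br_ok _ _ _).2 (by rw [br_fgt]; exact hN)
  vl := ⟨_, br_A V n m F hn hF⟩
  al := fun i a h => hA _ _ (by
    have h1 := br_mem h
    rwa [br_fgt] at h1)
  gl := br_D e q V n m F hn hA hq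
  pc := fun j hj => by
    show q (F (bo n V (min j n))) = _
    rw [hq, show min j n = j by omega, pa_bo n V j (by omega)]

private theorem br_Fa {κ : Type} {n m N : ℕ} {V : Word} {F : Pool.ALT.Loc n V → κ}
    (hVaC : St_VaC) (hn : Ok V n m) (hN : Ok V N 0) (hNn : N ≤ n)
    (ext : (ℕ → κ × Bool) → ℕ → κ × Bool) (h1 : ∀ c1 j, j ≤ N → ext c1 j = c1 j)
    (h2 : ∀ (c1 : ℕ → κ × Bool) (f : Pool.ALT.Loc n V → κ × Bool), br_Rs n V f →
      (∀ j ≤ n, f (bo n V j) = ext c1 j) → ∀ z z', F z = F z' → f z = f z') (x : κ) :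
    Fa x (fun j => F (bo n V (min j n))) N (br_dec n V F) := by
  intro c1 w1 hc1 hw1 hv
  obtain ⟨c1', hv⟩ := hv
  have hf : fgt w1 = V := by
    rw [← br_fgt_mp Prod.fst w1, hw1, br_fgt]
  have hok : Okd w1 N 0 := (br_ok _ _ _).2 (by rw [hf]; exact hN)
  obtain ⟨d', hd, -⟩ := (hVaC (κ := κ × Bool) (κ' := κ) (α := Cr (κ × Bool)) (β := Cr κ)).2.2.2.1
    Pd w1 N 0 c1 (ext c1) c1' hok (h1 c1) hv
  obtain ⟨f, h3, h4, h5⟩ := br_B V n m w1 (ext c1) d' hn hf hd
  have h6 := h2 c1 f h3 h5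
  have h7 : mp (Cr.map Prod.fst) (br_dec n V f) = br_dec n V F := by rw [h4, hw1]
  have h8 := br_E V n F f h7
  rw [h4] at h8
  by_cases hx : ∃ z₀, F z₀ = x
  · obtain ⟨z₀, hz₀⟩ := hx
    refine ⟨(f z₀).2, fun j hj hjx => ?_, fun a ha => ?_⟩
    · have e1 : F (bo n V (min j n)) = F z₀ := by rw [hz₀]; exact hjx
      have e2 := h6 _ _ e1
      rw [show min j n = j by omega] at e2
      rw [← e2, h5 j (by omega), h1 c1 j hj]
    · obtain ⟨⟨z1, g1, g1'⟩, ⟨z2, g2, g2'⟩, ⟨z3, g3, g3'⟩, z4, g4, g4'⟩ := h8 a ha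
      refine ⟨fun h => ?_, fun h => ?_, fun h => ?_, fun h => ?_⟩
      · rw [g1, h6 z1 z₀ (by rw [g1', h, hz₀])]
      · rw [g2, h6 z2 z₀ (by rw [g2', h, hz₀])]
      · rw [g3, h6 z3 z₀ (by rw [g3', h, hz₀])]
      · rw [g4, h6 z4 z₀ (by rw [g4', h, hz₀])]
  · refine ⟨false, fun j hj hjx => absurd ⟨_, hjx⟩ hx, fun a ha => ?_⟩
    obtain ⟨⟨z1, g1, g1'⟩, ⟨z2, g2, g2'⟩, ⟨z3, g3, g3'⟩, z4, g4, g4'⟩ := h8 a ha
    exact ⟨fun h => absurd ⟨z1, g1'.trans h⟩ hx, fun h => absurd ⟨z2, g2'.trans h⟩ hx,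
      fun h => absurd ⟨z3, g3'.trans h⟩ hx, fun h => absurd ⟨z4, g4'.trans h⟩ hx⟩

private theorem br_Ev_symm {κ : Type} {e : Bool} {a : Cr κ} {x y : κ} (h : Ev e a x y) :
    Ev e a y x := by
  rcases h with ⟨h1, h2⟩ | ⟨h1, h2⟩
  · exact Or.inl ⟨h1, h2.symm⟩
  · exact Or.inr ⟨h1, h2.symm⟩

private theorem br_insC {κ : Type} {i : ℕ} {t : κ} {c : ℕ → κ} {j j' : ℕ}
    (h : gl (pU i) j j') : insC i t c j' = c j := by
  show (if j' ≤ i then c j' else if j' = i + 1 then t else c (j' - 2)) = c j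
  rcases h with ⟨h1, h2⟩ | ⟨h1, h2⟩
  · have h1' : j ≤ i := h1
    subst h2
    rw [if_pos h1']
  · have h1' : i ≤ j := h1
    subst h2
    rw [if_neg (by omega), if_neg (by omega), show j + 2 - 2 = j by omega]

private theorem br_cst {κ : Type} (x : κ) : ∀ (w : Word) (n : ℕ) (a : Cr κ),
    Lt a (br_dec n w (fun _ => x)) → a.l = x ∧ a.b = x ∧ a.r = x ∧ a.t = x
  | [], _, a, h => by
      obtain ⟨i, hi⟩ := h
      exact absurd hi List.not_mem_nil
  | ⟨.U, i⟩ :: w, n, a, h => by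
      obtain ⟨i', hi'⟩ := h
      rcases List.mem_cons.1 hi' with h1 | h1
      · exact absurd (congrArg Pc.k h1) (by intro h2; cases h2)
      · exact br_cst x w (n - 0 + 2) a ⟨i', h1⟩
  | ⟨.N, i⟩ :: w, n, a, h => by
      obtain ⟨i', hi'⟩ := h
      rcases List.mem_cons.1 hi' with h1 | h1
      · exact absurd (congrArg Pc.k h1) (by intro h2; cases h2)
      · exact br_cst x w (n - 2 + 0) a ⟨i', h1⟩
  | ⟨.X p, i⟩ :: w, n, a, h => by
      obtain ⟨i', hi'⟩ := h
      rcases List.mem_cons.1 hi' with h1 | h1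
      · have h2 : a = ⟨p, x, x, x, x⟩ := by
          have h3 := congrArg Pc.k h1
          injection h3
        subst h2
        exact ⟨rfl, rfl, rfl, rfl⟩
      · exact br_cst x w (n - 2 + 2) a ⟨i', h1⟩

theorem thm_BR2 : St_BR2 := by
  have hVaC : St_VaC := thm_VaC
  intro e V hV hA h
  have hf0 : br_Rs 2 (pU 2 :: pU 3 :: V) (Quotient.mk (gs 2 (pU 2 :: pU 3 :: V))) :=
    fun x y hxy => Quotient.sound (br_gs hxy)
  have hf1 := br_Rs_tail hf0
  have hf2 := br_Rs_tail hf1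
  have hok : Ok V (2 - 0 + 2 - 0 + 2) 2 := h.2.2
  let F : Pool.ALT.Loc (2 - 0 + 2 - 0 + 2) V → Quotient (gs 2 (pU 2 :: pU 3 :: V)) :=
    fun x => Quotient.mk (gs 2 (pU 2 :: pU 3 :: V)) (Sum.inr (Sum.inr x))
  have hF : br_Rs (2 - 0 + 2 - 0 + 2) V F := hf2
  let q : Quotient (gs 2 (pU 2 :: pU 3 :: V)) → Bool :=
    Quotient.lift (pa 2 (pU 2 :: pU 3 :: V)) (fun x y hxy => pa_gs h hxy)
  let c : ℕ → Quotient (gs 2 (pU 2 :: pU 3 :: V)) :=
    fun j => F (bo (2 - 0 + 2 - 0 + 2) V (min j (2 - 0 + 2 - 0 + 2)))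
  have hD : Dec e q c 4 (br_dec (2 - 0 + 2 - 0 + 2) V F) :=
    br_Dec hF hok hV (by decide) hA (fun x => rfl)
  have hC : ∀ k : Fin (nX (pU 2 :: pU 3 :: V)), ∃ a,
      Lt a (br_dec (2 - 0 + 2 - 0 + 2) V F) ∧
      Ev e a (Quotient.mk (gs 2 (pU 2 :: pU 3 :: V)) (ed true 2 (pU 2 :: pU 3 :: V) k).1)
        (Quotient.mk (gs 2 (pU 2 :: pU 3 :: V)) (ed true 2 (pU 2 :: pU 3 :: V) k).2) ∧
      Ev (!e) a (Quotient.mk (gs 2 (pU 2 :: pU 3 :: V)) (ed false 2 (pU 2 :: pU 3 :: V) k).1)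
        (Quotient.mk (gs 2 (pU 2 :: pU 3 :: V)) (ed false 2 (pU 2 :: pU 3 :: V) k).2) :=
    fun k => br_C e V (2 - 0 + 2 - 0 + 2) F hA k
  have hC' : ∀ a, Lt a (br_dec (2 - 0 + 2 - 0 + 2) V F) →
      ∃ k : Fin (nX (pU 2 :: pU 3 :: V)),
      Ev e a (Quotient.mk (gs 2 (pU 2 :: pU 3 :: V)) (ed true 2 (pU 2 :: pU 3 :: V) k).1)
        (Quotient.mk (gs 2 (pU 2 :: pU 3 :: V)) (ed true 2 (pU 2 :: pU 3 :: V) k).2) ∧
      Ev (!e) a (Quotient.mk (gs 2 (pU 2 :: pU 3 :: V)) (ed false 2 (pU 2 :: pU 3 :: V) k).1)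
        (Quotient.mk (gs 2 (pU 2 :: pU 3 :: V)) (ed false 2 (pU 2 :: pU 3 :: V) k).2) :=
    fun a ha => br_Cr e V (2 - 0 + 2 - 0 + 2) F hA a ha
  -- the colours of the gaps
  have hc0 : c 0 = Quotient.mk (gs 2 (pU 2 :: pU 3 :: V)) (bo 2 (pU 2 :: pU 3 :: V) 0) :=
    ((br_Rs_gl hf0 (j := 0) (j' := 0) (by decide) (by decide)
      (Or.inl ⟨by decide, rfl⟩)).trans (br_Rs_gl hf1 (j := 0) (j' := 0) (by decide) (by decide)
      (Or.inl ⟨by decide, rfl⟩))).symm
  have hc1 : c 1 = Quotient.mk (gs 2 (pU 2 :: pU 3 :: V)) (bo 2 (pU 2 :: pU 3 :: V) 1) :=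
    ((br_Rs_gl hf0 (j := 1) (j' := 1) (by decide) (by decide)
      (Or.inl ⟨by decide, rfl⟩)).trans (br_Rs_gl hf1 (j := 1) (j' := 1) (by decide) (by decide)
      (Or.inl ⟨by decide, rfl⟩))).symm
  have hc2 : c 2 = Quotient.mk (gs 2 (pU 2 :: pU 3 :: V)) (bo 2 (pU 2 :: pU 3 :: V) 2) :=
    ((br_Rs_gl hf0 (j := 2) (j' := 2) (by decide) (by decide)
      (Or.inl ⟨by decide, rfl⟩)).trans (br_Rs_gl hf1 (j := 2) (j' := 2) (by decide) (by decide)
      (Or.inl ⟨by decide, rfl⟩))).symm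
  have hc35 : c 3 = c 5 :=
    (br_Rs_gl hf1 (j := 3) (j' := 3) (by decide) (by decide)
      (Or.inl ⟨by decide, rfl⟩)).symm.trans (br_Rs_gl hf1 (j := 3) (j' := 5) (by decide)
      (by decide) (Or.inr ⟨by decide, rfl⟩))
  have hc3 : c 3 = Quotient.mk (gs 2 (pU 2 :: pU 3 :: V)) (tp 2 (pU 2 :: pU 3 :: V) 1) := by
    have h1 := br_A V (2 - 0 + 2 - 0 + 2) 2 F hok hF
    have h2 := (hVaC (κ := Quotient (gs 2 (pU 2 :: pU 3 :: V))) (κ' := Bool)
      (α := Cr (Quotient (gs 2 (pU 2 :: pU 3 :: V)))) (β := Bool)).2.1 Pd _ 4 0 _ _ hD.ok h1 1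
    exact hc35.trans h2.symm
  refine ⟨_, q, c, br_dec (2 - 0 + 2 - 0 + 2) V F, Subtype.val, Subtype.val, br_fgt V _ F, hD,
    fun x => ?_, Subtype.val_injective, Subtype.val_injective, ?_, ?_, hc0, hc2, hc1, hc3,
    hC', hC⟩
  · refine br_Fa hVaC hok hV (by decide) (fun c1 => insC 3 (c1 4) (insC 2 (c1 3) c1)) ?_ ?_ x
    · intro c1 j hj
      have h1 : j = 0 ∨ j = 1 ∨ j = 2 ∨ j = 3 ∨ j = 4 := by omega
      rcases h1 with rfl | rfl | rfl | rfl | rfl <;> rfl
    · intro c1 f hf hc z z' hz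
      have g1 : br_Rs (2 - 0 + 2) (pU 3 :: V)
          (br_ext (n := 2 - 0 + 2) (pU 3) V (insC 2 (c1 3) c1) f) := by
        refine br_Rs_ext hf ?_
        intro j j' hj hj' hg
        exact (br_insC hg).symm.trans (hc j' hj').symm
      have g2 : br_Rs 2 (pU 2 :: pU 3 :: V) (br_ext (n := 2) (pU 2) (pU 3 :: V) c1
          (br_ext (n := 2 - 0 + 2) (pU 3) V (insC 2 (c1 3) c1) f)) := by
        refine br_Rs_ext g1 ?_
        intro j j' hj hj' hg
        refine Eq.trans ?_ (br_ext_bo (n := 2 - 0 + 2) (pU 3) V (insC 2 (c1 3) c1) f hj').symm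
        exact (br_insC hg).symm
      exact br_ker g2 (Quotient.exact hz)
  · rintro ⟨_, x, hx, rfl⟩
    exact hx
  · rintro ⟨_, x, hx, rfl⟩
    exact hx

end Pool.GEN
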