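import Pool.Agent.GEN.St

/-!
# GEN [CA]: the marked regions are not separated
-/

set_option autoImplicit false

namespace Pool.GEN

open LaurentPolynomial Pool.Agent.ARB Pool.Agent.Helper2 Pool.ALT Pool.LSP Pool.LSG

variable {κ : Type}

theorem ca_lt {α : Type} {a : α} {u v : Wd α} : Lt a (u ++ v) ↔ Lt a u ∨ Lt a v := by
  constructor
  · rintro ⟨i, hi⟩
    rcases List.mem_append.1 hi with h | h
    · exact Or.inl ⟨i, h⟩
    · exact Or.inr ⟨i, h⟩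
  · rintro (⟨i, hi⟩ | ⟨i, hi⟩)
    · exact ⟨i, List.mem_append.2 (Or.inl hi)⟩
    · exact ⟨i, List.mem_append.2 (Or.inr hi)⟩

theorem ca_ev (e : Bool) (a : Cr κ) (x y : κ) : Ev e (Rt.r a) x y ↔ Ev e a x y := by
  obtain ⟨p, l, b, r, t⟩ := a
  show Ev e (Cr.rot ⟨p, l, b, r, t⟩) x y ↔ _
  cases p <;> cases e <;> simp only [Ev, Cr.rot] <;> simp <;> tauto

/-- the label is invariant -/
theorem ca_lab (e : Bool) (x : κ) (sd : κ → Bool) (a : Cr κ) (β : Bool) :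
    Lab e x sd (Rt.r a) β ↔ Lab e x sd a β := by
  unfold Lab
  simp only [ca_ev]

/-- invariant predicates and rotations -/
theorem ca_r4 {P : Cr κ → Prop} (hP : ∀ a, P (Rt.r a) ↔ P a) {a a' : Cr κ} (h : T1.R4 a a') :
    P a' ↔ P a := by
  rcases h with rfl | rfl | rfl | rfl
  · exact Iff.rfl
  · exact hP a
  · rw [hP, hP]
  · rw [hP, hP, hP]

theorem ca_all {P : Cr κ → Prop} (hP : ∀ a, P (Rt.r a) ↔ P a) {n : ℕ} {w w' : Wd (Cr κ)}
    (h : PIso n w w') (hw : ∀ a, Lt a w → P a) : ∀ a, Lt a w' → P a := by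
  intro a ha
  by_contra hn
  obtain ⟨b, hb, hb'⟩ := thm_Mp.2.2.2.2.1 (fun b => ¬ P b) (fun b => not_congr (hP b)) n w' w
    h.symm ⟨a, ha, hn⟩
  exact hb' (hw b hb)

/-- letters whose lower or upper corner is odd -/
theorem ca_even {e : Bool} {pr : κ → Bool} {a : Cr κ} (hg : Gl e pr a)
    (hz : pr a.b = false ∨ pr a.t = false) : a.p = e := by
  obtain ⟨-, -, h3, h4⟩ := hg
  rcases hz with h | h
  · rw [h] at h3
    simpa using h3
  · rw [h] at h4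
    simpa using h4

theorem ca_evlr {e : Bool} {a : Cr κ} (hp : a.p = e) (u v : κ) :
    Ev e a u v ↔ (a.l = u ∧ a.r = v) ∨ (a.l = v ∧ a.r = u) := by
  unfold Ev
  simp [hp]

theorem ca_co {e : Bool} {a : Cr κ} {z z' : κ} (h : Ev e a z z') : T1.Co z a := by
  rcases h with ⟨-, h | h⟩ | ⟨-, h | h⟩
  · exact Or.inl h.1
  · exact Or.inr (Or.inr (Or.inl h.2))
  · exact Or.inr (Or.inl h.1)
  · exact Or.inr (Or.inr (Or.inr h.2))

/-- no crossing has equal opposite corners: invariant -/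
theorem ca_non {n : ℕ} {w w' : Wd (Cr κ)} (h : PIso n w w') (hw : NoN w) : NoN w' := by
  intro a e' y ha
  exact ca_all (P := fun a => ¬ Ev e' a y y) (fun a => not_congr (ca_ev e' a y y)) h
    (fun a ha => hw a e' y ha) a ha

theorem ca_spd {e : Bool} {x : κ} {sd : κ → Bool} {n : ℕ} {w w' : Wd (Cr κ)} (h : PIso n w w')
    (hw : SpD e w x sd) : SpD e w' x sd := by
  intro a u v ha
  exact ca_all (P := fun a => Ev e a u v → u = x ∨ v = x ∨ sd u = sd v)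
    (fun a => by simp only [ca_ev]) h (fun a ha => hw a u v ha) a ha

/-- the main step: a letter with the label `β` at `z`, whose neighbours are not on the side `β` -/
theorem ca_core (hPALL : St_PALL) (hLF2 : St_LF2) (hRUN : St_RUN) (hIB : St_IB) {e : Bool}
    {pr : κ → Bool} {d : ℕ → κ} {N h : ℕ} {W : Wd (Cr κ)} {x z : κ} {sd : κ → Bool} {β : Bool}
    (hD : Dec e pr d N W) (hFz : Fa z d N W) (hFx : Fa x d N W) (hN : NoN W) (h1 : 1 ≤ h)
    (h2 : h + 1 ≤ N) (hz : d h = z) (hu : ∀ j ≤ N, d j = z → j = h) (hx : pr x = true)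
    (hzp : pr z = false) (hS : SpD e W x sd) (hl : d (h - 1) = x ∨ sd (d (h - 1)) ≠ β)
    (hr : d (h + 1) = x ∨ sd (d (h + 1)) ≠ β)
    (hex : ∃ a z', Lt a W ∧ Lab e x sd a β ∧ Ev (!e) a z z') : SplD N W ∨ FacD N W := by
  rcases hPALL e pr d N h z W hD hFz hN h1 h2 hz hu with hs | ⟨ks, V, hV, hI, hb, hC, hch⟩
  · exact Or.inl hs
  right
  have hxz : x ≠ z := fun h0 => by rw [h0, hzp] at hx; exact Bool.false_ne_true hx
  have hLt : ∀ k, Lt k (isls h ks) ↔ k ∈ ks := (hIB.2.2.1 h 0 ks).2.2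
  -- the letter
  obtain ⟨a, z', ha, haβ, haz⟩ := hex
  obtain ⟨k, hk, hkβ, hkz⟩ := thm_Mp.2.2.2.2.1 (fun b => Lab e x sd b β ∧ Ev (!e) b z z')
    (fun b => by simp only [ca_lab, ca_ev]) N W (isls h ks ++ V) hI ⟨a, ha, haβ, haz⟩
  have hkk : k ∈ ks := by
    rcases ca_lt.1 hk with h3 | h3
    · exact (hLt k).1 h3
    · exact absurd (ca_co hkz) (hC k h3)
  have hD' : Dec e pr d N (isls h ks ++ V) := all_Fa.2.1 e pr d N W _ hI hD
  have hp : ∀ b ∈ ks, b.p = e := fun b hb' =>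
    ca_even (hD'.gl b (ca_lt.2 (Or.inl ((hLt b).2 hb')))) (Or.inl (by rw [hb b hb', hzp]))
  have hS' := ca_spd hI hS
  have hN' := ca_non hI hN
  have r1 : ∀ b ∈ ks, b.l = x ∨ b.r = x ∨ sd b.l = sd b.r := fun b hb' =>
    hS' b b.l b.r (ca_lt.2 (Or.inl ((hLt b).2 hb')))
      ((ca_evlr (hp b hb') _ _).2 (Or.inl ⟨rfl, rfl⟩))
  have r2 : ∀ b ∈ ks, b.l ≠ b.r := fun b hb' h0 =>
    hN' b e b.r (ca_lt.2 (Or.inl ((hLt b).2 hb')))
      ((ca_evlr (hp b hb') _ _).2 (Or.inl ⟨h0, rfl⟩))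
  have r3 : ∃ b ∈ ks, (b.l ≠ x ∧ sd b.l = β) ∨ (b.r ≠ x ∧ sd b.r = β) := by
    obtain ⟨u, v, huv, hux, hus⟩ := hkβ
    rcases (ca_evlr (hp k hkk) _ _).1 huv with ⟨h3, -⟩ | ⟨-, h3⟩
    · exact ⟨k, hkk, Or.inl ⟨by rw [h3]; exact hux, by rw [h3]; exact hus⟩⟩
    · exact ⟨k, hkk, Or.inr ⟨by rw [h3]; exact hux, by rw [h3]; exact hus⟩⟩
  obtain ⟨ks1, ks2, ks3, e1, hne, e2, e3⟩ := hRUN x sd β (d (h - 1)) (d (h + 1)) ks hch r1 r2 hl
    hr r3
  subst e1
  exact hLF2 d N h z x W V ks1 ks2 ks3 hD.ok hD.vl hFx h1 h2 hz hxz hV hI hb hne e2 e3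

/-- the leftmost and the rightmost gap have the same colour -/
theorem ca_04 {c : ℕ → κ} {N : ℕ} {W : Wd (Cr κ)} (hok : Okd W N 0) (hv : Vl c W) :
    c N = c 0 := by
  obtain ⟨c', hc'⟩ := hv
  have h1 := (thm_VaC (κ' := κ) (β := Cr κ)).2.1 Pd W N 0 c c' hok hc' 0
  have h2 := (thm_VaC (κ' := κ) (β := Cr κ)).2.2.2.2.2 Pd W c c' hc'
  rw [Nat.zero_add, Nat.add_zero] at h1
  rw [← h1, h2]

theorem ca_pre {n N : ℕ} {W P W' : Wd (Cr κ)} (hP : Okd P n N) (hI : PIso n W (P ++ W'))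
    (h : SplD N W' ∨ FacD N W') : SplD n W ∨ FacD n W := by
  rcases h with ⟨u, J, v, m, j, h1, h2, h3, h4, h5, h6⟩ | ⟨u, J, v, m, j, h1, h2, h3, h4, h5, h6⟩
  · refine Or.inl ⟨P ++ u, J, v, m, j, hP.append h1, h2, h3, h4, h5, ?_⟩
    rw [List.append_assoc]
    exact hI.trans (PIso.left hP h6)
  · refine Or.inr ⟨P ++ u, J, v, m, j, hP.append h1, h2, h3, h4, h5, ?_⟩
    rw [List.append_assoc]
    exact hI.trans (PIso.left hP h6)

/-- [CA] The marked regions `c 0`, `c 2` are not separated by `x`. -/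
theorem thm_CA (hPALL : St_PALL) (hLF2 : St_LF2) (hRUN : St_RUN) (hEXP : St_EXP) (hIB : St_IB) :
    St_CA := by
  intro κ e pr c W x z sd β hN hS hx hR hz hlab h0 h2
  have hD := hN.dec
  have h04 : c 4 = c 0 := ca_04 hD.ok hD.vl
  have hpc : ∀ j ≤ 4, c j = z → j % 2 = 1 := by
    intro j hj hjz
    have h3 := hD.pc j hj
    rw [hjz, hz] at h3
    have h4 : ¬ j % 2 = 0 := by
      intro h5
      rw [decide_eq_true h5] at h3
      exact Bool.false_ne_true h3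
    omega
  obtain ⟨a, z', ha, haβ, haz⟩ := hlab β
  by_cases hz1 : z = c 1
  · refine ca_core hPALL hLF2 hRUN hIB (h := 1) hD (hN.fa z) (hN.fa x) hN.non le_rfl (by norm_num)
      hz1.symm ?_ hx hz hS h0 h2 ⟨a, z', ha, haβ, haz⟩
    intro j hj hjz
    have h3 := hpc j hj hjz
    have h4 : j ≠ 3 := fun h5 => hN.ne13 (by rw [← hz1, ← hjz, h5])
    omega
  by_cases hz3 : z = c 3
  · refine ca_core hPALL hLF2 hRUN hIB (h := 3) hD (hN.fa z) (hN.fa x) hN.non (by norm_num)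
      (by norm_num) hz3.symm ?_ hx hz hS h2 ?_ ⟨a, z', ha, haβ, haz⟩
    · intro j hj hjz
      have h3 := hpc j hj hjz
      have h4 : j ≠ 1 := fun h5 => hN.ne13 (by rw [← hz3, ← hjz, h5])
      omega
    · show c 4 = x ∨ sd (c 4) ≠ β
      rw [h04]
      exact h0
  -- interior regions
  obtain ⟨P, W', N, h, d, k0, hP, hI, hD', h3, h4, h5, h6, h7, h8, h9, h10, h11, h12, ⟨a0, ha0, hr0⟩,
    h13⟩ := hEXP e pr c W z hN hR hz1 hz3
  have hp0 : k0.p = e := ca_even h9 (Or.inr (by rw [h10, hz]))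
  have hev0 : Ev e k0 k0.l k0.r := (ca_evlr hp0 _ _).2 (Or.inl ⟨rfl, rfl⟩)
  have hs0 : k0.l = x ∨ k0.r = x ∨ sd k0.l = sd k0.r :=
    (ca_r4 (P := fun b => Ev e b k0.l k0.r → k0.l = x ∨ k0.r = x ∨ sd k0.l = sd k0.r)
      (fun b => by simp only [ca_ev]) hr0).2 (fun h14 => hS a0 _ _ ha0 h14) hev0
  have hne0 : k0.l ≠ k0.r := by
    intro h14
    have h15 : Ev e a0 k0.r k0.r := by
      have h16 := (ca_r4 (P := fun b => Ev e b k0.r k0.r) (fun b => ca_ev e b _ _) hr0).1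
      exact h16 (by rw [h14] at hev0; exact hev0)
    exact hN.non a0 e k0.r ha0 h15
  obtain ⟨β', hl', hr'⟩ : ∃ β' : Bool, (k0.l = x ∨ sd k0.l ≠ β') ∧ (k0.r = x ∨ sd k0.r ≠ β') := by
    by_cases h14 : k0.l = x
    · exact ⟨!sd k0.r, Or.inl h14, Or.inr (by cases sd k0.r <;> simp)⟩
    · refine ⟨!sd k0.l, Or.inr (by cases sd k0.l <;> simp), ?_⟩
      rcases hs0 with h15 | h15 | h15
      · exact absurd h15 h14
      · exact Or.inl h15
      · right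
        rw [h15]
        cases sd k0.r <;> simp
  obtain ⟨a1, z1, ha1, hab1, haz1⟩ := hlab β'
  have hex : ∃ b z', Lt b W' ∧ Lab e x sd b β' ∧ Ev (!e) b z z' := by
    rcases h13 a1 ha1 (ca_co haz1) with h14 | ⟨b, hb, h14⟩
    · exfalso
      obtain ⟨u, v, huv, hux, hus⟩ := (ca_r4 (P := fun b => Lab e x sd b β')
        (fun b => ca_lab e x sd b β') h14).2 hab1
      rcases (ca_evlr hp0 _ _).1 huv with ⟨h15, -⟩ | ⟨-, h15⟩
      · rcases hl' with h16 | h16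
        · exact hux (h15.symm.trans h16)
        · exact h16 (by rw [h15]; exact hus)
      · rcases hr' with h16 | h16
        · exact hux (h15.symm.trans h16)
        · exact h16 (by rw [h15]; exact hus)
    · exact ⟨b, z1, hb, (ca_r4 (P := fun b => Lab e x sd b β') (fun b => ca_lab e x sd b β')
        h14).2 hab1, (ca_r4 (P := fun b => Ev (!e) b z z1) (fun b => ca_ev (!e) b z z1) h14).2 haz1⟩
  refine ca_pre hP hI (ca_core hPALL hLF2 hRUN hIB hD' h7 (h8 x hx) ?_ h3 h4 h5 h6 hx hz ?_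
    ?_ ?_ hex)
  · intro b e' y hb
    exact ca_non hI hN.non b e' y (ca_lt.2 (Or.inr hb))
  · intro b u v hb
    exact ca_spd hI hS b u v (ca_lt.2 (Or.inr hb))
  · rw [← h11]
    exact hl'
  · rw [← h12]
    exact hr'

end Pool.GEN
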