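import Pool.Agent.GEN.St

/-!
# GEN: the marked regions are separated, the tangle is a sum
-/

set_option autoImplicit false

namespace Pool.GEN

open LaurentPolynomial Pool.Agent.ARB Pool.Agent.Helper2 Pool.ALT Pool.LSP Pool.LSG

/-- the first place where the path meets `x` -/
private theorem cb_path {κ : Type} (x : κ) (sd : κ → Bool) (v : κ) :
    ∀ (ks : List (Cr κ)) (u : κ), Chn u v ks →
    (∀ k ∈ ks, k.l = x ∨ k.r = x ∨ sd k.l = sd k.r) → u ≠ x → v ≠ x → sd u ≠ sd v →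
    ∃ p ∈ ks, p.r = x ∧ p.l ≠ x ∧ sd p.l = sd u := by
  intro ks
  induction ks with
  | nil =>
    intro u h _ _ _ h5
    have h1 : u = v := h
    exact absurd (congrArg sd h1) h5
  | cons k ks ih =>
    intro u h h2 h3 h4 h5
    obtain ⟨h6, h7⟩ := h
    by_cases h8 : k.r = x
    · exact ⟨k, List.mem_cons_self, h8, by rw [h6]; exact h3, by rw [h6]⟩
    · have h9 : sd k.r = sd u := by
        rcases h2 k List.mem_cons_self with h | h | h
        · exact absurd (h6.symm.trans h) h3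
        · exact absurd h h8
        · rw [← h, h6]
      obtain ⟨p, hp, q1, q2, q3⟩ := ih k.r h7 (fun k' hk => h2 k' (List.mem_cons_of_mem _ hk))
        h8 h4 (by rw [h9]; exact h5)
      exact ⟨p, List.mem_cons_of_mem _ hp, q1, q2, by rw [q3, h9]⟩

/-- rotations of a crossing are determined by the lower corner -/
private theorem cb_rot {κ : Type} {p a' a : Cr κ} {z : κ}
    (h : a = p ∨ a = Rt.r p ∨ a = Rt.r (Rt.r p) ∨ a = Rt.r (Rt.r (Rt.r p)))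
    (h' : a' = a ∨ a' = Rt.r a ∨ a' = Rt.r (Rt.r a) ∨ a' = Rt.r (Rt.r (Rt.r a)))
    (hb : a'.b = z) (hl : p.l ≠ z) (hr : p.r ≠ z) (ht : p.t ≠ z) : a' = p := by
  have h4 : a' = p ∨ a' = Rt.r p ∨ a' = Rt.r (Rt.r p) ∨ a' = Rt.r (Rt.r (Rt.r p)) := by
    have e4 : ∀ b : Cr κ, Rt.r (Rt.r (Rt.r (Rt.r b))) = b := fun b => Rt.r4 b
    rcases h with rfl | rfl | rfl | rfl <;> rcases h' with rfl | rfl | rfl | rfl <;> simp [e4]
  rcases h4 with h | h | h | h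
  · exact h
  · rw [h] at hb
    exact absurd hb hl
  · rw [h] at hb
    exact absurd hb ht
  · rw [h] at hb
    exact absurd hb hr

/-- `b` is a rotation of `p` -/
private def cb_R {κ : Type} (p b : Cr κ) : Prop :=
  b = p ∨ b = Rt.r p ∨ b = Rt.r (Rt.r p) ∨ b = Rt.r (Rt.r (Rt.r p))

private theorem cb_R_rot {κ : Type} (p b : Cr κ) : cb_R p (Rt.r b) ↔ cb_R p b := by
  have e4 : ∀ b : Cr κ, Rt.r (Rt.r (Rt.r (Rt.r b))) = b := fun b => Rt.r4 b
  have inj : ∀ b b' : Cr κ, Rt.r b = Rt.r b' → b = b' := by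
    intro b b' h
    rw [← e4 b, ← e4 b', h]
  constructor
  · rintro (h | h | h | h)
    · right; right; right
      apply inj
      rw [e4]
      exact h
    · exact Or.inl (inj _ _ h)
    · exact Or.inr (Or.inl (inj _ _ h))
    · exact Or.inr (Or.inr (Or.inl (inj _ _ h)))
  · rintro (h | h | h | h)
    · exact Or.inr (Or.inl (by rw [h]))
    · exact Or.inr (Or.inr (Or.inl (by rw [h])))
    · exact Or.inr (Or.inr (Or.inr (by rw [h])))
    · exact Or.inl (by rw [h, e4])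

/-- the sequence of islands at one of the gaps `1`, `3` contains a crossing which ends at `x` -/
private theorem cb_find (hPALL : St_PALL) (hIB : St_IB) {κ : Type} (e : Bool) (pr : κ → Bool)
    (c : ℕ → κ) (W : Wd (Cr κ)) (x : κ) (sd : κ → Bool) (h : ℕ) (hN : Nice e pr c W)
    (hS : SpD e W x sd) (h1 : 1 ≤ h) (h2 : h + 1 ≤ 4) (hu : ∀ j ≤ 4, c j = c h → j = h)
    (hz : pr (c h) = false) (hl : c (h - 1) ≠ x) (hr : c (h + 1) ≠ x)
    (hs : sd (c (h - 1)) ≠ sd (c (h + 1))) :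
    SplD 4 W ∨ ∃ p : Cr κ, (∃ a, Lt a W ∧ cb_R p a) ∧ p.b = c h ∧ p.r = x ∧ p.l ≠ x ∧
      sd p.l = sd (c (h - 1)) ∧ p.p = e ∧ pr p.l = true ∧ p.t ≠ c h := by
  rcases hPALL e pr c 4 h (c h) W hN.dec (hN.fa _) hN.non h1 h2 rfl hu with hsp |
    ⟨ks, V, hV, hI, hb, -, hch⟩
  · exact Or.inl hsp
  · right
    have hMp5 := (thm_Mp.2.2.2.2.1 (α := Cr κ))
    have hlt : ∀ k ∈ ks, Lt k (isls h ks ++ V) := by
      intro k hk
      obtain ⟨i, hi⟩ := ((hIB.2.2.1 h 0 ks).2.2 k).2 hk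
      exact ⟨i, List.mem_append_left _ hi⟩
    have hP : ∀ P : Cr κ → Prop, (∀ b, P (Rt.r b) ↔ P b) → ∀ k ∈ ks, P k → ∃ a, Lt a W ∧ P a :=
      fun P hP k hk hPk => hMp5 P hP 4 _ _ hI.symm ⟨k, hlt k hk, hPk⟩
    have hDec := all_Fa.2.1 e pr c 4 W _ hI hN.dec
    have hgl : ∀ k ∈ ks, Gl e pr k :=
      ((hIB.2.2.2.2.1 e pr c 4 h (c h) ks V (by omega) rfl hb).2 hDec).2
    have hpe : ∀ k ∈ ks, k.p = e := by
      intro k hk
      have h3 := (hgl k hk).2.2.1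
      rw [hb k hk, hz] at h3
      by_contra h4
      rw [decide_eq_false h4] at h3
      simp at h3
    have hside : ∀ k ∈ ks, k.l = x ∨ k.r = x ∨ sd k.l = sd k.r := by
      intro k hk
      by_contra hcon
      obtain ⟨a, ha, hPa⟩ := hP (fun b => ∃ u v, Ev e b u v ∧ ¬ (u = x ∨ v = x ∨ sd u = sd v))
        (fun b => by simp only [cor_ev]) k hk
        ⟨k.l, k.r, Or.inl ⟨hpe k hk, Or.inl ⟨rfl, rfl⟩⟩, hcon⟩
      obtain ⟨u, v, h3, h4⟩ := hPa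
      exact h4 (hS a u v ha h3)
    have hnt : ∀ k ∈ ks, k.t ≠ c h := by
      intro k hk h3
      obtain ⟨a, ha, y, h4⟩ := hP (fun b => ∃ y, Ev (!e) b y y)
        (fun b => by simp only [cor_ev]) k hk
        ⟨c h, Or.inr ⟨by rw [hpe k hk]; cases e <;> simp, Or.inl ⟨hb k hk, h3⟩⟩⟩
      exact hN.non a _ y ha h4
    obtain ⟨p, hp, q1, q2, q3⟩ := cb_path x sd (c (h + 1)) ks (c (h - 1)) hch hside hl hr hs
    refine ⟨p, hP (cb_R p) (cb_R_rot p) p hp (Or.inl rfl), hb p hp, q1, q2, q3, hpe p hp, ?_,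
      hnt p hp⟩
    rw [(hgl p hp).1, hpe p hp]
    simp

/-- the rearrangement of the pieces -/
private theorem cb_iso {κ : Type} (p q : Cr κ) (A B : Wd (Cr κ)) (hA : Okd A 6 0)
    (hB : Okd B 6 0) :
    Okd (cU 0 :: (isl 4 q ++ shd 1 A)) 2 2 ∧ Okd (isl 1 p ++ (cN 4 :: B)) 4 0 ∧
    PIso 4 (isl 1 p ++ (isl 7 q ++ (shd 4 A ++ B)))
      (shd 1 (cU 0 :: (isl 4 q ++ shd 1 A)) ++ (isl 1 p ++ (cN 4 :: B))) := by
  have oU : Okd ([cU 0] : Wd (Cr κ)) 2 4 := ⟨by show 0 ≤ 2; omega, rfl⟩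
  have oA1 : Okd (shd 1 A) 8 2 := (hA.sh 1).add 1
  have oR : Okd (cU 0 :: (isl 4 q ++ shd 1 A)) 2 2 :=
    oU.append ((tg_okisl q (by omega : 4 ≤ 4)).append oA1)
  have oN : Okd ([cN 4] : Wd (Cr κ)) 8 6 := ⟨by show 6 ≤ 8; omega, rfl⟩
  have oL : Okd (isl 1 p ++ (cN 4 :: B)) 4 0 :=
    (tg_okisl p (by omega : 1 ≤ 4)).append (oN.append hB)
  refine ⟨oR, oL, PIso.symm ?_⟩
  -- the island `p` moves down
  have i1 : PIso 4 (shd 1 (cU 0 :: (isl 4 q ++ shd 1 A)) ++ isl 1 p)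
      (isl 1 p ++ shd 5 (cU 0 :: (isl 4 q ++ shd 1 A))) :=
    ((PIso.comm (isl 1 p) (cU 0 :: (isl 4 q ++ shd 1 A)) 1 5 2 2 (tg_okisl p (by omega)) oR).symm).le
      (by omega)
  have i2 := i1.right (cN 4 :: B)
  have e1 : (shd 1 (cU 0 :: (isl 4 q ++ shd 1 A)) ++ isl 1 p) ++ (cN 4 :: B) =
      shd 1 (cU 0 :: (isl 4 q ++ shd 1 A)) ++ (isl 1 p ++ (cN 4 :: B)) := List.append_assoc _ _ _
  rw [e1] at i2
  -- the cap moves down
  have oW : Okd (isl 3 q ++ A) 4 2 := (tg_okisl q (by omega : 3 ≤ 4)).append (hA.add 2)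
  have oN' : Okd ([cN 4] : Wd (Cr κ)) 6 4 := ⟨by show 6 ≤ 6; omega, rfl⟩
  have i3 : PIso 10 (shd 6 (isl 3 q ++ A) ++ [cN 4]) ([cN 4] ++ shd 4 (isl 3 q ++ A)) :=
    (PIso.comm [cN 4] (isl 3 q ++ A) 6 4 4 2 oN' oW).symm
  have oI : Okd (isl 1 p) 4 8 := tg_okisl p (by omega)
  have oU5 : Okd ([cU 5] : Wd (Cr κ)) 8 10 := ⟨by show 5 ≤ 8; omega, rfl⟩
  have i4 : PIso 4 ((isl 1 p ++ [cU 5]) ++ ((shd 6 (isl 3 q ++ A) ++ [cN 4]) ++ B))
      ((isl 1 p ++ [cU 5]) ++ (([cN 4] ++ shd 4 (isl 3 q ++ A)) ++ B)) :=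
    PIso.mid _ _ (oI.append oU5) i3
  have e2 : (isl 1 p ++ shd 5 (cU 0 :: (isl 4 q ++ shd 1 A))) ++ (cN 4 :: B) =
      (isl 1 p ++ [cU 5]) ++ ((shd 6 (isl 3 q ++ A) ++ [cN 4]) ++ B) := by
    have h1 : shd 5 (cU 0 :: (isl 4 q ++ shd 1 A)) = cU 5 :: (isl 9 q ++ shd 6 A) := by
      rw [shd_cons, shd_append, shd_shd]
      rfl
    have h2 : shd 6 (isl 3 q ++ A) = isl 9 q ++ shd 6 A := by
      rw [shd_append]
      rfl
    rw [h1, h2]
    simp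
  rw [e2] at i2
  have i5 : PIso 4 (isl 1 p ++ ([cU 5, cN 4] ++ (isl 7 q ++ (shd 4 A ++ B))))
      (isl 1 p ++ ([] ++ (isl 7 q ++ (shd 4 A ++ B)))) :=
    PIso.mid _ _ oI (PIso.zag (by omega))
  have e3 : (isl 1 p ++ [cU 5]) ++ (([cN 4] ++ shd 4 (isl 3 q ++ A)) ++ B) =
      isl 1 p ++ ([cU 5, cN 4] ++ (isl 7 q ++ (shd 4 A ++ B))) := by
    have h2 : shd 4 (isl 3 q ++ A) = isl 7 q ++ shd 4 A := by
      rw [shd_append]
      rfl
    rw [h2]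
    simp
  rw [e3] at i4
  exact (i2.trans i4).trans i5

private theorem cb_nX {κ : Type} (g : ℕ) (a : Cr κ) (V : Wd (Cr κ)) : 1 ≤ nXd (isl g a ++ V) := by
  show 1 ≤ nXd V + 1
  omega

theorem thm_CB (hPALL : St_PALL) (hIB : St_IB) : St_CB := by
  intro κ e pr c W x sd hN hS hx h0 h2 hs
  have hD := hN.dec
  have p0 : pr (c 0) = true := by have := hD.pc 0 (by omega); simpa using this
  have p1 : pr (c 1) = false := by have := hD.pc 1 (by omega); simpa using this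
  have p2 : pr (c 2) = true := by have := hD.pc 2 (by omega); simpa using this
  have p3 : pr (c 3) = false := by have := hD.pc 3 (by omega); simpa using this
  have p4 : pr (c 4) = true := by have := hD.pc 4 (by omega); simpa using this
  have ne : ∀ u v : κ, pr u = true → pr v = false → u ≠ v := by
    intro u v h1 h2 h3
    rw [h3, h2] at h1
    exact absurd h1 (by simp)
  have h40 : c 4 = c 0 := (all_Fa.2.2.2.2.1 c 4 W hD.ok hD.vl 0 4 (by omega) (by omega)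
    ((thm_Rel W).2.2.2.2.1 4 hD.ok)).symm
  have u1 : ∀ j ≤ 4, c j = c 1 → j = 1 := by
    intro j hj h
    interval_cases j
    · exact absurd h (ne _ _ p0 p1)
    · rfl
    · exact absurd h (ne _ _ p2 p1)
    · exact absurd h.symm hN.ne13
    · exact absurd h (ne _ _ p4 p1)
  have u3 : ∀ j ≤ 4, c j = c 3 → j = 3 := by
    intro j hj h
    interval_cases j
    · exact absurd h (ne _ _ p0 p3)
    · exact absurd h hN.ne13
    · exact absurd h (ne _ _ p2 p3)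
    · rfl
    · exact absurd h (ne _ _ p4 p3)
  rcases cb_find hPALL hIB e pr c W x sd 1 hN hS (by omega) (by omega) u1 p1 h0 h2 hs with hsp |
    ⟨p, ⟨ap, hap, hap'⟩, pb, prr, pl, psd, pe, ppl, pt⟩
  · exact Or.inl hsp
  rcases cb_find hPALL hIB e pr c W x sd 3 hN hS (by omega) (by omega) u3 p3 h2
    (by show c 4 ≠ x; rw [h40]; exact h0) (by show sd (c 2) ≠ sd (c 4); rw [h40]; exact hs.symm)
    with hsp | ⟨q, ⟨aq, haq, haq'⟩, qb, qrr, ql, qsd, qe, qpl, qt⟩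
  · exact Or.inl hsp
  right
  have hpl1 : p.l ≠ c 1 := ne _ _ ppl p1
  have hpr1 : p.r ≠ c 1 := by rw [prr]; exact ne _ _ hx p1
  have hql3 : q.l ≠ c 3 := ne _ _ qpl p3
  have hqr3 : q.r ≠ c 3 := by rw [qrr]; exact ne _ _ hx p3
  have corner : ∀ {r b : Cr κ} {z : κ}, cb_R r b → r.b = z →
      (b.l = z ∨ b.b = z ∨ b.r = z ∨ b.t = z) := by
    rintro r b z (h | h | h | h) hb
    · rw [h]; exact Or.inr (Or.inl hb)
    · rw [h]; exact Or.inr (Or.inr (Or.inl hb))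
    · rw [h]; exact Or.inr (Or.inr (Or.inr hb))
    · rw [h]; exact Or.inl hb
  -- `p` at the gap 1
  obtain ⟨p', V1, p'b, p'r, hV1, I1⟩ := all_T1 W 4 c (c 1) hD.ok hD.vl (hN.fa _) 1 (by omega) rfl
    ap hap (corner hap' pb)
  obtain rfl : p' = p := cb_rot hap' p'r p'b hpl1 hpr1 pt
  obtain ⟨D1, -, -, -⟩ := all_Isl.2.1 e pr c 4 1 p' V1 (by omega) (all_Fa.2.1 e pr c 4 W _ I1 hD)
  have F1 : ∀ y, y ≠ c 1 → Fa y (isc 1 p' c) 8 V1 := fun y hy =>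
    all_Isl.2.2.1 y c 4 1 p' V1 (by omega) hV1 (all_Fa.2.2.1 y c 4 W _ I1 (hN.fa y)) p'b
      (by rw [p'b]; exact hy.symm)
  -- `q` is a letter of `V1`
  obtain ⟨b, hb, hbq⟩ := (thm_Mp.2.2.2.2.1 (α := Cr κ)) (cb_R q) (cb_R_rot q) 4 W _ I1
    ⟨aq, haq, haq'⟩
  have hbV : Lt b V1 := by
    rcases cor_lt hb with h | h
    · exfalso
      have h3 : Ev e q q.l x := Or.inl ⟨qe, Or.inl ⟨rfl, qrr⟩⟩
      have h4 : Ev e b q.l x := cor_rot (fun b => Ev e b q.l x) (fun b => cor_ev e q.l x b) hbq h3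
      rw [h] at h4
      rcases h4 with ⟨_, h5 | h5⟩ | ⟨h5, _⟩
      · apply hs
        have h6 : sd p'.l = sd q.l := by rw [h5.1]
        rw [psd, qsd] at h6
        exact h6
      · exact pl h5.1
      · exact h5 pe
    · exact h
  -- `q` at the gap 7
  obtain ⟨q', V2, q'b, q'r, hV2, I2⟩ := all_T1 V1 8 (isc 1 p' c) (c 3) D1.ok D1.vl
    (F1 _ hN.ne13.symm) 7 (by omega) (by simp [isc]) b hbV (corner hbq qb)
  obtain rfl : q' = q := cb_rot hbq q'r q'b hql3 hqr3 qt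
  obtain ⟨D2, -, -, -⟩ := all_Isl.2.1 e pr (isc 1 p' c) 8 7 q' V2 (by omega)
    (all_Fa.2.1 e pr _ 8 V1 _ I2 D1)
  have hx1 : x ≠ c 1 := ne _ _ hx p1
  have hx3 : x ≠ c 3 := ne _ _ hx p3
  have F2 : Fa x (isc 7 q' (isc 1 p' c)) 12 V2 :=
    all_Isl.2.2.1 x (isc 1 p' c) 8 7 q' V2 (by omega) hV2
      (all_Fa.2.2.1 x _ 8 V1 _ I2 (F1 x hx1)) (by rw [q'b]; simp [isc])
      (by rw [q'b]; exact hx3.symm)
  have R2 : Rel V2 4 10 := all_Fa.2.2.2.1 x _ 12 V2 D2.ok D2.vl F2 4 10 (by omega) (by omega)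
    (by simp [isc, prr]) (by simp [isc, qrr])
  obtain ⟨A, B, hA, hB, -, I3⟩ := all_SL.1 V2 12 D2.ok 4 10 (by omega) (by omega) R2
  obtain ⟨oR, oL, I4⟩ := cb_iso p' q' A B hA hB
  refine ⟨_, _, oR, oL, cb_nX 4 q' _, cb_nX 1 p' _, ?_⟩
  have j1 : PIso 4 W (isl 1 p' ++ (isl 7 q' ++ (shd 4 A ++ B))) :=
    I1.trans (PIso.left (tg_okisl p' (by omega)) (I2.trans (PIso.left (tg_okisl q' (by omega)) I3)))
  exact j1.trans I4

end Pool.GEN
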