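import Pool.Agent.GEN.St

/-!
# GEN, module CHG: a region of the other parity at crossings of both sides
-/

set_option autoImplicit false

namespace Pool.GEN

open Pool.LSG

private theorem chg_symm {κ : Type} {e : Bool} {a : Cr κ} {x y : κ} (h : Ev e a x y) :
    Ev e a y x := by
  rcases h with ⟨h, h1 | h1⟩ | ⟨h, h1 | h1⟩
  · exact Or.inl ⟨h, Or.inr h1⟩
  · exact Or.inl ⟨h, Or.inl h1⟩
  · exact Or.inr ⟨h, Or.inr h1⟩
  · exact Or.inr ⟨h, Or.inl h1⟩

private theorem chg_ex {κ : Type} (e : Bool) (a : Cr κ) : ∃ x y, Ev e a x y := by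
  by_cases h : a.p = e
  · exact ⟨a.l, a.r, Or.inl ⟨h, Or.inl ⟨rfl, rfl⟩⟩⟩
  · exact ⟨a.b, a.t, Or.inr ⟨h, Or.inl ⟨rfl, rfl⟩⟩⟩

private theorem chg_pr {κ : Type} {e : Bool} {pr : κ → Bool} {a : Cr κ} {y z : κ}
    (hg : Gl e pr a) (h : Ev (!e) a y z) : pr y = false := by
  obtain ⟨g1, g2, g3, g4⟩ := hg
  rcases h with ⟨h, ⟨h1, -⟩ | ⟨-, h1⟩⟩ | ⟨h, ⟨h1, -⟩ | ⟨-, h1⟩⟩
  · rw [← h1, g1, h]
    cases e <;> rfl
  · rw [← h1, g2, h]
    cases e <;> rfl
  · have h2 : a.p = e := by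
      revert h
      cases a.p <;> cases e <;> simp
    rw [← h1, g3, h2]
    simp
  · have h2 : a.p = e := by
      revert h
      cases a.p <;> cases e <;> simp
    rw [← h1, g4, h2]
    simp

theorem thm_CHG : St_CHG := by
  intro κ e pr c W x sd hN _ hL
  -- every crossing has a label
  have hlab : ∀ a, Lt a W → ∃ β, Lab e x sd a β := by
    intro a ha
    obtain ⟨u, v, h⟩ := chg_ex e a
    by_cases hu : u = x
    · by_cases hv : v = x
      · rw [hu, hv] at h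
        exact absurd h (hN.non a e x ha)
      · exact ⟨sd v, v, u, chg_symm h, hv, rfl⟩
    · exact ⟨sd u, u, v, h, hu, rfl⟩
  obtain ⟨a1, ha1, hl1⟩ := hL true
  obtain ⟨a0, ha0, hl0⟩ := hL false
  obtain ⟨y1, z1, hy1⟩ := chg_ex (!e) a1
  obtain ⟨y0, z0, hy0⟩ := chg_ex (!e) a0
  have r1 : Rch e W (c 1) y1 := (hN.rchO a1 y1 z1 ha1 hy1).1
  have r0 : Rch e W (c 1) y0 := (hN.rchO a0 y0 z0 ha0 hy0).1
  have hsym : ∀ u v, Rch e W u v → Rch e W v u := by
    intro u v h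
    induction h with
    | refl => exact Relation.ReflTransGen.refl
    | tail _ hs ih =>
      obtain ⟨a, ha, h1⟩ := hs
      exact Relation.ReflTransGen.head ⟨a, ha, chg_symm h1⟩ ih
  have h10 : Rch e W y1 y0 := (hsym _ _ r1).trans r0
  -- the wanted region
  by_contra hno
  have hno' : ∀ z, Rch e W (c 1) z → (∃ a z', Lt a W ∧ Lab e x sd a true ∧ Ev (!e) a z z') →
      (∃ a z', Lt a W ∧ Lab e x sd a false ∧ Ev (!e) a z z') → False := by
    intro z hz ht hf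
    obtain ⟨a, z', ha, hla, hev⟩ := ht
    refine hno ⟨z, hz, chg_pr (hN.dec.gl a ha) hev, fun β => ?_⟩
    cases β
    · exact hf
    · exact ⟨a, z', ha, hla, hev⟩
  have key : ∀ z, Rch e W y1 z → ∃ a z', Lt a W ∧ Lab e x sd a true ∧ Ev (!e) a z z' := by
    intro z hz
    induction hz with
    | refl => exact ⟨a1, z1, ha1, hl1, hy1⟩
    | @tail b c' hb hs ih =>
      obtain ⟨a, ha, hev⟩ := hs
      obtain ⟨β, hβ⟩ := hlab a ha
      cases β
      · exact (hno' b (r1.trans hb) ih ⟨a, c', ha, hβ, hev⟩).elim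
      · exact ⟨a, b, ha, hβ, chg_symm hev⟩
  exact hno' y0 r0 (key y0 h10) ⟨a0, z0, ha0, hl0, hy0⟩

end Pool.GEN
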