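import Pool.Agent.GEN.St
import Pool.Agent.ALT.Mo.All

/-!
# GEN, CN: the region graphs of a tangle are connected
-/

set_option autoImplicit false

namespace Pool.GEN

open LaurentPolynomial Pool.Agent.ARB Pool.Agent.Helper2 Pool.ALT Pool.LSP Pool.LSG

private theorem cn_ab {V E : Type} [DecidableEq E] (g : Gr V E) (A : Finset E)
    (h : g.sp ⊥ A g.a g.b) : g.sp ⊥ A ⊔ g.ab = g.sp ⊥ A :=
  sup_eq_left.2 ((pr_le_iff _ _ _).2 h)

theorem thm_CN : St_CN := by
  intro w h hE hO h1 h2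
  constructor
  · obtain ⟨hno, hok⟩ := thm_JO.1 (seq (Finset.univ : Finset (Fin (nX w)))) w 2 2 h
    obtain ⟨k, t, hkt⟩ := thm_NF _ hno hok
    obtain ⟨-, h3, h4⟩ := mo_CT w h Finset.univ k t hkt
    rw [Finset.sdiff_self, Gr.sp_empty] at h4
    have h5 : t = true := by
      cases t with
      | true => rfl
      | false => exact absurd (h4.2 rfl) hO
    rw [← h2, cn_ab _ _ (h3.2 h5)]
  · obtain ⟨hno, hok⟩ := thm_JO.1 (seq (∅ : Finset (Fin (nX w)))) w 2 2 h
    obtain ⟨k, t, hkt⟩ := thm_NF _ hno hok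
    obtain ⟨-, h3, h4⟩ := mo_CT w h ∅ k t hkt
    rw [Gr.sp_empty] at h3
    rw [Finset.sdiff_empty] at h4
    have h5 : t = false := by
      cases t with
      | false => rfl
      | true => exact absurd (h3.2 rfl) hE
    rw [← h1, cn_ab _ _ (h4.2 h5)]

end Pool.GEN
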