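import Pool.Agent.GEN.St

/-!
# GEN, DLV: alternating tangles are combinations of leaves, or have a factor
-/

set_option autoImplicit false

namespace Pool.GEN

open LaurentPolynomial Pool.Agent.ARB Pool.Agent.Helper2 Pool.ALT Pool.LSP Pool.LSG

private theorem dlv_nX (u v : Word) : nX (u ++ v) = nX u + nX v := by
  induction u with
  | nil => simp [nX]
  | cons s u ih =>
    obtain ⟨k, i⟩ := s
    cases k with
    | U => simpa [nX] using ih
    | N => simpa [nX] using ih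
    | X p => simp only [List.cons_append, nX, ih]; omega

private theorem dlv_ok {V : Word} (h : Ok V 4 0) : Ok (wV V) 2 2 :=
  ⟨by decide, by decide, h.add 2⟩

private theorem dlv_alt {e : Bool} {V : Word} (h : AltW e V) : AltW e (wV V) := by
  intro p i hi
  have h1 : pX i p ∈ V := by
    rcases List.mem_cons.1 hi with h1 | h1
    · simp at h1
    · rcases List.mem_cons.1 h1 with h2 | h2
      · simp at h2
      · exact h2
  exact h p i h1

private theorem dlv_iso {V V' : Word} (h : Iso 4 V V') : Iso 2 (wV V) (wV V') :=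
  Iso.left (z := [pU 2, pU 3]) (k := 6) ⟨by decide, by decide, rfl⟩ (h.add 2)

/-- closing and opening the upper ends -/
private theorem dlv_cl {w : Word} (hw : Ok w 2 2) : Iso 2 (wV (w ++ [pN 1, pN 0])) w := by
  have hU : Ok [pU 0, pU 1] 0 4 := ⟨by decide, by decide, rfl⟩
  have h1 : Iso 2 (w ++ [pU 2, pU 3]) ([pU 2, pU 3] ++ w) := thm_Comm w [pU 0, pU 1] 2 2 0 4 hw hU
  have h2 : Iso 2 (([pU 2, pU 3] ++ w) ++ [pN 1, pN 0]) ((w ++ [pU 2, pU 3]) ++ [pN 1, pN 0]) :=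
    h1.symm.right _
  have h3 : Iso 4 [pN 1, pU 1] [pU 3, pN 1] := Iso.swap (n := 4) .N .U 1 3 (by decide) (by decide)
  have h4 : Iso 2 ([pU 2] ++ ([pU 3, pN 1] ++ [pN 0])) ([pU 2] ++ ([pN 1, pU 1] ++ [pN 0])) :=
    Iso.left (k := 4) ⟨by decide, rfl⟩ (h3.symm.right _)
  have h5 : Iso 2 ([pU 2, pN 1] ++ [pU 1, pN 0]) ([] ++ [pU 1, pN 0]) :=
    (Iso.zag (n := 2) (i := 1) (by omega)).right _
  have h6 : Iso 2 [pU 1, pN 0] [] := Iso.zag (n := 2) (i := 0) (by omega)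
  have h7 : Iso 2 ([pU 2, pU 3] ++ [pN 1, pN 0]) [] := h4.trans (h5.trans h6)
  have h8 : Iso 2 (w ++ ([pU 2, pU 3] ++ [pN 1, pN 0])) (w ++ []) := Iso.left hw h7
  rw [List.append_nil] at h8
  rw [List.append_assoc, List.append_assoc] at h2
  exact h2.trans h8

/-- without crossings two opposite regions are equal -/
private theorem dlv_zero {w : Word} (h : Ok w 2 2) (h0 : nX w = 0) :
    (gE w h).a = (gE w h).b ∨ (gO w h).a = (gO w h).b := by
  obtain ⟨hno, hok⟩ := thm_JO.1 (seq (∅ : Finset (Fin (nX w)))) w 2 2 h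
  obtain ⟨k, t, hkt⟩ := thm_NF _ hno hok
  obtain ⟨-, h1, h2⟩ := mo_CT w h ∅ k t hkt
  have he : IsEmpty (Fin (nX w)) := by rw [h0]; infer_instance
  have hu : (Finset.univ \ ∅ : Finset (Fin (nX w))) = ∅ := Finset.eq_empty_of_isEmpty _
  rw [Gr.sp_empty] at h1
  rw [hu, Gr.sp_empty] at h2
  cases t with
  | true => exact Or.inl (h1.2 rfl)
  | false => exact Or.inr (h2.2 rfl)

private theorem dlv_mono {n m : ℕ} {w : Word} (h : GoodT n w) (hnm : n ≤ m) : GoodT m w := by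
  obtain ⟨T, h1, h2⟩ := h
  exact ⟨T, fun w' hw' => ⟨(h1 w' hw').1, (h1 w' hw').2.trans hnm⟩, h2⟩

/-- the claim for a word `w`, with leaves with at most `n` crossings -/
private def dlv_P (n : ℕ) (w : Word) : Prop := GoodT n w ∨ FacP w

private theorem dlv_P_iso (hPR : St_PR) {n m : ℕ} {w w' : Word} (hnm : n ≤ m) (hw : Ok w 2 2)
    (h : Iso 2 w w') (hP : dlv_P n w) : dlv_P m w' := by
  rcases hP with hP | hP
  · obtain ⟨T, h1, h2⟩ := dlv_mono hP hnm
    exact Or.inl ⟨T, h1, h.symm.trans h2⟩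
  · exact Or.inr (hPR.2.2.2.2.2.2 w w' hw h hP)

private theorem dlv_P_sum (hPR : St_PR) {n : ℕ} {w w' : Word} (hw : Ok w 2 2) (hw' : Ok w' 2 2)
    (hP : dlv_P n w) (hP' : dlv_P n w') : dlv_P n (w ++ w') := by
  rcases hP with hP | hP
  · rcases hP' with hP' | hP'
    · obtain ⟨T, h1, h2⟩ := hP
      obtain ⟨T', h1', h2'⟩ := hP'
      refine Or.inl ⟨.sum T T', ?_, congS _ _ _ _ hw (h2.ok hw) h2 h2'⟩
      rintro w'' (hw'' | hw'')
      · exact h1 w'' hw''
      · exact h1' w'' hw''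
    · exact Or.inr (hPR.2.2.2.2.1 w' w hw' hw hP')
  · exact Or.inr (hPR.2.2.2.1 w w' hw hw' hP)

private theorem dlv_P_rot (hPR : St_PR) {n : ℕ} {w : Word} (hw : Ok w 2 2)
    (hP : dlv_P n w) : dlv_P n (rotW w) := by
  rcases hP with ⟨T, h1, h2⟩ | hP
  · exact Or.inl ⟨.rot T, h1, congR _ _ h2⟩
  · exact Or.inr (hPR.2.2.2.2.2.1 w hw hP)

/-- the cases of the decomposition -/
private theorem dlv_case (hPR : St_PR) (hFO : St_FO) (hSM : St_SM) (n : ℕ)
    (ih : ∀ (e : Bool) (V : Word), Ok V 4 0 → AltW e V → nX V < n → dlv_P (nX V) (wV V))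
    (e : Bool) (V : Word) (hV : Ok V 4 0) (hA : AltW e V) (hn : nX V = n)
    (h : SplW e V ∨ FacW e V ∨ SumW e V) : dlv_P n (wV V) := by
  obtain ⟨h1, h2⟩ := hFO e V hV hA
  rcases h with h | h | h
  · exact Or.inr (h1 h)
  · rcases h2 h with h3 | ⟨V', h3, h4, h5, h6⟩
    · exact Or.inr h3
    · exact dlv_P_iso hPR (by omega) (dlv_ok h3) (dlv_iso h6).symm (ih e V' h3 h4 (by omega))
  · obtain ⟨R, M, h3, h4, h5, h6, h7, h8, h9⟩ := hSM e V hV hA h
    have hM := ih (!e) M h4 h6 (by omega)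
    have hR0 : Ok (R ++ [pN 1, pN 0]) 4 0 := (h3.add 2).append ⟨by decide, by decide, rfl⟩
    have hR1 : AltW (!e) (R ++ [pN 1, pN 0]) := by
      intro p i hi
      rcases List.mem_append.1 hi with hi | hi
      · exact h5 p i hi
      · simp at hi
    have hR2 : nX (R ++ [pN 1, pN 0]) = nX R := by
      rw [dlv_nX]; rfl
    have hR := ih (!e) _ hR0 hR1 (by omega)
    have hR' : dlv_P n R := dlv_P_iso hPR (by omega) (dlv_ok hR0) (dlv_cl h3) hR
    have hM' : dlv_P n (wV M) := dlv_P_iso hPR (by omega) (dlv_ok h4) (Iso.refl _ _) hM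
    have hS := dlv_P_rot hPR (h3.append (dlv_ok h4)) (dlv_P_sum hPR h3 (dlv_ok h4) hR' hM')
    exact dlv_P_iso hPR le_rfl (ok_rotW (h3.append (dlv_ok h4))) h9.symm hS

private theorem dlv_main (hPR : St_PR) (hFLT : St_FLT) (hFO : St_FO) (hRTW : St_RTW)
    (hSM : St_SM) (hRED2 : St_RED2) (hSTEP : St_STEP) (n : ℕ) : ∀ (e : Bool) (V : Word),
    Ok V 4 0 → AltW e V → nX V = n → dlv_P n (wV V) := by
  induction n using Nat.strong_induction_on with
  | _ n ih0 =>
    have ih : ∀ (e : Bool) (V : Word), Ok V 4 0 → AltW e V → nX V < n → dlv_P (nX V) (wV V) :=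
      fun e V h1 h2 h3 => ih0 (nX V) h3 e V h1 h2 rfl
    intro e V hV hA hn
    have hok : Ok (wV V) 2 2 := dlv_ok hV
    have hal : AltW e (wV V) := dlv_alt hA
    have hnX : nX (wV V) = nX V := rfl
    rcases hFLT e (wV V) hok hal with ⟨hc1, hc2⟩ | hF
    swap
    · exact Or.inr hF
    by_cases hab : (gE _ hok).a = (gE _ hok).b ∨ (gO _ hok).a = (gO _ hok).b
    · rcases hRED2 e V hV hA hok hab with h | h
      · exact Or.inl (dlv_mono h (Nat.zero_le _))
      · exact Or.inr h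
    rw [not_or] at hab
    have hn1 : 1 ≤ nX V := by
      by_contra h0
      rcases dlv_zero hok (by omega) with h | h
      · exact hab.1 h
      · exact hab.2 h
    rcases hSTEP e V hV hA hn1 hok hab.1 hab.2 hc1 hc2 with
      ⟨V', h1, h2, h3, h4⟩ | ⟨A, B, h1, h2, h3, h4, h5, h6⟩ | h | h | h
    · exact dlv_P_iso hPR (by omega) (dlv_ok h1) (dlv_iso h4).symm (ih e V' h1 h2 (by omega))
    · have hPA : dlv_P n (wV A) :=
        dlv_P_iso hPR (by omega) (dlv_ok h1) (Iso.refl _ _) (ih e A h1 h3 (by omega))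
      have hPB : dlv_P n (wV B) :=
        dlv_P_iso hPR (by omega) (dlv_ok h2) (Iso.refl _ _) (ih e B h2 h4 (by omega))
      have hX : dlv_P n [pX 0 e] := Or.inl ⟨.cross e, fun w' hw' => hw'.elim, Iso.refl _ _⟩
      have hokX : Ok [pX 0 e] 2 2 := ⟨Nat.le_refl 2, rfl⟩
      have h7 := dlv_P_sum hPR hokX (dlv_ok h2) hX hPB
      have h8 := dlv_P_sum hPR (dlv_ok h1) (hokX.append (dlv_ok h2)) hPA h7
      exact dlv_P_iso hPR le_rfl ((dlv_ok h1).append (hokX.append (dlv_ok h2))) h6.symm h8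
    · refine Or.inl ⟨.leaf (wV V), ?_, Iso.refl _ _⟩
      intro w' hw'
      have hw'' : w' = wV V := hw'
      subst hw''
      exact ⟨h, by omega⟩
    · exact dlv_case hPR hFO hSM n ih e V hV hA hn h
    · obtain ⟨-, h2, h3, h4, h5⟩ := hRTW V hV
      have h6 := dlv_case hPR hFO hSM n ih (!e) (rt V) h2 (h4 e hA) (by omega) h
      exact dlv_P_iso hPR le_rfl (ok_rotW (dlv_ok h2)) h5.symm (dlv_P_rot hPR (dlv_ok h2) h6)

/-- [DLV] -/
theorem thm_DLV (hPR : St_PR) (hFLT : St_FLT) (hFO : St_FO) (hRTW : St_RTW) (hSM : St_SM)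
    (hRED2 : St_RED2) (hSTEP : St_STEP) : St_DLV := by
  refine ⟨fun e V hV hA => dlv_main hPR hFLT hFO hRTW hSM hRED2 hSTEP (nX V) e V hV hA rfl,
    fun e w hw hA => ?_⟩
  have hR0 : Ok (w ++ [pN 1, pN 0]) 4 0 := (hw.add 2).append ⟨by decide, by decide, rfl⟩
  have hR1 : AltW e (w ++ [pN 1, pN 0]) := by
    intro p i hi
    rcases List.mem_append.1 hi with hi | hi
    · exact hA p i hi
    · simp at hi
  have hR2 : nX (w ++ [pN 1, pN 0]) = nX w := by
    rw [dlv_nX]; rfl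
  have h1 := dlv_main hPR hFLT hFO hRTW hSM hRED2 hSTEP _ e _ hR0 hR1 rfl
  exact dlv_P_iso hPR (by omega) (dlv_ok hR0) (dlv_cl hw) h1

end Pool.GEN
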