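import Pool.Agent.GEN.St

/-!
# GEN [DS]: the decomposition
-/

set_option autoImplicit false

namespace Pool.GEN

theorem thm_DS (hCHG : St_CHG) (hCA : St_CA) (hCB : St_CB) : St_DS := by
  intro κ e pr c W x sd hN hS hx hβ
  obtain ⟨z, hz1, hz2, hz3⟩ := hCHG e pr c W x sd hN hS hβ
  have key : ∀ β : Bool, (c 0 = x ∨ sd (c 0) ≠ β) → (c 2 = x ∨ sd (c 2) ≠ β) →
      SplD 4 W ∨ FacD 4 W ∨ SumD W := by
    intro β h0 h2
    rcases hCA e pr c W x z sd β hN hS hx hz1 hz2 hz3 h0 h2 with h | h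
    · exact Or.inl h
    · exact Or.inr (Or.inl h)
  by_cases h0 : c 0 = x
  · exact key (!sd (c 2)) (Or.inl h0) (Or.inr (by cases sd (c 2) <;> simp))
  by_cases h2 : c 2 = x
  · exact key (!sd (c 0)) (Or.inr (by cases sd (c 0) <;> simp)) (Or.inl h2)
  by_cases h3 : sd (c 0) = sd (c 2)
  · exact key (!sd (c 0)) (Or.inr (by cases sd (c 0) <;> simp))
      (Or.inr (by rw [h3]; cases sd (c 2) <;> simp))
  · rcases hCB e pr c W x sd hN hS hx h0 h2 h3 with h | h
    · exact Or.inl h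
    · exact Or.inr (Or.inr h)

end Pool.GEN
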