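import Pool.Agent.GEN.St

/-!
# GEN: an interior odd region can be brought to the boundary
-/

set_option autoImplicit false

namespace Pool.GEN

open Pool.Agent.ARB Pool.Agent.Helper2 Pool.ALT Pool.LSP Pool.LSG

section exp

variable {κ : Type}

/-- a path of length `n` -/
def exp_Pth (e : Bool) (W : Wd (Cr κ)) : ℕ → κ → κ → Prop
  | 0, y, z => y = z
  | n + 1, y, z => ∃ y', (∃ a, Lt a W ∧ Ev (!e) a y y') ∧ exp_Pth e W n y' z

theorem exp_pth_of_rch {e : Bool} {W : Wd (Cr κ)} {y z : κ} (h : Rch e W y z) :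
    ∃ n, exp_Pth e W n y z := by
  induction h using Relation.ReflTransGen.head_induction_on with
  | refl => exact ⟨0, rfl⟩
  | head h _ ih =>
    obtain ⟨n, hn⟩ := ih
    exact ⟨n + 1, _, h, hn⟩

theorem exp_R4_rot (b a : Cr κ) : T1.R4 b (Rt.r a) ↔ T1.R4 b a := by
  have h4 : ∀ x : Cr κ, Rt.r (Rt.r (Rt.r (Rt.r x))) = x := Rt.r4
  unfold T1.R4
  constructor
  · rintro (h | h | h | h)
    · right; right; right
      rw [← h4 a, h]
    · left
      rw [← h4 a, h, h4]
    · right; left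
      rw [← h4 a, h, h4]
    · right; right; left
      rw [← h4 a, h, h4]
  · rintro (h | h | h | h)
    · right; left; rw [h]
    · right; right; left; rw [h]
    · right; right; right; rw [h]
    · left; rw [h, h4]

theorem exp_R4_refl (a : Cr κ) : T1.R4 a a := Or.inl rfl

theorem exp_R4_trans {a b c : Cr κ} (h : T1.R4 a b) (h' : T1.R4 b c) : T1.R4 a c := by
  rcases h' with h' | h' | h' | h'
  · rw [h']; exact h
  · rw [h', exp_R4_rot]; exact h
  · rw [h', exp_R4_rot, exp_R4_rot]; exact h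
  · rw [h', exp_R4_rot, exp_R4_rot, exp_R4_rot]; exact h

theorem exp_ev_R4 {f : Bool} {a b : Cr κ} (h : T1.R4 a b) (u v : κ) : Ev f a u v ↔ Ev f b u v := by
  constructor
  · intro h1
    exact cor_rot (fun b => Ev f b u v) (fun b => cor_ev f u v b) h h1
  · intro h1
    by_contra h2
    exact cor_rot (fun b => ¬ Ev f b u v) (fun b => not_congr (cor_ev f u v b)) h h2 h1

/-- one step: pull a crossing to the boundary, with all information -/
theorem exp_step (e : Bool) (pr : κ → Bool) (c : ℕ → κ) (N g : ℕ) (w : Wd (Cr κ)) (z u : κ)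
    (a : Cr κ) (hD : Dec e pr c N w) (hg : g ≤ N) (hc : c g = z) (hF : Fa z c N w) (ha : Lt a w)
    (hE : Ev (!e) a z u) (hu : u ≠ z) (hf : (g + 1) % 2 = 0) :
    ∃ (a' : Cr κ) (V : Wd (Cr κ)), a'.b = z ∧ a'.t = u ∧ a'.p = e ∧ T1.R4 a a' ∧
      PIso N w (isl g a' ++ V) ∧ Dec e pr (isc g a' c) (N + 4) V ∧ Gl e pr a' ∧
      (∀ z', z' ≠ z → Fa z' c N w → Fa z' (isc g a' c) (N + 4) V) ∧
      ∀ b, Lt b w → T1.R4 b a' ∨ ∃ b', Lt b' V ∧ T1.R4 b b' := by
  obtain ⟨a', V, hb, hrot, hV, hI⟩ := all_T1 w N c z hD.ok hD.vl hF g hg hc a ha (cor_corner hE)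
  have hE' : Ev (!e) a' z u := (exp_ev_R4 hrot z u).1 hE
  obtain ⟨hDV, hb', hG, hpos⟩ := all_Isl.2.1 e pr c N g a' V hg (all_Fa.2.1 e pr c N w _ hI hD)
  have hp : a'.p = e := hpos.2 hf
  have hp' : a'.p ≠ !e := by rw [hp]; cases e <;> simp
  refine ⟨a', V, hb, cor_opp hp' hb hE' hu, hp, hrot, hI, hDV, hG, ?_, ?_⟩
  · intro z' hz hF'
    refine all_Isl.2.2.1 z' c N g a' V hg hV (all_Fa.2.2.1 z' c N w _ hI hF') hb' ?_
    rw [hb]
    exact hz.symm
  · intro b hb1
    obtain ⟨b2, h1, h2⟩ := thm_Mp.2.2.2.2.1 (fun x => T1.R4 b x) (fun x => exp_R4_rot b x) N w _ hI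
      ⟨b, hb1, exp_R4_refl b⟩
    rcases cor_lt h1 with h3 | h3
    · left
      rw [h3] at h2
      exact h2
    · exact Or.inr ⟨b2, h3, h2⟩

/-- the state after some steps, with `m` steps to go -/
structure exp_Stg (e : Bool) (pr : κ → Bool) (W : Wd (Cr κ)) (z : κ) (m : ℕ) (P V : Wd (Cr κ))
    (N h : ℕ) (d : ℕ → κ) : Prop where
  okP : Okd P 4 N
  iso : PIso 4 W (P ++ V)
  dec : Dec e pr d N V
  h1 : 1 ≤ h
  hN : h + 1 ≤ N
  odd : pr (d h) = false
  uni : ∀ j ≤ N, d j = d h → j = h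
  pth : exp_Pth e W m (d h) z
  i2 : ∀ j ≤ N, pr (d j) = false → ∀ m' < m, ¬ exp_Pth e W m' (d j) z
  i3 : ∀ a, Lt a W → (∃ a', Lt a' V ∧ T1.R4 a a') ∨
    ∀ u v, Ev (!e) a u v → ∀ m' < m, ¬ exp_Pth e W m' u z ∧ ¬ exp_Pth e W m' v z
  faH : Fa (d h) d N V
  faE : ∀ y, pr y = true → Fa y d N V
  faP : ∀ v, ∀ m' < m, exp_Pth e W m' v z → Fa v d N V

theorem exp_next {e : Bool} {pr : κ → Bool} {W : Wd (Cr κ)} {z : κ} (hGl : ∀ a, Lt a W → Gl e pr a)
    (hNo : NoN W) {m : ℕ} {P V : Wd (Cr κ)} {N h : ℕ} {d : ℕ → κ}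
    (S : exp_Stg e pr W z (m + 1) P V N h d) :
    ∃ (a' : Cr κ) (V' : Wd (Cr κ)), exp_Stg e pr W z m (P ++ isl h a') V' (N + 4) (h + 2)
      (isc h a' d) ∧ Gl e pr a' ∧ (∃ a, Lt a W ∧ T1.R4 a a') ∧
      ∀ a, Lt a W → (∃ b, Lt b V ∧ T1.R4 a b) → T1.R4 a a' ∨ ∃ b', Lt b' V' ∧ T1.R4 a b' := by
  have hh : h ≤ N := by have := S.hN; omega
  have hodd : (h + 1) % 2 = 0 := by
    have h1 := S.dec.pc h hh
    rw [S.odd] at h1
    have h2 : ¬ h % 2 = 0 := by
      intro h3
      simp [h3] at h1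
    omega
  obtain ⟨y', ⟨a, ha, hE⟩, hp⟩ := S.pth
  have hy' : pr y' = false := ((cor_par (hGl a ha)).2 hE).2
  have hne : y' ≠ d h := by
    intro h1
    rw [h1] at hE
    exact hNo a (!e) (d h) ha hE
  obtain ⟨b, hb, hab⟩ : ∃ b, Lt b V ∧ T1.R4 a b := by
    rcases S.i3 a ha with h1 | h1
    · exact h1
    · exact absurd hp (h1 _ _ hE m (by omega)).2
  obtain ⟨a', V', g1, g2, g3, g4, g5, g6, g7, g8, g9⟩ := exp_step e pr d N h V (d h) y' b S.dec hh rfl
    S.faH hb ((exp_ev_R4 hab _ _).1 hE) hne hodd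
  have hrow : isc h a' d (h + 2) = y' := by
    show (if h + 2 ≤ h then d (h + 2) else if h + 2 = h + 1 then a'.l else if h + 2 = h + 2 then a'.t
      else if h + 2 = h + 3 then a'.r else d (h + 2 - 4)) = y'
    rw [if_neg (by omega), if_neg (by omega), if_pos rfl, g2]
  have hl : pr a'.l = true := by
    have h1 := g7.1
    rw [g3] at h1
    simpa using h1
  have hr : pr a'.r = true := by
    have h1 := g7.2.1
    rw [g3] at h1
    simpa using h1
  -- the colours of the new row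
  have hcase : ∀ j ≤ N + 4, (∃ i ≤ N, isc h a' d j = d i) ∨ pr (isc h a' d j) = true ∨ j = h + 2 := by
    intro j hj
    unfold isc
    by_cases h1 : j ≤ h
    · rw [if_pos h1]
      exact Or.inl ⟨j, by omega, rfl⟩
    · rw [if_neg h1]
      by_cases h2 : j = h + 1
      · rw [if_pos h2]
        exact Or.inr (Or.inl hl)
      · rw [if_neg h2]
        by_cases h3 : j = h + 2
        · exact Or.inr (Or.inr h3)
        · rw [if_neg h3]
          by_cases h4 : j = h + 3
          · rw [if_pos h4]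
            exact Or.inr (Or.inl hr)
          · rw [if_neg h4]
            exact Or.inl ⟨j - 4, by omega, rfl⟩
  have hnoP : ∀ m' < m, ¬ exp_Pth e W m' y' z := by
    intro m' hm' h1
    exact S.i2 h hh S.odd (m' + 1) (by omega) ⟨y', ⟨a, ha, hE⟩, h1⟩
  have hnoH : ∀ m' < m + 1, ¬ exp_Pth e W m' (d h) z := S.i2 h hh S.odd
  refine ⟨a', V', ?_, g7, ⟨a, ha, exp_R4_trans hab g4⟩, ?_⟩
  · constructor
    · exact S.okP.append (T1.isl_ok a' hh)
    · rw [List.append_assoc]
      exact S.iso.trans (PIso.left S.okP g5)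
    · exact g6
    · omega
    · have := S.hN; omega
    · rw [hrow]; exact hy'
    · intro j hj h1
      rw [hrow] at h1
      rcases hcase j hj with ⟨i, hi, h2⟩ | h2 | h2
      · exfalso
        rw [h1] at h2
        refine S.i2 i hi (by rw [← h2]; exact hy') m (by omega) ?_
        rw [← h2]
        exact hp
      · rw [h1, hy'] at h2
        exact absurd h2 (by simp)
      · exact h2
    · rw [hrow]; exact hp
    · intro j hj h1 m' hm'
      rcases hcase j hj with ⟨i, hi, h2⟩ | h2 | h2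
      · rw [h2] at h1 ⊢
        exact S.i2 i hi h1 m' (by omega)
      · rw [h1] at h2
        exact absurd h2 (by simp)
      · rw [h2, hrow]
        exact hnoP m' hm'
    · intro a1 ha1
      rcases S.i3 a1 ha1 with ⟨b1, h2, h3⟩ | h2
      · rcases g9 b1 h2 with h4 | ⟨b2, h4, h5⟩
        · right
          intro u v huv m' hm'
          have h5 : Ev (!e) a' u v := (exp_ev_R4 (exp_R4_trans h3 h4) u v).1 huv
          have h6 : (u = d h ∧ v = y') ∨ (u = y' ∧ v = d h) := by
            rcases h5 with ⟨h6, -⟩ | ⟨-, ⟨h6, h7⟩ | ⟨h6, h7⟩⟩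
            · exfalso
              rw [g3] at h6
              revert h6
              cases e <;> simp
            · exact Or.inl ⟨h6.symm.trans g1, h7.symm.trans g2⟩
            · exact Or.inr ⟨h7.symm.trans g2, h6.symm.trans g1⟩
          rcases h6 with ⟨rfl, rfl⟩ | ⟨rfl, rfl⟩
          · exact ⟨hnoH m' (by omega), hnoP m' hm'⟩
          · exact ⟨hnoP m' hm', hnoH m' (by omega)⟩
        · exact Or.inl ⟨b2, h4, exp_R4_trans h3 h5⟩
      · exact Or.inr fun u v huv m' hm' => h2 u v huv m' (by omega)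
    · rw [hrow]
      exact g8 y' hne (S.faP y' m (by omega) hp)
    · intro y hy
      refine g8 y ?_ (S.faE y hy)
      intro h1
      rw [h1, S.odd] at hy
      exact absurd hy (by simp)
    · intro v m' hm' hv
      refine g8 v ?_ (S.faP v m' (by omega) hv)
      intro h1
      rw [h1] at hv
      exact hnoH m' (by omega) hv
  · intro a1 _ h1
    obtain ⟨b1, h2, h3⟩ := h1
    rcases g9 b1 h2 with h4 | ⟨b2, h4, h5⟩
    · exact Or.inl (exp_R4_trans h3 h4)
    · exact Or.inr ⟨b2, h4, exp_R4_trans h3 h5⟩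

/-- a corner of an odd colour -/
theorem exp_odd {e : Bool} {pr : κ → Bool} {a : Cr κ} {z : κ} (hg : Gl e pr a) (hz : pr z = false)
    (hc : T1.Co z a) : ∃ v, Ev (!e) a z v := by
  obtain ⟨g1, g2, g3, g4⟩ := hg
  by_cases hp : a.p = e
  · have hne : a.p ≠ !e := by rw [hp]; cases e <;> simp
    rcases hc with h | h | h | h
    · rw [h, hz] at g1; simp [hp] at g1
    · exact ⟨a.t, Or.inr ⟨hne, Or.inl ⟨h, rfl⟩⟩⟩
    · rw [h, hz] at g2; simp [hp] at g2
    · exact ⟨a.b, Or.inr ⟨hne, Or.inr ⟨rfl, h⟩⟩⟩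
  · have hne : a.p = !e := by
      revert hp
      cases a.p <;> cases e <;> simp
    rcases hc with h | h | h | h
    · exact ⟨a.r, Or.inl ⟨hne, Or.inl ⟨h, rfl⟩⟩⟩
    · rw [h, hz] at g3; simp [hp] at g3
    · exact ⟨a.l, Or.inl ⟨hne, Or.inr ⟨rfl, h⟩⟩⟩
    · rw [h, hz] at g4; simp [hp] at g4

theorem exp_run {e : Bool} {pr : κ → Bool} {W : Wd (Cr κ)} {z : κ} (hGl : ∀ a, Lt a W → Gl e pr a)
    (hNo : NoN W) : ∀ (m : ℕ) {P V : Wd (Cr κ)} {N h : ℕ} {d : ℕ → κ},
    exp_Stg e pr W z (m + 1) P V N h d →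
    ∃ (P' V' : Wd (Cr κ)) (N' h' : ℕ) (d' : ℕ → κ), exp_Stg e pr W z 1 P' V' N' h' d' := by
  intro m
  induction m with
  | zero =>
    intro P V N h d S
    exact ⟨P, V, N, h, d, S⟩
  | succ m ih =>
    intro P V N h d S
    obtain ⟨a', V', S', -⟩ := exp_next hGl hNo S
    exact ih S'

end exp

/-- [EXP] -/
theorem thm_EXP : St_EXP := by
  intro κ e pr c W z hN hR hz1 hz3
  have hGl : ∀ a, Lt a W → Gl e pr a := hN.dec.gl
  have hex : ∃ n, exp_Pth e W n (c 1) z ∨ exp_Pth e W n (c 3) z := by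
    obtain ⟨n, hn⟩ := exp_pth_of_rch hR
    exact ⟨n, Or.inl hn⟩
  classical
  obtain ⟨n, hn, hmin⟩ : ∃ n, (exp_Pth e W n (c 1) z ∨ exp_Pth e W n (c 3) z) ∧
      ∀ m < n, ¬ (exp_Pth e W m (c 1) z ∨ exp_Pth e W m (c 3) z) :=
    ⟨Nat.find hex, Nat.find_spec hex, fun m hm => Nat.find_min hex hm⟩
  have hn0 : n ≠ 0 := by
    rintro rfl
    rcases hn with h | h
    · exact hz1 h.symm
    · exact hz3 h.symm
  obtain ⟨m, rfl⟩ : ∃ m, n = m + 1 := ⟨n - 1, by omega⟩
  have p0 : pr (c 0) = true := by have := hN.dec.pc 0 (by omega); simpa using this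
  have p1 : pr (c 1) = false := by have := hN.dec.pc 1 (by omega); simpa using this
  have p2 : pr (c 2) = true := by have := hN.dec.pc 2 (by omega); simpa using this
  have p3 : pr (c 3) = false := by have := hN.dec.pc 3 (by omega); simpa using this
  have p4 : pr (c 4) = true := by have := hN.dec.pc 4 (by omega); simpa using this
  have hj : ∀ j ≤ 4, pr (c j) = false → j = 1 ∨ j = 3 := by
    intro j hj h1
    have h2 : j = 0 ∨ j = 1 ∨ j = 2 ∨ j = 3 ∨ j = 4 := by omega
    rcases h2 with rfl | rfl | rfl | rfl | rfl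
    · rw [p0] at h1; simp at h1
    · exact Or.inl rfl
    · rw [p2] at h1; simp at h1
    · exact Or.inr rfl
    · rw [p4] at h1; simp at h1
  have hstart : ∀ h, h = 1 ∨ h = 3 → exp_Pth e W (m + 1) (c h) z →
      exp_Stg e pr W z (m + 1) [] W 4 h c := by
    intro h hh hp
    have hodd : pr (c h) = false := by
      rcases hh with rfl | rfl
      · exact p1
      · exact p3
    constructor
    · rfl
    · exact PIso.refl 4 W
    · exact hN.dec
    · omega
    · omega
    · exact hodd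
    · intro j hj4 h1
      have h2 := hj j hj4 (by rw [h1]; exact hodd)
      rcases hh with rfl | rfl <;> rcases h2 with rfl | rfl
      · rfl
      · exact absurd h1.symm hN.ne13
      · exact absurd h1 hN.ne13
      · rfl
    · exact hp
    · intro j hj4 h1 m' hm' h2
      rcases hj j hj4 h1 with rfl | rfl
      · exact hmin m' hm' (Or.inl h2)
      · exact hmin m' hm' (Or.inr h2)
    · intro a ha
      exact Or.inl ⟨a, ha, exp_R4_refl a⟩
    · exact hN.fa _
    · exact fun y _ => hN.fa y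
    · exact fun v _ _ _ => hN.fa v
  obtain ⟨h0, S0⟩ : ∃ h, exp_Stg e pr W z (m + 1) [] W 4 h c := by
    rcases hn with h | h
    · exact ⟨1, hstart 1 (Or.inl rfl) h⟩
    · exact ⟨3, hstart 3 (Or.inr rfl) h⟩
  obtain ⟨P, V, N, h, d, S⟩ := exp_run hGl hN.non m S0
  obtain ⟨k0, V', S', g1, g2, g3⟩ := exp_next hGl hN.non S
  have hz : isc h k0 d (h + 2) = z := S'.pth
  have e2 : isc h k0 d (h + 2) = k0.t := by
    show (if h + 2 ≤ h then d (h + 2) else if h + 2 = h + 1 then k0.l else if h + 2 = h + 2 then k0.t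
      else if h + 2 = h + 3 then k0.r else d (h + 2 - 4)) = k0.t
    rw [if_neg (by omega), if_neg (by omega), if_pos rfl]
  have e1 : isc h k0 d (h + 2 - 1) = k0.l := by
    show (if h + 1 ≤ h then d (h + 1) else if h + 1 = h + 1 then k0.l else if h + 1 = h + 2 then k0.t
      else if h + 1 = h + 3 then k0.r else d (h + 1 - 4)) = k0.l
    rw [if_neg (by omega), if_pos rfl]
  have e3 : isc h k0 d (h + 2 + 1) = k0.r := by
    show (if h + 3 ≤ h then d (h + 3) else if h + 3 = h + 1 then k0.l else if h + 3 = h + 2 then k0.t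
      else if h + 3 = h + 3 then k0.r else d (h + 3 - 4)) = k0.r
    rw [if_neg (by omega), if_neg (by omega), if_neg (by omega), if_pos rfl]
  have hzo : pr z = false := by
    rw [← hz]
    exact S'.odd
  refine ⟨P ++ isl h k0, V', N + 4, h + 2, isc h k0 d, k0, S'.okP, S'.iso, S'.dec, S'.h1, S'.hN, hz,
    ?_, ?_, S'.faE, g1, e2.symm.trans hz, e1.symm, e3.symm, g2, ?_⟩
  · intro j hj1 h1
    exact S'.uni j hj1 (h1.trans hz.symm)
  · have h1 := S'.faH
    rw [hz] at h1
    exact h1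
  · intro a ha hco
    refine g3 a ha ?_
    rcases S.i3 a ha with h1 | h1
    · exact h1
    · obtain ⟨v, hv⟩ := exp_odd (hGl a ha) hzo hco
      exact absurd rfl (h1 z v hv 0 (by omega)).1

end Pool.GEN
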