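import Pool.Agent.GEN.KpDef
import Pool.Agent.ARB.Basic

/-!
# GEN, knotoids: a trivial factor of a product can be removed (helper24)
-/

set_option autoImplicit false

namespace Pool.GEN

open Pool.Agent.ARB Pool.Agent.ARK

private theorem ki_append {u v : KWord} {n k m : ℕ} (h : KOk u n k) (h' : KOk v k m) :
    KOk (u ++ v) n m := by
  induction u generalizing n with
  | nil =>
    have h1 : n = k := h
    subst h1
    exact h'
  | cons s u ih => exact ⟨h.1, ih h.2⟩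

private theorem ki_inn (k : Kind) : (Kind.emb k).inn = k.inn := by cases k <;> rfl

private theorem ki_out (k : Kind) : (Kind.emb k).out = k.out := by cases k <;> rfl

theorem ki_emb {w : Word} {n m : ℕ} (h : Ok w n m) : KOk (emb w) n m := by
  induction w generalizing n with
  | nil => exact h
  | cons s w ih =>
    refine ⟨?_, ?_⟩
    · show s.i + (Kind.emb s.k).inn ≤ n
      rw [ki_inn]
      exact h.1
    · show KOk (emb w) (n - (Kind.emb s.k).inn + (Kind.emb s.k).out) m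
      rw [ki_inn, ki_out]
      exact ih h.2

private theorem ki_emb_append (u v : Word) : emb (u ++ v) = emb u ++ emb v := List.map_append

private theorem ki_loc {n k l : ℕ} {a b : KWord} (u v : KWord) (h : KLoc a b ∨ KLoc b a)
    (hu : KOk u n k) (ha : KOk a k l) (hb : KOk b k l) :
    KIso n (u ++ (a ++ v)) (u ++ (b ++ v)) :=
  Relation.ReflTransGen.single ⟨u, a, b, v, k, l, rfl, rfl, hu, ha, hb, h⟩

/-- isotopy in a context -/
theorem ki_ctx {n k : ℕ} {a b : KWord} (u v : KWord) (hu : KOk u n k) (h : KIso k a b) :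
    KIso n (u ++ (a ++ v)) (u ++ (b ++ v)) := by
  induction h with
  | refl => exact Relation.ReflTransGen.refl
  | tail _ hs ih =>
    refine ih.tail ?_
    obtain ⟨u', a', b', v', k', l', rfl, rfl, h3, h4, h5, h6⟩ := hs
    refine ⟨u ++ u', a', b', v' ++ v, k', l', ?_, ?_, ki_append hu h3, h4, h5, h6⟩
    · simp only [List.append_assoc]
    · simp only [List.append_assoc]

/-- the first tangle of a product can be changed by an isotopy -/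
theorem ki_first {w w' : Word} (v : KWord) (h : Iso 2 w w') :
    KIso 0 (⟨.B, 0⟩ :: ⟨.U, 1⟩ :: (emb w ++ v)) (⟨.B, 0⟩ :: ⟨.U, 1⟩ :: (emb w' ++ v)) := by
  induction h with
  | refl => exact Relation.ReflTransGen.refl
  | tail _ hs ih =>
    refine ih.trans ?_
    obtain ⟨u, a, b, v', k, l, rfl, rfl, h3, h4, h5, h6⟩ := hs
    have h7 : KOk ([⟨.B, 0⟩, ⟨.U, 1⟩] : KWord) 0 3 := ⟨by decide, by decide, rfl⟩
    have h8 : KOk (([⟨.B, 0⟩, ⟨.U, 1⟩] : KWord) ++ emb u) 0 (k + 1) :=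
      ki_append h7 (ki_emb (h3.add 1))
    have h9 : KLoc (emb a) (emb b) ∨ KLoc (emb b) (emb a) :=
      h6.imp (fun h => KLoc.old _ _ h) (fun h => KLoc.old _ _ h)
    have h10 := ki_loc (([⟨.B, 0⟩, ⟨.U, 1⟩] : KWord) ++ emb u) (emb v' ++ v) h9
      h8 (ki_emb (h4.add 1)) (ki_emb (h5.add 1))
    have e : ∀ c : Word, (⟨.B, 0⟩ :: ⟨.U, 1⟩ :: (emb (u ++ (c ++ v')) ++ v) : KWord) =
        (([⟨.B, 0⟩, ⟨.U, 1⟩] : KWord) ++ emb u) ++ (emb c ++ (emb v' ++ v)) := by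
      intro c
      rw [ki_emb_append, ki_emb_append]
      simp only [List.append_assoc, List.cons_append, List.nil_append]
    rw [e, e]
    exact h10

/-! ### sliding a piece past a word -/

theorem ki_shK_ok {w : KWord} {n m : ℕ} (j : ℕ) (h : KOk w n m) : KOk (shK j w) (n + j) (m + j) := by
  induction w generalizing n with
  | nil =>
    have h1 : n = m := h
    subst h1
    rfl
  | cons s w ih =>
    obtain ⟨h1, h2⟩ := h
    refine ⟨?_, ?_⟩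
    · show s.i + j + s.k.inn ≤ n + j
      omega
    · have h3 := ih h2
      show KOk (shK j w) (n + j - s.k.inn + s.k.out) (m + j)
      have e : n + j - s.k.inn + s.k.out = n - s.k.inn + s.k.out + j := by omega
      rw [e]
      exact h3

/-- a word fits also with strands to the right of it -/
theorem ki_add {w : KWord} {n m : ℕ} (j : ℕ) (h : KOk w n m) : KOk w (n + j) (m + j) := by
  induction w generalizing n with
  | nil =>
    have h1 : n = m := h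
    subst h1
    rfl
  | cons s w ih =>
    obtain ⟨h1, h2⟩ := h
    refine ⟨?_, ?_⟩
    · show s.i + s.k.inn ≤ n + j
      omega
    · have h3 := ih h2
      show KOk w (n + j - s.k.inn + s.k.out) (m + j)
      have e : n + j - s.k.inn + s.k.out = n - s.k.inn + s.k.out + j := by omega
      rw [e]
      exact h3

/-- a piece to the left of a word -/
theorem ki_slideL (s : KKind) (w : KWord) : ∀ (n m : ℕ), KOk w n m →
    KIso (n + s.inn) (⟨s, 0⟩ :: shK s.out w) (shK s.inn w ++ [⟨s, 0⟩]) := by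
  induction w with
  | nil => intro n m _; exact Relation.ReflTransGen.refl
  | cons t w ih =>
    intro n m h
    obtain ⟨h1, h2⟩ := h
    have e1 : KIso (n + s.inn) ([] ++ (([⟨s, 0⟩, ⟨t.k, 0 + s.out + t.i⟩] : KWord) ++ shK s.out w))
        ([] ++ (([⟨t.k, 0 + s.inn + t.i⟩, ⟨s, 0⟩] : KWord) ++ shK s.out w)) := by
      refine ki_loc [] (shK s.out w) (Or.inl (KLoc.swap s t.k 0 t.i)) (k := n + s.inn)
        (l := n - t.k.inn + t.k.out + s.out) rfl ?_ ?_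
      · refine ⟨?_, ?_, ?_⟩
        · show 0 + s.inn ≤ n + s.inn
          omega
        · show 0 + s.out + t.i + t.k.inn ≤ n + s.inn - s.inn + s.out
          omega
        · show n + s.inn - s.inn + s.out - t.k.inn + t.k.out = n - t.k.inn + t.k.out + s.out
          omega
      · refine ⟨?_, ?_, ?_⟩
        · show 0 + s.inn + t.i + t.k.inn ≤ n + s.inn
          omega
        · show 0 + s.inn ≤ n + s.inn - t.k.inn + t.k.out
          omega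
        · show n + s.inn - t.k.inn + t.k.out - s.inn + s.out = n - t.k.inn + t.k.out + s.out
          omega
    have e2 : KIso (n + s.inn) (([⟨t.k, t.i + s.inn⟩] : KWord) ++
        ((⟨s, 0⟩ :: shK s.out w : KWord) ++ []))
        (([⟨t.k, t.i + s.inn⟩] : KWord) ++ ((shK s.inn w ++ [⟨s, 0⟩] : KWord) ++ [])) := by
      refine ki_ctx _ _ (k := n - t.k.inn + t.k.out + s.inn) ?_ (ih _ _ h2)
      refine ⟨?_, ?_⟩
      · show t.i + s.inn + t.k.inn ≤ n + s.inn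
        omega
      · show n + s.inn - t.k.inn + t.k.out = n - t.k.inn + t.k.out + s.inn
        omega
    rw [List.append_nil, List.append_nil] at e2
    have e3 : (⟨s, 0⟩ :: shK s.out (t :: w) : KWord) =
        [] ++ (([⟨s, 0⟩, ⟨t.k, 0 + s.out + t.i⟩] : KWord) ++ shK s.out w) := by
      show (⟨s, 0⟩ :: ⟨t.k, t.i + s.out⟩ :: shK s.out w : KWord) =
        ⟨s, 0⟩ :: ⟨t.k, 0 + s.out + t.i⟩ :: shK s.out w
      rw [Nat.zero_add, Nat.add_comm s.out]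
    have e4 : ([] ++ (([⟨t.k, 0 + s.inn + t.i⟩, ⟨s, 0⟩] : KWord) ++ shK s.out w) : KWord) =
        ([⟨t.k, t.i + s.inn⟩] : KWord) ++ (⟨s, 0⟩ :: shK s.out w : KWord) := by
      show (⟨t.k, 0 + s.inn + t.i⟩ :: ⟨s, 0⟩ :: shK s.out w : KWord) =
        ⟨t.k, t.i + s.inn⟩ :: ⟨s, 0⟩ :: shK s.out w
      rw [Nat.zero_add, Nat.add_comm s.inn]
    rw [e3]
    rw [e4] at e1
    exact e1.trans e2

/-- a piece to the right of a word -/
theorem ki_slideR (s : KKind) (w : KWord) : ∀ (n m : ℕ), KOk w n m →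
    KIso (n + s.inn) (⟨s, n⟩ :: w) (w ++ [⟨s, m⟩]) := by
  induction w with
  | nil =>
    intro n m h
    have h1 : n = m := h
    subst h1
    exact Relation.ReflTransGen.refl
  | cons t w ih =>
    intro n m h
    obtain ⟨h1, h2⟩ := h
    obtain ⟨k, hk⟩ := Nat.exists_eq_add_of_le h1
    have e1 : KIso (n + s.inn) ([] ++ (([⟨s, t.i + t.k.inn + k⟩, ⟨t.k, t.i⟩] : KWord) ++ w))
        ([] ++ (([⟨t.k, t.i⟩, ⟨s, t.i + t.k.out + k⟩] : KWord) ++ w)) := by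
      refine ki_loc [] w (Or.inr (KLoc.swap t.k s t.i k)) (k := n + s.inn)
        (l := n - t.k.inn + t.k.out + s.out) rfl ?_ ?_
      · refine ⟨?_, ?_, ?_⟩
        · show t.i + t.k.inn + k + s.inn ≤ n + s.inn
          omega
        · show t.i + t.k.inn ≤ n + s.inn - s.inn + s.out
          omega
        · show n + s.inn - s.inn + s.out - t.k.inn + t.k.out = n - t.k.inn + t.k.out + s.out
          omega
      · refine ⟨?_, ?_, ?_⟩
        · show t.i + t.k.inn ≤ n + s.inn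
          omega
        · show t.i + t.k.out + k + s.inn ≤ n + s.inn - t.k.inn + t.k.out
          omega
        · show n + s.inn - t.k.inn + t.k.out - s.inn + s.out = n - t.k.inn + t.k.out + s.out
          omega
    have e2 : KIso (n + s.inn) (([⟨t.k, t.i⟩] : KWord) ++
        ((⟨s, n - t.k.inn + t.k.out⟩ :: w : KWord) ++ []))
        (([⟨t.k, t.i⟩] : KWord) ++ ((w ++ [⟨s, m⟩] : KWord) ++ [])) := by
      refine ki_ctx _ _ (k := n - t.k.inn + t.k.out + s.inn) ?_ (ih _ _ h2)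
      refine ⟨?_, ?_⟩
      · show t.i + t.k.inn ≤ n + s.inn
        omega
      · show n + s.inn - t.k.inn + t.k.out = n - t.k.inn + t.k.out + s.inn
        omega
    rw [List.append_nil, List.append_nil] at e2
    have e3 : (⟨s, n⟩ :: t :: w : KWord) =
        [] ++ (([⟨s, t.i + t.k.inn + k⟩, ⟨t.k, t.i⟩] : KWord) ++ w) := by
      show (⟨s, n⟩ :: t :: w : KWord) = ⟨s, t.i + t.k.inn + k⟩ :: t :: w
      rw [← hk]
    have e4 : ([] ++ (([⟨t.k, t.i⟩, ⟨s, t.i + t.k.out + k⟩] : KWord) ++ w) : KWord) =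
        ([⟨t.k, t.i⟩] : KWord) ++ (⟨s, n - t.k.inn + t.k.out⟩ :: w : KWord) := by
      show (⟨t.k, t.i⟩ :: ⟨s, t.i + t.k.out + k⟩ :: w : KWord) =
        ⟨t.k, t.i⟩ :: ⟨s, n - t.k.inn + t.k.out⟩ :: w
      have e5 : t.i + t.k.out + k = n - t.k.inn + t.k.out := by omega
      rw [e5]
    rw [e3]
    rw [e4] at e1
    exact e1.trans e2

/-! ### removing a factor -/

/-- `w` is the vertical tangle -/
theorem ki_nil (X : KWord) (hX : KOk X 1 0) :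
    KIso 0 (⟨.B, 0⟩ :: ⟨.U, 1⟩ :: (shK 1 X ++ [⟨.N, 0⟩])) (⟨.B, 0⟩ :: X) := by
  -- the tail moves over `U 1` and `X`
  have hUX : KOk (⟨.U, 0⟩ :: X : KWord) 0 1 := ⟨by decide, ki_add 1 hX⟩
  have s1 : KIso 0 (([] : KWord) ++ ((⟨.B, 0⟩ :: shK 1 (⟨.U, 0⟩ :: X) : KWord) ++ [⟨.N, 0⟩]))
      (([] : KWord) ++ ((shK 0 (⟨.U, 0⟩ :: X) ++ [⟨.B, 0⟩] : KWord) ++ [⟨.N, 0⟩])) :=
    ki_ctx _ _ (k := 0) rfl (ki_slideL .B (⟨.U, 0⟩ :: X) 0 1 hUX)
  have e0 : shK 0 (⟨.U, 0⟩ :: X : KWord) = ⟨.U, 0⟩ :: X := by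
    show (⟨.U, 0⟩ :: shK 0 X : KWord) = ⟨.U, 0⟩ :: X
    congr 1
    unfold shK
    exact List.map_id _
  have e1 : (([] : KWord) ++ ((⟨.B, 0⟩ :: shK 1 (⟨.U, 0⟩ :: X) : KWord) ++ [⟨.N, 0⟩])) =
      ⟨.B, 0⟩ :: ⟨.U, 1⟩ :: (shK 1 X ++ [⟨.N, 0⟩]) := rfl
  have e2 : (([] : KWord) ++ ((shK 0 (⟨.U, 0⟩ :: X) ++ [⟨.B, 0⟩] : KWord) ++ [⟨.N, 0⟩])) =
      (⟨.U, 0⟩ :: X) ++ (([⟨.B, 0⟩, ⟨.N, 0⟩] : KWord) ++ []) := by
    rw [e0]
    simp only [List.append_assoc, List.cons_append, List.nil_append]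
  rw [e1, e2] at s1
  -- the end of the tail is turned
  have s2 : KIso 0 ((⟨.U, 0⟩ :: X) ++ (([⟨.B, 0⟩, ⟨.N, 0⟩] : KWord) ++ []))
      ((⟨.U, 0⟩ :: X) ++ (([⟨.E, 0⟩] : KWord) ++ [])) :=
    ki_loc _ _ (Or.inl (KLoc.BN 0)) hUX (l := 0) ⟨by decide, by decide, rfl⟩ ⟨by decide, rfl⟩
  -- the endpoint moves back
  have s3 : KIso 0 (([⟨.U, 0⟩] : KWord) ++ ((⟨.E, 1⟩ :: X : KWord) ++ []))
      (([⟨.U, 0⟩] : KWord) ++ ((X ++ [⟨.E, 0⟩] : KWord) ++ [])) :=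
    ki_ctx _ _ (k := 2) ⟨by decide, rfl⟩ (ki_slideR .E X 1 0 hX)
  have s4 : KIso 0 (([] : KWord) ++ (([⟨.U, 0⟩, ⟨.E, 1⟩] : KWord) ++ X))
      (([] : KWord) ++ (([⟨.B, 0⟩] : KWord) ++ X)) :=
    ki_loc _ _ (Or.inl (KLoc.UE' 0)) rfl (l := 1) ⟨by decide, by decide, rfl⟩ ⟨by decide, rfl⟩
  have e3 : (([⟨.U, 0⟩] : KWord) ++ ((⟨.E, 1⟩ :: X : KWord) ++ [])) =
      ([] : KWord) ++ (([⟨.U, 0⟩, ⟨.E, 1⟩] : KWord) ++ X) := by
    simp only [List.append_nil, List.cons_append, List.nil_append]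
  have e4 : (([⟨.U, 0⟩] : KWord) ++ ((X ++ [⟨.E, 0⟩] : KWord) ++ [])) =
      (⟨.U, 0⟩ :: X) ++ (([⟨.E, 0⟩] : KWord) ++ []) := by
    simp only [List.append_nil, List.cons_append, List.nil_append]
  rw [e3, e4] at s3
  have sym : ∀ {n : ℕ} {a b : KWord}, KIso n a b → KIso n b a := by
    intro n a b h
    induction h with
    | refl => exact Relation.ReflTransGen.refl
    | tail _ hs ih =>
      obtain ⟨u, a, b, v, k, l, rfl, rfl, h3, h4, h5, h6⟩ := hs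
      exact Relation.ReflTransGen.trans
        (Relation.ReflTransGen.single ⟨u, b, a, v, k, l, rfl, rfl, h3, h5, h4, h6.symm⟩) ih
  exact (s1.trans s2).trans ((sym s3).trans s4)

/-- `w` is the horizontal tangle -/
theorem ki_rot (X : KWord) (hX : KOk X 1 0) :
    KIso 0 (⟨.B, 0⟩ :: ⟨.U, 1⟩ :: (emb (rotW []) ++ (shK 1 X ++ [⟨.N, 0⟩]))) (⟨.B, 0⟩ :: X) := by
  have hX1 : KOk (shK 1 X) 2 1 := ki_shK_ok 1 hX
  have s1 : KIso 0 (([⟨.B, 0⟩, ⟨.U, 1⟩] : KWord) ++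
        (([⟨.U, 2⟩, ⟨.N, 0⟩] : KWord) ++ (shK 1 X ++ [⟨.N, 0⟩])))
      (([⟨.B, 0⟩, ⟨.U, 1⟩] : KWord) ++
        (([⟨.N, 0⟩, ⟨.U, 0⟩] : KWord) ++ (shK 1 X ++ [⟨.N, 0⟩]))) :=
    ki_loc _ _ (Or.inr (KLoc.swap .N .U 0 0)) (k := 3) ⟨by decide, by decide, rfl⟩ (l := 3)
      ⟨by decide, by decide, rfl⟩ ⟨by decide, by decide, rfl⟩
  have s2 : KIso 0 (([⟨.B, 0⟩] : KWord) ++
        (([⟨.U, 1⟩, ⟨.N, 0⟩] : KWord) ++ (⟨.U, 0⟩ :: (shK 1 X ++ [⟨.N, 0⟩]))))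
      (([⟨.B, 0⟩] : KWord) ++ (([] : KWord) ++ (⟨.U, 0⟩ :: (shK 1 X ++ [⟨.N, 0⟩])))) :=
    ki_loc _ _ (Or.inl (KLoc.old [pU 1, pN 0] [] (Loc.zag 0))) (k := 1) ⟨by decide, rfl⟩ (l := 1)
      ⟨by decide, by decide, rfl⟩ rfl
  -- the tail moves to the right of `U 0` and over `X`
  have s3 : KIso 0 (([] : KWord) ++ (([⟨.B, 0⟩, ⟨.U, 0⟩] : KWord) ++ (shK 1 X ++ [⟨.N, 0⟩])))
      (([] : KWord) ++ (([⟨.U, 0⟩, ⟨.B, 2⟩] : KWord) ++ (shK 1 X ++ [⟨.N, 0⟩]))) :=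
    ki_loc _ _ (Or.inr (KLoc.swap .U .B 0 0)) rfl (l := 3) ⟨by decide, by decide, rfl⟩
      ⟨by decide, by decide, rfl⟩
  have s4 : KIso 0 (([⟨.U, 0⟩] : KWord) ++ ((⟨.B, 2⟩ :: shK 1 X : KWord) ++ [⟨.N, 0⟩]))
      (([⟨.U, 0⟩] : KWord) ++ ((shK 1 X ++ [⟨.B, 1⟩] : KWord) ++ [⟨.N, 0⟩])) :=
    ki_ctx _ _ (k := 2) ⟨by decide, rfl⟩ (ki_slideR .B (shK 1 X) 2 1 hX1)
  have s5 : KIso 0 ((⟨.U, 0⟩ :: shK 1 X) ++ (([⟨.B, 1⟩, ⟨.N, 0⟩] : KWord) ++ []))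
      ((⟨.U, 0⟩ :: shK 1 X) ++ (([⟨.E, 0⟩] : KWord) ++ [])) :=
    ki_loc _ _ (Or.inl (KLoc.BN' 0)) (k := 1) ⟨by decide, hX1⟩ (l := 0)
      ⟨by decide, by decide, rfl⟩ ⟨by decide, rfl⟩
  -- the endpoint moves back
  have s6 : KIso 0 (([⟨.U, 0⟩] : KWord) ++ ((⟨.E, 0⟩ :: shK 0 X : KWord) ++ []))
      (([⟨.U, 0⟩] : KWord) ++ ((shK 1 X ++ [⟨.E, 0⟩] : KWord) ++ [])) :=
    ki_ctx _ _ (k := 2) ⟨by decide, rfl⟩ (ki_slideL .E X 1 0 hX)
  have e0 : shK 0 X = X := by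
    unfold shK
    exact List.map_id _
  rw [e0] at s6
  have s7 : KIso 0 (([] : KWord) ++ (([⟨.U, 0⟩, ⟨.E, 0⟩] : KWord) ++ X))
      (([] : KWord) ++ (([⟨.B, 0⟩] : KWord) ++ X)) :=
    ki_loc _ _ (Or.inl (KLoc.UE 0)) rfl (l := 1) ⟨by decide, by decide, rfl⟩ ⟨by decide, rfl⟩
  have sym : ∀ {n : ℕ} {a b : KWord}, KIso n a b → KIso n b a := by
    intro n a b h
    induction h with
    | refl => exact Relation.ReflTransGen.refl
    | tail _ hs ih =>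
      obtain ⟨u, a, b, v, k, l, rfl, rfl, h3, h4, h5, h6⟩ := hs
      exact Relation.ReflTransGen.trans
        (Relation.ReflTransGen.single ⟨u, b, a, v, k, l, rfl, rfl, h3, h5, h4, h6.symm⟩) ih
  have a1 : (⟨.B, 0⟩ :: ⟨.U, 1⟩ :: (emb (rotW []) ++ (shK 1 X ++ [⟨.N, 0⟩])) : KWord) =
      ([⟨.B, 0⟩, ⟨.U, 1⟩] : KWord) ++
        (([⟨.U, 2⟩, ⟨.N, 0⟩] : KWord) ++ (shK 1 X ++ [⟨.N, 0⟩])) := rfl
  have a2 : (([⟨.B, 0⟩, ⟨.U, 1⟩] : KWord) ++
        (([⟨.N, 0⟩, ⟨.U, 0⟩] : KWord) ++ (shK 1 X ++ [⟨.N, 0⟩]))) =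
      ([⟨.B, 0⟩] : KWord) ++
        (([⟨.U, 1⟩, ⟨.N, 0⟩] : KWord) ++ (⟨.U, 0⟩ :: (shK 1 X ++ [⟨.N, 0⟩]))) := rfl
  have a3 : (([⟨.B, 0⟩] : KWord) ++ (([] : KWord) ++ (⟨.U, 0⟩ :: (shK 1 X ++ [⟨.N, 0⟩])))) =
      ([] : KWord) ++ (([⟨.B, 0⟩, ⟨.U, 0⟩] : KWord) ++ (shK 1 X ++ [⟨.N, 0⟩])) := rfl
  have a4 : (([] : KWord) ++ (([⟨.U, 0⟩, ⟨.B, 2⟩] : KWord) ++ (shK 1 X ++ [⟨.N, 0⟩]))) =
      ([⟨.U, 0⟩] : KWord) ++ ((⟨.B, 2⟩ :: shK 1 X : KWord) ++ [⟨.N, 0⟩]) := rfl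
  have a5 : (([⟨.U, 0⟩] : KWord) ++ ((shK 1 X ++ [⟨.B, 1⟩] : KWord) ++ [⟨.N, 0⟩])) =
      (⟨.U, 0⟩ :: shK 1 X) ++ (([⟨.B, 1⟩, ⟨.N, 0⟩] : KWord) ++ []) := by
    simp only [List.append_assoc, List.cons_append, List.nil_append]
  have a6 : (([⟨.U, 0⟩] : KWord) ++ ((shK 1 X ++ [⟨.E, 0⟩] : KWord) ++ [])) =
      (⟨.U, 0⟩ :: shK 1 X) ++ (([⟨.E, 0⟩] : KWord) ++ []) := by
    simp only [List.append_nil, List.cons_append, List.nil_append]
  have a7 : (([⟨.U, 0⟩] : KWord) ++ ((⟨.E, 0⟩ :: X : KWord) ++ [])) =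
      ([] : KWord) ++ (([⟨.U, 0⟩, ⟨.E, 0⟩] : KWord) ++ X) := by
    simp only [List.append_nil, List.cons_append, List.nil_append]
  rw [a2] at s1
  rw [a3] at s2
  rw [a4] at s3
  rw [a5] at s4
  rw [a6, a7] at s6
  rw [a1]
  exact s1.trans (s2.trans (s3.trans (s4.trans (s5.trans ((sym s6).trans s7)))))

theorem ki_kp_ok : ∀ ws : List Word, (∀ w ∈ ws, Ok w 2 2) → KOk (kp ws) 1 0 := by
  intro ws
  induction ws with
  | nil => intro _; exact ⟨by decide, rfl⟩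
  | cons w ws ih =>
    intro h
    have h1 := ki_shK_ok 1 (ih fun w' hw' => h w' (List.mem_cons_of_mem _ hw'))
    have h2 : KOk (emb w) 3 3 := ki_emb ((h w List.mem_cons_self).add 1)
    refine ⟨by decide, ?_⟩
    show KOk (emb w ++ (shK 1 (kp ws) ++ [⟨.N, 0⟩])) 3 0
    refine ki_append h2 (ki_append (k := 2) ?_ ⟨by decide, rfl⟩)
    have h3 := ki_add 1 h1
    exact h3

/-- [KI] a factor whose tangle is isotopic to one of the two tangles without crossings and circles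
can be removed -/
theorem thm_KI (w : Word) (ws : List Word) (hws : ∀ w' ∈ ws, Ok w' 2 2)
    (h : Iso 2 w [] ∨ Iso 2 w (rotW [])) : KIso 0 (knp (w :: ws)) (knp ws) := by
  have hX := ki_kp_ok ws hws
  rcases h with h | h
  · exact Relation.ReflTransGen.trans (ki_first (shK 1 (kp ws) ++ ([⟨KKind.N, 0⟩] : KWord)) h)
      (ki_nil (kp ws) hX)
  · exact Relation.ReflTransGen.trans (ki_first (shK 1 (kp ws) ++ ([⟨KKind.N, 0⟩] : KWord)) h)
      (ki_rot (kp ws) hX)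

end Pool.GEN
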