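import Pool.Agent.GEN.KS
import Pool.Agent.GEN.KI
import Pool.Agent.ALK.Kbr
import Pool.Agent.ALT.Mo.NF

/-!
# GEN, knotoids: the bracket of a product (helper24)
-/

set_option autoImplicit false

namespace Pool.GEN

open LaurentPolynomial Pool.Agent.ARB Pool.Agent.ARK Pool.Agent.Helper2
open Pool.ALT (NoX Nf runC St_NF)

/-- shift a piece -/
def shP (j : ℕ) : KSlice → KSlice
  | .cup i u => .cup (i + j) u
  | .cap i => .cap (i + j)
  | .cross i p => .cross (i + j) p
  | .born i u => .born (i + j) u
  | .dies i => .dies (i + j)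

/-- shift a word -/
def shS (j : ℕ) (X : List KSlice) : List KSlice := X.map (shP j)

theorem shS_shS (i j : ℕ) (X : List KSlice) : shS j (shS i X) = shS (i + j) X := by
  unfold shS
  rw [List.map_map]
  refine List.map_congr_left fun s _ => ?_
  cases s <;> simp [shP, Nat.add_assoc]

theorem shS_append (j : ℕ) (X Y : List KSlice) : shS j (X ++ Y) = shS j X ++ shS j Y :=
  List.map_append

theorem kop_shP (j : ℕ) (s : KSlice) (ψ : List Bool → ℤ) (i : ℕ) (h : s = .dies i) :
    kop (shP j s) ψ = lift kE (i + j) ψ := by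
  subst h
  rfl

/-! ### crossingless words as operators -/

theorem krun_up (s : List Slice) (hs : NoCross s) : ∀ (j : ℕ) (ψ : List Bool → ℤ),
    krun (shS j (up s)) ψ = runC colModel (Pool.Agent.ARB.sh j (forget s)) ψ := by
  induction s with
  | nil => intro j ψ; rfl
  | cons s w ih =>
    intro j ψ
    cases s with
    | cup i u => exact ih hs j _
    | cap i => exact ih hs j _
    | cross i p => exact absurd hs (by simp [NoCross])

theorem noX_forget (s : List Slice) (hs : NoCross s) : NoX (forget s) := by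
  induction s with
  | nil => intro t ht; exact absurd ht (List.not_mem_nil)
  | cons s w ih =>
    intro t ht
    cases s with
    | cup i u =>
      rcases List.mem_cons.1 ht with rfl | ht
      · exact Or.inl rfl
      · exact ih hs t ht
    | cap i =>
      rcases List.mem_cons.1 ht with rfl | ht
      · exact Or.inr rfl
      · exact ih hs t ht
    | cross i p => exact absurd hs (by simp [NoCross])

theorem ok_forget (w : List Slice) : ∀ (n m : ℕ), Pool.Agent.Helper2.Ok w n m →
    Pool.Agent.ARB.Ok (forget w) n m := by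
  induction w with
  | nil => intro n m h; exact h
  | cons s w ih =>
    intro n m h
    cases s with
    | cup i u => exact ⟨h.1, ih _ _ h.2⟩
    | cap i => exact ⟨h.1, ih _ _ h.2⟩
    | cross i p =>
      refine ⟨h.1, ?_⟩
      have h1 : i + 2 ≤ n := h.1
      have h3 := ih _ _ h.2
      show Pool.Agent.ARB.Ok (forget w) (n - 2 + 2) m
      have e : n - 2 + 2 = n := by omega
      rw [e]
      exact h3

theorem ok_unforget (w : List Slice) : ∀ (n m : ℕ), Pool.Agent.ARB.Ok (forget w) n m →
    Pool.Agent.Helper2.Ok w n m := by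
  induction w with
  | nil => intro n m h; exact h
  | cons s w ih =>
    intro n m h
    cases s with
    | cup i u => exact ⟨h.1, ih _ _ h.2⟩
    | cap i => exact ⟨h.1, ih _ _ h.2⟩
    | cross i p =>
      refine ⟨h.1, ?_⟩
      have h1 : i + 2 ≤ n := h.1
      have h3 : Pool.Agent.Helper2.Ok w (n - 2 + 2) m := ih _ _ h.2
      have e : n - 2 + 2 = n := by omega
      rwa [e] at h3

/-- The word `X` on one strand acts as the end of the strand, with `k` circles. -/
def EqE (X : List KSlice) (k : ℕ) : Prop := ∀ (j n : ℕ) (φ : List Bool → ℤ), ESupp n φ →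
  j + 1 ≤ n → krun (shS j X) φ = fun l => 2 ^ k * lift kE j φ l

theorem eqE_dies : EqE [.dies 0] 0 := by
  intro j n φ _ _
  show lift kE (0 + j) φ = _
  rw [Nat.zero_add]
  funext l
  rw [pow_zero, one_mul]

/-- the two ways through a tangle -/
theorem km_A (j : ℕ) (φ : List Bool → ℤ) :
    lift eCap0 j (lift kE (j + 1) (lift eCup0 (j + 1) φ)) = lift kE j φ := by
  funext l
  by_cases hl : l.length < j
  · rw [lift_short _ _ _ _ hl, lift_short _ _ _ _ hl]
  obtain ⟨p, r, rfl, hp⟩ := split_list l j (by omega)
  subst hp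
  rw [lift_append, lift_append]
  have h1 : ∀ v : Bool, lift kE (p.length + 1) (lift eCup0 (p.length + 1) φ)
      (p ++ v :: v :: r) = φ (p ++ v :: r) := by
    intro v
    have e1 : p ++ v :: v :: r = (p ++ [v]) ++ (v :: r) := by simp
    have e2 : p.length + 1 = (p ++ [v]).length := by simp
    rw [e1, e2, lift_append]
    simp only [kE]
    rw [lift_append, lift_append]
    simp only [eCup0, List.append_assoc, List.cons_append, List.nil_append]
    cases v <;> simp
  simp only [eCap0, h1, kE]

theorem km_B (j : ℕ) (φ : List Bool → ℤ) :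
    lift eCap0 j (lift kE (j + 1) (lift eCup0 j φ)) = lift kE j φ := by
  funext l
  by_cases hl : l.length < j
  · rw [lift_short _ _ _ _ hl, lift_short _ _ _ _ hl]
  obtain ⟨p, r, rfl, hp⟩ := split_list l j (by omega)
  subst hp
  rw [lift_append, lift_append]
  have h1 : ∀ v : Bool, lift kE (p.length + 1) (lift eCup0 p.length φ)
      (p ++ v :: v :: r) = φ (p ++ v :: r) := by
    intro v
    have e1 : p ++ v :: v :: r = (p ++ [v]) ++ (v :: r) := by simp
    have e2 : p.length + 1 = (p ++ [v]).length := by simp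
    rw [e1, e2, lift_append]
    simp only [kE, List.append_assoc, List.cons_append, List.nil_append]
    rw [lift_append, lift_append]
    simp only [eCup0]
    cases v <;> simp
  simp only [eCap0, h1, kE]

theorem esupp_smul {n : ℕ} {φ : List Bool → ℤ} (c : ℤ) (h : ESupp n φ) :
    ESupp n (fun l => c * φ l) := by
  intro l hl
  refine h l fun h0 => hl ?_
  simp only [h0, mul_zero]

/-- a tangle state before a word -/
theorem eqE_step {s : List Slice} {X : List KSlice} {k k' : ℕ} {t : Bool} (u : Bool)
    (hs : NoCross s) (hn : Nf (forget s) k t) (hX : EqE X k') :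
    EqE (.cup 1 u :: (up s ++ (shS 1 X ++ [.cap 0]))) (k + k') := by
  intro j n φ hφ hj
  have e0 : shS j (.cup 1 u :: (up s ++ (shS 1 X ++ [.cap 0]))) =
      [.cup (1 + j) u] ++ (shS j (up s) ++ (shS (1 + j) X ++ [.cap (0 + j)])) := by
    show .cup (1 + j) u :: shS j (up s ++ (shS 1 X ++ [.cap 0])) = _
    rw [shS_append, shS_append, shS_shS]
    rfl
  rw [e0, krun_append, krun_append, krun_append]
  have hψ : ESupp (n + 2) (lift eCup0 (1 + j) φ) := eCup_supp n (1 + j) φ (by omega) hφ
  have e1 : krun [.cup (1 + j) u] φ = lift eCup0 (1 + j) φ := rfl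
  rw [e1, krun_up s hs]
  have h1 := hn colModel j (n + 2) (lift eCup0 (1 + j) φ) (by omega) hψ
  rw [h1]
  have hφ1 : lift eCap0 j (lift eCup0 (1 + j) φ) = φ := by
    have h := e_rel3 n j φ hφ hj
    rw [Nat.add_comm 1 j]
    exact h
  -- the vector before `X`
  obtain ⟨ψ, hψs, hψ1, hψ2⟩ : ∃ ψ : List Bool → ℤ, ESupp (n + 2) ψ ∧
      (colModel.δ ^ k • (if t = true then colModel.cup j (colModel.cap j
        (lift eCup0 (1 + j) φ)) else lift eCup0 (1 + j) φ) : List Bool → ℤ) =
        (fun l => 2 ^ k * ψ l) ∧
      lift eCap0 j (lift kE (1 + j) ψ) = lift kE j φ := by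
    cases t with
    | true =>
      refine ⟨lift eCup0 j φ, eCup_supp n j φ (by omega) hφ, ?_, ?_⟩
      · rw [if_pos rfl]
        have e3 : (colModel.cup j (colModel.cap j (lift eCup0 (1 + j) φ)) : List Bool → ℤ) =
            lift eCup0 j (lift eCap0 j (lift eCup0 (1 + j) φ)) := rfl
        rw [e3, hφ1]
        rfl
      · rw [Nat.add_comm 1 j]
        exact km_B j φ
    | false =>
      refine ⟨lift eCup0 (1 + j) φ, hψ, ?_, ?_⟩
      · rw [if_neg (by decide)]
        rfl
      · rw [Nat.add_comm 1 j]
        exact km_A j φ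
  rw [hψ1]
  have h2 := hX (1 + j) (n + 2) (fun l => 2 ^ k * ψ l) (esupp_smul _ hψs) (by omega)
  rw [h2]
  have e4 : lift kE (1 + j) (fun l => 2 ^ k * ψ l) = fun l => 2 ^ k * lift kE (1 + j) ψ l :=
    (kE_lin.lift (1 + j)).smul ψ _
  rw [e4]
  have e5 : (fun l => (2 : ℤ) ^ k' * (2 ^ k * lift kE (1 + j) ψ l)) =
      fun l => (2 ^ (k + k')) * lift kE (1 + j) ψ l := by
    funext l
    rw [pow_add]
    ring
  rw [e5]
  show lift eCap0 (0 + j) (fun l => (2 ^ (k + k')) * lift kE (1 + j) ψ l) = _
  rw [Nat.zero_add, (eCap0_lin.lift j).smul, hψ2]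

/-- the circles of a knotoid state -/
theorem circles_eqE {X : List KSlice} {k : ℕ} (u : Bool) (hX : EqE X k)
    (hok : KOk (kforget X) 1 0) (hn : nEnd X = 1) : circles (.born 0 u :: X) = k := by
  have h1 := thm_KS (.born 0 u :: X) ⟨Nat.le_refl 0, hok⟩ (by
    unfold nEnd at hn ⊢
    rw [List.countP_cons_of_pos (by rfl), hn])
  have e1 : krun (.born 0 u :: X) kinit = krun (shS 0 X) (lift kB 0 kinit) := by
    have e2 : shS 0 X = X := by
      unfold shS
      have e3 : shP 0 = id := by
        funext s
        cases s <;> rfl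
      rw [e3, List.map_id]
    rw [e2]
    rfl
  have hs : ESupp 1 (lift kB 0 kinit) := by
    intro l hl
    rw [lift_zero] at hl
    rcases l with _ | ⟨a, l⟩
    · exact absurd rfl hl
    · have h2 : kinit l ≠ 0 := hl
      unfold kinit at h2
      by_cases h3 : l.length = 0
      · simp [h3]
      · rw [if_neg h3] at h2
        exact absurd rfl h2
  rw [e1, hX 0 1 _ hs (by omega)] at h1
  have h2 : lift kE 0 (lift kB 0 kinit) [] = 2 := by
    rw [lift_zero]
    show lift kB 0 kinit [true] + lift kB 0 kinit [false] = 2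
    rw [lift_zero, lift_zero]
    show kinit [] + kinit [] = 2
    rfl
  simp only [h2] at h1
  have h3 : (2 : ℤ) ^ k = 2 ^ circles (.born 0 u :: X) := by linarith
  exact (Int.pow_right_injective (a := 2) (by decide) h3).symm

/-! ### states -/

theorem flatMap_sum {α : Type} (L : List α) (f g : α → LaurentPolynomial ℤ) :
    (L.map fun s => f s + g s).sum = (L.map f).sum + (L.map g).sum := by
  induction L with
  | nil => simp
  | cons x L ih =>
    simp only [List.map_cons, List.sum_cons, ih]
    abel

theorem flatMap_pair {α β : Type} (L : List α) (a b : α → β) (G : β → LaurentPolynomial ℤ) :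
    ((L.flatMap fun s => [a s, b s]).map G).sum = (L.map fun s => G (a s) + G (b s)).sum := by
  induction L with
  | nil => simp
  | cons x L ih =>
    simp only [List.flatMap_cons, List.map_append, List.sum_append, List.map_cons, List.sum_cons,
      List.map_nil, List.sum_nil, ih, add_zero]

theorem kstates_append (w w' : List KSlice) : ∀ G : ℤ → List KSlice → LaurentPolynomial ℤ,
    ((kstates (w ++ w')).map fun s => G s.1 s.2).sum =
      ((kstates w).map fun s => ((kstates w').map fun t => G (s.1 + t.1) (s.2 ++ t.2)).sum).sum := by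
  induction w with
  | nil => intro G; simp [kstates]
  | cons s w ih =>
    intro G
    cases s with
    | cup i u =>
      show (((kstates (w ++ w')).map fun t => (t.1, KSlice.cup i u :: t.2)).map
        fun s => G s.1 s.2).sum = (((kstates w).map fun t => (t.1, KSlice.cup i u :: t.2)).map
        fun s => ((kstates w').map fun t => G (s.1 + t.1) (s.2 ++ t.2)).sum).sum
      rw [List.map_map, List.map_map]
      exact ih fun a l => G a (.cup i u :: l)
    | cap i =>
      show (((kstates (w ++ w')).map fun t => (t.1, KSlice.cap i :: t.2)).map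
        fun s => G s.1 s.2).sum = (((kstates w).map fun t => (t.1, KSlice.cap i :: t.2)).map
        fun s => ((kstates w').map fun t => G (s.1 + t.1) (s.2 ++ t.2)).sum).sum
      rw [List.map_map, List.map_map]
      exact ih fun a l => G a (.cap i :: l)
    | born i u =>
      show (((kstates (w ++ w')).map fun t => (t.1, KSlice.born i u :: t.2)).map
        fun s => G s.1 s.2).sum = (((kstates w).map fun t => (t.1, KSlice.born i u :: t.2)).map
        fun s => ((kstates w').map fun t => G (s.1 + t.1) (s.2 ++ t.2)).sum).sum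
      rw [List.map_map, List.map_map]
      exact ih fun a l => G a (.born i u :: l)
    | dies i =>
      show (((kstates (w ++ w')).map fun t => (t.1, KSlice.dies i :: t.2)).map
        fun s => G s.1 s.2).sum = (((kstates w).map fun t => (t.1, KSlice.dies i :: t.2)).map
        fun s => ((kstates w').map fun t => G (s.1 + t.1) (s.2 ++ t.2)).sum).sum
      rw [List.map_map, List.map_map]
      exact ih fun a l => G a (.dies i :: l)
    | cross i p =>
      show (((kstates (w ++ w')).flatMap fun s =>
        [(s.1 + (if p then 1 else -1), s.2),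
         (s.1 - (if p then 1 else -1), KSlice.cap i :: .cup i true :: s.2)]).map
        fun s => G s.1 s.2).sum = (((kstates w).flatMap fun s =>
        [(s.1 + (if p then 1 else -1), s.2),
         (s.1 - (if p then 1 else -1), KSlice.cap i :: .cup i true :: s.2)]).map
        fun s => ((kstates w').map fun t => G (s.1 + t.1) (s.2 ++ t.2)).sum).sum
      rw [flatMap_pair, flatMap_pair]
      have h := ih fun a l => G (a + (if p then 1 else -1)) l +
        G (a - (if p then 1 else -1)) (.cap i :: .cup i true :: l)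
      refine h.trans ?_
      congr 1
      apply List.map_congr_left
      intro s _
      rw [flatMap_sum]
      congr 1
      · congr 1
        apply List.map_congr_left
        intro t _
        rw [add_right_comm]
      · congr 1
        apply List.map_congr_left
        intro t _
        rw [sub_add_eq_add_sub]
        rfl

theorem kstates_up (w : List Slice) :
    kstates (up w) = (states w).map fun s => (s.1, up s.2) := by
  induction w with
  | nil => rfl
  | cons s w ih =>
    cases s with
    | cup i u =>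
      show (kstates (up w)).map (fun t => (t.1, KSlice.cup i u :: t.2)) =
        ((states w).map fun t => (t.1, Slice.cup i u :: t.2)).map fun s => (s.1, up s.2)
      rw [ih, List.map_map, List.map_map]
      rfl
    | cap i =>
      show (kstates (up w)).map (fun t => (t.1, KSlice.cap i :: t.2)) =
        ((states w).map fun t => (t.1, Slice.cap i :: t.2)).map fun s => (s.1, up s.2)
      rw [ih, List.map_map, List.map_map]
      rfl
    | cross i p =>
      show ((kstates (up w)).flatMap fun s =>
          [(s.1 + (if p then 1 else -1), s.2),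
           (s.1 - (if p then 1 else -1), KSlice.cap i :: KSlice.cup i true :: s.2)]) =
        ((states w).flatMap fun s =>
          [(s.1 + (if p then 1 else -1), s.2),
           (s.1 - (if p then 1 else -1), Slice.cap i :: Slice.cup i true :: s.2)]).map
          fun s => (s.1, up s.2)
      rw [ih, List.flatMap_map, List.map_flatMap]
      rfl

theorem kstates_shS (j : ℕ) (X : List KSlice) :
    kstates (shS j X) = (kstates X).map fun s => (s.1, shS j s.2) := by
  induction X with
  | nil => rfl
  | cons s w ih =>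
    cases s with
    | cup i u =>
      show (kstates (shS j w)).map (fun t => (t.1, KSlice.cup (i + j) u :: t.2)) =
        ((kstates w).map fun t => (t.1, KSlice.cup i u :: t.2)).map fun s => (s.1, shS j s.2)
      rw [ih, List.map_map, List.map_map]
      rfl
    | cap i =>
      show (kstates (shS j w)).map (fun t => (t.1, KSlice.cap (i + j) :: t.2)) =
        ((kstates w).map fun t => (t.1, KSlice.cap i :: t.2)).map fun s => (s.1, shS j s.2)
      rw [ih, List.map_map, List.map_map]
      rfl
    | born i u =>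
      show (kstates (shS j w)).map (fun t => (t.1, KSlice.born (i + j) u :: t.2)) =
        ((kstates w).map fun t => (t.1, KSlice.born i u :: t.2)).map fun s => (s.1, shS j s.2)
      rw [ih, List.map_map, List.map_map]
      rfl
    | dies i =>
      show (kstates (shS j w)).map (fun t => (t.1, KSlice.dies (i + j) :: t.2)) =
        ((kstates w).map fun t => (t.1, KSlice.dies i :: t.2)).map fun s => (s.1, shS j s.2)
      rw [ih, List.map_map, List.map_map]
      rfl
    | cross i p =>
      show ((kstates (shS j w)).flatMap fun s =>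
          [(s.1 + (if p then 1 else -1), s.2),
           (s.1 - (if p then 1 else -1), KSlice.cap (i + j) :: KSlice.cup (i + j) true :: s.2)]) =
        ((kstates w).flatMap fun s =>
          [(s.1 + (if p then 1 else -1), s.2),
           (s.1 - (if p then 1 else -1), KSlice.cap i :: KSlice.cup i true :: s.2)]).map
          fun s => (s.1, shS j s.2)
      rw [ih, List.flatMap_map, List.map_flatMap]
      rfl

/-! ### decomposition of a diagram -/

theorem mem_kstates_append (w w' : List KSlice) : ∀ s ∈ kstates (w ++ w'),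
    ∃ a ∈ kstates w, ∃ b ∈ kstates w', s = (a.1 + b.1, a.2 ++ b.2) := by
  induction w with
  | nil =>
    intro s hs
    exact ⟨(0, []), by simp [kstates], s, hs, by simp⟩
  | cons x w ih =>
    intro s hs
    cases x with
    | cup i u =>
      obtain ⟨t, ht, rfl⟩ := List.mem_map.1 (show s ∈ (kstates (w ++ w')).map
        fun t => (t.1, KSlice.cup i u :: t.2) from hs)
      obtain ⟨a, ha, b, hb, rfl⟩ := ih t ht
      exact ⟨(a.1, .cup i u :: a.2), List.mem_map.2 ⟨a, ha, rfl⟩, b, hb, rfl⟩
    | cap i =>
      obtain ⟨t, ht, rfl⟩ := List.mem_map.1 (show s ∈ (kstates (w ++ w')).map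
        fun t => (t.1, KSlice.cap i :: t.2) from hs)
      obtain ⟨a, ha, b, hb, rfl⟩ := ih t ht
      exact ⟨(a.1, .cap i :: a.2), List.mem_map.2 ⟨a, ha, rfl⟩, b, hb, rfl⟩
    | born i u =>
      obtain ⟨t, ht, rfl⟩ := List.mem_map.1 (show s ∈ (kstates (w ++ w')).map
        fun t => (t.1, KSlice.born i u :: t.2) from hs)
      obtain ⟨a, ha, b, hb, rfl⟩ := ih t ht
      exact ⟨(a.1, .born i u :: a.2), List.mem_map.2 ⟨a, ha, rfl⟩, b, hb, rfl⟩
    | dies i =>
      obtain ⟨t, ht, rfl⟩ := List.mem_map.1 (show s ∈ (kstates (w ++ w')).map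
        fun t => (t.1, KSlice.dies i :: t.2) from hs)
      obtain ⟨a, ha, b, hb, rfl⟩ := ih t ht
      exact ⟨(a.1, .dies i :: a.2), List.mem_map.2 ⟨a, ha, rfl⟩, b, hb, rfl⟩
    | cross i p =>
      obtain ⟨t, ht, hs⟩ := List.mem_flatMap.1 (show s ∈ (kstates (w ++ w')).flatMap fun s =>
        [(s.1 + (if p then 1 else -1), s.2),
         (s.1 - (if p then 1 else -1), KSlice.cap i :: .cup i true :: s.2)] from hs)
      obtain ⟨a, ha, b, hb, rfl⟩ := ih t ht
      rcases List.mem_cons.1 hs with rfl | hs
      · refine ⟨(a.1 + (if p then 1 else -1), a.2), List.mem_flatMap.2 ⟨a, ha, ?_⟩, b, hb, ?_⟩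
        · exact List.mem_cons_self
        · show (a.1 + b.1 + (if p then 1 else -1), _) = (a.1 + (if p then 1 else -1) + b.1, _)
          rw [add_right_comm]
      · rcases List.mem_cons.1 hs with rfl | hs
        · refine ⟨(a.1 - (if p then 1 else -1), .cap i :: .cup i true :: a.2),
            List.mem_flatMap.2 ⟨a, ha, ?_⟩, b, hb, ?_⟩
          · exact List.mem_cons_of_mem _ List.mem_cons_self
          · show (a.1 + b.1 - (if p then 1 else -1), _) = (a.1 - (if p then 1 else -1) + b.1, _)
            rw [sub_add_eq_add_sub]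
            rfl
        · exact absurd hs (List.not_mem_nil)

/-- forget the direction of a piece -/
def kmF (s : KSlice) : KPiece := match s with
  | .cup i _ => ⟨.U, i⟩
  | .cap i => ⟨.N, i⟩
  | .cross i p => ⟨.X p, i⟩
  | .born i _ => ⟨.B, i⟩
  | .dies i => ⟨.E, i⟩

theorem kforget_map (D : List KSlice) : kforget D = D.map kmF := rfl

theorem kmF_shP (j : ℕ) (s : KSlice) : kmF (shP j s) = ⟨(kmF s).k, (kmF s).i + j⟩ := by
  cases s <;> rfl

theorem kforget_shS (j : ℕ) (X : List KSlice) : kforget (shS j X) = shK j (kforget X) := by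
  rw [kforget_map, kforget_map, shS, shK, List.map_map, List.map_map]
  refine List.map_congr_left fun s _ => ?_
  exact kmF_shP j s

theorem kforget_append (X Y : List KSlice) : kforget (X ++ Y) = kforget X ++ kforget Y :=
  List.map_append

theorem kforget_up (s : List Slice) : kforget (up s) = emb (forget s) := by
  induction s with
  | nil => rfl
  | cons s w ih =>
    cases s with
    | cup i u => exact congrArg (List.cons (⟨.U, i⟩ : KPiece)) ih
    | cap i => exact congrArg (List.cons (⟨.N, i⟩ : KPiece)) ih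
    | cross i p => exact congrArg (List.cons (⟨.X p, i⟩ : KPiece)) ih

/-- pieces over unoriented pieces without endpoints -/
theorem km_lift (v : Word) : ∀ D : List KSlice, D.map kmF = emb v →
    ∃ w : List Slice, D = up w ∧ forget w = v := by
  induction v with
  | nil =>
    intro D h
    have h1 : D = [] := List.map_eq_nil_iff.1 h
    exact ⟨[], h1, rfl⟩
  | cons s v ih =>
    intro D h
    obtain ⟨k, i⟩ := s
    have h' : D.map kmF = ⟨Kind.emb k, i⟩ :: emb v := h
    obtain ⟨a, D', rfl, h1, h2⟩ := List.map_eq_cons_iff.1 h'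
    obtain ⟨w, rfl, rfl⟩ := ih D' h2
    cases a with
    | cup j u =>
      cases k with
      | U =>
        have e : j = i := by simpa [kmF, Kind.emb] using h1
        subst e
        exact ⟨.cup j u :: w, rfl, rfl⟩
      | N => simp [kmF, Kind.emb] at h1
      | X p => simp [kmF, Kind.emb] at h1
    | cap j =>
      cases k with
      | U => simp [kmF, Kind.emb] at h1
      | N =>
        have e : j = i := by simpa [kmF, Kind.emb] using h1
        subst e
        exact ⟨.cap j :: w, rfl, rfl⟩
      | X p => simp [kmF, Kind.emb] at h1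
    | cross j q =>
      cases k with
      | U => simp [kmF, Kind.emb] at h1
      | N => simp [kmF, Kind.emb] at h1
      | X p =>
        have e : q = p ∧ j = i := by simpa [kmF, Kind.emb] using h1
        obtain ⟨rfl, rfl⟩ := e
        exact ⟨.cross j q :: w, rfl, rfl⟩
    | born j u => cases k <;> simp [kmF, Kind.emb] at h1
    | dies j => cases k <;> simp [kmF, Kind.emb] at h1

/-- pieces over shifted unoriented pieces -/
theorem km_unshift (j : ℕ) (Y : KWord) : ∀ D : List KSlice, D.map kmF = shK j Y →
    ∃ X : List KSlice, D = shS j X ∧ kforget X = Y := by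
  induction Y with
  | nil =>
    intro D h
    have h1 : D = [] := List.map_eq_nil_iff.1 h
    exact ⟨[], h1, rfl⟩
  | cons s Y ih =>
    intro D h
    obtain ⟨k, i⟩ := s
    have h' : D.map kmF = ⟨k, i + j⟩ :: shK j Y := h
    obtain ⟨a, D', rfl, h1, h2⟩ := List.map_eq_cons_iff.1 h'
    obtain ⟨X, rfl, rfl⟩ := ih D' h2
    cases a with
    | cup l u =>
      have e : KKind.U = k ∧ l = i + j := by simpa [kmF] using h1
      obtain ⟨rfl, rfl⟩ := e
      exact ⟨.cup i u :: X, rfl, rfl⟩
    | cap l =>
      have e : KKind.N = k ∧ l = i + j := by simpa [kmF] using h1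
      obtain ⟨rfl, rfl⟩ := e
      exact ⟨.cap i :: X, rfl, rfl⟩
    | cross l q =>
      have e : KKind.X q = k ∧ l = i + j := by simpa [kmF] using h1
      obtain ⟨rfl, rfl⟩ := e
      exact ⟨.cross i q :: X, rfl, rfl⟩
    | born l u =>
      have e : KKind.B = k ∧ l = i + j := by simpa [kmF] using h1
      obtain ⟨rfl, rfl⟩ := e
      exact ⟨.born i u :: X, rfl, rfl⟩
    | dies l =>
      have e : KKind.E = k ∧ l = i + j := by simpa [kmF] using h1
      obtain ⟨rfl, rfl⟩ := e
      exact ⟨.dies i :: X, rfl, rfl⟩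

theorem kp_split_nil (X : List KSlice) (h : kforget X = kp []) : X = [.dies 0] := by
  rw [kforget_map, kp] at h
  obtain ⟨a, D₁, rfl, h1, h2⟩ := List.map_eq_cons_iff.1 h
  have h3 : D₁ = [] := List.map_eq_nil_iff.1 h2
  subst h3
  cases a <;> simp [kmF] at h1
  subst h1
  rfl

theorem kp_split_cons (X : List KSlice) (w : Word) (ws : List Word)
    (h : kforget X = kp (w :: ws)) : ∃ (u : Bool) (v : List Slice) (X' : List KSlice),
      X = .cup 1 u :: (up v ++ (shS 1 X' ++ [.cap 0])) ∧ forget v = w ∧ kforget X' = kp ws := by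
  rw [kforget_map, kp] at h
  obtain ⟨a, D₁, rfl, h1, h2⟩ := List.map_eq_cons_iff.1 h
  obtain ⟨D₂, D₃, rfl, h3, h4⟩ := List.map_eq_append_iff.1 h2
  obtain ⟨D₄, D₅, rfl, h5, h6⟩ := List.map_eq_append_iff.1 h4
  obtain ⟨c, D₆, rfl, h7, h8⟩ := List.map_eq_cons_iff.1 h6
  have h9 : D₆ = [] := List.map_eq_nil_iff.1 h8
  subst h9
  obtain ⟨v, rfl, hv⟩ := km_lift w D₂ h3
  obtain ⟨X', rfl, hX'⟩ := km_unshift 1 (kp ws) D₄ h5
  cases a <;> simp [kmF] at h1
  subst h1
  cases c <;> simp [kmF] at h7
  subst h7
  exact ⟨_, v, X', rfl, hv, hX'⟩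

theorem knp_split (D : List KSlice) (ws : List Word) (h : kforget D = knp ws) :
    ∃ (u : Bool) (X : List KSlice), D = .born 0 u :: X ∧ kforget X = kp ws := by
  rw [kforget_map, knp] at h
  obtain ⟨a, D₁, rfl, h1, h2⟩ := List.map_eq_cons_iff.1 h
  cases a <;> simp [kmF] at h1
  subst h1
  exact ⟨_, D₁, rfl, h2⟩

/-! ### the states of a product -/

theorem nEnd_append (X Y : List KSlice) : nEnd (X ++ Y) = nEnd X + nEnd Y :=
  List.countP_append

theorem nEnd_up (s : List Slice) : nEnd (up s) = 0 := by
  induction s with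
  | nil => rfl
  | cons s w ih =>
    cases s <;> exact ih

theorem nEnd_shS (j : ℕ) (X : List KSlice) : nEnd (shS j X) = nEnd X := by
  induction X with
  | nil => rfl
  | cons s w ih =>
    have e : ∀ (x : KSlice) (Y : List KSlice),
        nEnd (x :: Y) = nEnd Y + if x.isEnd = true then 1 else 0 := fun x Y => List.countP_cons
    have e2 : (shP j s).isEnd = s.isEnd := by cases s <;> rfl
    show nEnd (shP j s :: shS j w) = _
    rw [e, e, ih, e2]

theorem km_append {u v : KWord} {n k m : ℕ} (h : KOk u n k) (h' : KOk v k m) :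
    KOk (u ++ v) n m := by
  induction u generalizing n with
  | nil =>
    have h1 : n = k := h
    subst h1
    exact h'
  | cons s u ih => exact ⟨h.1, ih h.2⟩

/-- the properties of a state after the first cup -/
structure StOk (Y : List KSlice) (k : ℕ) : Prop where
  eqE : EqE Y k
  ok : KOk (kforget Y) 1 0
  en : nEnd Y = 1

theorem stOk_dies : StOk [.dies 0] 0 := ⟨eqE_dies, ⟨by decide, rfl⟩, rfl⟩

theorem stOk_step {s : List Slice} {Y : List KSlice} {k k' : ℕ} {t : Bool} (u : Bool)
    (hs : NoCross s) (hok : Pool.Agent.Helper2.Ok s 2 2) (hn : Nf (forget s) k t)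
    (hY : StOk Y k') : StOk (.cup 1 u :: (up s ++ (shS 1 Y ++ [.cap 0]))) (k + k') := by
  refine ⟨eqE_step u hs hn hY.eqE, ?_, ?_⟩
  · have e : kforget (.cup 1 u :: (up s ++ (shS 1 Y ++ [.cap 0]))) =
        ⟨.U, 1⟩ :: (emb (forget s) ++ (shK 1 (kforget Y) ++ [⟨.N, 0⟩])) := by
      show ⟨.U, 1⟩ :: kforget (up s ++ (shS 1 Y ++ [.cap 0])) = _
      rw [kforget_append, kforget_append, kforget_up, kforget_shS]
      rfl
    rw [e]
    have h1 : KOk (emb (forget s)) 3 3 := ki_add 1 (ki_emb (ok_forget s 2 2 hok))
    have h2 : KOk (shK 1 (kforget Y)) 3 2 := ki_add 1 (ki_shK_ok 1 hY.ok)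
    exact ⟨by decide, km_append h1 (km_append h2 ⟨by decide, rfl⟩)⟩
  · have e : nEnd (.cup 1 u :: (up s ++ (shS 1 Y ++ [.cap 0]))) =
        nEnd (up s ++ (shS 1 Y ++ [.cap 0])) := rfl
    rw [e, nEnd_append, nEnd_append, nEnd_up, nEnd_shS, hY.en]
    rfl

theorem stOk_circles {Y : List KSlice} {k : ℕ} (u : Bool) (hY : StOk Y k) :
    circles (.born 0 u :: Y) = k := circles_eqE u hY.eqE hY.ok hY.en

theorem kstates_cap : kstates [KSlice.cap 0] = [(0, [.cap 0])] := rfl

/-- the states of a product -/
theorem km_states (ws : List Word) : (∀ w ∈ ws, Pool.Agent.ARB.Ok w 2 2) → ∀ X : List KSlice,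
    kforget X = kp ws → ∀ s ∈ kstates X, ∃ k, StOk s.2 k := by
  induction ws with
  | nil =>
    intro _ X hX s hs
    rw [kp_split_nil X hX] at hs
    have h : s = (0, [.dies 0]) := by simpa [kstates] using hs
    subst h
    exact ⟨0, stOk_dies⟩
  | cons w ws ih =>
    intro hw X hX s hs
    obtain ⟨u, v, X', rfl, hv, hX'⟩ := kp_split_cons X w ws hX
    obtain ⟨t, ht, rfl⟩ := List.mem_map.1 (show s ∈ (kstates (up v ++ (shS 1 X' ++ [.cap 0]))).map
        fun t => (t.1, KSlice.cup 1 u :: t.2) from hs)
    obtain ⟨a, ha, b, hb, rfl⟩ := mem_kstates_append _ _ t ht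
    obtain ⟨c, hc, d, hd, rfl⟩ := mem_kstates_append _ _ b hb
    rw [kstates_up] at ha
    obtain ⟨a, ha', rfl⟩ := List.mem_map.1 ha
    rw [kstates_shS] at hc
    obtain ⟨c, hc', rfl⟩ := List.mem_map.1 hc
    have hd' : d = (0, [.cap 0]) := by simpa [kstates] using hd
    subst hd'
    have hok : Pool.Agent.Helper2.Ok v 2 2 := ok_unforget v 2 2 (by
      rw [hv]
      exact hw w List.mem_cons_self)
    obtain ⟨h1, h2⟩ := states_ok v 2 2 hok a ha'
    obtain ⟨k, t, hn⟩ := Pool.ALT.thm_NF (forget a.2) (noX_forget a.2 h1) (ok_forget a.2 2 2 h2)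
    obtain ⟨k', hk'⟩ := ih (fun w' hw' => hw w' (List.mem_cons_of_mem _ hw')) X' hX' c hc'
    exact ⟨k + k', stOk_step u h1 h2 hn hk'⟩

/-- the first factor -/
theorem km_factor (w : Word) (ws : List Word) (hw : ∀ w' ∈ w :: ws, Pool.Agent.ARB.Ok w' 2 2)
    (u₀ : Bool) (X : List KSlice) (hX : kforget X = kp (w :: ws)) :
    ∃ D₁ X', kforget D₁ = kn w ∧ kforget X' = kp ws ∧
      kbracket (.born 0 u₀ :: X) = kbracket D₁ * kbracket (.born 0 u₀ :: X') := by
  obtain ⟨u, v, X', rfl, hv, hX'⟩ := kp_split_cons X w ws hX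
  refine ⟨.born 0 u₀ :: .cup 1 u :: (up v ++ (shS 1 [.dies 0] ++ [.cap 0])), X', ?_, hX', ?_⟩
  · show ⟨.B, 0⟩ :: ⟨.U, 1⟩ :: kforget (up v ++ (shS 1 [.dies 0] ++ [.cap 0])) = _
    rw [kforget_append, kforget_up, hv]
    rfl
  have hok : Pool.Agent.Helper2.Ok v 2 2 := ok_unforget v 2 2 (by
    rw [hv]
    exact hw w List.mem_cons_self)
  -- the bracket as a double sum
  have hsum : ∀ Z : List KSlice, kbracket (.born 0 u₀ :: .cup 1 u :: (up v ++ (shS 1 Z ++ [.cap 0])))
      = ((states v).map fun a => ((kstates Z).map fun b => (T (a.1 + b.1) : LP) * loopVal ^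
          circles (.born 0 u₀ :: .cup 1 u :: (up a.2 ++ (shS 1 b.2 ++ [.cap 0])))).sum).sum := by
    intro Z
    have e1 : kbracket (.born 0 u₀ :: .cup 1 u :: (up v ++ (shS 1 Z ++ [.cap 0]))) =
        ((kstates (up v ++ (shS 1 Z ++ [.cap 0]))).map fun s => (T s.1 : LP) * loopVal ^
          circles (.born 0 u₀ :: .cup 1 u :: s.2)).sum := by
      show (((kstates (up v ++ (shS 1 Z ++ [.cap 0]))).map fun t => (t.1, KSlice.cup 1 u :: t.2)).map
        (fun t => (t.1, KSlice.born 0 u₀ :: t.2)) |>.map
          fun s => (T s.1 : LP) * loopVal ^ circles s.2).sum = _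
      rw [List.map_map, List.map_map]
      rfl
    rw [e1, kstates_append _ _ fun a l => (T a : LP) * loopVal ^
      circles (.born 0 u₀ :: .cup 1 u :: l), kstates_up, List.map_map]
    congr 1
    refine List.map_congr_left fun a _ => ?_
    show ((kstates (shS 1 Z ++ [.cap 0])).map fun t => (T (a.1 + t.1) : LP) * loopVal ^
      circles (.born 0 u₀ :: .cup 1 u :: (up a.2 ++ t.2))).sum = _
    rw [kstates_append _ _ fun c l => (T (a.1 + c) : LP) * loopVal ^
      circles (.born 0 u₀ :: .cup 1 u :: (up a.2 ++ l)), kstates_shS, List.map_map]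
    congr 1
    refine List.map_congr_left fun b _ => ?_
    show ((kstates [KSlice.cap 0]).map fun t => (T (a.1 + (b.1 + t.1)) : LP) * loopVal ^
      circles (.born 0 u₀ :: .cup 1 u :: (up a.2 ++ (shS 1 b.2 ++ t.2)))).sum = _
    rw [kstates_cap]
    simp only [List.map_cons, List.map_nil, List.sum_cons, List.sum_nil, add_zero]
  have hb : kbracket (.born 0 u₀ :: X') =
      ((kstates X').map fun b => (T b.1 : LP) * loopVal ^ circles (.born 0 u₀ :: b.2)).sum := by
    show (((kstates X').map fun t => (t.1, KSlice.born 0 u₀ :: t.2)).map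
      fun s => (T s.1 : LP) * loopVal ^ circles s.2).sum = _
    rw [List.map_map]
    rfl
  have hd : kstates [KSlice.dies 0] = [(0, [.dies 0])] := rfl
  rw [hsum, hsum, hb, ← List.sum_map_mul_right]
  congr 1
  refine List.map_congr_left fun a ha => ?_
  obtain ⟨h1, h2⟩ := states_ok v 2 2 hok a ha
  obtain ⟨k, t, hn⟩ := Pool.ALT.thm_NF (forget a.2) (noX_forget a.2 h1) (ok_forget a.2 2 2 h2)
  rw [hd]
  simp only [List.map_cons, List.map_nil, List.sum_cons, List.sum_nil, add_zero]
  rw [stOk_circles u₀ (stOk_step u h1 h2 hn stOk_dies), ← List.sum_map_mul_left]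
  congr 1
  refine List.map_congr_left fun b hb' => ?_
  obtain ⟨k', hk'⟩ := km_states ws (fun w' hw' => hw w' (List.mem_cons_of_mem _ hw')) X' hX' b hb'
  rw [stOk_circles u₀ (stOk_step u h1 h2 hn hk'), stOk_circles u₀ hk', T_add, pow_add,
    Nat.add_zero]
  ring

/-- [KM] The bracket of a product of knotoids of tangles. -/
theorem thm_KM (ws : List (Word × LP × LP)) : (∀ p ∈ ws, Pool.Agent.ARB.Ok p.1 2 2 ∧
    Pool.Agent.ALT.HasPair p.1 p.2.1 p.2.2) → ∀ D : List KSlice,
    kforget D = knp (ws.map Prod.fst) → kbracket D = (ws.map fun p => p.2.1 + p.2.2).prod := by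
  induction ws with
  | nil =>
    intro _ D hD
    obtain ⟨u, X, rfl, hX⟩ := knp_split D _ hD
    rw [kp_split_nil X hX]
    have e : kbracket [.born 0 u, .dies 0] =
        T 0 * loopVal ^ circles [.born 0 u, .dies 0] + 0 := rfl
    have e2 : circles [.born 0 u, .dies 0] = 0 := rfl
    rw [e, e2]
    simp
  | cons p ws ih =>
    intro hp D hD
    obtain ⟨u, X, rfl, hX⟩ := knp_split D _ hD
    obtain ⟨D₁, X', h1, h2, h3⟩ := km_factor p.1 (ws.map Prod.fst) (by
      intro w' hw'
      rcases List.mem_cons.1 hw' with rfl | hw'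
      · exact (hp p List.mem_cons_self).1
      · obtain ⟨q, hq, rfl⟩ := List.mem_map.1 hw'
        exact (hp q (List.mem_cons_of_mem _ hq)).1) u X hX
    rw [h3, List.map_cons, List.prod_cons,
      Pool.Agent.ALK.alk_Kbr D₁ p.1 (hp p List.mem_cons_self).1 p.2.1 p.2.2
        (hp p List.mem_cons_self).2 h1,
      ih (fun q hq => hp q (List.mem_cons_of_mem _ hq)) (.born 0 u :: X') (by
        show ⟨.B, 0⟩ :: kforget X' = _
        rw [h2]
        rfl)]

end Pool.GEN
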