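import Pool.Agent.GEN.FINK
import Pool.Agent.GEN.KM

/-!
# GEN, module FINKP: products of knotoids (helper24)
-/

set_option autoImplicit false

namespace Pool.GEN

open LaurentPolynomial Pool.Agent.ARB Pool.Agent.Helper2 Pool.ALT Pool.LSP Pool.LSG Pool.Agent.ARK

/-- A product of knotoids of tangles. -/
theorem finkp_list (ws : List (Word × LP × LP)) (hw : ∀ p ∈ ws, Pool.Agent.ARB.Ok p.1 2 2 ∧
    Pool.Agent.ALT.HasPair p.1 p.2.1 p.2.2 ∧
    (IsU (p.2.1 + p.2.2) → Iso 2 p.1 [] ∨ Iso 2 p.1 (rotW []))) (D : List KSlice)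
    (hD : kforget D = knp (ws.map Prod.fst)) (hU : IsU (kbracket D)) :
    KIso 0 (kforget D) triv := by
  rw [thm_KM ws (fun p hp => ⟨(hw p hp).1, (hw p hp).2.1⟩) D hD] at hU
  rw [hD]
  clear hD
  induction ws with
  | nil => exact Relation.ReflTransGen.refl
  | cons p ws ih =>
    rw [List.map_cons, List.prod_cons] at hU
    have h1 : IsU (p.2.1 + p.2.2) := by
      rw [mul_comm] at hU
      exact Pool.Agent.ALT.isU_right hU
    have h2 := Pool.Agent.ALT.isU_right hU
    have h3 := (hw p List.mem_cons_self).2.2 h1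
    refine Relation.ReflTransGen.trans (thm_KI p.1 (ws.map Prod.fst) ?_ h3)
      (ih (fun q hq => hw q (List.mem_cons_of_mem _ hq)) h2)
    intro w' hw'
    obtain ⟨q, hq, rfl⟩ := List.mem_map.1 hw'
    exact (hw q (List.mem_cons_of_mem _ hq)).1

/-- [FINKP] Products of knotoids of combinations of alternating tangles. -/
theorem thm_FINKP (hU8 : St_U8) (hPR : St_PR) (hTR : St_TR) (Ts : List Pool.Agent.ALT.Tree)
    (hl : ∀ T ∈ Ts, ∀ w, T.Leaf w → AltT w) (D : List KSlice)
    (hD : kforget D = knp (Ts.map Pool.Agent.ALT.Tree.word))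
    (hf : ∃ k : ℤ, kPoly D = LaurentPolynomial.T k ∨ kPoly D = -LaurentPolynomial.T k) :
    KIso 0 (kforget D) triv := by
  have hU : IsU (kbracket D) := by
    have h4 : IsU ((((-1 : LP)) ^ (kwrithe D).natAbs * LaurentPolynomial.T (-3 * kwrithe D)) *
        kbracket D) := hf
    exact Pool.Agent.ALT.isU_right h4
  have hex : ∀ T : Pool.Agent.ALT.Tree, ∃ x : LP × LP, T ∈ Ts → HasPair T.word x.1 x.2 := by
    intro T
    by_cases hT : T ∈ Ts
    · obtain ⟨g, b, h⟩ := hPR.1 T.word (hTR T (hl T hT)).1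
      exact ⟨(g, b), fun _ => h⟩
    · exact ⟨(0, 0), fun h => absurd h hT⟩
  choose pr hpr using hex
  refine finkp_list (Ts.map fun T => (T.word, pr T)) ?_ D ?_ hU
  · intro p hp
    obtain ⟨T, hT, rfl⟩ := List.mem_map.1 hp
    exact ⟨(hTR T (hl T hT)).1, hpr T hT, fun h =>
      thm_FK1 hU8 hPR hTR T (hl T hT) _ _ (hpr T hT) h⟩
  · rw [hD, List.map_map]
    rfl

end Pool.GEN
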