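import Pool.Agent.GEN.St

/-!
# GEN, module FINL: the theorem for links
-/

set_option autoImplicit false

namespace Pool.GEN

open LaurentPolynomial Pool.Agent.ARB Pool.Agent.Helper2 Pool.ALT Pool.LSP Pool.LSG

/-- forgetting the directions -/
private theorem finl_ok : ∀ (D : List Slice) (n m : ℕ), Pool.Agent.Helper2.Ok D n m →
    Pool.Agent.ARB.Ok (forget D) n m := by
  intro D
  induction D with
  | nil => intro n m h; exact h
  | cons s D ih =>
    intro n m h
    cases s with
    | cup i u => exact ⟨by show i + 0 ≤ n; exact h.1, ih _ _ h.2⟩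
    | cap i => exact ⟨h.1, ih _ _ h.2⟩
    | cross i p =>
      refine ⟨h.1, ?_⟩
      have h1 : n - 2 + 2 = n := by
        have := h.1
        omega
      show Pool.Agent.ARB.Ok (forget D) (n - 2 + 2) m
      rw [h1]
      exact ih _ _ h.2

/-- the bracket of a diagram which is isotopic to the closure of `w` -/
private theorem finl_br {w : Word} {g b : LP} (h : HasPair w g b) (D : List Slice)
    (hD : Pool.Agent.Helper2.Ok D 0 0) (hI : Iso 0 (forget D) (NW w)) :
    ∃ u : LP, IsU u ∧ bracket D = u * (g + loopVal * b) := by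
  obtain ⟨V, _, _, M, hM, hinj⟩ := thm_Vert
  obtain ⟨u, hu, hrun⟩ := thm_Inv V M hM 0 0 (forget D) (NW w) (finl_ok D 0 0 hD) hI
  refine ⟨u, hu, ?_⟩
  have h4 := hrun M.init M.supp_init
  by_cases hne : D = []
  · exfalso
    subst hne
    rw [ex_NW h V M hM, smul_smul] at h4
    have h5 : (1 : LP) • M.init = (u * (loopVal * (g + loopVal * b))) • M.init := by
      rw [one_smul, ← h4]
      rfl
    exact pairRun_loopVal_mul u _ (hinj _ _ h5)
  · rw [thm_BrRun V M hM D hne hD, ex_NW h V M hM, smul_smul] at h4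
    have h5 := hinj _ _ h4
    apply mul_left_cancel₀ pairRun_loopVal_ne
    rw [h5]
    ring

theorem thm_FINL (hU8 : St_U8) (_hPR : St_PR) (hTR : St_TR) : St_FINL := by
  obtain ⟨_, _, _, _, u5, _⟩ := hU8
  intro D hD T hl hI hf
  obtain ⟨_, ⟨T', hT', hiso⟩ | ⟨s, g, b, hs, hp⟩⟩ := hTR T hl
  · have hI' : Iso 0 (forget D) (NW T'.word) := hI.trans (congN _ _ hiso)
    rcases Pool.Agent.ALT.fin_both D hD T' (fun w hw => Pool.Agent.ALT.all_leaf w (hT' w hw).1) hI' hf
      with h | ⟨⟨w, hw, h1⟩, h2⟩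
    · exact Or.inl h
    · refine Or.inr ⟨fun h3 => ?_, ?_⟩
      · obtain ⟨w', hw', hb⟩ := h2 h3
        exact not_BadX w' (hT' w' hw').1 (bad_cross w' (hT' w' hw').1 hb)
      · obtain ⟨hL, w0, hw0, hn⟩ := hT' w hw
        exact ⟨w0, w, hw0, ⟨hL.ok, hL.alt⟩, hn, h1⟩
  · exfalso
    obtain ⟨u, _, h1⟩ := finl_br hp D (ok_of_dirs D [] [] hD) hI
    refine hs (u5 (fPoly D) s ((-1 : LP) ^ (writhe D).natAbs * LaurentPolynomial.T (-3 * writhe D) *
      (u * (g + loopVal * b))) hf ?_)
    show (-1 : LP) ^ (writhe D).natAbs * LaurentPolynomial.T (-3 * writhe D) * bracket D = _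
    rw [h1]
    ring

end Pool.GEN
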