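import Pool.Agent.GEN.St
import Pool.Agent.ALT.Mo.All

/-! # GEN [FLT]: closed components (helper65) -/

set_option autoImplicit false

namespace Pool.GEN

open LaurentPolynomial Pool.Agent.ARB Pool.Agent.Helper2 Pool.ALT Pool.LSP Pool.LSG

theorem thm_FLT (hU8 : St_U8) : St_FLT := by
  classical
  intro e w h hA
  have hex : ∀ A : Finset (Fin (nX w)), ∃ (k : ℕ) (t : Bool), Nf (jo (seq A) w) k t :=
    fun A => thm_NF _ (thm_JO.1 _ _ _ _ h).1 (thm_JO.1 _ _ _ _ h).2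
  choose k t hkt using hex
  have hne : Nonempty (Reg true w) := ⟨(gE w h).a⟩
  have hne' : Nonempty (Reg false w) := ⟨(gO w h).a⟩
  have h1 := nc_pos ((gO w h).sp ⊥ Finset.univ ⊔ (gO w h).ab)
  have h2 := nc_pos ((gE w h).sp ⊥ Finset.univ ⊔ (gE w h).ab)
  by_cases hc : nc ((gO w h).sp ⊥ Finset.univ ⊔ (gO w h).ab) = 1 ∧
    nc ((gE w h).sp ⊥ Finset.univ ⊔ (gE w h).ab) = 1
  · exact Or.inl hc
  right
  have hk : ∀ A : Finset (Fin (nX w)), 1 ≤ k A := by
    intro A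
    obtain ⟨c1, c2, c3⟩ := mo_CT w h A (k A) (t A) (hkt A)
    have n1 : nc ((gE w h).sp ⊥ Finset.univ ⊔ (gE w h).ab) ≤
        nc ((gE w h).sp ⊥ A ⊔ (gE w h).ab) :=
      nc_anti (sup_le_sup_right ((gE w h).sp_mono le_rfl (Finset.subset_univ A)) _)
    have n2 : nc ((gO w h).sp ⊥ Finset.univ ⊔ (gO w h).ab) ≤
        nc ((gO w h).sp ⊥ (Finset.univ \ A) ⊔ (gO w h).ab) :=
      nc_anti (sup_le_sup_right ((gO w h).sp_mono le_rfl (Finset.subset_univ _)) _)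
    cases hta : t A with
    | false =>
      rw [hta] at c2 c3
      have h5 : (gO w h).sp ⊥ (Finset.univ \ A) ⊔ (gO w h).ab =
        (gO w h).sp ⊥ (Finset.univ \ A) := sup_pr_of _ (c3.2 rfl)
      have h6 : nc ((gE w h).sp ⊥ A ⊔ (gE w h).ab) + 1 = nc ((gE w h).sp ⊥ A) :=
        nc_sup_pr fun h => absurd (c2.1 h) (by decide)
      rw [h5] at n2
      omega
    | true =>
      rw [hta] at c2 c3
      have h5 : nc ((gO w h).sp ⊥ (Finset.univ \ A) ⊔ (gO w h).ab) + 1 =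
        nc ((gO w h).sp ⊥ (Finset.univ \ A)) :=
          nc_sup_pr fun h => absurd (c3.1 h) (by decide)
      have h6 : (gE w h).sp ⊥ A ⊔ (gE w h).ab =
        (gE w h).sp ⊥ A := sup_pr_of _ (c2.2 rfl)
      rw [h6] at n1
      omega
  have hP := mo_HP e w k t h hA hkt
  have hs : ∀ S : Finset (Finset (Fin (nX w))),
      (∑ A ∈ S, (T (Pool.ALT.sg e * ((nX w : ℤ) - 2 * A.card)) : LP) * loopVal ^ k A) =
        loopVal * ∑ A ∈ S, (T (Pool.ALT.sg e * ((nX w : ℤ) - 2 * A.card)) : LP) * loopVal ^ (k A - 1) := by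
    intro S
    rw [Finset.mul_sum]
    refine Finset.sum_congr rfl fun A _ => ?_
    obtain ⟨m, hm⟩ : ∃ m, k A = m + 1 := ⟨k A - 1, by have := hk A; omega⟩
    rw [hm, Nat.add_sub_cancel, pow_succ]
    ring
  rw [hs, hs] at hP
  refine ⟨loopVal, _, _, ?_, hP⟩
  have h3 := hU8.2.2.1 1
  rwa [mul_one] at h3

end Pool.GEN
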