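import Pool.Agent.GEN.St

/-!
# GEN, module FO: a closed component, or a local factor, gives a common factor of the bracket pair
-/

set_option autoImplicit false

namespace Pool.GEN

open LaurentPolynomial Pool.Agent.ARB Pool.Agent.Helper2 Pool.ALT Pool.LSP Pool.LSG

/-! ### words -/

private theorem fo_nX_append (u v : Word) : nX (u ++ v) = nX u + nX v := by
  induction u with
  | nil =>
    show nX v = 0 + nX v
    rw [zero_add]
  | cons s u ih =>
    obtain ⟨k, i⟩ := s
    cases k with
    | U => exact ih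
    | N => exact ih
    | X p =>
      show nX (u ++ v) + 1 = nX u + 1 + nX v
      rw [ih]
      omega

private theorem fo_nX_sh (j : ℕ) (u : Word) : nX (Pool.Agent.ARB.sh j u) = nX u := by
  induction u with
  | nil => rfl
  | cons s u ih =>
    obtain ⟨k, i⟩ := s
    rw [sh_cons]
    cases k with
    | U => exact ih
    | N => exact ih
    | X p => exact congrArg (· + 1) ih

private theorem fo_mem_sh {j i : ℕ} {p : Bool} {u : Word} (h : pX i p ∈ u) :
    pX (i + j) p ∈ Pool.Agent.ARB.sh j u := by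
  unfold Pool.Agent.ARB.sh
  exact List.mem_map.2 ⟨pX i p, h, rfl⟩

/-- a shifted word is alternating -/
private theorem fo_alt_sh {e : Bool} {j : ℕ} {u : Word} (h : AltW e (Pool.Agent.ARB.sh j u)) :
    ∃ e' : Bool, AltW e' u := by
  by_cases hj : j % 2 = 0
  · refine ⟨e, fun p i hi => ?_⟩
    have h1 := h p (i + j) (fo_mem_sh hi)
    rw [h1]
    constructor <;> intro h2 <;> omega
  · refine ⟨!e, fun p i hi => ?_⟩
    have h1 := h p (i + j) (fo_mem_sh hi)
    have h2 : (p = !e) ↔ ¬ (p = e) := by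
      cases p <;> cases e <;> simp
    rw [h2, h1]
    constructor <;> intro h3 <;> omega

private theorem fo_ok_wV {X : Word} (h : Ok X 4 0) : Ok (wV X) 2 2 :=
  ⟨Nat.le_refl 2, by decide, h.add 2⟩

private theorem fo_iso_wV {X Y : Word} (h : Iso 4 X Y) : Iso 2 (wV X) (wV Y) :=
  Iso.left (z := [pU 2, pU 3]) (k := 6) ⟨by decide, by decide, rfl⟩ (h.add 2)

/-- the operator of a word with a part which acts as a multiple of the operator of another word -/
private theorem fo_pair (hPR1 : ∀ w : Word, Ok w 2 2 → ∃ g b : LP, HasPair w g b)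
    {u A B v : Word} {n m : ℕ} (s : LP) (hu : Ok u 4 n) (hB : Ok B n m) (hv : Ok v m 0)
    (hs : ∀ (V : Type) [AddCommGroup V] [Module LP V] (M : Model LP V), Good M →
      ∀ (k N : ℕ) (x : V), k + n ≤ N → M.Supp N x →
        runW M (Pool.Agent.ARB.sh k A) x = s • runW M (Pool.Agent.ARB.sh k B) x) :
    ∃ g b : LP, HasPair (wV (u ++ (A ++ v))) (s * g) (s * b) := by
  obtain ⟨g, b, hgb⟩ := hPR1 (wV (u ++ (B ++ v))) (fo_ok_wV (hu.append (hB.append hv)))
  refine ⟨g, b, ?_⟩
  intro V _ _ M hM j N x hjN hx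
  have h1 := hgb V M hM j N x hjN hx
  have e1 : ∀ C : Word, Pool.Agent.ARB.sh j (wV (u ++ (C ++ v))) =
      Pool.Agent.ARB.sh j (pU 2 :: pU 3 :: u) ++ (Pool.Agent.ARB.sh j C ++ Pool.Agent.ARB.sh j v) := by
    intro C
    rw [← sh_append, ← sh_append]
    rfl
  have okP : Ok (pU 2 :: pU 3 :: u) 2 (n + 2) := ⟨Nat.le_refl 2, by decide, hu.add 2⟩
  have okP2 : Ok (Pool.Agent.ARB.sh j (pU 2 :: pU 3 :: u)) N (n + N) := by
    have h2 := (okP.sh j).add (N - (j + 2))
    have e2 : 2 + j + (N - (j + 2)) = N := by omega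
    have e3 : n + 2 + j + (N - (j + 2)) = n + N := by omega
    rw [e2, e3] at h2
    exact h2
  have hy : M.Supp (n + N) (runW M (Pool.Agent.ARB.sh j (pU 2 :: pU 3 :: u)) x) :=
    supp_run hM okP2 hx
  have h3 := hs V M hM j (n + N) _ (by omega) hy
  rw [e1, run_append, run_append] at h1 ⊢
  rw [h3, map_smul, h1, smul_add, smul_smul, smul_smul]

private theorem fo_facP {w : Word} {s : LP} (hs : ¬ U8 s)
    (h : ∃ g b : LP, HasPair w (s * g) (s * b)) : FacP w := by
  obtain ⟨g, b, h⟩ := h
  exact ⟨s, g, b, hs, h⟩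

theorem thm_FO (hU8 : St_U8) (hK28 : St_K28) (hSCA : St_SCA) (hPR : St_PR) : St_FO := by
  intro e V hV hAlt
  obtain ⟨hPR1, -, -, -, -, -, hPR7⟩ := hPR
  refine ⟨?_, ?_⟩
  · rintro ⟨u, J, v, n, j, hu, hj, hJ, hJ0, hv, -, hiso⟩
    have okS : Ok (Pool.Agent.ARB.sh j J) n n := by
      have h1 := (hJ.sh j).add (n - j)
      have e1 : 0 + j + (n - j) = n := by omega
      rw [e1] at h1
      exact h1
    have okW : Ok (u ++ (Pool.Agent.ARB.sh j J ++ v)) 4 0 := hu.append (okS.append hv)
    have h1 : FacP (wV (u ++ (Pool.Agent.ARB.sh j J ++ v))) := by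
      refine fo_facP (s := loopVal * bracket (toD J)) (hU8.2.2.1 _) ?_
      refine fo_pair hPR1 (B := []) (n := n) (m := n) _ hu rfl hv ?_
      intro V' _ _ M hM k N x hkN hx
      have h2 := (hSCA V' M hM).2 J (j + k) N x hJ hJ0 (by omega) hx
      rw [sh_sh, Nat.add_comm k j, h2]
      rfl
    exact hPR7 _ _ (fo_ok_wV okW) (fo_iso_wV hiso.symm) h1
  · rintro ⟨u, J, v, n, j, hu, hj, hJ, hJ1, hv, hAl, hnX, hiso⟩
    have okA : Ok (J ++ [pN 0]) 2 0 := (hJ.add 1).append ⟨by decide, rfl⟩
    have okS : Ok (Pool.Agent.ARB.sh j J) n n := by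
      have h1 := (hJ.sh j).add (n - (j + 1))
      have e1 : 1 + j + (n - (j + 1)) = n := by omega
      rw [e1] at h1
      exact h1
    have okA2 : Ok (Pool.Agent.ARB.sh j (J ++ [pN 0])) (n + 2) n := by
      have h1 := (okA.sh j).add (n - j)
      have e1 : 2 + j + (n - j) = n + 2 := by omega
      have e2 : 0 + j + (n - j) = n := by omega
      rw [e1, e2] at h1
      exact h1
    have okU : Ok [pU (j + 1)] n (n + 2) := ⟨hj, rfl⟩
    have okUN : Ok ([pU (j + 1), pN j] : Word) n n := by
      refine ⟨hj, ?_, ?_⟩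
      · show j + 2 ≤ n - 0 + 2
        omega
      · show n - 0 + 2 - 2 + 0 = n
        omega
    have okB : Ok (pU (j + 1) :: Pool.Agent.ARB.sh j (J ++ [pN 0])) n n := okU.append okA2
    -- the isotopy
    have hI : Iso n (Pool.Agent.ARB.sh j J) (pU (j + 1) :: Pool.Agent.ARB.sh j (J ++ [pN 0])) := by
      have h1 : Iso 1 (J ++ [pU 1]) ([pU 1] ++ J) := by
        have h2 := thm_Comm J [pU 0] 1 1 0 2 hJ ⟨Nat.le_refl 0, rfl⟩
        exact h2
      have h2 : Iso n (Pool.Agent.ARB.sh j J ++ [pU (j + 1)])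
          ([pU (j + 1)] ++ Pool.Agent.ARB.sh j J) := by
        have h3 := (h1.sh j).add (n - (1 + j))
        have e1 : 1 + j + (n - (1 + j)) = n := by omega
        rw [e1, sh_append, sh_append] at h3
        have e2 : Pool.Agent.ARB.sh j ([pU 1] : Word) = [pU (j + 1)] := by
          show [(⟨Kind.U, 1 + j⟩ : Piece)] = [pU (j + 1)]
          rw [Nat.add_comm 1 j]
        rw [e2] at h3
        exact h3
      have h3 : Iso n ((Pool.Agent.ARB.sh j J ++ [pU (j + 1)]) ++ [pN j])
          (([pU (j + 1)] ++ Pool.Agent.ARB.sh j J) ++ [pN j]) := h2.right _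
      have h4 : Iso n (Pool.Agent.ARB.sh j J ++ [pU (j + 1), pN j])
          (Pool.Agent.ARB.sh j J ++ []) := Iso.left okS (Iso.zag hj)
      rw [List.append_nil] at h4
      have e3 : (Pool.Agent.ARB.sh j J ++ [pU (j + 1)]) ++ [pN j] =
          Pool.Agent.ARB.sh j J ++ [pU (j + 1), pN j] := by simp
      have e4 : ([pU (j + 1)] ++ Pool.Agent.ARB.sh j J) ++ [pN j] =
          pU (j + 1) :: Pool.Agent.ARB.sh j (J ++ [pN 0]) := by
        rw [sh_append, List.append_assoc]
        have e5 : Pool.Agent.ARB.sh j ([pN 0] : Word) = [pN j] := by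
          show [(⟨Kind.N, 0 + j⟩ : Piece)] = [pN j]
          rw [Nat.zero_add]
        rw [e5]
        rfl
      rw [e3, e4] at h3
      exact h4.symm.trans h3
    have hV2 : Iso 4 V (u ++ ((pU (j + 1) :: Pool.Agent.ARB.sh j (J ++ [pN 0])) ++ v)) :=
      hiso.trans (Iso.mid u v hu hI)
    have okW2 : Ok (u ++ ((pU (j + 1) :: Pool.Agent.ARB.sh j (J ++ [pN 0])) ++ v)) 4 0 :=
      hu.append (okB.append hv)
    by_cases hU : U8 (bracket (toD (pU 0 :: (J ++ [pN 0]))))
    · right
      -- the factor is trivial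
      have hAJ : AltW e (Pool.Agent.ARB.sh j J) := by
        intro p i hi
        exact hAl p i (List.mem_append_right _ (List.mem_append_left _ hi))
      obtain ⟨e', he'⟩ := fo_alt_sh hAJ
      have hAA : AltW e' (J ++ [pN 0]) := by
        intro p i hi
        rcases List.mem_append.1 hi with h1 | h1
        · exact he' p i h1
        · have h2 : pX i p = pN 0 := List.mem_singleton.1 h1
          have h3 : (Kind.X p) = Kind.N := congrArg Piece.k h2
          cases h3
      have hI2 : Iso 2 (J ++ [pN 0]) [pN 0] := hK28 e' _ okA hAA hU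
      have hI3 : Iso (n + 2) (Pool.Agent.ARB.sh j (J ++ [pN 0])) [pN j] := by
        have h1 := (hI2.sh j).add (n - j)
        have e1 : 2 + j + (n - j) = n + 2 := by omega
        have e5 : Pool.Agent.ARB.sh j ([pN 0] : Word) = [pN j] := by
          show [(⟨Kind.N, 0 + j⟩ : Piece)] = [pN j]
          rw [Nat.zero_add]
        rw [e1, e5] at h1
        exact h1
      have hI4 : Iso n (pU (j + 1) :: Pool.Agent.ARB.sh j (J ++ [pN 0])) [] :=
        (Iso.left okU hI3).trans (Iso.zag hj)
      refine ⟨u ++ v, hu.append hv, ?_, ?_, ?_⟩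
      · intro p i hi
        rcases List.mem_append.1 hi with h1 | h1
        · exact hAl p i (List.mem_append_left _ h1)
        · exact hAl p i (List.mem_append_right _ (List.mem_append_right _ h1))
      · rw [← hnX, fo_nX_append, fo_nX_append, fo_nX_append, fo_nX_sh]
        omega
      · have h1 := Iso.mid u v hu hI4
        rw [List.nil_append] at h1
        exact hV2.trans h1
    · left
      have h1 : FacP (wV (u ++ ((pU (j + 1) :: Pool.Agent.ARB.sh j (J ++ [pN 0])) ++ v))) := by
        refine fo_facP hU ?_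
        refine fo_pair hPR1 (B := [pU (j + 1), pN j]) (n := n) (m := n) _ hu okUN hv ?_
        intro V' _ _ M hM k N x hkN hx
        have hc : M.Supp (N + 2) (M.cup (j + 1 + k) x) := M.supp_cup N _ x (by omega) hx
        have h2 := (hSCA V' M hM).1 (J ++ [pN 0]) (j + k) (N + 2) (M.cup (j + 1 + k) x) okA
          (by omega) hc
        have e1 : Pool.Agent.ARB.sh k (pU (j + 1) :: Pool.Agent.ARB.sh j (J ++ [pN 0])) =
            pU (j + 1 + k) :: Pool.Agent.ARB.sh (j + k) (J ++ [pN 0]) := by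
          rw [sh_cons, sh_sh, Nat.add_comm k j]
        rw [e1]
        exact h2
      exact hPR7 _ _ (fo_ok_wV okW2) (fo_iso_wV hV2.symm) h1

end Pool.GEN
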