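import Pool.Agent.GEN.St

/-!
# GEN, module GL: a separation of the edges gives a separating vertex
-/

set_option autoImplicit false

namespace Pool.GEN

open Pool.ALT

section

variable {V E : Type}

private theorem gl_all [Finite V] {τ : Setoid V} (h : nc τ = 1) (x y : V) : τ x y := by
  have h1 : Subsingleton (Quotient τ) := (Nat.card_eq_one_iff_unique.1 h).1
  exact Quotient.exact (Subsingleton.elim (Quotient.mk τ x) (Quotient.mk τ y))

private theorem gl_nc [Finite V] [Nonempty V] {τ : Setoid V} (h : ∀ x y, τ x y) : nc τ ≤ 1 := by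
  unfold nc
  have : Finite (Quotient τ) := Quotient.finite τ
  rw [Finite.card_le_one_iff_subsingleton]
  constructor
  intro a b
  induction a using Quotient.inductionOn with
  | h x =>
    induction b using Quotient.inductionOn with
    | h y => exact Quotient.sound (h x y)

/-- the partition into a vertex and the others -/
private def gl_one (v : V) : Setoid V where
  r p q := p = v ↔ q = v
  iseqv := ⟨fun _ => Iff.rfl, fun h => h.symm, fun h h' => h.trans h'⟩

/-- the partition into a set and its complement -/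
private def gl_set (P : V → Prop) : Setoid V where
  r p q := P p ↔ P q
  iseqv := ⟨fun _ => Iff.rfl, fun h => h.symm, fun h h' => h.trans h'⟩

/-- a vertex which is joined to another one is the end of an edge -/
private theorem gl_end (g : Gr V E) (S : Finset E) {v w : V} (hvw : w ≠ v)
    (h : g.sp ⊥ S v w) : ∃ k, g.u k = v ∨ g.v k = v := by
  by_contra hcon
  push Not at hcon
  have h1 : g.sp ⊥ S ≤ gl_one v := by
    apply g.sp_le bot_le
    intro k _
    show g.u k = v ↔ g.v k = v
    exact ⟨fun h => absurd h (hcon k).1, fun h => absurd h (hcon k).2⟩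
  have h2 : v = v ↔ w = v := h1 h
  exact hvw (h2.1 rfl)

private theorem gl_edge (g : Gr V E) {S : Finset E} {k : E} (hk : k ∈ S) :
    g.sp ⊥ S (g.u k) (g.v k) :=
  g.pe_le_sp ⊥ hk (pr_rel (g.u k) (g.v k))

/-- the auxiliary graph -/
private def gl_H (σ σ' : Setoid V) (p : V) : Gr (Quotient σ ⊕ Quotient σ') V where
  u v := Sum.inl (Quotient.mk σ v)
  v v := Sum.inr (Quotient.mk σ' v)
  a := Sum.inl (Quotient.mk σ p)
  b := Sum.inl (Quotient.mk σ p)

end

/-- [GL] -/
theorem thm_GL : St_GL := by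
  classical
  intro V E _ _ _ g hc hl S hS hS' hcard
  set σ : Setoid V := g.sp ⊥ S with hσ
  set σ' : Setoid V := g.sp ⊥ (Finset.univ \ S) with hσ'
  have hedge : ∀ k, σ (g.u k) (g.v k) ∨ σ' (g.u k) (g.v k) := by
    intro k
    by_cases hk : k ∈ S
    · exact Or.inl (gl_edge g hk)
    · exact Or.inr (gl_edge g (Finset.mem_sdiff.2 ⟨Finset.mem_univ k, hk⟩))
  have hedge' : ∀ k, k ∉ S → σ' (g.u k) (g.v k) := fun k hk =>
    gl_edge g (Finset.mem_sdiff.2 ⟨Finset.mem_univ k, hk⟩)
  have hall : ∀ x y, g.sp ⊥ Finset.univ x y := gl_all hc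
  -- (a)
  obtain ⟨x, ⟨y, hy, hxy⟩, ⟨z, hz, hxz⟩⟩ : ∃ x, (∃ y, y ≠ x ∧ σ x y) ∧ ∃ z, z ≠ x ∧ σ' x z := by
    by_contra hcon
    push Not at hcon
    obtain ⟨k, hk⟩ := hS
    obtain ⟨k', hk'⟩ := hS'
    have hp : σ (g.u k) (g.v k) := gl_edge g hk
    -- elements of the class of the first end of `k` have one-element classes
    have h1 : ∀ w, σ (g.u k) w → ∀ z, z ≠ w → ¬ σ' w z := by
      intro w hw z hz
      refine hcon w ?_ z hz
      by_cases h2 : w = g.u k
      · exact ⟨g.v k, by rw [h2]; exact (hl k).symm, σ.trans' (σ.symm' hw) hp⟩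
      · exact ⟨g.u k, fun h => h2 h.symm, σ.symm' hw⟩
    have h2 : g.sp ⊥ Finset.univ ≤ gl_set fun w => σ (g.u k) w := by
      apply g.sp_le bot_le
      intro j _
      show σ (g.u k) (g.u j) ↔ σ (g.u k) (g.v j)
      rcases hedge j with h3 | h3
      · exact ⟨fun h => σ.trans' h h3, fun h => σ.trans' h (σ.symm' h3)⟩
      · exact ⟨fun h => absurd h3 (h1 _ h _ (hl j).symm),
          fun h => absurd (σ'.symm' h3) (h1 _ h _ (hl j))⟩
    have h3 : σ (g.u k) (g.u k) ↔ σ (g.u k) (g.u k') := h2 (hall _ _)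
    have h4 := h3.1 (σ.refl' _)
    have h5 : σ' (g.u k') (g.v k') := gl_edge g hk'
    exact h1 _ h4 _ (hl k').symm h5
  -- (b)
  let H := gl_H σ σ' x
  have : Finite (Quotient σ) := Quotient.finite σ
  have : Finite (Quotient σ') := Quotient.finite σ'
  have : Nonempty (Quotient σ ⊕ Quotient σ') := ⟨Sum.inl (Quotient.mk σ x)⟩
  let τ := H.sp ⊥ (Finset.univ.erase x)
  have hHe : ∀ (A : Finset V) (v : V), v ∈ A →
      H.sp ⊥ A (Sum.inl (Quotient.mk σ v)) (Sum.inr (Quotient.mk σ' v)) := fun A v hv =>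
    gl_edge H hv
  have hτe : ∀ v, v ≠ x → τ (Sum.inl (Quotient.mk σ v)) (Sum.inr (Quotient.mk σ' v)) := fun v hv =>
    hHe _ v (Finset.mem_erase.2 ⟨hv, Finset.mem_univ v⟩)
  have hτ : ¬ τ (Sum.inl (Quotient.mk σ x)) (Sum.inr (Quotient.mk σ' x)) := by
    intro hcon
    let ρ := H.sp ⊥ Finset.univ
    have h1 : ρ = τ := by
      have h2 : insert x (Finset.univ.erase x) = (Finset.univ : Finset V) :=
        Finset.insert_erase (Finset.mem_univ x)
      show H.sp ⊥ Finset.univ = τ
      rw [← h2]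
      exact Gr.sp_insert_of H hcon
    have hρe : ∀ v, ρ (Sum.inl (Quotient.mk σ v)) (Sum.inr (Quotient.mk σ' v)) := fun v =>
      hHe _ v (Finset.mem_univ v)
    have h3 : g.sp ⊥ Finset.univ ≤
        Setoid.comap (fun v => (Sum.inl (Quotient.mk σ v) : Quotient σ ⊕ Quotient σ')) ρ := by
      apply g.sp_le bot_le
      intro k _
      show ρ (Sum.inl (Quotient.mk σ (g.u k))) (Sum.inl (Quotient.mk σ (g.v k)))
      rcases hedge k with h4 | h4
      · rw [Quotient.sound (s := σ) h4]
      · refine ρ.trans' (hρe (g.u k)) ?_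
        rw [Quotient.sound (s := σ') h4]
        exact ρ.symm' (hρe (g.v k))
    have h4 : ∀ v w : V, ρ (Sum.inl (Quotient.mk σ v)) (Sum.inl (Quotient.mk σ w)) :=
      fun v w => h3 (hall v w)
    have h5 : ∀ a : Quotient σ ⊕ Quotient σ', ρ (Sum.inl (Quotient.mk σ x)) a := by
      rintro (a | a)
      · induction a using Quotient.inductionOn with
        | h v => exact h4 x v
      · induction a using Quotient.inductionOn with
        | h v => exact ρ.trans' (h4 x v) (hρe v)
    have h6 : nc ρ ≤ 1 := gl_nc fun a b => ρ.trans' (ρ.symm' (h5 a)) (h5 b)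
    have h7 := H.nc_le_add_card ⊥ (Finset.univ.erase x)
    rw [nc_bot, Nat.card_sum, Finset.card_erase_of_mem (Finset.mem_univ x), Finset.card_univ] at h7
    have h8 : nc (H.sp ⊥ (Finset.univ.erase x)) = nc ρ := by rw [h1]
    have h9 : nc σ + nc σ' = Nat.card (Quotient σ) + Nat.card (Quotient σ') := rfl
    have h10 : 0 < Fintype.card V := Fintype.card_pos_iff.2 ⟨x⟩
    omega
  refine ⟨x, fun v => decide (τ (Sum.inl (Quotient.mk σ v)) (Sum.inl (Quotient.mk σ x))), ?_, ?_⟩
  · intro k
    by_cases h1 : g.u k = x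
    · exact Or.inl h1
    by_cases h2 : g.v k = x
    · exact Or.inr (Or.inl h2)
    refine Or.inr (Or.inr ?_)
    have h3 : τ (Sum.inl (Quotient.mk σ (g.u k))) (Sum.inl (Quotient.mk σ (g.v k))) := by
      rcases hedge k with h4 | h4
      · rw [Quotient.sound (s := σ) h4]
      · refine τ.trans' (hτe (g.u k) h1) ?_
        rw [Quotient.sound (s := σ') h4]
        exact τ.symm' (hτe (g.v k) h2)
    rw [decide_eq_decide]
    exact ⟨fun h => τ.trans' (τ.symm' h3) h, fun h => τ.trans' h3 h⟩
  · have hend : ∀ (w : V) (β : Bool), w ≠ x →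
        (decide (τ (Sum.inl (Quotient.mk σ w)) (Sum.inl (Quotient.mk σ x))) = β) →
        (∃ k, g.u k = w ∨ g.v k = w) → ∃ k, (g.u k ≠ x ∧
          (decide (τ (Sum.inl (Quotient.mk σ (g.u k))) (Sum.inl (Quotient.mk σ x)))) = β) ∨
          (g.v k ≠ x ∧
          (decide (τ (Sum.inl (Quotient.mk σ (g.v k))) (Sum.inl (Quotient.mk σ x)))) = β) := by
      rintro w β h1 h2 ⟨k, h3 | h3⟩
      · refine ⟨k, Or.inl ?_⟩
        rw [h3]
        exact ⟨h1, h2⟩
      · refine ⟨k, Or.inr ?_⟩
        rw [h3]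
        exact ⟨h1, h2⟩
    intro β
    cases β with
    | true =>
      refine hend y true hy ?_ (gl_end g S hy.symm (σ.symm' hxy))
      rw [decide_eq_true_eq, Quotient.sound (s := σ) (σ.symm' hxy)]
    | false =>
      refine hend z false hz ?_ (gl_end g (Finset.univ \ S) hz.symm (σ'.symm' hxz))
      rw [decide_eq_false_iff_not]
      intro h1
      apply hτ
      refine τ.trans' (τ.symm' h1) ?_
      rw [← Quotient.sound (s := σ') (σ'.symm' hxz)]
      exact hτe z hz

end Pool.GEN
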