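import Pool.Agent.GEN.St

/-!
# GEN, IB: basic facts on rows of islands
-/

set_option autoImplicit false

namespace Pool.GEN

open Pool.Agent.ARB Pool.LSG

private theorem ib_nXd_append {α : Type} (u v : Wd α) : nXd (u ++ v) = nXd u + nXd v := by
  induction u with
  | nil => simp [nXd]
  | cons s u ih =>
    obtain ⟨k, i⟩ := s
    cases k with
    | U => simpa [nXd] using ih
    | N => simpa [nXd] using ih
    | X a =>
      simp only [List.cons_append, nXd, ih]
      omega

private theorem ib_isl_ok {α : Type} (h N : ℕ) (a : α) (hN : h ≤ N) : Okd (isl h a) N (N + 4) := by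
  refine ⟨?_, ?_, ?_, ?_⟩
  · show h + 0 ≤ N
    omega
  · show h + 2 + 0 ≤ N - 0 + 2
    omega
  · show h + 1 + 2 ≤ N - 0 + 2 - 0 + 2
    omega
  · show N - 0 + 2 - 0 + 2 - 2 + 2 = N + 4
    omega

private theorem ib_app {α : Type} (h : ℕ) (ks1 ks2 : List α) :
    isls h (ks1 ++ ks2) = isls h ks1 ++ isls (h + 4 * ks1.length) ks2 := by
  induction ks1 generalizing h with
  | nil => rfl
  | cons k ks1 ih =>
    have e : h + 4 * (k :: ks1).length = h + 4 + 4 * ks1.length := by
      simp only [List.length_cons]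
      omega
    rw [e]
    show isl h k ++ isls (h + 4) (ks1 ++ ks2) = isl h k ++ isls (h + 4) ks1 ++ _
    rw [ih, List.append_assoc]

private theorem ib_ok {α : Type} (h N : ℕ) (ks : List α) (hN : h ≤ N) :
    Okd (isls h ks) N (N + 4 * ks.length) := by
  induction ks generalizing h N with
  | nil => rfl
  | cons k ks ih =>
    have e : N + 4 * (k :: ks).length = N + 4 + 4 * ks.length := by
      simp only [List.length_cons]
      omega
    rw [e]
    exact (ib_isl_ok h N k hN).append (ih (h + 4) (N + 4) (by omega))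

private theorem ib_shd {α : Type} (h j : ℕ) (ks : List α) :
    shd j (isls h ks) = isls (h + j) ks := by
  induction ks generalizing h with
  | nil => rfl
  | cons k ks ih =>
    show shd j (isl h k ++ isls (h + 4) ks) = isl (h + j) k ++ isls (h + j + 4) ks
    rw [shd_append, ih]
    have e1 : shd j (isl h k) = isl (h + j) k := by
      have e3 : h + 2 + j = h + j + 2 := by omega
      have e4 : h + 1 + j = h + j + 1 := by omega
      show [(⟨.U, h + j⟩ : Pc α), ⟨.U, h + 2 + j⟩, ⟨.X k, h + 1 + j⟩] = _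
      rw [e3, e4]
      rfl
    have e2 : h + 4 + j = h + j + 4 := by omega
    rw [e1, e2]

private theorem ib_nXd {α : Type} (h : ℕ) (ks : List α) : nXd (isls h ks) = ks.length := by
  induction ks generalizing h with
  | nil => rfl
  | cons k ks ih =>
    show nXd (isl h k ++ isls (h + 4) ks) = ks.length + 1
    rw [ib_nXd_append, ih]
    show 1 + _ = _
    omega

private theorem ib_lt {α : Type} (h : ℕ) (ks : List α) (k : α) :
    Lt k (isls h ks) ↔ k ∈ ks := by
  induction ks generalizing h with
  | nil =>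
    constructor
    · rintro ⟨i, hi⟩
      simp [isls] at hi
    · intro hk
      simp at hk
  | cons k' ks ih =>
    constructor
    · rintro ⟨i, hi⟩
      have hi' : cX i k ∈ isl h k' ++ isls (h + 4) ks := hi
      rw [List.mem_append] at hi'
      rcases hi' with hi' | hi'
      · have h2 : k = k' := by
          simp only [isl, List.mem_cons, List.not_mem_nil, or_false, Pc.mk.injEq, reduceCtorEq,
            false_and, Kd.X.injEq, false_or] at hi'
          exact hi'.1
        rw [h2]
        exact List.mem_cons_self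
      · exact List.mem_cons_of_mem _ ((ih (h + 4)).1 ⟨i, hi'⟩)
    · intro hk
      rcases List.mem_cons.1 hk with rfl | hk
      · refine ⟨h + 1, ?_⟩
        show cX (h + 1) k ∈ isl h k ++ isls (h + 4) ks
        exact List.mem_append_left _ (by simp [isl])
      · obtain ⟨i, hi⟩ := (ih (h + 4)).2 hk
        exact ⟨i, List.mem_append_right _ hi⟩

private theorem ib_comm {α : Type} [Rt α] (g N : ℕ) (ks2 ks3 : List α) (hN : g ≤ N) :
    PIso N (isls g ks2 ++ isls (g + 4 * ks2.length) ks3) (isls g ks3 ++ isls g ks2) := by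
  have h1 := PIso.comm (isls g ks2) (isls 0 ks3) g (g + 4 * ks2.length) (N - g)
    (N - g + 4 * ks3.length) (ib_ok g g ks2 le_rfl) (ib_ok 0 (N - g) ks3 (Nat.zero_le _))
  rw [ib_shd, ib_shd] at h1
  have e1 : g + (N - g) = N := by omega
  have e2 : 0 + (g + 4 * ks2.length) = g + 4 * ks2.length := by omega
  have e3 : 0 + g = g := by omega
  rw [e1, e2, e3] at h1
  exact h1

private theorem ib_ins {α : Type} [Rt α] (h N : ℕ) (ks1 ks2 : List α) (a : α) (hN : h ≤ N) :
    PIso N (isls h (ks1 ++ ks2) ++ isl (h + 4 * ks1.length) a) (isls h (ks1 ++ (a :: ks2))) := by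
  rw [ib_app, ib_app, List.append_assoc]
  refine PIso.left (ib_ok h N ks1 hN) ?_
  have h1 := ib_comm (h + 4 * ks1.length) (N + 4 * ks1.length) [a] ks2 (by omega)
  have e1 : isls (h + 4 * ks1.length) [a] = isl (h + 4 * ks1.length) a := by
    simp [isls]
  rw [e1] at h1
  exact h1.symm

private theorem ib_isc4 {κ : Type} (h : ℕ) (k : Cr κ) (c : ℕ → κ) (j : ℕ) :
    isc h k c (h + 4 + j) = c (h + j) := by
  unfold isc
  rw [if_neg (by omega), if_neg (by omega), if_neg (by omega), if_neg (by omega)]
  congr 1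
  omega

private theorem ib_dec {κ : Type} (e : Bool) (pr : κ → Bool) (z : κ) (ks : List (Cr κ))
    (V : Wd (Cr κ)) (hb : ∀ k ∈ ks, k.b = z) : ∀ (c : ℕ → κ) (N h : ℕ), h ≤ N → c h = z →
    (Vl c (isls h ks ++ V) ↔ Vl (iscs h ks c) V) ∧
    (Dec e pr c N (isls h ks ++ V) → Dec e pr (iscs h ks c) (N + 4 * ks.length) V ∧
      ∀ k ∈ ks, Gl e pr k) := by
  obtain ⟨i1, i2, -, -⟩ := all_Isl
  induction ks with
  | nil =>
    intro c N h hN hc
    refine ⟨Iff.rfl, fun hd => ⟨hd, ?_⟩⟩
    intro k hk
    simp at hk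
  | cons k ks ih =>
    intro c N h hN hc
    have hk : k.b = z := hb k List.mem_cons_self
    have hc' : isc h k c (h + 4) = z := (ib_isc4 h k c 0).trans hc
    obtain ⟨j1, j2⟩ := ih (fun k' hk' => hb k' (List.mem_cons_of_mem _ hk')) (isc h k c) (N + 4)
      (h + 4) (by omega) hc'
    have es : isls h (k :: ks) ++ V = isl h k ++ (isls (h + 4) ks ++ V) := by
      show isl h k ++ isls (h + 4) ks ++ V = _
      rw [List.append_assoc]
    rw [es]
    constructor
    · rw [i1]
      constructor
      · rintro ⟨-, hv⟩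
        exact j1.1 hv
      · intro hv
        exact ⟨hk.trans hc.symm, j1.2 hv⟩
    · intro hd
      obtain ⟨d1, -, d3, -⟩ := i2 e pr c N h k _ hN hd
      obtain ⟨d4, d5⟩ := j2 d1
      have e1 : N + 4 * (k :: ks).length = N + 4 + 4 * ks.length := by
        simp only [List.length_cons]
        omega
      rw [e1]
      refine ⟨d4, ?_⟩
      intro k' hk'
      rcases List.mem_cons.1 hk' with rfl | hk'
      · exact d3
      · exact d5 k' hk'

private theorem ib_fa {κ : Type} (z x : κ) (ks : List (Cr κ)) (V : Wd (Cr κ))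
    (hb : ∀ k ∈ ks, k.b = z) (hx : x ≠ z) : ∀ (c : ℕ → κ) (N h : ℕ), h ≤ N → c h = z →
    Okd V (N + 4 * ks.length) 0 → Fa x c N (isls h ks ++ V) →
    Fa x (iscs h ks c) (N + 4 * ks.length) V := by
  obtain ⟨-, -, i3, -⟩ := all_Isl
  induction ks with
  | nil =>
    intro c N h hN hc hV hF
    exact hF
  | cons k ks ih =>
    intro c N h hN hc hV hF
    have hk : k.b = z := hb k List.mem_cons_self
    have hc' : isc h k c (h + 4) = z := (ib_isc4 h k c 0).trans hc
    have e1 : N + 4 * (k :: ks).length = N + 4 + 4 * ks.length := by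
      simp only [List.length_cons]
      omega
    rw [e1] at hV ⊢
    have es : isls h (k :: ks) ++ V = isl h k ++ (isls (h + 4) ks ++ V) := by
      show isl h k ++ isls (h + 4) ks ++ V = _
      rw [List.append_assoc]
    rw [es] at hF
    refine ih (fun k' hk' => hb k' (List.mem_cons_of_mem _ hk')) (isc h k c) (N + 4)
      (h + 4) (by omega) hc' hV ?_
    refine i3 x c N h k _ hN ?_ hF (hk.trans hc.symm) (by rw [hk]; exact hx.symm)
    exact (ib_ok (h + 4) (N + 4) ks (by omega)).append hV

private theorem ib_low {κ : Type} (ks : List (Cr κ)) : ∀ (c : ℕ → κ) (h j : ℕ), j ≤ h →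
    iscs h ks c j = c j := by
  induction ks with
  | nil => intro c h j _; rfl
  | cons k ks ih =>
    intro c h j hj
    show iscs (h + 4) ks (isc h k c) j = c j
    rw [ih _ _ _ (by omega)]
    unfold isc
    rw [if_pos hj]

private theorem ib_row {κ : Type} (z : κ) (ks2 ks1 : List (Cr κ)) : ∀ (c : ℕ → κ) (h : ℕ), 1 ≤ h →
    c h = z → iscs h (ks1 ++ ks2) c (h - 1 + 4 * ks1.length) = lastr (c (h - 1)) ks1 ∧
      iscs h (ks1 ++ ks2) c (h + 4 * ks1.length) = z ∧
      iscs h (ks1 ++ ks2) c (h + 1 + 4 * ks1.length) =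
        match ks2 with | [] => c (h + 1) | k :: _ => k.l := by
  induction ks1 with
  | nil =>
    intro c h hh hc
    refine ⟨?_, ?_, ?_⟩
    · show iscs h ks2 c (h - 1 + 0) = c (h - 1)
      rw [Nat.add_zero, ib_low ks2 c h (h - 1) (by omega)]
    · show iscs h ks2 c (h + 0) = z
      rw [Nat.add_zero, ib_low ks2 c h h le_rfl, hc]
    · show iscs h ks2 c (h + 1 + 0) = _
      rw [Nat.add_zero]
      cases ks2 with
      | nil => rfl
      | cons k ks =>
        show iscs (h + 4) ks (isc h k c) (h + 1) = k.l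
        rw [ib_low ks _ _ _ (by omega)]
        unfold isc
        rw [if_neg (by omega), if_pos rfl]
  | cons k ks1 ih =>
    intro c h hh hc
    have hc' : isc h k c (h + 4) = z := (ib_isc4 h k c 0).trans hc
    obtain ⟨r1, r2, r3⟩ := ih (isc h k c) (h + 4) (by omega) hc'
    have e1 : h - 1 + 4 * (k :: ks1).length = h + 4 - 1 + 4 * ks1.length := by
      simp only [List.length_cons]
      omega
    have e2 : h + 4 * (k :: ks1).length = h + 4 + 4 * ks1.length := by
      simp only [List.length_cons]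
      omega
    have e3 : h + 1 + 4 * (k :: ks1).length = h + 4 + 1 + 4 * ks1.length := by
      simp only [List.length_cons]
      omega
    refine ⟨?_, ?_, ?_⟩
    · rw [e1]
      show iscs (h + 4) (ks1 ++ ks2) (isc h k c) (h + 4 - 1 + 4 * ks1.length) = lastr k.r ks1
      rw [r1]
      have e4 : isc h k c (h + 4 - 1) = k.r := by
        unfold isc
        rw [if_neg (by omega), if_neg (by omega), if_neg (by omega), if_pos (by omega)]
      rw [e4]
    · rw [e2]
      exact r2
    · rw [e3]
      have e5 : isc h k c (h + 4 + 1) = c (h + 1) := ib_isc4 h k c 1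
      rw [e5] at r3
      exact r3

private theorem ib_gaps {κ : Type} (z : κ) (ks : List (Cr κ))
    (hk : ∀ k ∈ ks, k.l ≠ z ∧ k.t ≠ z ∧ k.r ≠ z) : ∀ (c : ℕ → κ) (N h m : ℕ), h ≤ N →
    (∀ j ≤ N, c j = z → ∃ i ≤ m, j + 4 * i = h) →
    ∀ j ≤ N + 4 * ks.length, iscs h ks c j = z →
      ∃ i ≤ m + ks.length, j + 4 * i = h + 4 * ks.length := by
  induction ks with
  | nil =>
    intro c N h m hN hc j hj hz
    exact hc j hj hz
  | cons k ks ih =>
    intro c N h m hN hc j hj hz
    obtain ⟨k1, k2, k3⟩ := hk k List.mem_cons_self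
    have h1 : ∀ j ≤ N + 4, isc h k c j = z → ∃ i ≤ m + 1, j + 4 * i = h + 4 := by
      intro j hj hz
      unfold isc at hz
      split_ifs at hz with c1 c2 c3 c4
      · obtain ⟨i, hi, hi'⟩ := hc j (by omega) hz
        exact ⟨i + 1, by omega, by omega⟩
      · exact absurd hz k1
      · exact absurd hz k2
      · exact absurd hz k3
      · obtain ⟨i, hi, hi'⟩ := hc (j - 4) (by omega) hz
        exact ⟨i, by omega, by omega⟩
    have h2 := ih (fun k' hk' => hk k' (List.mem_cons_of_mem _ hk')) (isc h k c) (N + 4) (h + 4)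
      (m + 1) (by omega) h1 j (by simp only [List.length_cons] at hj; omega) hz
    obtain ⟨i, hi, hi'⟩ := h2
    refine ⟨i, ?_, ?_⟩
    · simp only [List.length_cons]
      omega
    · simp only [List.length_cons]
      omega

theorem thm_IB : St_IB := by
  refine ⟨fun h ks1 ks2 => ib_app h ks1 ks2, fun h N ks hN => ib_ok h N ks hN,
    fun h j ks => ⟨ib_shd h j ks, ib_nXd h ks, fun k => ib_lt h ks k⟩,
    fun g N ks2 ks3 hN => ib_comm g N ks2 ks3 hN,
    fun e pr c N h z ks V hN hc hb => ib_dec e pr z ks V hb c N h hN hc,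
    fun c N h z x ks V hN hc hb hx hV hF => ib_fa z x ks V hb hx c N h hN hc hV hF,
    fun c N h z ks hh hN hc => ⟨?_, ?_⟩, fun h N ks1 ks2 a hN => ib_ins h N ks1 ks2 a hN⟩
  · intro ks1 ks2 hks
    subst hks
    exact ib_row z ks2 ks1 c h hh hc
  · intro h1 h2 j hj hz
    obtain ⟨i, hi, hi'⟩ := ib_gaps z ks h2 c N h 0 (by omega)
      (fun j hj hz => ⟨0, le_rfl, by have := h1 j hj hz; omega⟩) j hj hz
    exact ⟨ks.length - i, by omega, by omega⟩

end Pool.GEN
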