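import Pool.Agent.GEN.St

/-!
# GEN [LF2]: two places on the right of the same region give a local factor
-/

set_option autoImplicit false

namespace Pool.GEN

open LaurentPolynomial Pool.Agent.ARB Pool.Agent.Helper2 Pool.ALT Pool.LSP Pool.LSG

private theorem lf2_nX {α : Type} (u v : Wd α) : nXd (u ++ v) = nXd u + nXd v := by
  induction u with
  | nil => simp [nXd]
  | cons s u ih =>
    obtain ⟨k, i⟩ := s
    cases k <;> simp only [List.cons_append, nXd, ih] <;> omega

theorem thm_LF2 (hIB : St_IB) : St_LF2 := by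
  obtain ⟨i1, i2, i3, i4, i5, i6, i7, i8⟩ := hIB
  intro κ c N h z x W V ks1 ks2 ks3 hW hvl hfa h1 hN hc hxz hV hiso hb hne hl1 hl2
  have hn2 : 1 ≤ ks2.length := List.length_pos_of_ne_nil hne
  have hh : h ≤ N := by omega
  -- colours above the islands
  have v1 : Vl c (isls h (ks1 ++ (ks2 ++ ks3)) ++ V) := all_Fa.1 N _ _ hiso c hvl
  have v2 : Vl (iscs h (ks1 ++ (ks2 ++ ks3)) c) V :=
    (i5 true (fun _ => true) c N h z _ V hh hc hb).1.1 v1
  have f1 : Fa x c N (isls h (ks1 ++ (ks2 ++ ks3)) ++ V) := all_Fa.2.2.1 x c N _ _ hiso hfa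
  have f2 := i6 c N h z x _ V hh hc hb hxz hV f1
  have hlen : (ks1 ++ (ks2 ++ ks3)).length = ks1.length + ks2.length + ks3.length := by
    simp only [List.length_append]
    omega
  have hlen2 : (ks1 ++ ks2).length = ks1.length + ks2.length := List.length_append
  have g1 := (i7 c N h z (ks1 ++ (ks2 ++ ks3)) h1 hN hc).1 ks1 (ks2 ++ ks3) rfl
  have g2 := (i7 c N h z (ks1 ++ (ks2 ++ ks3)) h1 hN hc).1 (ks1 ++ ks2) ks3
    (List.append_assoc _ _ _).symm
  have hrel : Rel V (h - 1 + 4 * ks1.length) (h - 1 + 4 * (ks1 ++ ks2).length) :=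
    all_Fa.2.2.2.1 x _ _ V hV v2 f2 _ _ (by omega) (by omega) (g1.1.trans hl1) (g2.1.trans hl2)
  obtain ⟨A, B, hA, hB, -, hAB⟩ := all_SL.1 V _ hV _ _ (by omega) (by omega) hrel
  have hA' : Okd A (4 * ks2.length) 0 := hA.cast (by omega) rfl
  have hB' : Okd B (N + 4 * ks1.length + 4 * ks3.length) 0 := hB.cast (by omega) rfl
  refine ⟨isls h ks1 ++ isls (h + 4 * ks1.length) ks3, isls 1 ks2 ++ A, B,
    N + 4 * ks1.length + 4 * ks3.length, h - 1 + 4 * ks1.length, ?_, by omega, ?_, ?_, hB', ?_⟩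
  · exact (i2 h N ks1 hh).append (i2 _ _ ks3 (by omega))
  · exact (i2 1 1 ks2 le_rfl).append ((hA'.add 1).cast (by omega) (by omega))
  · rw [lf2_nX, (i3 1 0 ks2).2.1]
    omega
  · refine hiso.trans ?_
    have e1 : isls h (ks1 ++ (ks2 ++ ks3)) = isls h ks1 ++ (isls (h + 4 * ks1.length) ks2 ++
        isls (h + 4 * ks1.length + 4 * ks2.length) ks3) := by
      rw [i1, i1]
    have e2 : PIso N (isls h (ks1 ++ (ks2 ++ ks3))) (isls h ks1 ++
        (isls (h + 4 * ks1.length) ks3 ++ isls (h + 4 * ks1.length) ks2)) := by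
      rw [e1]
      exact PIso.left (i2 h N ks1 hh) (i4 _ _ ks2 ks3 (by omega))
    have e3 : PIso N (isls h (ks1 ++ (ks2 ++ ks3)) ++ V) (isls h (ks1 ++ (ks2 ++ ks3)) ++
        (shd (h - 1 + 4 * ks1.length) A ++ B)) := PIso.left (i2 h N _ hh) hAB
    refine e3.trans ?_
    have e4 := e2.right (shd (h - 1 + 4 * ks1.length) A ++ B)
    refine e4.trans ?_
    have e5 : shd (h - 1 + 4 * ks1.length) (isls 1 ks2 ++ A) =
        isls (h + 4 * ks1.length) ks2 ++ shd (h - 1 + 4 * ks1.length) A := by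
      rw [shd_append, (i3 1 _ ks2).1]
      congr 2
      omega
    rw [e5]
    simp only [List.append_assoc]
    exact PIso.refl _ _

end Pool.GEN
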