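import Pool.Agent.GEN.St

/-!
# GEN, module LL: a region without crossings which meets the boundary in one gap
-/

set_option autoImplicit false

namespace Pool.GEN

open Pool.Agent.ARB Pool.Agent.Helper2 Pool.ALT Pool.LSP Pool.LSG

section count

variable {κ κ' α : Type}

open Classical in
/-- the gap `j` has the property `ρ` and its neighbours differ -/
private noncomputable def ll_H (ρ f : κ → Prop) (c : ℕ → κ) (j : ℕ) : ZMod 2 :=
  if ρ (c j) ∧ ¬ (f (c (j - 1)) ↔ f (c (j + 1))) then 1 else 0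

/-- the number of these gaps modulo two -/
private noncomputable def ll_S (ρ f : κ → Prop) (c : ℕ → κ) (n : ℕ) : ZMod 2 :=
  ∑ j ∈ Finset.range (n + 1), ll_H ρ f c j

private theorem ll_H_congr {ρ f : κ → Prop} {c c' : ℕ → κ} {j j' : ℕ} (h0 : c j = c' j')
    (h1 : c (j - 1) = c' (j' - 1)) (h2 : c (j + 1) = c' (j' + 1)) :
    ll_H ρ f c j = ll_H ρ f c' j' := by
  rw [ll_H, ll_H, h0, h1, h2]

private theorem ll_H_zero {ρ f : κ → Prop} {c : ℕ → κ} {j : ℕ} (h : ¬ ρ (c j)) :
    ll_H ρ f c j = 0 := by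
  rw [ll_H, if_neg fun hh => h hh.1]

private theorem ll_ins (ρ f : κ → Prop) (c : ℕ → κ) (i n : ℕ) (t : κ) (hi : i ≤ n) :
    ll_S ρ f (insC i t c) (n + 2) = ll_S ρ f c n := by
  obtain ⟨m, rfl⟩ := Nat.exists_eq_add_of_le hi
  have e1 : i + m + 2 + 1 = i + 3 + m := by omega
  have e2 : i + m + 1 = i + 1 + m := by omega
  have g1 : ∀ j, j ≤ i → insC i t c j = c j := fun j hj => if_pos hj
  have g2 : insC i t c (i + 1) = t := by
    show (if i + 1 ≤ i then c (i + 1) else if i + 1 = i + 1 then t else c (i + 1 - 2)) = t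
    rw [if_neg (by omega), if_pos rfl]
  have g3 : ∀ j, i + 2 ≤ j → insC i t c j = c (j - 2) := by
    intro j hj
    show (if j ≤ i then c j else if j = i + 1 then t else c (j - 2)) = c (j - 2)
    rw [if_neg (by omega), if_neg (by omega)]
  rw [ll_S, ll_S, e1, e2, Finset.sum_range_add _ (i + 3) m, Finset.sum_range_add _ (i + 1) m,
    Finset.sum_range_succ _ (i + 2), Finset.sum_range_succ _ (i + 1), Finset.sum_range_succ _ i,
    Finset.sum_range_succ _ i]
  have h1 : ∑ x ∈ Finset.range i, ll_H ρ f (insC i t c) x = ∑ x ∈ Finset.range i, ll_H ρ f c x := by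
    refine Finset.sum_congr rfl fun x hx => ?_
    rw [Finset.mem_range] at hx
    exact ll_H_congr (g1 x (by omega)) (g1 _ (by omega)) (g1 _ (by omega))
  have h2 : ∑ x ∈ Finset.range m, ll_H ρ f (insC i t c) (i + 3 + x) =
      ∑ x ∈ Finset.range m, ll_H ρ f c (i + 1 + x) := by
    refine Finset.sum_congr rfl fun x _ => ?_
    refine ll_H_congr ?_ ?_ ?_
    · rw [g3 _ (by omega)]
      exact congrArg c (by omega)
    · rw [g3 _ (by omega)]
      exact congrArg c (by omega)
    · rw [g3 _ (by omega)]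
      exact congrArg c (by omega)
  have h3 : ll_H ρ f (insC i t c) i + ll_H ρ f (insC i t c) (i + 1) +
      ll_H ρ f (insC i t c) (i + 2) = ll_H ρ f c i := by
    have e3 : i + 1 - 1 = i := by omega
    have e4 : i + 2 - 1 = i + 1 := by omega
    have e6 : i + 2 + 1 - 2 = i + 1 := by omega
    have e7 : i + 1 + 1 - 2 = i := by omega
    rw [ll_H, ll_H, ll_H, ll_H, e3, e4, g1 i le_rfl, g1 (i - 1) (by omega), g2,
      g3 (i + 1 + 1) (by omega), g3 (i + 2 + 1) (by omega), e6, e7]
    by_cases a1 : ρ (c i) <;> by_cases a2 : f (c (i - 1)) <;> by_cases a3 : f t <;>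
      by_cases a4 : f (c (i + 1)) <;> simp only [a1, a2, a3, a4, iff_true,
        iff_false, not_true_eq_false, not_false_eq_true, if_true, if_false, iff_self, and_false,
        and_true, add_zero, zero_add] <;> rfl
  rw [h1, h2, ← h3]
  ring

private theorem ll_upd (ρ f : κ → Prop) (c : ℕ → κ) (i n : ℕ) (t : κ) (h0 : ¬ ρ (c i))
    (h1 : ¬ ρ (c (i + 1))) (h2 : ¬ ρ (c (i + 2))) (h3 : ¬ ρ t) :
    ll_S ρ f (updC (i + 1) t c) n = ll_S ρ f c n := by
  have g1 : ∀ j, j ≠ i + 1 → updC (i + 1) t c j = c j := fun j hj => if_neg hj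
  have g2 : updC (i + 1) t c (i + 1) = t := if_pos rfl
  refine Finset.sum_congr rfl fun x _ => ?_
  rcases (by omega : x = i ∨ x = i + 1 ∨ x = i + 2 ∨ (x ≠ i ∧ x ≠ i + 1 ∧ x ≠ i + 2)) with
    rfl | rfl | rfl | ⟨h4, h5, h6⟩
  · rw [ll_H_zero (by rw [g1 _ (by omega)]; exact h0), ll_H_zero h0]
  · rw [ll_H_zero (by rw [g2]; exact h3), ll_H_zero h1]
  · rw [ll_H_zero (by rw [g1 _ (by omega)]; exact h2), ll_H_zero h2]
  · exact ll_H_congr (g1 x (by omega)) (g1 _ (by omega)) (g1 _ (by omega))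

/-- the number modulo two does not depend on the height -/
private theorem ll_inv (ρ f : κ → Prop) (P : κ → κ → κ → κ → α → Prop) (W : Wd α) :
    (∀ a, Lt a W → ∀ l b r t, P l b r t a → ¬ ρ l ∧ ¬ ρ b ∧ ¬ ρ r ∧ ¬ ρ t) →
    ∀ (c c' : ℕ → κ) (n m : ℕ), Va P c W c' → Okd W n m →
      ll_S ρ f c n = ll_S ρ f c' m ∧ c' 0 = c 0 := by
  induction W with
  | nil =>
    intro _ c c' n m h1 h2
    have e1 : c = c' := h1
    have e2 : n = m := h2
    subst e1 e2
    exact ⟨rfl, rfl⟩
  | cons s W ih =>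
    intro hP c c' n m h1 h2
    have hP' : ∀ a, Lt a W → ∀ l b r t, P l b r t a → ¬ ρ l ∧ ¬ ρ b ∧ ¬ ρ r ∧ ¬ ρ t := by
      rintro a ⟨i, hi⟩
      exact hP a ⟨i, List.mem_cons_of_mem _ hi⟩
    obtain ⟨k, i⟩ := s
    obtain ⟨h3, h4⟩ := h2
    cases k with
    | U =>
      have h3' : i + 0 ≤ n := h3
      obtain ⟨t, h5⟩ := h1
      have h4' : Okd W (n + 2) m := h4
      obtain ⟨h6, h7⟩ := ih hP' _ _ _ _ h5 h4'
      rw [ll_ins ρ f c i n t (by omega)] at h6
      refine ⟨h6, h7.trans ?_⟩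
      exact if_pos (Nat.zero_le i)
    | N =>
      have h3' : i + 2 ≤ n := h3
      obtain ⟨hc, h5⟩ := h1
      have h4' : Okd W (n - 2) m := h4
      obtain ⟨h6, h7⟩ := ih hP' _ _ _ _ h5 h4'
      refine ⟨?_, h7.trans ?_⟩
      · rw [← h6]
        have h8 := ll_ins ρ f (delC i c) i (n - 2) (c (i + 1)) (by omega)
        have e1 : insC i (c (i + 1)) (delC i c) = c := by
          funext j
          show (if j ≤ i then (if j ≤ i then c j else c (j + 2)) else if j = i + 1 then c (i + 1)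
            else (if j - 2 ≤ i then c (j - 2) else c (j - 2 + 2))) = c j
          rcases (by omega : j ≤ i ∨ j = i + 1 ∨ j = i + 2 ∨ i + 3 ≤ j) with h | h | h | h
          · rw [if_pos h, if_pos h]
          · rw [if_neg (by omega), if_pos h, h]
          · rw [if_neg (by omega), if_neg (by omega), if_pos (by omega), h,
              show i + 2 - 2 = i by omega, hc]
          · rw [if_neg (by omega), if_neg (by omega), if_neg (by omega),
              show j - 2 + 2 = j by omega]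
        have e2 : n - 2 + 2 = n := by omega
        rw [e1, e2] at h8
        exact h8
      · exact if_pos (Nat.zero_le i)
    | X a =>
      have h3' : i + 2 ≤ n := h3
      obtain ⟨t, hp, h5⟩ := h1
      have h4' : Okd W (n - 2 + 2) m := h4
      have e2 : n - 2 + 2 = n := by omega
      rw [e2] at h4'
      obtain ⟨h6, h7⟩ := ih hP' _ _ _ _ h5 h4'
      obtain ⟨k1, k2, k3, k4⟩ := hP a ⟨i, List.mem_cons_self⟩ _ _ _ _ hp
      rw [ll_upd ρ f c i n t k1 k2 k3 k4] at h6
      refine ⟨h6, h7.trans ?_⟩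
      exact if_neg (by omega)

/-- pairs of colourings -/
private theorem ll_pair (P : κ → κ → κ → κ → α → Prop) (P' : κ' → κ' → κ' → κ' → α → Prop)
    (W : Wd α) : ∀ (c c' : ℕ → κ) (d d' : ℕ → κ'), Va P c W c' → Va P' d W d' →
      Va (fun l b r t a => P l.1 b.1 r.1 t.1 a ∧ P' l.2 b.2 r.2 t.2 a) (fun j => (c j, d j)) W
        (fun j => (c' j, d' j)) := by
  induction W with
  | nil =>
    intro c c' d d' h1 h2
    have e1 : c = c' := h1
    have e2 : d = d' := h2
    subst e1 e2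
    exact rfl
  | cons s W ih =>
    intro c c' d d' h1 h2
    obtain ⟨k, i⟩ := s
    cases k with
    | U =>
      obtain ⟨t, h3⟩ := h1
      obtain ⟨t', h4⟩ := h2
      refine ⟨(t, t'), ?_⟩
      have e1 : insC i (t, t') (fun j => (c j, d j)) =
          fun j => (insC i t c j, insC i t' d j) := by
        funext j
        simp only [insC]
        split_ifs <;> rfl
      rw [e1]
      exact ih _ _ _ _ h3 h4
    | N =>
      obtain ⟨hc, h3⟩ := h1
      obtain ⟨hd, h4⟩ := h2
      refine ⟨Prod.ext hc hd, ?_⟩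
      have e1 : delC i (fun j => (c j, d j)) = fun j => (delC i c j, delC i d j) := by
        funext j
        simp only [delC]
        split_ifs <;> rfl
      rw [e1]
      exact ih _ _ _ _ h3 h4
    | X a =>
      obtain ⟨t, hp, h3⟩ := h1
      obtain ⟨t', hp', h4⟩ := h2
      refine ⟨(t, t'), ⟨hp, hp'⟩, ?_⟩
      have e1 : updC (i + 1) (t, t') (fun j => (c j, d j)) =
          fun j => (updC (i + 1) t c j, updC (i + 1) t' d j) := by
        funext j
        simp only [updC]
        split_ifs <;> rfl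
      rw [e1]
      exact ih _ _ _ _ h3 h4

end count

theorem thm_LL : St_LL := by
  intro κ c N g z W hok hvl hg1 hgN hcg hco hrel
  obtain ⟨hR1, hR2, hR3, hR4, -, -⟩ := thm_Rel W
  refine (all_RelI.1 W N (g - 1) (g + 1) hok (by omega) hgN).2 fun f hf => ?_
  have hρ : VU (fun j => j = g) W := by
    refine (hR4 N (fun j => j = g) hok).2 fun x y hx hy hxy => propext ⟨fun h => ?_, fun h => ?_⟩
    · subst h
      exact hrel y hy hxy
    · subst h
      exact hrel x hx (hR2 _ _ hxy)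
  obtain ⟨c', hc'⟩ := hvl
  obtain ⟨ρ', hρ'⟩ := hρ
  obtain ⟨f', hf'⟩ := hf
  have h1 := ll_pair _ _ W _ _ _ _ hc' (ll_pair _ _ W _ _ _ _ hρ' hf')
  obtain ⟨h2, h3⟩ := ll_inv (fun k : κ × (Prop × Prop) => k.1 = z ∧ k.2.1) (fun k => k.2.2) _ W
    (by
      rintro a ha l b r t ⟨⟨p1, p2, p3, p4⟩, -⟩
      have h4 := hco a ha
      refine ⟨fun h => h4 ?_, fun h => h4 ?_, fun h => h4 ?_, fun h => h4 ?_⟩
      · exact Or.inl (p1.trans h.1)
      · exact Or.inr (Or.inl (p2.trans h.1))
      · exact Or.inr (Or.inr (Or.inl (p3.trans h.1)))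
      · exact Or.inr (Or.inr (Or.inr (p4.trans h.1)))) _ _ N 0 h1 hok
  -- the number at the top
  have h5 : ll_S (fun k : κ × (Prop × Prop) => k.1 = z ∧ k.2.1) (fun k => k.2.2)
      (fun j => (c' j, (ρ' j, f' j))) 0 = 0 := by
    rw [ll_S, Finset.sum_range_one]
    refine ll_H_zero ?_
    rw [h3]
    rintro ⟨-, h6⟩
    have h7 : 0 = g := h6
    omega
  -- the number at the bottom
  have h6 : ll_S (fun k : κ × (Prop × Prop) => k.1 = z ∧ k.2.1) (fun k => k.2.2)
      (fun j => (c j, (j = g, f j))) N =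
      ll_H (fun k : κ × (Prop × Prop) => k.1 = z ∧ k.2.1) (fun k => k.2.2)
        (fun j => (c j, (j = g, f j))) g := by
    refine Finset.sum_eq_single_of_mem g (Finset.mem_range.2 (by omega)) fun j _ hj => ?_
    refine ll_H_zero ?_
    rintro ⟨-, h7⟩
    exact hj h7
  rw [h6, h5] at h2
  by_contra hne
  rw [ll_H, if_pos ⟨⟨hcg, rfl⟩, fun h => hne (propext h)⟩] at h2
  exact one_ne_zero h2

end Pool.GEN
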