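import Pool.Agent.GEN.St

/-!
# GEN, module PALL: all crossings at a region which meets the boundary in one gap
-/

set_option autoImplicit false

namespace Pool.GEN

open LaurentPolynomial Pool.Agent.ARB Pool.Agent.Helper2 Pool.ALT Pool.LSP Pool.LSG

variable {κ : Type}

/-! ### rows above islands -/

private theorem pall_isc_comm (a k : Cr κ) (g g' : ℕ) (d : ℕ → κ) (h : g ≤ g') :
    isc g a (isc g' k d) = isc (g' + 4) k (isc g a d) := by
  funext j
  unfold isc
  by_cases h1 : j ≤ g
  · rw [if_pos h1, if_pos (by omega), if_pos (by omega), if_pos h1]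
  · rw [if_neg h1]
    by_cases h2 : j = g + 1
    · rw [if_pos h2, if_pos (by omega), if_neg h1, if_pos h2]
    · rw [if_neg h2]
      by_cases h3 : j = g + 2
      · rw [if_pos h3, if_pos (by omega), if_neg h1, if_neg h2, if_pos h3]
      · rw [if_neg h3]
        by_cases h4 : j = g + 3
        · rw [if_pos h4, if_pos (by omega), if_neg h1, if_neg h2, if_neg h3, if_pos h4]
        · rw [if_neg h4]
          by_cases h5 : j ≤ g' + 4
          · rw [if_pos (by omega), if_pos h5, if_neg h1, if_neg h2, if_neg h3, if_neg h4]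
          · rw [if_neg (by omega), if_neg h5]
            by_cases h6 : j = g' + 4 + 1
            · rw [if_pos (by omega), if_pos h6]
            · rw [if_neg (by omega), if_neg h6]
              by_cases h7 : j = g' + 4 + 2
              · rw [if_pos (by omega), if_pos h7]
              · rw [if_neg (by omega), if_neg h7]
                by_cases h8 : j = g' + 4 + 3
                · rw [if_pos (by omega), if_pos h8]
                · rw [if_neg (by omega), if_neg h8, if_neg (by omega), if_neg (by omega),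
                    if_neg (by omega), if_neg (by omega)]

private theorem pall_isc_iscs (a : Cr κ) (ks : List (Cr κ)) : ∀ (g g' : ℕ) (d : ℕ → κ), g ≤ g' →
    isc g a (iscs g' ks d) = iscs (g' + 4) ks (isc g a d) := by
  induction ks with
  | nil =>
    intro g g' d _
    rfl
  | cons k ks ih =>
    intro g g' d h
    show isc g a (iscs (g' + 4) ks (isc g' k d)) = iscs (g' + 4 + 4) ks (isc (g' + 4) k (isc g a d))
    rw [ih g (g' + 4) _ (by omega), pall_isc_comm a k g g' d h]

private theorem pall_iscs_ins (a : Cr κ) (ks1 ks2 : List (Cr κ)) : ∀ (h : ℕ) (c : ℕ → κ),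
    iscs h (ks1 ++ (a :: ks2)) c = isc (h + 4 * ks1.length) a (iscs h (ks1 ++ ks2) c) := by
  induction ks1 with
  | nil =>
    intro h c
    show iscs (h + 4) ks2 (isc h a c) = isc (h + 4 * 0) a (iscs h ks2 c)
    exact (pall_isc_iscs a ks2 h h c le_rfl).symm
  | cons k ks1 ih =>
    intro h c
    show iscs (h + 4) (ks1 ++ (a :: ks2)) (isc h k c) =
      isc (h + 4 * (ks1.length + 1)) a (iscs (h + 4) (ks1 ++ ks2) (isc h k c))
    rw [ih (h + 4) (isc h k c), show h + 4 + 4 * ks1.length = h + 4 * (ks1.length + 1) by ring]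

/-- the row above an island, piece by piece -/
private theorem pall_isc_row (g : ℕ) (a : Cr κ) (c : ℕ → κ) :
    isc g a c = updC (g + 2) a.t (insC (g + 2) a.r (insC g a.l c)) := by
  funext j
  unfold isc updC insC
  by_cases h1 : j ≤ g
  · rw [if_pos h1, if_neg (by omega), if_pos (by omega), if_pos h1]
  · rw [if_neg h1]
    by_cases h2 : j = g + 1
    · rw [if_pos h2, if_neg (by omega), if_pos (by omega), if_neg h1, if_pos h2]
    · rw [if_neg h2]
      by_cases h3 : j = g + 2
      · rw [if_pos h3, if_pos h3]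
      · rw [if_neg h3, if_neg h3, if_neg (show ¬ j ≤ g + 2 by omega)]
        by_cases h4 : j = g + 3
        · rw [if_pos h4, if_pos (show j = g + 2 + 1 by omega)]
        · rw [if_neg h4, if_neg (show ¬ j = g + 2 + 1 by omega), if_neg (show ¬ j - 2 ≤ g by omega),
            if_neg (show ¬ j - 2 = g + 1 by omega)]
          rfl

/-- `FB` above an island -/
private theorem pall_FB {x : κ} {c : ℕ → κ} {N g : ℕ} {a : Cr κ} {V : Wd (Cr κ)}
    (h : T1.FB x c N (isl g a ++ V)) (hab : a.b = c g) (hok : Okd (isl g a ++ V) N 0) :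
    T1.FB x (isc g a c) (N + 4) V := by
  have h1 : T1.FB x c N (cU g :: (cU (g + 2) :: (cX (g + 1) a :: V))) := h
  have ok1 : Okd (cU g :: (cU (g + 2) :: (cX (g + 1) a :: V))) N 0 := hok
  have h2 := h1.tail thm_VaC (c₁ := insC g a.l c) ⟨a.l, rfl⟩ ok1
  have h3 := h2.tail thm_VaC (c₁ := insC (g + 2) a.r (insC g a.l c)) ⟨a.r, rfl⟩ ok1.2
  have h4 := h3.tail thm_VaC (c₁ := updC (g + 2) a.t (insC (g + 2) a.r (insC g a.l c)))
    ⟨a.t, ⟨?_, ?_, ?_, rfl⟩, rfl⟩ ok1.2.2
  · rw [← pall_isc_row] at h4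
    exact h4
  · show a.l = (if g + 1 ≤ g + 2 then (if g + 1 ≤ g then c (g + 1) else if g + 1 = g + 1 then a.l
      else c (g + 1 - 2)) else _)
    rw [if_pos (by omega), if_neg (by omega), if_pos rfl]
  · show a.b = (if g + 1 + 1 ≤ g + 2 then (if g + 1 + 1 ≤ g then c (g + 1 + 1) else
      if g + 1 + 1 = g + 1 then a.l else c (g + 1 + 1 - 2)) else _)
    rw [if_pos (by omega), if_neg (by omega), if_neg (by omega), hab]
    rfl
  · show a.r = (if g + 1 + 2 ≤ g + 2 then _ else if g + 1 + 2 = g + 2 + 1 then a.r else _)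
    rw [if_neg (by omega), if_pos (by omega)]

/-! ### the letters -/

private theorem pall_R4_lt {n : ℕ} {w w' : Wd (Cr κ)} (hI : PIso n w w') {a : Cr κ} (ha : Lt a w') :
    ∃ b, Lt b w ∧ T1.R4 b a := by
  obtain ⟨-, -, -, -, hl, -⟩ := thm_Mp
  obtain ⟨b, h1, h2⟩ := hl (fun b : Cr κ => T1.R4 b a) (fun b => by
    have h4 : ∀ x : Cr κ, Rt.r (Rt.r (Rt.r (Rt.r x))) = x := Rt.r4
    constructor
    · rintro (h | h | h | h)
      · exact Or.inr (Or.inl h)
      · exact Or.inr (Or.inr (Or.inl h))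
      · exact Or.inr (Or.inr (Or.inr h))
      · exact Or.inl (h.trans (h4 b))
    · rintro (h | h | h | h)
      · exact Or.inr (Or.inr (Or.inr (h.trans (h4 b).symm)))
      · exact Or.inl h
      · exact Or.inr (Or.inl h)
      · exact Or.inr (Or.inr (Or.inl h))) n w' w hI.symm ⟨a, ha, Or.inl rfl⟩
  exact ⟨b, h1, h2⟩

/-- a rotation of a crossing without equal opposite corners -/
private theorem pall_tb {W : Wd (Cr κ)} (hN : NoN W) {b a : Cr κ} (hb : Lt b W) (h : T1.R4 b a) :
    a.t ≠ a.b := by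
  intro h1
  rcases h with rfl | rfl | rfl | rfl
  · exact hN a (!a.p) a.b hb (Or.inr ⟨by cases a.p <;> decide, Or.inl ⟨rfl, h1⟩⟩)
  · have h2 : b.r = b.l := h1
    exact hN b b.p b.l hb (Or.inl ⟨rfl, Or.inl ⟨rfl, h2⟩⟩)
  · have h2 : b.b = b.t := h1
    exact hN b (!b.p) b.t hb (Or.inr ⟨by cases b.p <;> decide, Or.inl ⟨h2, rfl⟩⟩)
  · have h2 : b.l = b.r := h1
    exact hN b b.p b.r hb (Or.inl ⟨rfl, Or.inl ⟨h2, rfl⟩⟩)

/-! ### chains -/

private theorem pall_chn (y : κ) (ks : List (Cr κ)) : ∀ x : κ,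
    (∀ ks1 ks2, ks = ks1 ++ ks2 → lastr x ks1 = match ks2 with | [] => y | k :: _ => k.l) →
    Chn x y ks := by
  induction ks with
  | nil =>
    intro x h
    exact h [] [] rfl
  | cons k ks ih =>
    intro x h
    refine ⟨(h [] (k :: ks) rfl).symm, ih k.r fun ks1 ks2 he => ?_⟩
    have h1 := h (k :: ks1) ks2 (by rw [he]; rfl)
    exact h1

private theorem pall_split {α : Type} (ks : List α) (i : ℕ) (h : i ≤ ks.length) :
    ∃ ks1 ks2, ks = ks1 ++ ks2 ∧ ks1.length = i :=
  ⟨ks.take i, ks.drop i, (List.take_append_drop i ks).symm, by rw [List.length_take]; omega⟩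

/-- [PALL] -/
theorem thm_PALL (hIB : St_IB) (hLL : St_LL) : St_PALL := by
  intro κ e pr c N h z W hD hFa hN h1 hN1 hch huniq
  obtain ⟨ib1, ib2, ib3, ib4, ib5, -, ib7, ib8⟩ := hIB
  -- facts on a form `isls h ks ++ V`
  have hform : ∀ (ks : List (Cr κ)) (V : Wd (Cr κ)), PIso N W (isls h ks ++ V) →
      (∀ k ∈ ks, k.b = z) → Okd V (N + 4 * ks.length) 0 ∧ Vl (iscs h ks c) V ∧
        ∀ j ≤ N + 4 * ks.length, iscs h ks c j = z → ∃ i ≤ ks.length, j = h + 4 * i := by
    intro ks V hI hks
    have hD' := all_Fa.2.1 e pr c N W _ hI hD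
    obtain ⟨hD1, hgl⟩ := (ib5 e pr c N h z ks V (by omega) hch hks).2 hD'
    refine ⟨hD1.ok, hD1.vl, (ib7 c N h z ks h1 hN1 hch).2 huniq fun k hk => ?_⟩
    obtain ⟨g1, g2, g3, -⟩ := hgl k hk
    have hkz := hks k hk
    obtain ⟨b, hb, hb'⟩ := pall_R4_lt hI (a := k) (by
      obtain ⟨i, hi⟩ := ((ib3 h 0 ks).2.2 k).2 hk
      exact ⟨i, List.mem_append_left _ hi⟩)
    have htb := pall_tb hN hb hb'
    rw [hkz] at g3 htb
    refine ⟨fun h2 => ?_, htb, fun h2 => ?_⟩
    · rw [h2, g3] at g1
      exact absurd g1 (by cases decide (k.p = e) <;> decide)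
    · rw [h2, g3] at g2
      exact absurd g2 (by cases decide (k.p = e) <;> decide)
  -- (1)
  have hclaim : ∀ (m : ℕ) (ks : List (Cr κ)) (V : Wd (Cr κ)), nXd V = m →
      PIso N W (isls h ks ++ V) → (∀ k ∈ ks, k.b = z) →
      T1.FB z (iscs h ks c) (N + 4 * ks.length) V →
      ∃ (ks : List (Cr κ)) (V : Wd (Cr κ)), PIso N W (isls h ks ++ V) ∧ (∀ k ∈ ks, k.b = z) ∧
        ∀ a, Lt a V → ¬ T1.Co z a := by
    intro m
    induction m with
    | zero =>
      intro ks V hm hI hks hFB
      by_cases hex : ∃ a, Lt a V ∧ T1.Co z a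
      swap
      · exact ⟨ks, V, hI, hks, fun a ha hco => hex ⟨a, ha, hco⟩⟩
      obtain ⟨a, ha, hco⟩ := hex
      obtain ⟨ok, vl, -⟩ := hform ks V hI hks
      obtain ⟨s, hs, hcs, a', V', hb, hr, hI'⟩ := T1.claim thm_VaC thm_Rel all_RelI all_SL thm_Mp
        all_Fa thm_Is all_TL V _ _ ok vl hFB a ha hco
      have h2 : nXd V = nXd (isl s a' ++ V') := thm_Mp.2.2.2.2.2 _ _ _ hI'
      have h3 : nXd (isl s a' ++ V') = nXd V' + 1 := rfl
      omega
    | succ m ih =>
      intro ks V hm hI hks hFB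
      by_cases hex : ∃ a, Lt a V ∧ T1.Co z a
      swap
      · exact ⟨ks, V, hI, hks, fun a ha hco => hex ⟨a, ha, hco⟩⟩
      obtain ⟨a, ha, hco⟩ := hex
      obtain ⟨ok, vl, hgap⟩ := hform ks V hI hks
      obtain ⟨s, hs, hcs, a', V', hb, hr, hI'⟩ := T1.claim thm_VaC thm_Rel all_RelI all_SL thm_Mp
        all_Fa thm_Is all_TL V _ _ ok vl hFB a ha hco
      have h2 : nXd V = nXd (isl s a' ++ V') := thm_Mp.2.2.2.2.2 _ _ _ hI'
      have h3 : nXd (isl s a' ++ V') = nXd V' + 1 := rfl
      obtain ⟨i, hi, hsi⟩ := hgap s hs hcs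
      obtain ⟨ks1, ks2, hks12, hlen⟩ := pall_split ks i hi
      have hFB' : T1.FB z (iscs h ks c) (N + 4 * ks.length) (isl s a' ++ V') :=
        hFB.iso thm_Mp all_Fa hI'
      have hFB2 := pall_FB hFB' (hb.trans hcs.symm) (hI'.ok ok)
      have hrow : iscs h (ks1 ++ (a' :: ks2)) c = isc s a' (iscs h ks c) := by
        rw [pall_iscs_ins, ← hks12, hsi, hlen]
      have hlen2 : (ks1 ++ (a' :: ks2)).length = ks.length + 1 := by
        rw [hks12]
        simp only [List.length_append, List.length_cons]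
        omega
      refine ih (ks1 ++ (a' :: ks2)) V' (by omega) ?_ ?_ ?_
      · have h4 : PIso N (isls h ks ++ V) (isls h ks ++ (isl s a' ++ V')) :=
          PIso.left (ib2 h N ks (by omega)) hI'
        have h5 : PIso N (isls h ks ++ isl s a') (isls h (ks1 ++ (a' :: ks2))) := by
          have h6 := ib8 h N ks1 ks2 a' (by omega)
          rw [← hks12, hlen, ← hsi] at h6
          exact h6
        have h6 := h5.right V'
        rw [List.append_assoc] at h6
        exact hI.trans (h4.trans h6)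
      · intro k hk
        rcases List.mem_append.1 hk with hk | hk
        · exact hks k (by rw [hks12]; exact List.mem_append_left _ hk)
        · rcases List.mem_cons.1 hk with rfl | hk
          · exact hb
          · exact hks k (by rw [hks12]; exact List.mem_append_right _ hk)
      · rw [hrow, hlen2, show N + 4 * (ks.length + 1) = N + 4 * ks.length + 4 by ring]
        exact hFB2
  obtain ⟨ks, V, hI, hks, hco⟩ := hclaim (nXd W) [] W rfl (PIso.refl _ _)
    (fun k hk => absurd hk List.not_mem_nil) (T1.FB.of_Fa hFa (show h ≤ N by omega) hch)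
  obtain ⟨ok, vl, hgap⟩ := hform ks V hI hks
  obtain ⟨hsplit, -⟩ := ib7 c N h z ks h1 hN1 hch
  by_cases hrel : ∃ i j, i < j ∧ j ≤ ks.length ∧ Rel V (h + 4 * i) (h + 4 * j)
  · -- (2)
    left
    obtain ⟨i, j, hij, hj, hR⟩ := hrel
    obtain ⟨A, B, hA, hB, -, hAB⟩ := all_SL.1 V _ ok (h + 4 * i) (h + 4 * j) (by omega) (by omega) hR
    obtain ⟨ks1, ks', e1, hl1⟩ := pall_split ks i (by omega)
    have hl' : ks1.length + ks'.length = ks.length := by rw [e1, List.length_append]
    obtain ⟨ks2, ks3, e2, hl2⟩ := pall_split ks' (j - i) (by omega)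
    have hl3 : ks2.length + ks3.length = ks'.length := by rw [e2, List.length_append]
    refine ⟨isls h ks1 ++ isls (h + 4 * i) ks3, isls 0 ks2 ++ A, B, N + 4 * ks1.length +
      4 * ks3.length, h + 4 * i, (ib2 h N ks1 (by omega)).append
        (ib2 (h + 4 * i) (N + 4 * ks1.length) ks3 (by omega)), by omega, ?_, ?_, ?_, ?_⟩
    · have h2 := ib2 0 0 ks2 (le_refl 0)
      exact h2.append (hA.cast (by omega) rfl)
    · cases ks2 with
      | nil =>
        have h2 : (0 : ℕ) = j - i := hl2
        omega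
      | cons k ks2 =>
        intro h2
        exact absurd h2 (by simp [isls, isl])
    · exact hB.cast (by omega) rfl
    · have h2 : PIso N W (isls h ks ++ (shd (h + 4 * i) A ++ B)) :=
        hI.trans (PIso.left (ib2 h N ks (by omega)) hAB)
      have h3 : isls h ks = isls h ks1 ++ (isls (h + 4 * i) ks2 ++
          isls (h + 4 * i + 4 * ks2.length) ks3) := by
        rw [e1, e2, ib1, hl1, ib1]
      have h4 : PIso N (isls h ks) (isls h ks1 ++ (isls (h + 4 * i) ks3 ++ isls (h + 4 * i) ks2)) := by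
        rw [h3]
        exact PIso.left (ib2 h N ks1 (by omega)) (ib4 (h + 4 * i) _ ks2 ks3 (by omega))
      have h5 := h4.right (shd (h + 4 * i) A ++ B)
      have h6 : shd (h + 4 * i) (isls 0 ks2 ++ A) = isls (h + 4 * i) ks2 ++ shd (h + 4 * i) A := by
        rw [shd_append, (ib3 0 (h + 4 * i) ks2).1, Nat.zero_add]
      rw [h6]
      have h7 : isls h ks1 ++ (isls (h + 4 * i) ks3 ++ isls (h + 4 * i) ks2) ++
          (shd (h + 4 * i) A ++ B) = isls h ks1 ++ isls (h + 4 * i) ks3 ++
            ((isls (h + 4 * i) ks2 ++ shd (h + 4 * i) A) ++ B) := by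
        simp only [List.append_assoc]
      rw [← h7]
      exact h2.trans h5
  · -- (3)
    right
    refine ⟨ks, V, ok, hI, hks, hco, pall_chn _ ks _ fun ks1 ks2 he => ?_⟩
    have hl : ks1.length + ks2.length = ks.length := by rw [he, List.length_append]
    obtain ⟨g1, g2, g3⟩ := hsplit ks1 ks2 he
    have hR : Rel V (h + 4 * ks1.length - 1) (h + 4 * ks1.length + 1) := by
      refine hLL (iscs h ks c) (N + 4 * ks.length) (h + 4 * ks1.length) z V ok vl (by omega)
        (by omega) g2 hco fun j hj hR => ?_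
      have hcol := all_Fa.2.2.2.2.1 (iscs h ks c) (N + 4 * ks.length) V ok vl _ _ (by omega) hj hR
      obtain ⟨i, hi, hji⟩ := hgap j hj (hcol.symm.trans g2)
      rcases Nat.lt_trichotomy ks1.length i with h2 | h2 | h2
      · exact absurd ⟨ks1.length, i, h2, hi, by rw [← hji]; exact hR⟩ hrel
      · rw [hji, h2]
      · refine absurd ⟨i, ks1.length, h2, by omega, ?_⟩ hrel
        rw [← hji]
        exact (thm_Rel V).2.1 _ _ hR
    have hcol := all_Fa.2.2.2.2.1 (iscs h ks c) (N + 4 * ks.length) V ok vl _ _ (by omega)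
      (by omega) hR
    rw [show h - 1 + 4 * ks1.length = h + 4 * ks1.length - 1 by omega] at g1
    rw [show h + 1 + 4 * ks1.length = h + 4 * ks1.length + 1 by omega] at g3
    exact g1.symm.trans (hcol.trans g3)

end Pool.GEN
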