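import Pool.Agent.GEN.St

/-!
# GEN, module PR: bracket pairs
-/

set_option autoImplicit false

namespace Pool.GEN

open LaurentPolynomial Pool.Agent.ARB Pool.Agent.Helper2 Pool.ALT Pool.LSP Pool.LSG

/-- expansion of the operator of a word in words without crossings -/
private theorem pr_exp (w : Word) : ∀ (n m : ℕ), Pool.Agent.ARB.Ok w n m →
    ∃ L : List (LP × Word), (∀ s ∈ L, NoX s.2 ∧ Pool.Agent.ARB.Ok s.2 n m) ∧
    ∀ (V : Type) [AddCommGroup V] [Module LP V] (M : Model LP V) (j : ℕ) (x : V),
      runW M (Pool.Agent.ARB.sh j w) x =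
        (L.map fun s => s.1 • runC M (Pool.Agent.ARB.sh j s.2) x).sum := by
  induction w with
  | nil =>
    intro n m h
    refine ⟨[(1, [])], ?_, ?_⟩
    · intro s hs
      rw [List.mem_singleton.1 hs]
      exact ⟨fun t ht => absurd ht List.not_mem_nil, h⟩
    · intro V _ _ M j x
      show x = ([(1 : LP) • x]).sum
      rw [List.sum_singleton, one_smul]
  | cons s w ih =>
    intro n m h
    obtain ⟨k, i⟩ := s
    obtain ⟨L, hL, H⟩ := ih _ _ h.2
    cases k with
    | U =>
      refine ⟨L.map fun s => (s.1, pU i :: s.2), ?_, ?_⟩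
      · intro s hs
        obtain ⟨t, ht, rfl⟩ := List.mem_map.1 hs
        refine ⟨?_, h.1, (hL t ht).2⟩
        intro q hq
        rcases List.mem_cons.1 hq with rfl | hq
        · exact Or.inl rfl
        · exact (hL t ht).1 q hq
      · intro V _ _ M j x
        have h1 := H V M j (M.cup (i + j) x)
        rw [List.map_map]
        exact h1
    | N =>
      refine ⟨L.map fun s => (s.1, pN i :: s.2), ?_, ?_⟩
      · intro s hs
        obtain ⟨t, ht, rfl⟩ := List.mem_map.1 hs
        refine ⟨?_, h.1, (hL t ht).2⟩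
        intro q hq
        rcases List.mem_cons.1 hq with rfl | hq
        · exact Or.inr rfl
        · exact (hL t ht).1 q hq
      · intro V _ _ M j x
        have h1 := H V M j (M.cap (i + j) x)
        rw [List.map_map]
        exact h1
    | X p =>
      have hi : i + 2 ≤ n := h.1
      refine ⟨(L.map fun s => ((T (if p then 1 else -1) : LP) * s.1, s.2)) ++
        L.map fun s => ((T (if p then -1 else 1) : LP) * s.1, pN i :: pU i :: s.2), ?_, ?_⟩
      · intro s hs
        rcases List.mem_append.1 hs with hs | hs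
        · obtain ⟨t, ht, rfl⟩ := List.mem_map.1 hs
          have e : n - 2 + 2 = n := by omega
          have h2 := (hL t ht).2
          refine ⟨(hL t ht).1, ?_⟩
          have h3 : Pool.Agent.ARB.Ok t.2 (n - 2 + 2) m := h2
          rw [e] at h3
          exact h3
        · obtain ⟨t, ht, rfl⟩ := List.mem_map.1 hs
          refine ⟨?_, h.1, ?_, (hL t ht).2⟩
          · intro q hq
            rcases List.mem_cons.1 hq with rfl | hq
            · exact Or.inr rfl
            · rcases List.mem_cons.1 hq with rfl | hq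
              · exact Or.inl rfl
              · exact (hL t ht).1 q hq
          · show i + 0 ≤ n - 2 + 0
            omega
      · intro V _ _ M j x
        have e1 : runW M (Pool.Agent.ARB.sh j (⟨.X p, i⟩ :: w)) x =
            (T (if p then 1 else -1) : LP) • runW M (Pool.Agent.ARB.sh j w) x +
              (T (if p then -1 else 1) : LP) •
                runW M (Pool.Agent.ARB.sh j w) (M.cup (i + j) (M.cap (i + j) x)) := by
          have e2 : runW M (Pool.Agent.ARB.sh j (⟨.X p, i⟩ :: w)) x =
            runW M (Pool.Agent.ARB.sh j w) (crossOp M (i + j) p x) := rfl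
          have e3 : crossOp M (i + j) p x = (T (if p then 1 else -1) : LP) • x +
            (T (if p then -1 else 1) : LP) • (M.cup (i + j) (M.cap (i + j) x)) := rfl
          rw [e2, e3, map_add, map_smul, map_smul]
        rw [e1, H V M j x, H V M j (M.cup (i + j) (M.cap (i + j) x)), List.map_append,
          List.sum_append, List.map_map, List.map_map, ← BrRun_sum, ← BrRun_sum]
        congr 2
        · apply List.map_congr_left
          intro s _
          show _ = ((T (if p then 1 else -1) : LP) * s.1) • runC M (Pool.Agent.ARB.sh j s.2) x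
          rw [smul_smul]
        · apply List.map_congr_left
          intro s _
          show _ = ((T (if p then -1 else 1) : LP) * s.1) •
            runC M (Pool.Agent.ARB.sh j (pN i :: pU i :: s.2)) x
          rw [smul_smul]
          rfl

/-- every tangle has a bracket pair -/
private theorem pr_ex (w : Word) (hw : Pool.Agent.ARB.Ok w 2 2) : ∃ g b : LP, HasPair w g b := by
  obtain ⟨L, hL, H⟩ := pr_exp w 2 2 hw
  have key : ∀ L : List (LP × Word), (∀ s ∈ L, NoX s.2 ∧ Pool.Agent.ARB.Ok s.2 2 2) →
      ∃ g b : LP, ∀ (V : Type) [AddCommGroup V] [Module LP V] (M : Model LP V), Good M →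
      ∀ (j n : ℕ) (x : V), j + 2 ≤ n → M.Supp n x →
        (L.map fun s => s.1 • runC M (Pool.Agent.ARB.sh j s.2) x).sum =
          b • x + g • M.cup j (M.cap j x) := by
    intro L
    induction L with
    | nil =>
      intro _
      refine ⟨0, 0, ?_⟩
      intro V _ _ M hM j n x hn hx
      rw [zero_smul, zero_smul, add_zero]
      rfl
    | cons t L ih =>
      intro h
      obtain ⟨g, b, hs⟩ := ih fun q hq => h q (List.mem_cons_of_mem _ hq)
      obtain ⟨h1, h2⟩ := h t List.mem_cons_self
      obtain ⟨k, c, hk⟩ := thm_NF t.2 h1 h2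
      cases c with
      | false =>
        refine ⟨g, t.1 * loopVal ^ k + b, ?_⟩
        intro V _ _ M hM j n x hn hx
        have hk' := hk M j n x hn hx
        rw [if_neg Bool.false_ne_true] at hk'
        rw [List.map_cons, List.sum_cons, hs V M hM j n x hn hx, hk', hM.del]
        module
      | true =>
        refine ⟨t.1 * loopVal ^ k + g, b, ?_⟩
        intro V _ _ M hM j n x hn hx
        have hk' := hk M j n x hn hx
        rw [if_pos rfl] at hk'
        rw [List.map_cons, List.sum_cons, hs V M hM j n x hn hx, hk', hM.del]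
        module
  obtain ⟨g, b, hs⟩ := key L hL
  refine ⟨g, b, ?_⟩
  intro V _ _ M hM j n x hn hx
  rw [H V M j x]
  exact hs V M hM j n x hn hx

/-- the pair of the rotated tangle -/
private theorem pr_rot (w : Word) (g b : LP) (h : HasPair w g b) : HasPair (rotW w) b g := by
  intro V _ _ M hM j n x hj hx
  have h1 : Pool.Agent.ARB.sh j (rotW w) = pU (2 + j) ::
      (Pool.Agent.ARB.sh (1 + j) w ++ [pN j]) := by
    show Pool.Agent.ARB.sh j (pU 2 :: (Pool.Agent.ARB.sh 1 w ++ [pN 0])) = _
    rw [sh_cons, sh_append, sh_sh, Nat.add_comm j 1]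
    show pU (2 + j) :: (Pool.Agent.ARB.sh (1 + j) w ++ [pN (0 + j)]) = _
    rw [Nat.zero_add]
  have hy : M.Supp (n + 2) (M.cup (2 + j) x) := M.supp_cup _ _ _ (by omega) hx
  rw [h1, pairRun_cons, pairRun_append, pairRun_U, h V M hM (1 + j) (n + 2) _ (by omega) hy,
    pairRun_cons, pairRun_nil, pairRun_N, map_add, map_smul, map_smul]
  have h2 : M.cap j (M.cup (2 + j) x) = M.cup j (M.cap j x) := by
    have h := M.rel5 n j 0 x hx (by omega)
    rw [show j + 0 + 2 = 2 + j by omega, Nat.add_zero] at h
    exact h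
  have h3 : M.cap (1 + j) (M.cup (2 + j) x) = x := by
    have h := M.rel3 n (1 + j) x hx (by omega)
    rw [show 1 + j + 1 = 2 + j by omega] at h
    exact h
  have h4 : M.cap j (M.cup (1 + j) x) = x := by
    have h := M.rel3 n j x hx (by omega)
    rw [show j + 1 = 1 + j by omega] at h
    exact h
  rw [h2, h3, h4]
  exact add_comm _ _

private theorem pr_nz : (1 : LP) - loopVal * loopVal ≠ 0 := by
  intro h
  set φ : LP →+* ZMod 2 := LaurentPolynomial.eval₂ (Int.castRingHom (ZMod 2)) 1 with hφ
  have h1 : φ loopVal = 0 := by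
    rw [loopVal, map_neg, map_add, hφ, LaurentPolynomial.eval₂_T, LaurentPolynomial.eval₂_T]
    decide
  have h2 := congrArg φ h
  rw [map_sub, map_one, map_mul, h1, map_zero] at h2
  revert h2
  decide

/-- isotopic tangles have the same pair, up to a unit -/
private theorem pr_iso (w w' : Word) (g b : LP) (hw : Pool.Agent.ARB.Ok w 2 2)
    (hI : Pool.Agent.ARB.Iso 2 w w') (h : HasPair w g b) :
    ∃ u : LP, Un u ∧ HasPair w' (u * g) (u * b) := by
  obtain ⟨g', b', h'⟩ := pr_ex w' (hI.ok hw)
  obtain ⟨V, _, _, M, hM, hinj⟩ := thm_Vert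
  obtain ⟨u, hu, hrun⟩ := thm_Inv V M hM 4 4 w w' (hw.add 2) (hI.add 2)
  have h0 := M.supp_init
  have h2 : M.Supp 2 (M.cup 0 M.init) := M.supp_cup 0 0 _ (by omega) h0
  have h4 : M.Supp 4 (M.cup 1 (M.cup 0 M.init)) := M.supp_cup 2 1 _ (by omega) h2
  have h6 : M.cap 0 (M.cup 1 (M.cup 0 M.init)) = M.cup 0 M.init := M.rel3 2 0 _ h2 (by omega)
  have h7 : M.cap 1 (M.cup 1 (M.cup 0 M.init)) = loopVal • M.cup 0 M.init := by
    rw [← hM.del]
    exact M.rel1 2 1 _ h2 (by omega)
  have h8 : M.cap 1 (M.cup 0 (M.cup 0 M.init)) = M.cup 0 M.init := M.rel2 2 0 _ h2 (by omega)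
  have h8' : M.cap 0 (M.cup 0 (M.cup 0 M.init)) = loopVal • M.cup 0 M.init := by
    rw [← hM.del]
    exact M.rel1 2 0 _ h2 (by omega)
  have h9 : M.cap 0 (M.cup 0 M.init) = loopVal • M.init := by
    rw [← hM.del]
    exact M.rel1 0 0 _ h0 (by omega)
  have h5 := hrun _ h4
  have e1 := h V M hM 0 4 _ (by omega) h4
  have e2 := h' V M hM 0 4 _ (by omega) h4
  rw [sh_zero] at e1 e2
  rw [e1, e2, h6, smul_add, smul_smul, smul_smul] at h5
  have e1 : g + loopVal * b = u * g' + loopVal * (u * b') := by
    have e := congrArg (fun x => M.cap 0 (M.cap 1 x)) h5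
    simp only [map_add, map_smul] at e
    rw [h7, h8] at e
    simp only [map_smul] at e
    rw [h9] at e
    have e2 : (loopVal * (g + loopVal * b)) • M.init =
        (loopVal * (u * g' + loopVal * (u * b'))) • M.init := by
      rw [show (loopVal * (g + loopVal * b)) • M.init =
        b • loopVal • loopVal • M.init + g • loopVal • M.init by module, e]
      module
    exact mul_left_cancel₀ pairRun_loopVal_ne (hinj _ _ e2)
  have e3 : b + loopVal * g = u * b' + loopVal * (u * g') := by
    have e := congrArg (fun x => M.cap 0 (M.cap 0 x)) h5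
    simp only [map_add, map_smul] at e
    rw [h6, h8'] at e
    simp only [map_smul] at e
    rw [h9] at e
    have e2 : (loopVal * (b + loopVal * g)) • M.init =
        (loopVal * (u * b' + loopVal * (u * g'))) • M.init := by
      rw [show (loopVal * (b + loopVal * g)) • M.init =
        b • loopVal • M.init + g • loopVal • loopVal • M.init by module, e]
      module
    exact mul_left_cancel₀ pairRun_loopVal_ne (hinj _ _ e2)
  have hb : b = u * b' := by
    apply mul_left_cancel₀ pr_nz
    linear_combination e3 - loopVal * e1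
  have hg : g = u * g' := by
    rw [hb] at e1
    linear_combination e1
  obtain ⟨v, hv, hvu⟩ := IsU.inv hu
  refine ⟨v, hv, ?_⟩
  have hg' : v * g = g' := by
    rw [hg, ← mul_assoc, hvu, one_mul]
  have hb' : v * b = b' := by
    rw [hb, ← mul_assoc, hvu, one_mul]
  rw [hg', hb']
  exact h'

theorem thm_PR : St_PR := by
  refine ⟨pr_ex, fun w g b _ h => pr_rot w g b h, fun w w' g b hw hI h => pr_iso w w' g b hw hI h,
    ?_, ?_, ?_, ?_⟩
  · rintro w w' _ hw' ⟨s, g, b, hs, h⟩
    obtain ⟨g', b', h'⟩ := pr_ex w' hw'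
    refine ⟨s, g * b' + b * g' + loopVal * (g * g'), b * b', hs, ?_⟩
    have h1 := ex_sum h h'
    rw [show s * g * b' + s * b * g' + loopVal * (s * g * g') =
      s * (g * b' + b * g' + loopVal * (g * g')) by ring, mul_assoc s b b'] at h1
    exact h1
  · rintro w w' _ hw' ⟨s, g, b, hs, h⟩
    obtain ⟨g', b', h'⟩ := pr_ex w' hw'
    refine ⟨s, g' * b + b' * g + loopVal * (g' * g), b' * b, hs, ?_⟩
    have h1 := ex_sum h' h
    rw [show g' * (s * b) + b' * (s * g) + loopVal * (g' * (s * g)) =
      s * (g' * b + b' * g + loopVal * (g' * g)) by ring, mul_left_comm b' s b] at h1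
    exact h1
  · rintro w _ ⟨s, g, b, hs, h⟩
    exact ⟨s, b, g, hs, pr_rot w _ _ h⟩
  · rintro w w' hw hI ⟨s, g, b, hs, h⟩
    obtain ⟨u, -, hu⟩ := pr_iso w w' _ _ hw hI h
    refine ⟨s, u * g, u * b, hs, ?_⟩
    rw [mul_left_comm s u g, mul_left_comm s u b]
    exact hu

end Pool.GEN
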