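import Pool.Agent.GEN.St

/-! # GEN [PRF]: a tangle which is not a leaf -/

set_option autoImplicit false

namespace Pool.GEN

open LaurentPolynomial Pool.Agent.ARB Pool.Agent.Helper2 Pool.ALT Pool.LSP Pool.LSG

/-- The numbers of closed curves of the closures in terms of the two graphs. -/
private theorem prf_num {w : Word} (h : Ok w 2 2)
    (hO : nc ((gO w h).sp ⊥ Finset.univ ⊔ (gO w h).ab) = 1)
    (hE : nc ((gE w h).sp ⊥ Finset.univ ⊔ (gE w h).ab) = 1) :
    (∀ A : Finset (Fin (nX w)), loops (NW (jo (seq A) w)) + Fintype.card (Reg true w) =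
      2 * nc ((gE w h).sp ⊥ A) + A.card) ∧
    ∀ A : Finset (Fin (nX w)), loops (DW (jo (seq A) w)) + Fintype.card (Reg false w) + A.card =
      2 * nc ((gO w h).sp ⊥ (Finset.univ \ A)) + nX w := by
  obtain ⟨jo1, -⟩ := thm_JO
  have hex : ∀ A : Finset (Fin (nX w)), ∃ (k : ℕ) (t : Bool), Nf (jo (seq A) w) k t := by
    intro A
    obtain ⟨g1, g2⟩ := jo1 (seq A) w 2 2 h
    exact thm_NF _ g1 g2
  choose k t hkt using hex
  have hall : ∀ A : Finset (Fin (nX w)),
      loops (NW (jo (seq A) w)) + 1 = nc ((gE w h).sp ⊥ A) +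
        nc ((gO w h).sp ⊥ (Finset.univ \ A) ⊔ (gO w h).ab) ∧
      loops (DW (jo (seq A) w)) + 2 = nc ((gE w h).sp ⊥ A) +
        nc ((gO w h).sp ⊥ (Finset.univ \ A) ⊔ (gO w h).ab) + 2 * (t A).toNat ∧
      nc ((gO w h).sp ⊥ (Finset.univ \ A) ⊔ (gO w h).ab) + (t A).toNat =
        nc ((gO w h).sp ⊥ (Finset.univ \ A)) := by
    intro A
    obtain ⟨c1, c2, c3⟩ := mo_CT w h A (k A) (t A) (hkt A)
    obtain ⟨g1, g2⟩ := jo1 (seq A) w 2 2 h
    obtain ⟨l1, l2⟩ := thm_LO (jo (seq A) w) (k A) (t A) g1 g2 (hkt A)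
    cases hta : t A with
    | false =>
      rw [hta] at l1 l2 c3
      have h5 : (gO w h).sp ⊥ (Finset.univ \ A) ⊔ (gO w h).ab =
        (gO w h).sp ⊥ (Finset.univ \ A) := sup_pr_of _ (c3.2 rfl)
      rw [h5]
      have h6 : false.toNat = 0 := rfl
      rw [h6] at l1 l2 ⊢
      omega
    | true =>
      rw [hta] at l1 l2 c3
      have h5 : nc ((gO w h).sp ⊥ (Finset.univ \ A) ⊔ (gO w h).ab) + 1 =
        nc ((gO w h).sp ⊥ (Finset.univ \ A)) :=
          nc_sup_pr fun h => absurd (c3.1 h) (by decide)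
      have h6 : true.toNat = 1 := rfl
      rw [h6] at l1 l2 ⊢
      omega
  have hdu := mo_DU w h
  rw [hO] at hdu
  have hcard : (Finset.univ : Finset (Fin (nX w))).card = nX w := by
    rw [Finset.card_univ, Fintype.card_fin]
  -- the Euler relation
  have heul : Fintype.card (Reg true w) + Fintype.card (Reg false w) = nX w + 3 := by
    obtain ⟨-, -, h3⟩ := hall Finset.univ
    have h4 := hdu Finset.univ
    have h5 : nc ((gE w h).sp ⊥ Finset.univ) + (t Finset.univ).toNat = 2 := by
      obtain ⟨-, c2, -⟩ := mo_CT w h Finset.univ (k Finset.univ) (t Finset.univ) (hkt Finset.univ)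
      cases hta : t Finset.univ with
      | false =>
        rw [hta] at c2
        have h6 : nc ((gE w h).sp ⊥ Finset.univ ⊔ (gE w h).ab) + 1 =
            nc ((gE w h).sp ⊥ Finset.univ) :=
          nc_sup_pr fun h => absurd (c2.1 h) (by decide)
        have h7 : false.toNat = 0 := rfl
        rw [h7]
        omega
      | true =>
        rw [hta] at c2
        have h6 : (gE w h).sp ⊥ Finset.univ ⊔ (gE w h).ab = (gE w h).sp ⊥ Finset.univ :=
          sup_pr_of _ (c2.2 rfl)
        have h7 : true.toNat = 1 := rfl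
        rw [h6] at hE
        rw [h7]
        omega
    have h8 : nc ((gO w h).sp ⊥ (Finset.univ \ Finset.univ)) = Fintype.card (Reg false w) := by
      rw [Finset.sdiff_self, Gr.sp_empty, nc_bot, Nat.card_eq_fintype_card]
    rw [hcard] at h4
    omega
  refine ⟨fun A => ?_, fun A => ?_⟩
  · obtain ⟨h3, -, -⟩ := hall A
    have h4 := hdu A
    omega
  · obtain ⟨-, h3, h5⟩ := hall A
    have h4 := hdu A
    omega

theorem thm_PRF : St_PRF := by
  intro e w h he hn hO hE
  obtain ⟨hN, hD⟩ := prf_num h hO hE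
  obtain ⟨-, jo2⟩ := thm_JO
  have hcard : ∀ A : Finset (Fin (nX w)), A.card + (Finset.univ \ A).card = nX w := by
    intro A
    have h5 := Finset.card_sdiff_add_card_eq_card (Finset.subset_univ A)
    rw [Finset.card_univ, Fintype.card_fin] at h5
    omega
  -- states
  have hst : ∀ a : ℕ → Bool, (∃ k < nX w, a k = true) → (∃ k < nX w, a k = false) →
      ∃ A : Finset (Fin (nX w)), A.Nonempty ∧ (Finset.univ \ A).Nonempty ∧
        state a w = jo (seq A) w ∧
        state (fun k => !a k) w = jo (seq (Finset.univ \ A)) w := by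
    intro a ha1 ha2
    let A : Finset (Fin (nX w)) := Finset.univ.filter fun k => xor (a k) e = true
    have hA : ∀ k : Fin (nX w), k ∈ A ↔ xor (a k) e = true := by
      intro k
      change k ∈ Finset.univ.filter _ ↔ _
      rw [Finset.mem_filter]
      exact ⟨fun h => h.2, fun h => ⟨Finset.mem_univ _, h⟩⟩
    have hA' : ∀ k : Fin (nX w), k ∈ Finset.univ \ A ↔ xor (a k) e = false := by
      intro k
      rw [Finset.mem_sdiff, hA, Bool.not_eq_true]
      exact ⟨fun h => h.2, fun h => ⟨Finset.mem_univ _, h⟩⟩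
    obtain ⟨x, hx, hxa⟩ := ha1
    obtain ⟨y, hy, hya⟩ := ha2
    refine ⟨A, ?_, ?_, ?_, ?_⟩
    · cases e with
      | false => exact ⟨⟨x, hx⟩, (hA _).2 (by rw [hxa]; rfl)⟩
      | true => exact ⟨⟨y, hy⟩, (hA _).2 (by rw [hya]; rfl)⟩
    · cases e with
      | false => exact ⟨⟨y, hy⟩, (hA' _).2 (by rw [hya]; rfl)⟩
      | true => exact ⟨⟨x, hx⟩, (hA' _).2 (by rw [hxa]; rfl)⟩
    · rw [thm_SJ e w _ he]
      apply jo2
      intro k hk
      rw [lf_seq _ k hk]
      by_cases h6 : (⟨k, hk⟩ : Fin (nX w)) ∈ A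
      · rw [decide_eq_true h6]
        exact (hA _).1 h6
      · rw [decide_eq_false h6]
        have h7 := fun h8 => h6 ((hA _).2 h8)
        exact Bool.not_eq_true _ ▸ h7
    · rw [thm_SJ e w _ he]
      apply jo2
      intro k hk
      rw [lf_seq _ k hk]
      have h9 : xor (!a k) e = !xor (a k) e := by
        cases a k <;> cases e <;> rfl
      by_cases h6 : (⟨k, hk⟩ : Fin (nX w)) ∈ Finset.univ \ A
      · rw [decide_eq_true h6, h9]
        have h7 := (hA' _).1 h6
        change xor (a k) e = false at h7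
        rw [h7]
        rfl
      · rw [decide_eq_false h6, h9]
        have h7 : xor (a k) e = true := by
          by_contra h8
          exact h6 ((hA' _).2 (Bool.not_eq_true _ ▸ h8))
        rw [h7]
        rfl
  by_cases p1 : ∀ a : ℕ → Bool, (∃ k < nX w, a k = true) → (∃ k < nX w, a k = false) →
    loops (NW (state a w)) + loops (NW (state (fun k => !a k) w)) ≤ nX w
  · by_cases p2 : ∀ a : ℕ → Bool, (∃ k < nX w, a k = true) → (∃ k < nX w, a k = false) →
      loops (DW (state a w)) + loops (DW (state (fun k => !a k) w)) ≤ nX w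
    · exact Or.inl ⟨h, hn, ⟨e, he⟩, p1, p2⟩
    · right; right
      push Not at p2
      obtain ⟨a, ha1, ha2, hlt⟩ := p2
      obtain ⟨A, hA1, hA2, hs1, hs2⟩ := hst a ha1 ha2
      rw [hs1, hs2] at hlt
      have h1 := hD A
      have h2 := hD (Finset.univ \ A)
      have h3 := hcard A
      have h4 : Finset.univ \ (Finset.univ \ A) = A := by
        rw [Finset.sdiff_sdiff_eq_self (Finset.subset_univ A)]
      refine ⟨Finset.univ \ A, hA2, by rw [h4]; exact hA1, ?_⟩
      omega
  · right; left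
    push Not at p1
    obtain ⟨a, ha1, ha2, hlt⟩ := p1
    obtain ⟨A, hA1, hA2, hs1, hs2⟩ := hst a ha1 ha2
    rw [hs1, hs2] at hlt
    have h1 := hN A
    have h2 := hN (Finset.univ \ A)
    have h3 := hcard A
    exact ⟨A, hA1, hA2, by omega⟩

end Pool.GEN
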