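import Pool.Agent.GEN.St

/-!
# GEN, RED2: two opposite boundary regions are equal
-/

set_option autoImplicit false

namespace Pool.GEN

open LaurentPolynomial Pool.Agent.ARB Pool.Agent.Helper2 Pool.ALT Pool.LSP Pool.LSG

/-- a piece on the right of a word passes it -/
private theorem red2_comm (t : Piece) (c : ℕ) (ht : t.i + t.k.inn ≤ c) : ∀ (w : Word) (n m : ℕ),
    Ok w n m → Iso (n + c) (⟨t.k, t.i + n⟩ :: w) (w ++ [⟨t.k, t.i + m⟩]) := by
  intro w
  induction w with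
  | nil =>
    intro n m h
    have h1 : n = m := h
    subst h1
    exact Iso.refl _ _
  | cons s w ih =>
    intro n m h
    have h1 := h.1
    have h2 := Iso.swap (n := n + c) s.k t.k s.i (t.i + n) (by omega) (by omega)
    have e1 : t.i + n - s.k.inn + s.k.out = t.i + (n - s.k.inn + s.k.out) := by omega
    rw [e1] at h2
    have h3 : Iso (n + c) ([(⟨t.k, t.i + n⟩ : Piece), s] ++ w)
        ([s, ⟨t.k, t.i + (n - s.k.inn + s.k.out)⟩] ++ w) := h2.symm.right w
    have h4 := ih _ _ h.2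
    have h5 : Ok [s] (n + c) (n - s.k.inn + s.k.out + c) := by
      refine ⟨by omega, ?_⟩
      show n + c - s.k.inn + s.k.out = n - s.k.inn + s.k.out + c
      omega
    exact h3.trans (Iso.left (z := [s]) h5 h4)

/-- the letters of a word which is planar isotopic to an alternating word -/
private theorem red2_al (hMp : St_Mp) {κ : Type} (e : Bool) {n : ℕ} {w w' : Wd (Cr κ)}
    (h : PIso n w w') (hal : ∀ (i : ℕ) (a : Cr κ), cX i a ∈ w → (a.p = e ↔ i % 2 = 0)) :
    ∀ (i : ℕ) (a : Cr κ), cX i a ∈ w' → (a.p = e ↔ i % 2 = 0) := by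
  have h1 := hMp.2.2.2.1 (fun b (a : Cr κ) => (a.p = e ↔ b = true)) (by
    intro b a
    have h2 : (Rt.r a).p = !a.p := rfl
    rw [h2]
    cases b <;> cases a.p <;> cases e <;> simp) n w w' h
  have h3 : ∀ (i : ℕ) (a : Cr κ), cX i a ∈ w → (a.p = e ↔ decide (i % 2 = 0) = true) := by
    intro i a hi
    rw [decide_eq_true_iff]
    exact hal i a hi
  intro i a hi
  have h4 := h1.1 h3 i a hi
  rw [decide_eq_true_iff] at h4
  exact h4

private theorem red2_altW (hMp : St_Mp) {κ : Type} (e : Bool) (w : Wd (Cr κ))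
    (h : ∀ (i : ℕ) (a : Cr κ), cX i a ∈ w → (a.p = e ↔ i % 2 = 0)) : AltW e (fgt w) := by
  intro p i hp
  obtain ⟨a, ha, hi⟩ := (hMp.2.2.1.2.2.2.2 w p i).1 hp
  rw [← ha]
  exact h i a hi

/-- the pair of a word with a part on two strands -/
private theorem red2_fac (hSCA : St_SCA) (u A v : Word) (j n : ℕ) (hu : Ok u 2 n) (hj : j + 2 ≤ n)
    (hA : Ok A 2 0) (g b : LP) (h : HasPair (u ++ (pN j :: v)) g b) :
    HasPair (u ++ (Pool.Agent.ARB.sh j A ++ v)) (bracket (toD (pU 0 :: A)) * g)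
      (bracket (toD (pU 0 :: A)) * b) := by
  intro V _ _ M hM j0 n0 x hn hx
  have h1 := h V M hM j0 n0 x hn hx
  have hu' : Ok (Pool.Agent.ARB.sh j0 u) n0 (n + j0 + (n0 - (2 + j0))) := by
    have h2 := (hu.sh j0).add (n0 - (2 + j0))
    have h3 : 2 + j0 + (n0 - (2 + j0)) = n0 := by omega
    rwa [h3] at h2
  have hs := supp_run hM hu' hx
  have h4 := (hSCA V M hM).1 A (j + j0) _ (runW M (Pool.Agent.ARB.sh j0 u) x) hA (by omega) hs
  have h5 : Pool.Agent.ARB.sh j0 (Pool.Agent.ARB.sh j A) = Pool.Agent.ARB.sh (j + j0) A := by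
    unfold Pool.Agent.ARB.sh
    rw [List.map_map]
    refine List.map_congr_left fun s _ => ?_
    show (⟨s.k, s.i + j + j0⟩ : Piece) = ⟨s.k, s.i + (j + j0)⟩
    rw [Nat.add_assoc]
  have h6 : runW M (Pool.Agent.ARB.sh j0 (u ++ (Pool.Agent.ARB.sh j A ++ v))) x =
      bracket (toD (pU 0 :: A)) • runW M (Pool.Agent.ARB.sh j0 (u ++ (pN j :: v))) x := by
    rw [Pool.Agent.ARB.sh_append, Pool.Agent.ARB.sh_append, Pool.Agent.ARB.sh_append, run_append,
      run_append, run_append, h5, h4, map_smul]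
    rfl
  rw [h6, h1, smul_add, smul_smul, smul_smul]

private theorem red2_facP (hSCA : St_SCA) (hPR : St_PR) (w u A v : Word) (j n : ℕ)
    (hw : Ok w 2 2) (hu : Ok u 2 n) (hj : j + 2 ≤ n) (hA : Ok A 2 0) (hv : Ok v (n - 2) 2)
    (hs : ¬ U8 (bracket (toD (pU 0 :: A))))
    (hi : Iso 2 w (u ++ (Pool.Agent.ARB.sh j A ++ v))) : FacP w := by
  have hok : Ok (u ++ (pN j :: v)) 2 2 := hu.append ⟨hj, hv⟩
  obtain ⟨g, b, hgb⟩ := hPR.1 _ hok
  have h1 : FacP (u ++ (Pool.Agent.ARB.sh j A ++ v)) :=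
    ⟨_, g, b, hs, red2_fac hSCA u A v j n hu hj hA g b hgb⟩
  exact hPR.2.2.2.2.2.2 _ _ (hi.ok hw) hi.symm h1

theorem red2_main (hSL : St_SL) (hMp : St_Mp) (hFa : St_Fa) (hK28 : St_K28) (hSCA : St_SCA)
    (hPR : St_PR) (hBR2 : St_BR2) : St_RED2 := by
  intro e V hV haV h hor
  obtain ⟨κ, pr, c, W, fE, fO, hfg, hdec, hfa, -, -, -, -, hc0, hc2, hc1, hc3, -, -⟩ :=
    hBR2 e V hV haV h
  have hcc : c 0 = c 2 ∨ c 1 = c 3 := by
    rcases hor with hor | hor
    · exact Or.inl (by rw [hc0, hc2, hor])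
    · exact Or.inr (by rw [hc1, hc3, hor])
  have hok := hdec.ok
  have hU23 : Ok [pU 2, pU 3] 2 6 := ⟨by decide, by decide, rfl⟩
  rcases hcc with hcc | hcc
  · -- the left and the right region are equal
    have hrel : Rel W 0 2 := hFa.2.2.2.1 (c 0) c 4 W hok hdec.vl (hfa _) 0 2 (by omega) (by omega)
      rfl hcc.symm
    obtain ⟨A, B, hA, hB, -, hiso⟩ := hSL.1 W 4 hok 0 2 (by omega) (by omega) hrel
    rw [shd_zero] at hiso
    have hal := red2_al hMp e hiso hdec.al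
    have hA' : Ok (fgt A) 2 0 := (hMp.2.2.1.2.2.1 A 2 0).1 hA
    have hB' : Ok (fgt B) 2 0 := (hMp.2.2.1.2.2.1 B 2 0).1 hB
    have haA : AltW e (fgt A) := red2_altW hMp e A fun i a hi =>
      hal i a (List.mem_append_left _ hi)
    have haB : AltW e (fgt B) := red2_altW hMp e B fun i a hi =>
      hal i a (List.mem_append_right _ hi)
    have h1 : Iso 4 V (fgt A ++ fgt B) := by
      have h2 := hMp.2.1 4 W (A ++ B) hiso
      rw [hMp.2.2.1.1, hfg] at h2
      exact h2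
    -- the two cups pass the first part
    have h2 : Iso 2 (wV V) (fgt A ++ ([pU 0, pU 1] ++ fgt B)) := by
      have h3 : Iso 2 ([pU 2, pU 3] ++ V) ([pU 2, pU 3] ++ (fgt A ++ fgt B)) :=
        Iso.left (k := 6) hU23 (h1.add 2)
      have h4 : Iso 4 (pU 3 :: fgt A) (fgt A ++ [pU 1]) :=
        red2_comm (pU 1) 2 (by show 1 + 0 ≤ 2; omega) (fgt A) 2 0 hA'
      have h5 : Iso 2 (pU 2 :: fgt A) (fgt A ++ [pU 0]) :=
        red2_comm (pU 0) 0 (by show 0 + 0 ≤ 0; omega) (fgt A) 2 0 hA'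
      have h6 : Iso 2 ([pU 2] ++ (pU 3 :: fgt A)) ([pU 2] ++ (fgt A ++ [pU 1])) :=
        Iso.left (z := [pU 2]) (k := 4) ⟨by decide, rfl⟩ h4
      have h7 : Iso 2 ((pU 2 :: fgt A) ++ [pU 1]) ((fgt A ++ [pU 0]) ++ [pU 1]) := h5.right _
      have h8 : Iso 2 ([pU 2] ++ (pU 3 :: fgt A)) ((fgt A ++ [pU 0]) ++ [pU 1]) := by
        refine h6.trans ?_
        exact h7
      have h9 := h8.right (fgt B)
      have e1 : ([pU 2] ++ (pU 3 :: fgt A)) ++ fgt B = [pU 2, pU 3] ++ (fgt A ++ fgt B) := rfl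
      have e2 : ((fgt A ++ [pU 0]) ++ [pU 1]) ++ fgt B = fgt A ++ ([pU 0, pU 1] ++ fgt B) := by
        rw [List.append_assoc, List.append_assoc]
        rfl
      rw [e1, e2] at h9
      exact h3.trans h9
    by_cases hsA : U8 (bracket (toD (pU 0 :: fgt A)))
    · by_cases hsB : U8 (bracket (toD (pU 0 :: fgt B)))
      · left
        have hA1 := hK28 e (fgt A) hA' haA hsA
        have hB1 := hK28 e (fgt B) hB' haB hsB
        refine ⟨Pool.Agent.ALT.Tree.rot Pool.Agent.ALT.Tree.zero, ?_, ?_⟩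
        · intro w' hw'
          exact absurd hw' (fun h => h)
        · have h3 : Iso 2 (fgt A ++ ([pU 0, pU 1] ++ fgt B)) ([pN 0] ++ ([pU 0, pU 1] ++ fgt B)) :=
            hA1.right _
          have h4 : Iso 2 ([pN 0] ++ ([pU 0, pU 1] ++ fgt B))
              ([pN 0] ++ ([pU 0, pU 1] ++ [pN 0])) := by
            refine Iso.left (k := 0) ⟨by decide, rfl⟩ ?_
            exact Iso.left (k := 4) ⟨by decide, by decide, rfl⟩ (hB1.add 2)
          have h5 : Iso 2 [pU 1, pN 0] [] := Iso.zag (n := 2) (i := 0) (by omega)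
          have h6 : Iso 2 ([pN 0, pU 0] ++ [pU 1, pN 0]) ([pN 0, pU 0] ++ []) :=
            Iso.left (k := 2) ⟨by decide, by decide, rfl⟩ h5
          have h7 : Iso 2 [pN 0, pU 0] [pU 2, pN 0] :=
            Iso.swap (n := 2) Kind.N Kind.U 0 2 (by decide) (by decide)
          exact h2.trans (h3.trans (h4.trans (h6.trans h7)))
      · right
        refine red2_facP hSCA hPR (wV V) (fgt A ++ [pU 0, pU 1]) (fgt B) [] 0 4 h
          (hA'.append ⟨by decide, by decide, rfl⟩) (by omega) hB' rfl hsB ?_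
        rw [Pool.Agent.ARB.sh_zero, List.append_nil, List.append_assoc]
        exact h2
    · right
      refine red2_facP hSCA hPR (wV V) [] (fgt A) ([pU 0, pU 1] ++ fgt B) 0 2 h
        rfl (by omega) hA' ?_ hsA ?_
      · have h3 : Ok [pU 0, pU 1] 0 4 := ⟨by decide, by decide, rfl⟩
        exact h3.append (hB'.add 2)
      · rw [Pool.Agent.ARB.sh_zero]
        exact h2
  · -- the bottom and the top region are equal
    have hrel : Rel W 1 3 := hFa.2.2.2.1 (c 1) c 4 W hok hdec.vl (hfa _) 1 3 (by omega) (by omega)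
      rfl hcc.symm
    obtain ⟨A, B, hA, hB, -, hiso⟩ := hSL.1 W 4 hok 1 3 (by omega) (by omega) hrel
    have hal := red2_al hMp e hiso hdec.al
    have hA' : Ok (fgt A) 2 0 := (hMp.2.2.1.2.2.1 A 2 0).1 hA
    have hB' : Ok (fgt B) 2 0 := (hMp.2.2.1.2.2.1 B 2 0).1 hB
    have haA : AltW (!e) (fgt A) := red2_altW hMp (!e) A fun i a hi => by
      have h1 : cX (i + 1) a ∈ shd 1 A := List.mem_map.2 ⟨cX i a, hi, rfl⟩
      have h2 := hal (i + 1) a (List.mem_append_left _ h1)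
      have h3 : ((i + 1) % 2 = 0) ↔ ¬ (i % 2 = 0) := by omega
      rw [h3] at h2
      cases hp : a.p <;> cases e <;> simp [hp] at h2 ⊢ <;> exact h2
    have haB : AltW e (fgt B) := red2_altW hMp e B fun i a hi =>
      hal i a (List.mem_append_right _ hi)
    have h1 : Iso 4 V (Pool.Agent.ARB.sh 1 (fgt A) ++ fgt B) := by
      have h2 := hMp.2.1 4 W (shd 1 A ++ B) hiso
      rw [hMp.2.2.1.1, hMp.2.2.1.2.1, hfg] at h2
      exact h2
    have h2 : Iso 2 (wV V) ([pU 2, pU 3] ++ (Pool.Agent.ARB.sh 1 (fgt A) ++ fgt B)) :=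
      Iso.left (k := 6) hU23 (h1.add 2)
    by_cases hsA : U8 (bracket (toD (pU 0 :: fgt A)))
    · by_cases hsB : U8 (bracket (toD (pU 0 :: fgt B)))
      · left
        have hA1 := hK28 (!e) (fgt A) hA' haA hsA
        have hB1 := hK28 e (fgt B) hB' haB hsB
        refine ⟨Pool.Agent.ALT.Tree.zero, ?_, ?_⟩
        · intro w' hw'
          exact absurd hw' (fun h => h)
        · have h3 : Iso 4 (Pool.Agent.ARB.sh 1 (fgt A)) [pN 1] := (hA1.sh 1).add 1
          have h4 : Iso 6 (Pool.Agent.ARB.sh 1 (fgt A) ++ fgt B) ([pN 1] ++ fgt B) :=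
            (h3.add 2).right _
          have h5 : Iso 6 ([pN 1] ++ fgt B) ([pN 1] ++ [pN 0]) :=
            Iso.left (k := 4) ⟨by decide, rfl⟩ (hB1.add 2)
          have h6 : Iso 2 ([pU 2, pU 3] ++ (Pool.Agent.ARB.sh 1 (fgt A) ++ fgt B))
              ([pU 2, pU 3] ++ ([pN 1] ++ [pN 0])) :=
            Iso.left (k := 6) hU23 (h4.trans h5)
          -- two inner arcs are removed one after the other
          have h7 : Iso 4 [pU 3, pN 1] [pN 1, pU 1] :=
            (Iso.swap (n := 4) Kind.N Kind.U 1 3 (by decide) (by decide)).symm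
          have h8 : Iso 2 ([pU 2] ++ ([pU 3, pN 1] ++ [pN 0])) ([pU 2] ++ ([pN 1, pU 1] ++ [pN 0])) :=
            Iso.left (k := 4) ⟨by decide, rfl⟩ (h7.right _)
          have h9 : Iso 2 ([pU 2, pN 1] ++ [pU 1, pN 0]) ([] ++ [pU 1, pN 0]) :=
            (Iso.zag (n := 2) (i := 1) (by omega)).right _
          have h10 : Iso 2 [pU 1, pN 0] [] := Iso.zag (n := 2) (i := 0) (by omega)
          exact h2.trans (h6.trans (h8.trans (h9.trans h10)))
      · right
        refine red2_facP hSCA hPR (wV V) ([pU 2, pU 3] ++ Pool.Agent.ARB.sh 1 (fgt A)) (fgt B) []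
          0 4 h (hU23.append (((hA'.sh 1).add 1).add 2)) (by omega) hB' rfl hsB ?_
        rw [Pool.Agent.ARB.sh_zero, List.append_nil, List.append_assoc]
        exact h2
    · right
      refine red2_facP hSCA hPR (wV V) [pU 2, pU 3] (fgt A) (fgt B) 1 6 h hU23 (by omega) hA'
        (hB'.add 2) hsA h2

theorem thm_RED2 (hK28 : St_K28) (hSCA : St_SCA) (hPR : St_PR) (hBR2 : St_BR2) : St_RED2 :=
  red2_main all_SL thm_Mp all_Fa hK28 hSCA hPR hBR2

end Pool.GEN
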