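import Pool.Agent.GEN.St

/-!
# GEN, RTW: the rotation of a word on four strands
-/

set_option autoImplicit false

namespace Pool.GEN

open LaurentPolynomial Pool.Agent.ARB Pool.Agent.Helper2 Pool.ALT Pool.LSP Pool.LSG

private theorem rtw_ok {V : Word} (hV : Ok V 4 0) : Ok (rt V) 4 0 := by
  have h1 : Ok (Pool.Agent.ARB.sh 1 V ++ [pN 0]) 6 0 := by
    have h2 : Ok (Pool.Agent.ARB.sh 1 V) 6 2 := (hV.sh 1).add 1
    exact h2.append ⟨by decide, rfl⟩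
  exact ⟨by decide, h1⟩

private theorem rtw_okV {V : Word} (hV : Ok V 4 0) : Ok (wV V) 2 2 :=
  ⟨by decide, by decide, hV.add 2⟩

private theorem rtw_nX (V : Word) : nX (rt V) = nX V := by
  show nX (Pool.Agent.ARB.sh 1 V ++ [pN 0]) = nX V
  rw [tg_nXa, tg_nXs]
  rfl

private theorem rtw_alt {V : Word} {e : Bool} (h : AltW e V) : AltW (!e) (rt V) := by
  refine tg_U 0 (tg_app (tg_sh1 rfl ?_) (tg_N 0 ?_))
  · rw [Bool.not_not]
    exact h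
  · intro p i hm
    exact absurd hm List.not_mem_nil

private theorem rtw_key {V : Word} (hV : Ok V 4 0) :
    Iso 6 (pU 4 :: pU 1 :: (Pool.Agent.ARB.sh 2 V ++ [pN 1, pN 0])) V := by
  -- `pU 4`, `pU 1` are interchanged
  have h1 : Iso 6 [pU 1, pU 6] [pU 4, pU 1] := Iso.swap .U .U 1 4 (by decide) (by decide)
  have h2 : Iso 6 ([pU 4, pU 1] ++ (Pool.Agent.ARB.sh 2 V ++ [pN 1, pN 0]))
      ([pU 1, pU 6] ++ (Pool.Agent.ARB.sh 2 V ++ [pN 1, pN 0])) := h1.symm.right _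
  -- `pU 6` moves above `sh 2 V`
  have h3 : Iso 8 (Pool.Agent.ARB.sh 2 V ++ [pU 2]) (pU 6 :: Pool.Agent.ARB.sh 2 V) := by
    have h := thm_Comm (Pool.Agent.ARB.sh 2 V) [pU 0] 6 2 0 2 (hV.sh 2) ⟨by decide, rfl⟩
    exact (h : Iso 6 (Pool.Agent.ARB.sh 2 V ++ [pU 2]) (pU 6 :: Pool.Agent.ARB.sh 2 V)).add 2
  have hU : Ok [pU 1] 6 8 := ⟨by decide, rfl⟩
  have h4 : Iso 6 ([pU 1] ++ ((pU 6 :: Pool.Agent.ARB.sh 2 V) ++ [pN 1, pN 0]))
      ([pU 1] ++ ((Pool.Agent.ARB.sh 2 V ++ [pU 2]) ++ [pN 1, pN 0])) :=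
    Iso.mid [pU 1] [pN 1, pN 0] hU h3.symm
  have hU2 : Ok ([pU 1] ++ Pool.Agent.ARB.sh 2 V) 6 4 := hU.append ((hV.sh 2).add 2)
  have h5 : Iso 6 (([pU 1] ++ Pool.Agent.ARB.sh 2 V) ++ ([pU 2, pN 1] ++ [pN 0]))
      (([pU 1] ++ Pool.Agent.ARB.sh 2 V) ++ ([] ++ [pN 0])) :=
    Iso.mid _ [pN 0] hU2 (Iso.zag (by decide))
  have h6 : Iso 8 (pN 0 :: V) (Pool.Agent.ARB.sh 2 V ++ [pN 0]) := by
    have h := comm_piece (pN 0) 2 (le_refl 2) V 4 0 hV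
    have e : Pool.Agent.ARB.sh (2 - (pN 0).k.inn + (pN 0).k.out) V = V := sh_zero V
    rw [e] at h
    exact h.add 2
  have h7 : Iso 6 ([pU 1] ++ (Pool.Agent.ARB.sh 2 V ++ [pN 0])) ([pU 1] ++ (pN 0 :: V)) :=
    Iso.left hU h6.symm
  have h8 : Iso 6 ([pU 1, pN 0] ++ V) ([] ++ V) := (Iso.zag (by decide)).right V
  refine h2.trans ?_
  simp only [List.cons_append, List.nil_append, List.append_assoc] at h4 h5 h7 h8 ⊢
  exact h4.trans (h5.trans (h7.trans h8))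

theorem thm_RTW : St_RTW := by
  intro V hV
  refine ⟨rtw_okV hV, rtw_ok hV, rtw_nX V, fun e he => rtw_alt he, ?_⟩
  have h1 : rotW (wV (rt V)) = [pU 2, pU 3] ++
      (pU 4 :: pU 1 :: (Pool.Agent.ARB.sh 2 V ++ [pN 1, pN 0])) := by
    have h2 : Pool.Agent.ARB.sh 1 (Pool.Agent.ARB.sh 1 V) = Pool.Agent.ARB.sh 2 V := sh_sh 1 1 V
    show pU 2 :: (Pool.Agent.ARB.sh 1 (pU 2 :: pU 3 :: pU 0 ::
      (Pool.Agent.ARB.sh 1 V ++ [pN 0])) ++ [pN 0]) = _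
    rw [sh_cons, sh_cons, sh_cons, sh_append, h2]
    simp only [List.cons_append, List.append_assoc, List.nil_append]
    rfl
  rw [h1]
  have h3 : Ok [pU 2, pU 3] 2 6 := ⟨by decide, by decide, rfl⟩
  exact (Iso.left h3 (rtw_key hV)).symm

end Pool.GEN
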