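import Pool.Agent.GEN.St
import Pool.Agent.ARB.PairRun

/-!
# GEN, module SC8: the bracket of a composite, with units modulo `A ^ 4 + 1`
-/

set_option autoImplicit false

namespace Pool.GEN

open LaurentPolynomial Pool.Agent.ARB Pool.Agent.Helper2 Pool.ALT Pool.LSP Pool.LSG

/-! ### diagrams of words -/

private theorem sc8_forget (w : Word) : forget (toD w) = w := by
  induction w with
  | nil => rfl
  | cons s w ih =>
    obtain ⟨k, i⟩ := s
    cases k with
    | U => exact congrArg (List.cons (pU i)) ih
    | N => exact congrArg (List.cons (pN i)) ih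
    | X p => exact congrArg (List.cons (pX i p)) ih

private theorem sc8_ok (W : Word) : ∀ (n m : ℕ), Pool.Agent.ARB.Ok W n m →
    Pool.Agent.Helper2.Ok (toD W) n m := by
  induction W with
  | nil => intro n m h; exact h
  | cons s W ih =>
    intro n m h
    obtain ⟨k, i⟩ := s
    have h1 := h.1
    have h2 := ih _ _ h.2
    cases k with
    | U => exact ⟨h1, h2⟩
    | N => exact ⟨h1, h2⟩
    | X p =>
      have h3 : i + 2 ≤ n := h1
      have h4 : n - 2 + 2 = n := by omega
      refine ⟨h3, ?_⟩
      have h5 : Pool.Agent.Helper2.Ok (toD W) (n - 2 + 2) m := h2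
      rw [h4] at h5
      exact h5

private theorem sc8_ne {w : Word} (h : w ≠ []) : toD w ≠ [] := by
  intro h1
  apply h
  rw [← sc8_forget w, h1]
  rfl

/-! ### operators of words without strands above them -/

section



/-- a word without crossings from two strands to none is a multiple of the cap -/
private theorem sc8_cap (w : Word) (hX : NoX w) (hok : Ok w 2 0) : ∃ k : ℕ,
    ∀ {R V : Type} [CommRing R] [AddCommGroup V] [Module R V] (M : Model R V) (j n : ℕ) (x : V),
      j + 2 ≤ n → M.Supp n x → runC M (sh j w) x = M.δ ^ k • M.cap j x := by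
  obtain ⟨D, C, e, c, hD, hC, H⟩ := nf_word 2 w 2 0 2 [] [] hX hok (nf_Dn.nil 2) (nf_Up.nil 2)
  have hc : c = 0 := by
    have := nf_Up_le hC
    omega
  subst hc
  have hC0 : C = [] := by
    cases hC with
    | nil => rfl
  subst hC0
  cases hD with
  | @cons _ _ i D hi hD1 =>
    cases hD1 with
    | nil =>
      have hi0 : i = 0 := by omega
      subst hi0
      refine ⟨e, ?_⟩
      intro R V _ _ _ M j n x hn hx
      have h1 := H M j (n - (j + 2)) x (by rw [show j + 2 + (n - (j + 2)) = n by omega]; exact hx)
      have e0 : 0 + j = j := by ring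
      simp only [nf_cu, nf_ca, e0] at h1
      exact h1

end

/-- expansion of the operator of a word in words without crossings -/
private theorem sc8_exp (w : Word) : ∀ (n m : ℕ), Ok w n m → ∃ L : List (LP × Word),
    (∀ s ∈ L, NoX s.2 ∧ Ok s.2 n m) ∧
    ∀ (V : Type) [AddCommGroup V] [Module LP V] (M : Model LP V) (j : ℕ) (x : V),
      runW M (sh j w) x = (L.map fun s => s.1 • runC M (sh j s.2) x).sum := by
  induction w with
  | nil =>
    intro n m h
    refine ⟨[(1, [])], ?_, ?_⟩
    · intro s hs
      rw [List.mem_singleton.1 hs]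
      exact ⟨fun t ht => absurd ht List.not_mem_nil, h⟩
    · intro V _ _ M j x
      show x = ([(1 : LP) • x]).sum
      rw [List.sum_singleton, one_smul]
  | cons s w ih =>
    intro n m h
    obtain ⟨k, i⟩ := s
    obtain ⟨L, hL, H⟩ := ih _ _ h.2
    cases k with
    | U =>
      refine ⟨L.map fun s => (s.1, pU i :: s.2), ?_, ?_⟩
      · intro s hs
        obtain ⟨t, ht, rfl⟩ := List.mem_map.1 hs
        refine ⟨?_, h.1, (hL t ht).2⟩
        intro q hq
        rcases List.mem_cons.1 hq with rfl | hq
        · exact Or.inl rfl
        · exact (hL t ht).1 q hq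
      · intro V _ _ M j x
        have h1 := H V M j (M.cup (i + j) x)
        rw [List.map_map]
        exact h1
    | N =>
      refine ⟨L.map fun s => (s.1, pN i :: s.2), ?_, ?_⟩
      · intro s hs
        obtain ⟨t, ht, rfl⟩ := List.mem_map.1 hs
        refine ⟨?_, h.1, (hL t ht).2⟩
        intro q hq
        rcases List.mem_cons.1 hq with rfl | hq
        · exact Or.inr rfl
        · exact (hL t ht).1 q hq
      · intro V _ _ M j x
        have h1 := H V M j (M.cap (i + j) x)
        rw [List.map_map]
        exact h1
    | X p =>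
      have hi : i + 2 ≤ n := h.1
      refine ⟨(L.map fun s => ((T (if p then 1 else -1) : LP) * s.1, s.2)) ++
        L.map fun s => ((T (if p then -1 else 1) : LP) * s.1, pN i :: pU i :: s.2), ?_, ?_⟩
      · intro s hs
        rcases List.mem_append.1 hs with hs | hs
        · obtain ⟨t, ht, rfl⟩ := List.mem_map.1 hs
          have e : n - 2 + 2 = n := by omega
          have h2 := (hL t ht).2
          refine ⟨(hL t ht).1, ?_⟩
          have h3 : Ok t.2 (n - 2 + 2) m := h2
          rw [e] at h3
          exact h3
        · obtain ⟨t, ht, rfl⟩ := List.mem_map.1 hs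
          refine ⟨?_, h.1, ?_, (hL t ht).2⟩
          · intro q hq
            rcases List.mem_cons.1 hq with rfl | hq
            · exact Or.inr rfl
            · rcases List.mem_cons.1 hq with rfl | hq
              · exact Or.inl rfl
              · exact (hL t ht).1 q hq
          · show i + 0 ≤ n - 2 + 0
            omega
      · intro V _ _ M j x
        have e1 : runW M (sh j (⟨.X p, i⟩ :: w)) x =
            (T (if p then 1 else -1) : LP) • runW M (sh j w) x +
              (T (if p then -1 else 1) : LP) • runW M (sh j w) (M.cup (i + j) (M.cap (i + j) x)) := by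
          have e2 : runW M (sh j (⟨.X p, i⟩ :: w)) x = runW M (sh j w) (crossOp M (i + j) p x) := rfl
          have e3 : crossOp M (i + j) p x = (T (if p then 1 else -1) : LP) • x +
            (T (if p then -1 else 1) : LP) • (M.cup (i + j) (M.cap (i + j) x)) := rfl
          rw [e2, e3, map_add, map_smul, map_smul]
        rw [e1, H V M j x, H V M j (M.cup (i + j) (M.cap (i + j) x)), List.map_append,
          List.sum_append, List.map_map, List.map_map, ← BrRun_sum, ← BrRun_sum]
        congr 2
        · apply List.map_congr_left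
          intro s _
          show _ = ((T (if p then 1 else -1) : LP) * s.1) • runC M (sh j s.2) x
          rw [smul_smul]
        · apply List.map_congr_left
          intro s _
          show _ = ((T (if p then -1 else 1) : LP) * s.1) • runC M (sh j (pN i :: pU i :: s.2)) x
          rw [smul_smul]
          rfl

/-- a word from two strands to none acts as a multiple of the cap -/
private theorem sc8_A (A : Word) (hA : Ok A 2 0) : ∃ s : LP,
    ∀ (V : Type) [AddCommGroup V] [Module LP V] (M : Model LP V), Good M →
      ∀ (j n : ℕ) (x : V), j + 2 ≤ n → M.Supp n x → runW M (sh j A) x = s • M.cap j x := by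
  obtain ⟨L, hL, H⟩ := sc8_exp A 2 0 hA
  have key : ∀ L : List (LP × Word), (∀ s ∈ L, NoX s.2 ∧ Ok s.2 2 0) → ∃ s : LP,
      ∀ (V : Type) [AddCommGroup V] [Module LP V] (M : Model LP V), Good M →
      ∀ (j n : ℕ) (x : V), j + 2 ≤ n → M.Supp n x →
        (L.map fun s => s.1 • runC M (sh j s.2) x).sum = s • M.cap j x := by
    intro L
    induction L with
    | nil =>
      intro _
      refine ⟨0, ?_⟩
      intro V _ _ M hM j n x hn hx
      rw [zero_smul]
      rfl
    | cons t L ih =>
      intro h
      obtain ⟨s, hs⟩ := ih fun q hq => h q (List.mem_cons_of_mem _ hq)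
      obtain ⟨h1, h2⟩ := h t List.mem_cons_self
      obtain ⟨k, hk⟩ := sc8_cap t.2 h1 h2
      refine ⟨t.1 * loopVal ^ k + s, ?_⟩
      intro V _ _ M hM j n x hn hx
      rw [List.map_cons, List.sum_cons, hs V M hM j n x hn hx, hk M j n x hn hx, hM.del, smul_smul,
        add_smul]
  obtain ⟨s, hs⟩ := key L hL
  refine ⟨s, ?_⟩
  intro V _ _ M hM j n x hn hx
  rw [H V M j x]
  exact hs V M hM j n x hn hx

/-! ### the bracket -/

/-- the bracket of a closed word from its operator in a good model -/
private theorem sc8_br {D : Word} {c : LP} (hD : Ok D 0 0) (hne : D ≠ [])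
    (h : ∀ (V : Type) [AddCommGroup V] [Module LP V] (M : Model LP V), Good M →
      runW M D M.init = (loopVal * c) • M.init) : bracket (toD D) = c := by
  obtain ⟨V, _, _, M, hM, hinj⟩ := thm_Vert
  have h1 := thm_BrRun V M hM (toD D) (sc8_ne hne) (sc8_ok D 0 0 hD)
  rw [sc8_forget, h V M hM] at h1
  exact (mul_left_cancel₀ pairRun_loopVal_ne (hinj _ _ h1)).symm

/-- the operator of a closed word -/
private theorem sc8_run {D : Word} (hD : Ok D 0 0) (hne : D ≠ []) (V : Type) [AddCommGroup V]
    [Module LP V] (M : Model LP V) (hM : Good M) :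
    runW M D M.init = (loopVal * bracket (toD D)) • M.init := by
  have h1 := thm_BrRun V M hM (toD D) (sc8_ne hne) (sc8_ok D 0 0 hD)
  rw [sc8_forget] at h1
  exact h1

theorem thm_SC8 (hU8 : St_U8) : St_SC8 := by
  refine ⟨?_, ?_, ?_⟩
  · intro D D' hD hne hI hU
    have hD' : Ok D' 0 0 := hI.ok hD
    have hne' : D' ≠ [] := by
      intro h
      subst h
      exact hne (iso_nil' hI)
    obtain ⟨V, _, _, M, hM, hinj⟩ := thm_Vert
    obtain ⟨u, hu, h1⟩ := thm_Inv V M hM 0 0 D D' hD hI
    have h2 := h1 M.init M.supp_init
    rw [sc8_run hD hne V M hM, sc8_run hD' hne' V M hM, smul_smul] at h2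
    have h3 := hinj _ _ h2
    have h4 : bracket (toD D) = u * bracket (toD D') := by
      apply mul_left_cancel₀ pairRun_loopVal_ne
      rw [h3]
      ring
    rw [h4] at hU
    exact (hU8.2.1 _ _ hU).2
  · intro u v A j n hu hj hA hv hU
    obtain ⟨s, hs⟩ := sc8_A A hA
    have hn : n - 2 + 2 = n := by omega
    have okN : Ok (u ++ (pN j :: v)) 0 0 := hu.append ⟨hj, hv⟩
    have neN : u ++ (pN j :: v) ≠ [] := by simp
    have okU : Ok (pU 0 :: A) 0 0 := ⟨le_rfl, hA⟩
    have okA : Ok (Pool.Agent.ARB.sh j A) n (n - 2) := by
      have h1 := (hA.sh j).add (n - (j + 2))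
      have e1 : 2 + j + (n - (j + 2)) = n := by omega
      have e2 : 0 + j + (n - (j + 2)) = n - 2 := by omega
      rw [e1, e2] at h1
      exact h1
    have okW : Ok (u ++ (Pool.Agent.ARB.sh j A ++ v)) 0 0 := hu.append (okA.append hv)
    have neW : u ++ (Pool.Agent.ARB.sh j A ++ v) ≠ [] := by
      intro h
      have h1 := (List.append_eq_nil_iff.1 h).2
      have h2 := (List.append_eq_nil_iff.1 h1).1
      have h3 : A = [] := by
        cases A with
        | nil => rfl
        | cons a A => exact absurd h2 (by simp [Pool.Agent.ARB.sh])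
      subst h3
      have h4 : 2 = 0 := hA
      omega
    have h1 : bracket (toD (pU 0 :: A)) = s := by
      apply sc8_br okU (List.cons_ne_nil _ _)
      intro V _ _ M hM
      have h2 : M.Supp 2 (M.cup 0 M.init) := M.supp_cup 0 0 _ (by omega) M.supp_init
      have h3 := hs V M hM 0 2 _ (by omega) h2
      rw [sh_zero] at h3
      have h4 : M.cap 0 (M.cup 0 M.init) = loopVal • M.init := by
        rw [← hM.del]
        exact M.rel1 0 0 _ M.supp_init (by omega)
      show runW M A (M.cup 0 M.init) = _
      rw [h3, h4, smul_smul, mul_comm]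
    have h2 : bracket (toD (u ++ (Pool.Agent.ARB.sh j A ++ v))) = s * bracket (toD (u ++ (pN j :: v))) := by
      apply sc8_br okW neW
      intro V _ _ M hM
      have h3 : M.Supp n (runW M u M.init) := supp_run hM hu M.supp_init
      have h4 := hs V M hM j n _ hj h3
      have h5 := sc8_run okN neN V M hM
      have h6 : runW M (u ++ (pN j :: v)) M.init = runW M v (M.cap j (runW M u M.init)) := by
        rw [run_append]
        rfl
      rw [run_append, run_append, h4, map_smul, ← h6, h5, smul_smul]
      congr 1
      ring
    rw [h2] at hU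
    rw [h1]
    exact hU8.2.1 _ _ hU
  · intro u v n i hu hi hv hne hU
    have okV : Ok (u ++ v) 0 0 := hu.append hv
    have okW : Ok (u ++ (pU i :: pN i :: v)) 0 0 := by
      refine hu.append ⟨hi, ?_, ?_⟩
      · show i + 2 ≤ n - 0 + 2
        omega
      · show Ok v (n - 0 + 2 - 2 + 0) 0
        have e : n - 0 + 2 - 2 + 0 = n := by omega
        rw [e]
        exact hv
    have h1 : bracket (toD (u ++ (pU i :: pN i :: v))) = loopVal * bracket (toD (u ++ v)) := by
      apply sc8_br okW (by simp)
      intro V _ _ M hM
      have h3 : M.Supp n (runW M u M.init) := supp_run hM hu M.supp_init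
      have h4 : M.cap i (M.cup i (runW M u M.init)) = loopVal • runW M u M.init := by
        rw [← hM.del]
        exact M.rel1 n i _ h3 hi
      have h5 := sc8_run okV hne V M hM
      rw [run_append] at h5
      have h6 : runW M (u ++ (pU i :: pN i :: v)) M.init =
          runW M v (M.cap i (M.cup i (runW M u M.init))) := by
        rw [run_append]
        rfl
      rw [h6, h4, map_smul, h5, smul_smul]
    rw [h1] at hU
    exact hU8.2.2.1 _ hU

end Pool.GEN
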