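import Pool.Agent.GEN.St
import Pool.Agent.ARB.Comm

/-!
# GEN [SM]: sums
-/

set_option autoImplicit false

namespace Pool.GEN

open LaurentPolynomial Pool.Agent.ARB Pool.Agent.Helper2 Pool.ALT Pool.LSP Pool.LSG

theorem thm_SM (hRTW : St_RTW) : St_SM := by
  rintro e V hV - ⟨R, L, hR, hL, hXR, hXL, hAR, hAL, hX, hIso⟩
  obtain ⟨-, -, -, -, h0⟩ := hRTW V hV
  obtain ⟨-, hM, hXM, hAM, -⟩ := hRTW L hL
  refine ⟨R, rt L, hR, hM, hAR, hAM e hAL, by omega, by omega, ?_⟩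
  refine h0.trans (congR _ _ ?_)
  -- the word `rt V`
  have h1 : Iso 4 (rt V) (R ++ rt L) := by
    have h2 : Iso 6 (Pool.Agent.ARB.sh 1 V ++ [pN 0])
        (Pool.Agent.ARB.sh 1 (Pool.Agent.ARB.sh 1 R ++ L) ++ [pN 0]) :=
      ((hIso.sh 1).add 1).right _
    have h3 : Iso 4 ([pU 0] ++ (Pool.Agent.ARB.sh 1 V ++ [pN 0]))
        ([pU 0] ++ (Pool.Agent.ARB.sh 1 (Pool.Agent.ARB.sh 1 R ++ L) ++ [pN 0])) :=
      Iso.left (z := [pU 0]) (k := 6) ⟨by decide, rfl⟩ h2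
    refine h3.trans ?_
    have h4 : Iso (0 + 2) ([pU 0] ++ Pool.Agent.ARB.sh 2 R) (Pool.Agent.ARB.sh 0 R ++ [pU 0]) :=
      thm_Comm [pU 0] R 0 2 2 2 ⟨by decide, rfl⟩ hR
    have h5 : Iso 4 (([pU 0] ++ Pool.Agent.ARB.sh 2 R) ++ (Pool.Agent.ARB.sh 1 L ++ [pN 0]))
        ((Pool.Agent.ARB.sh 0 R ++ [pU 0]) ++ (Pool.Agent.ARB.sh 1 L ++ [pN 0])) :=
      (h4.add 2).right _
    rw [Pool.Agent.ARB.sh_zero, List.append_assoc, List.append_assoc] at h5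
    rw [Pool.Agent.ARB.sh_append, Pool.Agent.ARB.sh_sh, List.append_assoc]
    exact h5
  have h6 : Iso 2 (wV (rt V)) (wV (R ++ rt L)) :=
    Iso.left (z := [pU 2, pU 3]) (k := 6) ⟨by decide, by decide, rfl⟩ (h1.add 2)
  refine h6.trans ?_
  have h7 : Iso (2 + 0) (R ++ Pool.Agent.ARB.sh 2 [pU 0, pU 1])
      (Pool.Agent.ARB.sh 2 [pU 0, pU 1] ++ R) :=
    thm_Comm R [pU 0, pU 1] 2 2 0 4 hR ⟨by decide, by decide, rfl⟩
  have h8 := (h7.symm).right (rt L)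
  rw [List.append_assoc, List.append_assoc] at h8
  exact h8

end Pool.GEN
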