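import Pool.Agent.GEN.St

/-! # GEN: St_ST, the decorated word and the two graphs -/

set_option autoImplicit false

namespace Pool.GEN

open LaurentPolynomial Pool.Agent.ARB Pool.Agent.Helper2 Pool.ALT Pool.LSP Pool.LSG

theorem st_ev_symm {κ : Type} {e : Bool} {a : Cr κ} {x y : κ} (h : Ev e a x y) : Ev e a y x := by
  rcases h with ⟨h1, h2 | h2⟩ | ⟨h1, h2 | h2⟩
  · exact Or.inl ⟨h1, Or.inr h2⟩
  · exact Or.inl ⟨h1, Or.inl h2⟩
  · exact Or.inr ⟨h1, Or.inr h2⟩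
  · exact Or.inr ⟨h1, Or.inl h2⟩

theorem st_ev_uniq {κ : Type} {e : Bool} {a : Cr κ} {x y x' y' : κ} (h : Ev e a x y)
    (h' : Ev e a x' y') : (x = x' ∧ y = y') ∨ (x = y' ∧ y = x') := by
  rcases h with ⟨h1, ⟨h2, h3⟩ | ⟨h2, h3⟩⟩ | ⟨h1, ⟨h2, h3⟩ | ⟨h2, h3⟩⟩ <;>
  rcases h' with ⟨h1', ⟨h2', h3'⟩ | ⟨h2', h3'⟩⟩ | ⟨h1', ⟨h2', h3'⟩ | ⟨h2', h3'⟩⟩ <;>
  first
    | exact absurd h1 h1'
    | exact absurd h1' h1
    | exact Or.inl ⟨h2.symm.trans h2', h3.symm.trans h3'⟩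
    | exact Or.inr ⟨h2.symm.trans h2', h3.symm.trans h3'⟩
    | exact Or.inl ⟨h3.symm.trans h3', h2.symm.trans h2'⟩
    | exact Or.inr ⟨h3.symm.trans h3', h2.symm.trans h2'⟩

theorem st_nc_one {V : Type} {σ : Setoid V} (h : nc σ = 1) (x y : V) : σ x y := by
  unfold nc at h
  obtain ⟨h1, -⟩ := Nat.card_eq_one_iff_unique.1 h
  exact Quotient.exact (h1.elim (Quotient.mk σ x) (Quotient.mk σ y))

/-- the relation of the colours of one parity at the same crossing -/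
def st_R {κ : Type} (e : Bool) (W : Wd (Cr κ)) : κ → κ → Prop := fun y z =>
  ∃ a, Lt a W ∧ Ev e a y z

theorem st_symm {κ : Type} {e : Bool} {W : Wd (Cr κ)} {x y : κ}
    (h : Relation.ReflTransGen (st_R e W) x y) : Relation.ReflTransGen (st_R e W) y x := by
  induction h with
  | refl => exact Relation.ReflTransGen.refl
  | tail _ h2 ih =>
    obtain ⟨a, h3, h4⟩ := h2
    exact Relation.ReflTransGen.head ⟨a, h3, st_ev_symm h4⟩ ih

theorem st_conn {κ : Type} {e : Bool} {W : Wd (Cr κ)} {V E : Type} [Fintype E] (g : Gr V E)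
    (f : V → κ) (hk : ∀ k, ∃ a, Lt a W ∧ Ev e a (f (g.u k)) (f (g.v k)))
    (hc : nc (g.sp ⊥ Finset.univ) = 1) (x y : V) :
    Relation.ReflTransGen (st_R e W) (f x) (f y) := by
  let τ : Setoid V :=
    { r := fun x y => Relation.ReflTransGen (st_R e W) (f x) (f y)
      iseqv := ⟨fun x => Relation.ReflTransGen.refl, fun h => st_symm h,
        fun h h' => h.trans h'⟩ }
  have h1 : g.sp ⊥ Finset.univ ≤ τ := g.sp_le bot_le fun k _ => Relation.ReflTransGen.single (hk k)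
  exact h1 (st_nc_one hc x y)

theorem st_rch {κ : Type} {e : Bool} {W : Wd (Cr κ)} {V E : Type} [Fintype E] (g : Gr V E)
    (f : V → κ) (hk : ∀ k, ∃ a, Lt a W ∧ Ev e a (f (g.u k)) (f (g.v k)))
    (hl : ∀ a, Lt a W → ∃ k, Ev e a (f (g.u k)) (f (g.v k)))
    (hc : nc (g.sp ⊥ Finset.univ) = 1) (x : V) {a : Cr κ} {u v : κ} (ha : Lt a W)
    (hev : Ev e a u v) : Relation.ReflTransGen (st_R e W) (f x) u := by
  obtain ⟨k, h1⟩ := hl a ha
  rcases st_ev_uniq hev h1 with ⟨h2, -⟩ | ⟨h2, -⟩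
  · rw [h2]
    exact st_conn g f hk hc _ _
  · rw [h2]
    exact st_conn g f hk hc _ _

theorem st_sep {κ : Type} {e : Bool} {W : Wd (Cr κ)} {V E : Type} (g : Gr V E)
    (f : V → κ) (hf : Function.Injective f)
    (hk : ∀ k, ∃ a, Lt a W ∧ Ev e a (f (g.u k)) (f (g.v k)))
    (hl : ∀ a, Lt a W → ∃ k, Ev e a (f (g.u k)) (f (g.v k))) (x : V) (sd : V → Bool)
    (h : Sep g x sd) : ∃ sd', SpD e W (f x) sd' ∧ ∀ β, ∃ a, Lt a W ∧ Lab e (f x) sd' a β := by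
  classical
  obtain ⟨sd', hsd'⟩ : ∃ sd' : κ → Bool, sd' = fun y => decide (∃ v, f v = y ∧ sd v = true) :=
    ⟨_, rfl⟩
  have h1 : ∀ v, sd' (f v) = sd v := by
    intro v
    rw [hsd']
    cases hv : sd v with
    | true => exact decide_eq_true ⟨v, rfl, hv⟩
    | false =>
      apply decide_eq_false
      rintro ⟨v', h2, h3⟩
      rw [hf h2, hv] at h3
      exact absurd h3 (by decide)
  refine ⟨sd', ?_, ?_⟩
  · intro a u v ha hev
    obtain ⟨k, h2⟩ := hl a ha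
    have h3 := h.ok k
    rcases st_ev_uniq hev h2 with ⟨h4, h5⟩ | ⟨h4, h5⟩
    · rw [h4, h5, h1, h1]
      rcases h3 with h3 | h3 | h3
      · exact Or.inl (by rw [h3])
      · exact Or.inr (Or.inl (by rw [h3]))
      · exact Or.inr (Or.inr h3)
    · rw [h4, h5, h1, h1]
      rcases h3 with h3 | h3 | h3
      · exact Or.inr (Or.inl (by rw [h3]))
      · exact Or.inl (by rw [h3])
      · exact Or.inr (Or.inr h3.symm)
  · intro β
    obtain ⟨k, h2⟩ := h.two β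
    obtain ⟨a, ha, hev⟩ := hk k
    rcases h2 with ⟨h2, h3⟩ | ⟨h2, h3⟩
    · exact ⟨a, ha, f (g.u k), f (g.v k), hev, fun h4 => h2 (hf h4), by rw [h1, h3]⟩
    · exact ⟨a, ha, f (g.v k), f (g.u k), st_ev_symm hev, fun h4 => h2 (hf h4), by rw [h1, h3]⟩

/-- [ST] -/
theorem thm_ST (hBR2 : St_BR2) (hCN : St_CN) : St_ST := by
  intro e V hV ha h hab hcd hO hE
  obtain ⟨κ, pr', c, W, fE, fO, b1, b2, b3, b4, b5, b6, b7, c0, c2, c1, c3, b8, b9⟩ :=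
    hBR2 e V hV ha h
  obtain ⟨n1, n2⟩ := hCN (wV V) h hab hcd hO hE
  refine ⟨κ, pr', c, W, b1, b2, b3, ?_⟩
  by_cases hN : ∃ a e' x, Lt a W ∧ Ev e' a x x
  · exact Or.inl hN
  right
  have hnon : NoN W := fun a e' y h1 h2 => hN ⟨a, e', y, h1, h2⟩
  have hkE : ∀ k, ∃ a, Lt a W ∧ Ev e a (fE ((gE _ h).u k)) (fE ((gE _ h).v k)) := fun k => by
    obtain ⟨a, h1, h2, -⟩ := b9 k
    exact ⟨a, h1, h2⟩
  have hkO : ∀ k, ∃ a, Lt a W ∧ Ev (!e) a (fO ((gO _ h).u k)) (fO ((gO _ h).v k)) := fun k => by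
    obtain ⟨a, h1, -, h2⟩ := b9 k
    exact ⟨a, h1, h2⟩
  have hlE : ∀ a, Lt a W → ∃ k, Ev e a (fE ((gE _ h).u k)) (fE ((gE _ h).v k)) := fun a h1 => by
    obtain ⟨k, h2, -⟩ := b8 a h1
    exact ⟨k, h2⟩
  have hlO : ∀ a, Lt a W → ∃ k, Ev (!e) a (fO ((gO _ h).u k)) (fO ((gO _ h).v k)) :=
    fun a h1 => by
      obtain ⟨k, -, h2⟩ := b8 a h1
      exact ⟨k, h2⟩
  refine ⟨⟨b2, b3, ?_, ?_, hnon, ?_, ?_⟩, ?_, ?_, ?_, ?_, ?_⟩
  · rw [c0, c2]
    exact fun h1 => hab (b4 h1)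
  · rw [c1, c3]
    exact fun h1 => hcd (b5 h1)
  · intro a u v h1 h2
    rw [c1, c3]
    exact ⟨st_rch (gO _ h) fO hkO hlO n2 _ h1 h2, st_rch (gO _ h) fO hkO hlO n2 _ h1 h2⟩
  · intro a u v h1 h2
    rw [c0, c2]
    have h3 : ∀ x y, Relation.ReflTransGen (st_R e W) x y → Rch (!e) W x y := by
      intro x y h4
      unfold Rch
      rw [Bool.not_not]
      exact h4
    exact ⟨h3 _ _ (st_rch (gE _ h) fE hkE hlE n1 _ h1 h2),
      h3 _ _ (st_rch (gE _ h) fE hkE hlE n1 _ h1 h2)⟩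
  · intro k h1
    obtain ⟨a, h2, h3⟩ := hkE k
    rw [h1] at h3
    exact hnon a _ _ h2 h3
  · intro k h1
    obtain ⟨a, h2, h3⟩ := hkO k
    rw [h1] at h3
    exact hnon a _ _ h2 h3
  · intro h1
    have h2 : nX (wV V) = 1 := h1
    obtain ⟨k, hk⟩ : ∃ k : Fin (nX (wV V)), Finset.univ = {k} := by
      have : Fintype.card (Fin (nX (wV V))) = 1 := by rw [Fintype.card_fin, h2]
      obtain ⟨k, hk⟩ := Fintype.card_eq_one_iff.1 this
      exact ⟨k, Finset.eq_singleton_iff_unique_mem.2 ⟨Finset.mem_univ _, fun x _ => hk x⟩⟩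
    have h3 := st_nc_one n1 (gE _ h).a (gE _ h).b
    rw [hk] at h3
    have h4 : (gE (wV V) h).sp ⊥ {k} = pr ((gE _ h).u k) ((gE _ h).v k) := by
      unfold Gr.sp
      rw [Finset.sup_singleton, bot_sup_eq]
      rfl
    rw [h4] at h3
    obtain ⟨a, h5, h6⟩ := hkE k
    refine ⟨a, h5, ?_⟩
    rw [c0, c2]
    rcases h3 with h3 | ⟨h3, h7⟩ | ⟨h3, h7⟩
    · exact absurd h3 hab
    · rw [h3, h7]
      exact h6
    · rw [h3, h7]
      exact st_ev_symm h6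
  · intro x sd h1
    obtain ⟨sd', h2, h3⟩ := st_sep (gE _ h) fE b4 hkE hlE x sd h1
    exact ⟨fE x, sd', b6 x, h2, h3⟩
  · intro x sd h1
    obtain ⟨sd', h2, h3⟩ := st_sep (gO _ h) fO b5 hkO hlO x sd h1
    exact ⟨fO x, sd', b7 x, h2, h3⟩

end Pool.GEN
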