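import Pool.Agent.GEN.St

/-!
# GEN, module STEP
-/

set_option autoImplicit false

namespace Pool.GEN

open LaurentPolynomial Pool.Agent.ARB Pool.Agent.Helper2 Pool.ALT Pool.LSP Pool.LSG

private theorem step_alt {e : Bool} {V : Word} (hA : AltW e V) : AltW e (wV V) := by
  intro p i hp
  apply hA p i
  have h1 : pX i p ∈ pU 2 :: pU 3 :: V := hp
  rcases List.mem_cons.mp h1 with h2 | h2
  · exact absurd h2 (by intro h3; injection h3 with h4 h5; cases h4)
  · rcases List.mem_cons.mp h2 with h3 | h3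
    · exact absurd h3 (by intro h3; injection h3 with h4 h5; cases h4)
    · exact h3

private theorem step_fgt {κ : Type} (W : Wd (Cr κ)) : fgt (rtW W) = rt (fgt W) := by
  obtain ⟨h1, h2, -⟩ := thm_Mp.2.2.1 (κ := κ)
  have h3 : fgt (rtW W) = pU 0 :: fgt (shd 1 W ++ [cN 0]) := rfl
  rw [h3, h1, h2]
  rfl

private theorem step_rch {κ : Type} {e : Bool} {W W' : Wd (Cr κ)}
    (h : ∀ a, Lt a W → Lt a W') {y z : κ} (hr : Rch e W y z) : Rch e W' y z := by
  refine Relation.ReflTransGen.mono ?_ _ _ hr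
  rintro u v ⟨a, ha, hev⟩
  exact ⟨a, h a ha, hev⟩

private theorem step_nice {κ : Type} {e : Bool} {pr : κ → Bool} {c : ℕ → κ} {W : Wd (Cr κ)}
    (h : Nice e pr c W) : Nice (!e) (fun x => !pr x) (crt c) (rtW W) := by
  obtain ⟨h1, h2, h3, -, -, h6⟩ := all_Rot e pr c W h.dec
  have hc0 : crt c 0 = c 1 := rfl
  have hc1 : crt c 1 = c 2 := rfl
  have hc2 : crt c 2 = c 3 := rfl
  have hc3 : crt c 3 = c 0 := by
    rw [← h6]
    rfl
  refine ⟨h1, fun y => h2 y (h.fa y), ?_, ?_, ?_, ?_, ?_⟩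
  · rw [hc0, hc2]
    exact h.ne13
  · rw [hc1, hc3]
    exact fun hh => h.ne02 hh.symm
  · intro a e' y ha
    exact h.non a e' y ((h3 a).mp ha)
  · intro a u v ha hev
    rw [Bool.not_not] at hev
    obtain ⟨h7, h8⟩ := h.rchE a u v ((h3 a).mp ha) hev
    rw [hc1, hc3]
    exact ⟨step_rch (fun a ha => (h3 a).mpr ha) h8, step_rch (fun a ha => (h3 a).mpr ha) h7⟩
  · intro a u v ha hev
    rw [hc0, hc2, Bool.not_not]
    obtain ⟨h7, h8⟩ := h.rchO a u v ((h3 a).mp ha) hev
    exact ⟨step_rch (fun a ha => (h3 a).mpr ha) h7, step_rch (fun a ha => (h3 a).mpr ha) h8⟩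

theorem thm_STEP (hGL : St_GL) (hCN : St_CN) (hPRF : St_PRF) (hST : St_ST) (hDS : St_DS)
    (hADJ2 : St_ADJ2) (hUD : St_UD) : St_STEP := by
  classical
  intro e V hV hA hn h hab hab' h1 h2
  obtain ⟨κ, pr, c, W, hf, hD, hF, hcase⟩ := hST e V hV hA h hab hab' h1 h2
  subst hf
  rcases hcase with hNL | ⟨hN, hlE, hlO, hone, hsE, hsO⟩
  · left
    obtain ⟨V', h3, h4, h5, h6⟩ := all_NL e pr c 4 W hD hF hNL
    exact ⟨V', h3, h4, by omega, h6⟩
  · right
    by_cases hn1 : nX (fgt W) = 1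
    · left
      exact hADJ2 e pr c W hN (hone hn1)
    · right
      have hn2 : 2 ≤ nX (wV (fgt W)) := by
        have h3 : nX (wV (fgt W)) = nX (fgt W) := rfl
        omega
      obtain ⟨hcE, hcO⟩ := hCN _ h hab hab' h1 h2
      rcases hPRF e (wV (fgt W)) h (step_alt hA) hn2 h1 h2 with hL | ⟨S, hS1, hS2, hS3⟩ |
        ⟨S, hS1, hS2, hS3⟩
      · exact Or.inl hL
      · right
        left
        obtain ⟨x, sd, hsep⟩ := hGL (gE _ h) hcE hlE S hS1 hS2 hS3
        obtain ⟨x', sd', hx, hsp, hlab⟩ := hsE x sd hsep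
        obtain ⟨u1, u2, u3⟩ := hUD e pr c W hD
        rcases hDS e pr c W x' sd' hN hsp hx hlab with h3 | h3 | h3
        · exact Or.inl (u1 h3)
        · exact Or.inr (Or.inl (u2 h3))
        · exact Or.inr (Or.inr (u3 h3))
      · right
        right
        obtain ⟨x, sd, hsep⟩ := hGL (gO _ h) hcO hlO S hS1 hS2 hS3
        obtain ⟨x', sd', hx, hsp, hlab⟩ := hsO x sd hsep
        have hN' := step_nice hN
        obtain ⟨-, -, h3, -, -, -⟩ := all_Rot e pr c W hN.dec
        obtain ⟨u1, u2, u3⟩ := hUD (!e) _ (crt c) (rtW W) hN'.dec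
        have hsp' : SpD (!e) (rtW W) x' sd' := fun a u v ha hev => hsp a u v ((h3 a).mp ha) hev
        have hlab' : ∀ β, ∃ a, Lt a (rtW W) ∧ Lab (!e) x' sd' a β := by
          intro β
          obtain ⟨a, ha, hl⟩ := hlab β
          exact ⟨a, (h3 a).mpr ha, hl⟩
        have hx' : (fun x => !pr x) x' = true := by
          show (!pr x') = true
          rw [hx]
          rfl
        rw [← step_fgt W]
        rcases hDS (!e) _ (crt c) (rtW W) x' sd' hN' hsp' hx' hlab' with h4 | h4 | h4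
        · exact Or.inl (u1 h4)
        · exact Or.inr (Or.inl (u2 h4))
        · exact Or.inr (Or.inr (u3 h4))

end Pool.GEN
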