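import Pool.Agent.GEN.St

/-!
# GEN, TR: combinations of alternating tangles are combinations of leaves, or have a factor
-/

set_option autoImplicit false

namespace Pool.GEN

open LaurentPolynomial Pool.Agent.ARB Pool.Agent.Helper2 Pool.ALT Pool.LSP Pool.LSG

theorem thm_TR (hPR : St_PR) (hDLV : St_DLV) : St_TR := by
  intro T
  induction T with
  | zero =>
    intro _
    exact ⟨rfl, Or.inl ⟨.zero, fun w' hw' => absurd hw' id, Relation.ReflTransGen.refl⟩⟩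
  | cross p =>
    intro _
    exact ⟨⟨Nat.le_refl 2, rfl⟩, Or.inl ⟨.cross p, fun w' hw' => absurd hw' id,
      Relation.ReflTransGen.refl⟩⟩
  | leaf w =>
    intro h
    obtain ⟨h1, e, h2⟩ := h w rfl
    refine ⟨h1, ?_⟩
    rcases hDLV.2 e w h1 h2 with ⟨T', h3, h4⟩ | h3
    · exact Or.inl ⟨T', fun w' hw' => ⟨(h3 w' hw').1, w, rfl, (h3 w' hw').2⟩, h4⟩
    · exact Or.inr h3
  | sum S T hS hT =>
    intro h
    obtain ⟨s1, s2⟩ := hS fun w hw => h w (Or.inl hw)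
    obtain ⟨t1, t2⟩ := hT fun w hw => h w (Or.inr hw)
    refine ⟨s1.append t1, ?_⟩
    rcases s2 with ⟨S', s3, s4⟩ | s2
    · rcases t2 with ⟨T', t3, t4⟩ | t2
      · refine Or.inl ⟨.sum S' T', ?_, congS _ _ _ _ s1 (s4.ok s1) s4 t4⟩
        rintro w' (hw' | hw')
        · obtain ⟨h1, w, h2, h3⟩ := s3 w' hw'
          exact ⟨h1, w, Or.inl h2, h3⟩
        · obtain ⟨h1, w, h2, h3⟩ := t3 w' hw'
          exact ⟨h1, w, Or.inr h2, h3⟩
      · exact Or.inr (hPR.2.2.2.2.1 _ _ t1 s1 t2)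
    · exact Or.inr (hPR.2.2.2.1 _ _ s1 t1 s2)
  | rot T hT =>
    intro h
    obtain ⟨t1, t2⟩ := hT h
    refine ⟨ok_rotW t1, ?_⟩
    rcases t2 with ⟨T', t3, t4⟩ | t2
    · exact Or.inl ⟨.rot T', t3, congR _ _ t4⟩
    · exact Or.inr (hPR.2.2.2.2.2.1 _ t1 t2)

end Pool.GEN
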