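import Pool.Agent.GEN.St

/-!
# GEN: units modulo `A ^ 4 + 1`
-/

set_option autoImplicit false

namespace Pool.GEN

open LaurentPolynomial Pool.Agent.ARB Pool.Agent.Helper2 Pool.ALT Pool.LSP Pool.LSG

theorem u8_hom (p : ℕ) (hp : p.Prime) : ∃ (K : Type) (_ : Field K) (_ : CharP K p)
    (φ : LP →+* K), φ (T 4 + 1) = 0 := by
  have : Fact p.Prime := ⟨hp⟩
  obtain ⟨z, hz⟩ := IsAlgClosed.exists_pow_nat_eq (-1 : AlgebraicClosure (ZMod p))
    (n := 4) (by norm_num)
  have hz0 : z ≠ 0 := by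
    rintro rfl
    rw [zero_pow (by norm_num)] at hz
    exact neg_ne_zero.2 one_ne_zero hz.symm
  refine ⟨AlgebraicClosure (ZMod p), inferInstance, inferInstance,
    LaurentPolynomial.eval₂ (Int.castRingHom _) (Units.mk0 z hz0), ?_⟩
  rw [map_add, map_one, LaurentPolynomial.eval₂_T]
  have h1 : ((Units.mk0 z hz0 ^ (4 : ℤ) : (AlgebraicClosure (ZMod p))ˣ) :
      AlgebraicClosure (ZMod p)) = z ^ 4 := by
    rw [show (4 : ℤ) = ((4 : ℕ) : ℤ) from rfl, zpow_natCast, Units.val_pow_eq_pow_val,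
      Units.val_mk0]
  rw [h1, hz, neg_add_cancel]

theorem u8_ne {K : Type} [Field K] (φ : LP →+* K) (hφ : φ (T 4 + 1) = 0) {s : LP}
    (hs : U8 s) : φ s ≠ 0 := by
  intro h0
  obtain ⟨s', t, ht⟩ := hs
  have h1 := congrArg φ ht
  rw [map_sub, map_mul, map_mul, h0, hφ, zero_mul, zero_mul, map_one, zero_sub] at h1
  exact neg_ne_zero.2 one_ne_zero h1

theorem thm_U8 : St_U8 := by
  refine ⟨?_, ?_, ?_, ?_, ?_, ?_⟩
  · rintro s ⟨k, rfl | rfl⟩
    · refine ⟨T (-k), ?_⟩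
      rw [← T_add, add_neg_cancel, T_zero, sub_self]
      exact dvd_zero _
    · refine ⟨-T (-k), ?_⟩
      rw [neg_mul_neg, ← T_add, add_neg_cancel, T_zero, sub_self]
      exact dvd_zero _
  · rintro s t ⟨r, hr⟩
    constructor
    · exact ⟨t * r, by rwa [← mul_assoc]⟩
    · refine ⟨s * r, ?_⟩
      rwa [show t * (s * r) = s * t * r by ring]
  · intro x hx
    obtain ⟨K, _, _, φ, hφ⟩ := u8_hom 2 Nat.prime_two
    apply u8_ne φ hφ hx
    have h1 : (loopVal : LP) = -T (-2) * (T 4 + 1) := by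
      unfold loopVal
      rw [mul_add, mul_one, neg_mul, ← T_add]
      norm_num
      ring
    rw [map_mul, h1, map_mul, hφ, mul_zero, zero_mul]
  · intro n hn
    by_contra hc
    have h1 : n.natAbs ≠ 1 := by
      intro h
      apply hc
      exact Int.natAbs_eq_iff.1 h
    obtain ⟨p, hp, hpn⟩ := Nat.exists_prime_and_dvd h1
    obtain ⟨K, _, _, φ, hφ⟩ := u8_hom p hp
    apply u8_ne φ hφ hn
    rw [map_intCast, CharP.intCast_eq_zero_iff K p]
    exact Int.natCast_dvd.2 hpn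
  · rintro f s x h rfl
    exact ⟨x, dvd_trans (dvd_pow_self _ (by norm_num)) h⟩
  · rintro s t ⟨s', hs⟩ ⟨t', ht⟩
    refine ⟨s' * t', ?_⟩
    have h1 : s * t * (s' * t') - 1 = (s * s' - 1) * (t * t') + (t * t' - 1) := by ring
    rw [h1]
    exact dvd_add (Dvd.dvd.mul_right hs _) ht

end Pool.GEN
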