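import Pool.Agent.GEN.St

/-!
# GEN, module UD: forgetting the colours
-/

set_option autoImplicit false

namespace Pool.GEN

open LaurentPolynomial Pool.Agent.ARB Pool.Agent.Helper2 Pool.ALT Pool.LSP Pool.LSG

private theorem ud_flip (e : Bool) (b : Bool) (p : Bool) :
    ((!p) = e ↔ (!b) = true) ↔ (p = e ↔ b = true) := by
  revert e b p; decide

/-- alternation is invariant under planar isotopy -/
theorem ud_al {κ : Type} (e : Bool) (n : ℕ) (w w' : Wd (Cr κ)) (h : PIso n w w')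
    (ha : ∀ (i : ℕ) (a : Cr κ), cX i a ∈ w → (a.p = e ↔ i % 2 = 0)) :
    ∀ (i : ℕ) (a : Cr κ), cX i a ∈ w' → (a.p = e ↔ i % 2 = 0) := by
  obtain ⟨-, -, -, M, -, -⟩ := thm_Mp
  have hM := M (α := Cr κ) (fun b a => (a.p = e ↔ b = true)) (fun b a => ud_flip e b a.p) n w w' h
  have h1 : ∀ i (a : Cr κ), cX i a ∈ w → (a.p = e ↔ decide (i % 2 = 0) = true) := by
    intro i a hi
    rw [decide_eq_true_iff]
    exact ha i a hi
  have h2 := hM.mp h1
  intro i a hi
  have h3 := h2 i a hi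
  rw [decide_eq_true_iff] at h3
  exact h3

/-- forgetting the colours of an alternating word -/
theorem ud_alt {κ : Type} {e : Bool} {w : Wd (Cr κ)}
    (h : ∀ (i : ℕ) (a : Cr κ), cX i a ∈ w → (a.p = e ↔ i % 2 = 0)) : AltW e (fgt w) := by
  obtain ⟨-, -, M, -, -, -⟩ := thm_Mp
  obtain ⟨-, -, -, -, hlet⟩ := M (κ := κ)
  intro p i hi
  obtain ⟨a, hap, ha⟩ := (hlet w p i).mp hi
  rw [← hap]
  exact h i a ha

theorem ud_ne {κ : Type} {J : Wd (Cr κ)} (h : J ≠ []) : fgt J ≠ [] := by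
  intro h0
  apply h
  unfold fgt at h0
  exact List.map_eq_nil_iff.mp h0

theorem thm_UD : St_UD := by
  intro κ e pr c W hD
  obtain ⟨-, Miso, Mf, -, -, Mn⟩ := thm_Mp
  obtain ⟨happ, hshd, hok, hnx, -⟩ := Mf (κ := κ)
  have key : ∀ W' : Wd (Cr κ), PIso 4 W W' → AltW e (fgt W') ∧ Iso 4 (fgt W) (fgt W') ∧
      nX (fgt W') = nX (fgt W) := by
    intro W' h
    refine ⟨ud_alt (ud_al e 4 W W' h hD.al), Miso 4 W W' h, ?_⟩
    rw [hnx, hnx]
    exact (Mn 4 W W' h).symm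
  have hcat : ∀ (u J v : Wd (Cr κ)) (j : ℕ),
      fgt (u ++ (shd j J ++ v)) = fgt u ++ (Pool.Agent.ARB.sh j (fgt J) ++ fgt v) := by
    intro u J v j
    rw [happ, happ, hshd]
  refine ⟨?_, ?_, ?_⟩
  · rintro ⟨u, J, v, n, j, hu, hj, hJ, hJ0, hv, hi⟩
    obtain ⟨ka, ki, -⟩ := key _ hi
    rw [hcat] at ka ki
    exact ⟨fgt u, fgt J, fgt v, n, j, (hok u 4 n).mp hu, hj, (hok J 0 0).mp hJ, ud_ne hJ0,
      (hok v n 0).mp hv, ka, ki⟩
  · rintro ⟨u, J, v, n, j, hu, hj, hJ, hJ1, hv, hi⟩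
    obtain ⟨ka, ki, kn⟩ := key _ hi
    rw [hcat] at ka ki kn
    refine ⟨fgt u, fgt J, fgt v, n, j, (hok u 4 n).mp hu, hj, (hok J 1 1).mp hJ, ?_,
      (hok v n 0).mp hv, ka, kn, ki⟩
    rw [hnx]
    exact hJ1
  · rintro ⟨R, L, hR, hL, hR1, hL1, hi⟩
    obtain ⟨-, ki, kn⟩ := key _ hi
    have hal := ud_al e 4 W _ hi hD.al
    have hc2 : fgt (shd 1 R ++ L) = Pool.Agent.ARB.sh 1 (fgt R) ++ fgt L := by
      rw [happ, hshd]
    have hRa : ∀ (i : ℕ) (a : Cr κ), cX i a ∈ R → (a.p = !e ↔ i % 2 = 0) := by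
      intro i a hia
      have h1 : cX (i + 1) a ∈ shd 1 R ++ L := by
        apply List.mem_append_left
        unfold shd
        exact List.mem_map.mpr ⟨cX i a, hia, rfl⟩
      have h2 := hal (i + 1) a h1
      have h3 : (i + 1) % 2 = 0 ↔ ¬ (i % 2 = 0) := by omega
      rw [h3] at h2
      have h4 : (a.p = !e) ↔ ¬ (a.p = e) := by
        cases a.p <;> cases e <;> decide
      rw [h4, h2, not_not]
    have hLa : ∀ (i : ℕ) (a : Cr κ), cX i a ∈ L → (a.p = e ↔ i % 2 = 0) := fun i a hia =>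
      hal i a (List.mem_append_right _ hia)
    have hsum : nXd (shd 1 R ++ L) = nXd R + nXd L := by
      have happX : ∀ u v : Wd (Cr κ), nXd (u ++ v) = nXd u + nXd v := by
        intro u v
        rw [← hnx, ← hnx, ← hnx, happ]
        induction fgt u with
        | nil => simp [nX]
        | cons s t ih =>
          obtain ⟨k, i⟩ := s
          cases k <;> simp only [List.cons_append, nX, ih] <;> omega
      have hshX : nXd (shd 1 R) = nXd R := by
        rw [← hnx, ← hnx, hshd]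
        induction fgt R with
        | nil => rfl
        | cons s t ih =>
          obtain ⟨k, i⟩ := s
          unfold Pool.Agent.ARB.sh at ih ⊢
          cases k <;> simp only [List.map_cons, nX, ih]
      rw [happX, hshX]
    rw [hc2] at ki
    refine ⟨fgt R, fgt L, (hok R 2 2).mp hR, (hok L 4 0).mp hL, ?_, ?_, ud_alt hRa, ud_alt hLa,
      ?_, ki⟩
    · rw [hnx]; exact hR1
    · rw [hnx]; exact hL1
    · rw [hnx] at kn
      rw [hnx, hnx, ← hsum, kn]

end Pool.GEN
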