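import Pool.Agent.GEN.Tr0
import Pool.Agent.GEN.U8
import Pool.Agent.GEN.SC8
import Pool.Agent.GEN.NX8
import Pool.Agent.GEN.AK8
import Pool.Agent.GEN.K28
import Pool.Agent.GEN.SCA
import Pool.Agent.GEN.PR
import Pool.Agent.GEN.FLT
import Pool.Agent.GEN.GL
import Pool.Agent.GEN.CN
import Pool.Agent.GEN.PRF
import Pool.Agent.GEN.BR2
import Pool.Agent.GEN.ST
import Pool.Agent.GEN.IB
import Pool.Agent.GEN.LL
import Pool.Agent.GEN.PALL
import Pool.Agent.GEN.LF2
import Pool.Agent.GEN.RUN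
import Pool.Agent.GEN.EXP
import Pool.Agent.GEN.CHG
import Pool.Agent.GEN.CA
import Pool.Agent.GEN.CB
import Pool.Agent.GEN.DS
import Pool.Agent.GEN.ADJ2
import Pool.Agent.GEN.UD
import Pool.Agent.GEN.FO
import Pool.Agent.GEN.RTW
import Pool.Agent.GEN.SM
import Pool.Agent.GEN.RED2
import Pool.Agent.GEN.STEP
import Pool.Agent.GEN.DLV
import Pool.Agent.GEN.TR
import Pool.Agent.GEN.FINL
import Pool.Agent.GEN.FINKP

/-!
# GEN: all modules
-/

set_option autoImplicit false

namespace Pool.GEN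

theorem all_U8 : St_U8 := thm_U8

theorem all_SC8 : St_SC8 := thm_SC8 all_U8

theorem all_NX8 : St_NX8 := thm_NX8 all_SC8

theorem all_AK8 : St_AK8 := thm_AK8 all_U8

theorem all_K28 : St_K28 := thm_K28 all_AK8 all_NX8 all_SC8

theorem all_PR : St_PR := thm_PR

theorem all_FLT : St_FLT := thm_FLT all_U8

theorem all_ST : St_ST := thm_ST thm_BR2 thm_CN

theorem all_PALL : St_PALL := thm_PALL thm_IB thm_LL

theorem all_LF2 : St_LF2 := thm_LF2 thm_IB

theorem all_CA : St_CA := thm_CA all_PALL all_LF2 thm_RUN thm_EXP thm_IB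

theorem all_CB : St_CB := thm_CB all_PALL thm_IB

theorem all_DS : St_DS := thm_DS thm_CHG all_CA all_CB

theorem all_FO : St_FO := thm_FO all_U8 all_K28 thm_SCA all_PR

theorem all_SM : St_SM := thm_SM thm_RTW

theorem all_RED2 : St_RED2 := thm_RED2 all_K28 thm_SCA all_PR thm_BR2

theorem all_STEP : St_STEP := thm_STEP thm_GL thm_CN thm_PRF all_ST all_DS thm_ADJ2 thm_UD

theorem all_DLV : St_DLV := thm_DLV all_PR all_FLT all_FO thm_RTW all_SM all_RED2 all_STEP

theorem all_TR : St_TR := thm_TR all_PR all_DLV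

theorem all_FINL : St_FINL := thm_FINL all_U8 all_PR all_TR

open Pool.Agent.ARK in
theorem all_FINKP (Ts : List Pool.Agent.ALT.Tree) (hl : ∀ T ∈ Ts, ∀ w, T.Leaf w → AltT w)
    (D : List KSlice) (hD : kforget D = knp (Ts.map Pool.Agent.ALT.Tree.word))
    (hf : ∃ k : ℤ, kPoly D = LaurentPolynomial.T k ∨ kPoly D = -LaurentPolynomial.T k) :
    KIso 0 (kforget D) triv := thm_FINKP all_U8 all_PR all_TR Ts hl D hD hf

end Pool.GEN
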