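import Pool.Agent.LSG.All
import Pool.Agent.ALK.Gr2

/-!
# GEN: leaves which are not assumed to be prime. Definitions

`Wd`, `PIso`, `Dec`, `Fa`, `Ev`, `isl`, ... are from `LSG/Defs.lean`; all statements of `LSG/St.lean` are
proved (`Pool.LSG.all_X`, `Pool.LSG.thm_X` in `LSG/All.lean`) and can be used directly.
-/

set_option autoImplicit false

namespace Pool.GEN

open LaurentPolynomial Pool.Agent.ARB Pool.Agent.Helper2 Pool.ALT Pool.LSP Pool.LSG

/-! ### words without decorations -/

/-- a unit modulo `A ^ 4 + 1` -/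
def U8 (s : LP) : Prop := ∃ s' : LP, ((T 4 : LP) + 1) ∣ s * s' - 1

/-- the tangle of a word on four strands (ends of the tangle: lower left, lower right, upper right,
upper left = strands 0, 1, 2, 3) -/
def wV (V : Word) : Word := pU 2 :: pU 3 :: V

/-- rotation of a word on four strands: the first strand becomes the last -/
def rt (V : Word) : Word := pU 0 :: (Pool.Agent.ARB.sh 1 V ++ [pN 0])

/-- the bracket pair of `w` has a common factor which is not a unit modulo `A ^ 4 + 1` -/
def FacP (w : Word) : Prop := ∃ s g b : LP, ¬ U8 s ∧ HasPair w (s * g) (s * b)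

/-- `w` is isotopic to a combination of prime leaves, each with at most `n` crossings -/
def GoodT (n : ℕ) (w : Word) : Prop := ∃ T : Pool.Agent.ALT.Tree,
  (∀ w', T.Leaf w' → IsLeaf w' ∧ nX w' ≤ n) ∧ Iso 2 w T.word

/-- there is a closed component `J` -/
def SplW (e : Bool) (V : Word) : Prop := ∃ (u J v : Word) (n j : ℕ), Ok u 4 n ∧ j ≤ n ∧ Ok J 0 0 ∧
  J ≠ [] ∧ Ok v n 0 ∧ AltW e (u ++ (Pool.Agent.ARB.sh j J ++ v)) ∧
  Iso 4 V (u ++ (Pool.Agent.ARB.sh j J ++ v))

/-- there is a local factor `J` with at least one crossing -/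
def FacW (e : Bool) (V : Word) : Prop := ∃ (u J v : Word) (n j : ℕ), Ok u 4 n ∧ j + 1 ≤ n ∧ Ok J 1 1 ∧
  1 ≤ nX J ∧ Ok v n 0 ∧ AltW e (u ++ (Pool.Agent.ARB.sh j J ++ v)) ∧
  nX (u ++ (Pool.Agent.ARB.sh j J ++ v)) = nX V ∧ Iso 4 V (u ++ (Pool.Agent.ARB.sh j J ++ v))

/-- `V` is the sum of two tangles with crossings, next to each other -/
def SumW (e : Bool) (V : Word) : Prop := ∃ R L : Word, Ok R 2 2 ∧ Ok L 4 0 ∧ 1 ≤ nX R ∧ 1 ≤ nX L ∧
  AltW (!e) R ∧ AltW e L ∧ nX R + nX L = nX V ∧ Iso 4 V (Pool.Agent.ARB.sh 1 R ++ L)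

/-! ### graphs -/

/-- The vertex `x` separates the graph: `sd` is the side of a vertex different from `x`. -/
structure Sep {V E : Type} (g : Gr V E) (x : V) (sd : V → Bool) : Prop where
  ok : ∀ k, g.u k = x ∨ g.v k = x ∨ sd (g.u k) = sd (g.v k)
  two : ∀ β : Bool, ∃ k, (g.u k ≠ x ∧ sd (g.u k) = β) ∨ (g.v k ≠ x ∧ sd (g.v k) = β)

/-! ### decorated words -/

/-- islands in the gaps `h`, `h + 4`, ... -/
def isls {α : Type} : ℕ → List α → Wd α
  | _, [] => []
  | h, k :: ks => isl h k ++ isls (h + 4) ks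

/-- the colours above `isls h ks` -/
def iscs {κ : Type} : ℕ → List (Cr κ) → (ℕ → κ) → ℕ → κ
  | _, [], c => c
  | h, k :: ks, c => iscs (h + 4) ks (isc h k c)

/-- the left corner of the first crossing has the colour `x`, the right corner of each crossing has the
colour of the left corner of the next one, and the right corner of the last one has the colour `y` -/
def Chn {κ : Type} : κ → κ → List (Cr κ) → Prop
  | x, y, [] => x = y
  | x, y, k :: ks => k.l = x ∧ Chn k.r y ks

/-- the right corner of the last crossing (`x` if there is none) -/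
def lastr {κ : Type} : κ → List (Cr κ) → κ
  | x, [] => x
  | _, k :: ks => lastr k.r ks

/-- there is a closed component `J` -/
def SplD {κ : Type} (N : ℕ) (W : Wd (Cr κ)) : Prop := ∃ (u J v : Wd (Cr κ)) (n j : ℕ), Okd u N n ∧
  j ≤ n ∧ Okd J 0 0 ∧ J ≠ [] ∧ Okd v n 0 ∧ PIso N W (u ++ (shd j J ++ v))

/-- there is a local factor `J` with at least one crossing -/
def FacD {κ : Type} (N : ℕ) (W : Wd (Cr κ)) : Prop := ∃ (u J v : Wd (Cr κ)) (n j : ℕ), Okd u N n ∧
  j + 1 ≤ n ∧ Okd J 1 1 ∧ 1 ≤ nXd J ∧ Okd v n 0 ∧ PIso N W (u ++ (shd j J ++ v))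

/-- `W` is the sum of two tangles with crossings, next to each other -/
def SumD {κ : Type} (W : Wd (Cr κ)) : Prop := ∃ R L : Wd (Cr κ), Okd R 2 2 ∧ Okd L 4 0 ∧ 1 ≤ nXd R ∧
  1 ≤ nXd L ∧ PIso 4 W (shd 1 R ++ L)

/-- no crossing has equal opposite corners -/
def NoN {κ : Type} (W : Wd (Cr κ)) : Prop := ∀ (a : Cr κ) (e' : Bool) (y : κ), Lt a W → ¬ Ev e' a y y

/-- the crossing `a` lies on the side `β` of `x` -/
def Lab {κ : Type} (e : Bool) (x : κ) (sd : κ → Bool) (a : Cr κ) (β : Bool) : Prop :=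
  ∃ u v : κ, Ev e a u v ∧ u ≠ x ∧ sd u = β

/-- every crossing lies on one side of `x` -/
def SpD {κ : Type} (e : Bool) (W : Wd (Cr κ)) (x : κ) (sd : κ → Bool) : Prop :=
  ∀ (a : Cr κ) (u v : κ), Lt a W → Ev e a u v → u = x ∨ v = x ∨ sd u = sd v

/-- the region `z` of the other parity can be reached from `y` through crossings -/
def Rch {κ : Type} (e : Bool) (W : Wd (Cr κ)) : κ → κ → Prop :=
  Relation.ReflTransGen fun y z => ∃ a, Lt a W ∧ Ev (!e) a y z

/-- The word `W` on four strands is alternating with `e`, decorated by the colours of its regions, all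
regions have different colours, the left and the right region are different, the lower and the upper
region are different, no crossing has equal opposite corners, and all regions at crossings can be
reached from the boundary regions of the same parity. -/
structure Nice {κ : Type} (e : Bool) (pr : κ → Bool) (c : ℕ → κ) (W : Wd (Cr κ)) : Prop where
  dec : Dec e pr c 4 W
  fa : ∀ y, Fa y c 4 W
  ne02 : c 0 ≠ c 2
  ne13 : c 1 ≠ c 3
  non : NoN W
  rchO : ∀ (a : Cr κ) (u v : κ), Lt a W → Ev (!e) a u v → Rch e W (c 1) u ∧ Rch e W (c 3) u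
  rchE : ∀ (a : Cr κ) (u v : κ), Lt a W → Ev e a u v → Rch (!e) W (c 0) u ∧ Rch (!e) W (c 2) u

end Pool.GEN
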