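import Pool.Agent.GEN.St
import Pool.Agent.ALK.All

/-!
# GEN, module FINK: the theorem for knotoids
-/

set_option autoImplicit false

namespace Pool.GEN

open LaurentPolynomial Pool.Agent.ARB Pool.Agent.Helper2 Pool.ALT Pool.LSP Pool.LSG Pool.Agent.ARK

/-- A combination of alternating tangles for which the sum of the coefficients is a unit is isotopic
to one of the two tangles without crossings. -/
theorem thm_FK1 (hU8 : St_U8) (hPR : St_PR) (hTR : St_TR) : ∀ T : Pool.Agent.ALT.Tree,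
    (∀ w, T.Leaf w → AltT w) → ∀ g b : LP, HasPair T.word g b → IsU (g + b) →
    Iso 2 T.word [] ∨ Iso 2 T.word (rotW []) := by
  obtain ⟨u1, u2, _, _, _, _⟩ := hU8
  obtain ⟨_, _, p3, _, _, _, _⟩ := hPR
  intro T hl g b hgb hU
  obtain ⟨okT, ⟨T', hT', hiso⟩ | ⟨s, g', b', hs, hp⟩⟩ := hTR T hl
  · obtain ⟨A, a1, a2, a3⟩ := Pool.Agent.ALK.exAltG T' fun w hw =>
      Pool.Agent.ALK.thm_GrW w (hT' w hw).1
    rw [← a1] at hiso
    have okA : Pool.Agent.ARB.Ok A.word 2 2 := Pool.Agent.ALT.Alt.okA A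
    obtain ⟨u, _, hpT⟩ := p3 A.word T.word A.pair.1 A.pair.2 okA hiso.symm
      (Pool.Agent.ALT.Alt.run A)
    obtain ⟨e1, e2⟩ := Pool.Agent.ALK.pair_unique hgb hpT
    rw [e1, e2, ← mul_add] at hU
    have hU2 := Pool.Agent.ALT.isU_right hU
    obtain ⟨r, g1, g2⟩ := Pool.Agent.ALK.thm_GrA A a3
    have bad : ¬ Pool.Agent.ALT.Alt.Bad A := by
      rintro ⟨L, h2, R, hR, h3, h4⟩
      have h5 := (hT' L.word (a2 L h2)).1
      exact not_BadX L.word h5 (bad_cross L.word h5 (Pool.Agent.ALT.badLeaf_of hR h3 h4))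
    rcases Pool.Agent.ALK.gr_cases g1 g2 hU2 with ⟨h1, h2⟩ | ⟨h1, h2⟩
    · rcases Pool.Agent.ALK.alt_zero A h1 h2 with h | h
      · exact Or.inl (hiso.trans h)
      · exact absurd h bad
    · rcases Pool.Agent.ALK.alt_inf A h2 h1 with h | h
      · exact Or.inr (hiso.trans h)
      · exact absurd h bad
  · exfalso
    obtain ⟨e1, e2⟩ := Pool.Agent.ALK.pair_unique hgb hp
    rw [e1, e2, ← mul_add] at hU
    exact hs (u2 s _ (u1 _ hU)).1

theorem thm_FINK (hU8 : St_U8) (hPR : St_PR) (hTR : St_TR) : St_FINK := by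
  intro T hl D hD hf
  have hU : IsU (kbracket D) := by
    have h4 : IsU ((((-1 : LP)) ^ (kwrithe D).natAbs * LaurentPolynomial.T (-3 * kwrithe D)) *
        kbracket D) := hf
    exact Pool.Agent.ALT.isU_right h4
  have okT : Pool.Agent.ARB.Ok T.word 2 2 := (hTR T hl).1
  obtain ⟨g, b, hgb⟩ := hPR.1 T.word okT
  rw [Pool.Agent.ALK.thm_Kbr' D T.word _ _ okT hgb hD] at hU
  rw [hD]
  rcases thm_FK1 hU8 hPR hTR T hl g b hgb hU with h | h
  · exact (thm_Kis.1 _ _ okT h).trans thm_Kis.2.1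
  · exact (thm_Kis.1 _ _ okT h).trans thm_Kis.2.2

end Pool.GEN
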