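import Pool.Agent.ARK.KdS
import Pool.Agent.Helper2.TraceLemma

/-!
# GEN, knotoids: two-colourings count the circles of a knotoid diagram (helper24)

`sumB`: sum over the colours of the strands which have been cut off at endpoints (the reservoir).
-/

set_option autoImplicit false

namespace Pool.GEN

open Pool.Agent.ARB Pool.Agent.ARK Pool.Agent.Helper2

/-- the operator of a start of a strand -/
def kB (ψ : List Bool → ℤ) : List Bool → ℤ
  | _ :: l => ψ l
  | [] => 0

/-- the operator of an end of a strand -/
def kE (ψ : List Bool → ℤ) (l : List Bool) : ℤ := ψ (true :: l) + ψ (false :: l)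

theorem kB_lin : Lin2 kB := by
  intro φ₁ φ₂ c₁ c₂
  funext l
  rcases l with _ | ⟨a, l⟩ <;> simp [kB]

theorem kE_lin : Lin2 kE := by
  intro φ₁ φ₂ c₁ c₂
  funext l
  simp only [kE]
  ring

/-- the operator of a piece -/
def kop : KSlice → (List Bool → ℤ) → List Bool → ℤ
  | .cup i _ => lift eCup0 i
  | .cap i => lift eCap0 i
  | .cross i _ => lift eX0 i
  | .born i _ => lift kB i
  | .dies i => lift kE i

/-- the operator of a word -/
def krun (D : List KSlice) (ψ : List Bool → ℤ) : List Bool → ℤ := D.foldl (fun φ s => kop s φ) ψ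

theorem krun_append (D D' : List KSlice) (ψ : List Bool → ℤ) :
    krun (D ++ D') ψ = krun D' (krun D ψ) := List.foldl_append

/-! ### sums over colours -/

/-- sum over all lists of `k` colours -/
def sumB : ℕ → (List Bool → ℤ) → ℤ
  | 0, ψ => ψ []
  | k + 1, ψ => sumB k (fun y => ψ (true :: y)) + sumB k (fun y => ψ (false :: y))

theorem sumB_congr : ∀ (k : ℕ) (φ ψ : List Bool → ℤ), (∀ y, y.length = k → φ y = ψ y) →
    sumB k φ = sumB k ψ := by
  intro k
  induction k with
  | zero => intro φ ψ h; exact h [] rfl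
  | succ k ih =>
    intro φ ψ h
    unfold sumB
    rw [ih _ (fun y => ψ (true :: y)) fun y hy => h _ (by simp [hy]),
      ih _ (fun y => ψ (false :: y)) fun y hy => h _ (by simp [hy])]

theorem sumB_zero (k : ℕ) : sumB k (fun _ => 0) = 0 := by
  induction k with
  | zero => rfl
  | succ k ih =>
    unfold sumB
    rw [ih, add_zero]

theorem sumB_add (k : ℕ) : ∀ φ ψ : List Bool → ℤ,
    sumB k (fun y => φ y + ψ y) = sumB k φ + sumB k ψ := by
  induction k with
  | zero => intro φ ψ; rfl
  | succ k ih =>
    intro φ ψ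
    unfold sumB
    rw [ih, ih]
    ring

/-! ### traces with a reservoir -/

/-- the function of a trace, with a reservoir `res` of names of strands that have been cut off -/
noncomputable def kcnt (t : Trace) (res : List ℕ) (x : List Bool) : ℤ :=
  sumB res.length (fun y => cnt ⟨t.fresh, t.names ++ res, t.closed⟩ (x ++ y))

theorem kcnt_supp (t : Trace) (res : List ℕ) : ESupp t.names.length (kcnt t res) := by
  intro x hx
  by_contra hne
  apply hx
  unfold kcnt
  rw [sumB_congr _ _ (fun _ => 0), sumB_zero]
  intro y hy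
  by_contra h
  have h1 := cnt_length h
  simp only [List.length_append] at h1
  omega

/-- the invariant -/
def KGood (t : Trace) (res : List ℕ) : Prop := Good ⟨t.fresh, t.names ++ res, t.closed⟩

theorem kstep_cup (t : Trace) (res : List ℕ) (ht : KGood t res) (i : ℕ) (u : Bool)
    (hi : i ≤ t.names.length) : KGood (kstep t (.cup i u)) res ∧
      kop (.cup i u) (kcnt t res) = kcnt (kstep t (.cup i u)) res ∧
      (kstep t (.cup i u)).names.length = t.names.length + 2 := by
  obtain ⟨f, l, c⟩ := t
  simp only at hi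
  have h1 := step_cup ⟨f, l ++ res, c⟩ ht i u (by simp; omega)
  have e1 : Trace.step ⟨f, l ++ res, c⟩ (.cup i u) =
      ⟨f + 1, (l.take i ++ f :: f :: l.drop i) ++ res, c⟩ := by
    simp [Trace.step, List.take_append_of_le_length hi, List.drop_append_of_le_length hi]
  have e2 : kstep ⟨f, l, c⟩ (.cup i u) = ⟨f + 1, l.take i ++ f :: f :: l.drop i, c⟩ := rfl
  rw [e1] at h1
  rw [e2]
  have hlen : (l.take i ++ f :: f :: l.drop i).length = l.length + 2 := by
    simp
    omega
  refine ⟨h1.1, ?_, hlen⟩
  have hs1 : ESupp (l.length + 2) (kop (.cup i u) (kcnt ⟨f, l, c⟩ res)) :=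
    eCup_supp l.length i _ hi (kcnt_supp ⟨f, l, c⟩ res)
  have hs2 := kcnt_supp ⟨f + 1, l.take i ++ f :: f :: l.drop i, c⟩ res
  rw [show (Trace.names ⟨f + 1, l.take i ++ f :: f :: l.drop i, c⟩).length = l.length + 2 from
    hlen] at hs2
  refine ESupp.ext hs1 hs2 fun x hx => ?_
  obtain ⟨p, r, rfl, hp⟩ := split_list x i (by omega)
  subst hp
  simp only [List.length_append] at hx
  rcases r with _ | ⟨a, _ | ⟨b, r⟩⟩
  · simp at hx; omega
  · simp at hx; omega
  show lift eCup0 p.length (kcnt ⟨f, l, c⟩ res) (p ++ a :: b :: r) = _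
  rw [lift_append]
  unfold kcnt
  rw [← h1.2.1]
  have e3 : ∀ y : List Bool, lift eCup0 p.length (cnt ⟨f, l ++ res, c⟩) ((p ++ a :: b :: r) ++ y) =
      if a = b then cnt ⟨f, l ++ res, c⟩ ((p ++ r) ++ y) else 0 := by
    intro y
    rw [List.append_assoc, List.cons_append, List.cons_append, lift_append]
    simp only [eCup0]
    rw [List.append_assoc]
  simp only [e3]
  simp only [eCup0]
  by_cases hab : a = b
  · simp only [if_pos hab]
  · simp only [if_neg hab]
    rw [sumB_zero]

theorem kstep_cap (t : Trace) (res : List ℕ) (ht : KGood t res) (i : ℕ)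
    (hi : i + 2 ≤ t.names.length) : ∃ res' : List ℕ, res'.length = res.length ∧
      KGood (kstep t (.cap i)) res' ∧ kop (.cap i) (kcnt t res) = kcnt (kstep t (.cap i)) res' ∧
      (kstep t (.cap i)).names.length + 2 = t.names.length := by
  obtain ⟨f, l, c⟩ := t
  simp only at hi
  have h1 := step_cap ⟨f, l ++ res, c⟩ ht i (by simp; omega)
  have hlen0 : (l.drop i).length = l.length - i := List.length_drop
  rcases hd : l.drop i with _ | ⟨a, _ | ⟨b, r⟩⟩
  · rw [hd] at hlen0; simp at hlen0; omega
  · rw [hd] at hlen0; simp at hlen0; omega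
  rw [hd] at hlen0
  simp only [List.length_cons] at hlen0
  have hil : i ≤ l.length := by omega
  have hd' : (l ++ res).drop i = a :: b :: (r ++ res) := by
    rw [List.drop_append_of_le_length hil, hd]
    rfl
  have ht' : (l ++ res).take i = l.take i := List.take_append_of_le_length hil
  obtain ⟨l', res', c', e1, e2, hl', hr'⟩ : ∃ (l' res' : List ℕ) (c' : ℕ),
      Trace.step ⟨f, l ++ res, c⟩ (.cap i) = ⟨f, l' ++ res', c'⟩ ∧
      kstep ⟨f, l, c⟩ (.cap i) = ⟨f, l', c'⟩ ∧ l'.length + 2 = l.length ∧
      res'.length = res.length := by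
    by_cases hab : a = b
    · refine ⟨l.take i ++ r, res, c + 1, ?_, ?_, by simp; omega, rfl⟩
      · simp only [Trace.step, hd', ht']
        rw [if_pos hab, List.append_assoc]
      · show Trace.step ⟨f, l, c⟩ (.cap i) = _
        simp only [Trace.step, hd]
        rw [if_pos hab]
    · refine ⟨(l.take i ++ r).map (fun x => if x = b then a else x),
        res.map (fun x => if x = b then a else x), c, ?_, ?_, by simp; omega, by simp⟩
      · simp only [Trace.step, hd', ht']
        rw [if_neg hab, ← List.append_assoc, List.map_append]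
      · show Trace.step ⟨f, l, c⟩ (.cap i) = _
        simp only [Trace.step, hd]
        rw [if_neg hab]
  rw [e1] at h1
  rw [e2]
  refine ⟨res', hr', h1.1, ?_, hl'⟩
  have hs1 : ESupp l'.length (kop (.cap i) (kcnt ⟨f, l, c⟩ res)) := by
    refine eCap_supp l'.length i _ (by omega) ?_
    have h := kcnt_supp ⟨f, l, c⟩ res
    rw [show (Trace.names ⟨f, l, c⟩).length = l'.length + 2 from hl'.symm] at h
    exact h
  refine ESupp.ext hs1 (kcnt_supp ⟨f, l', c'⟩ res') fun x hx => ?_
  obtain ⟨p, q, rfl, hp⟩ := split_list x i (by omega)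
  subst hp
  show lift eCap0 p.length (kcnt ⟨f, l, c⟩ res) (p ++ q) = _
  rw [lift_append]
  unfold kcnt
  rw [← h1.2.1, hr']
  have e3 : ∀ y : List Bool, lift eCap0 p.length (cnt ⟨f, l ++ res, c⟩) ((p ++ q) ++ y) =
      cnt ⟨f, l ++ res, c⟩ ((p ++ true :: true :: q) ++ y) +
        cnt ⟨f, l ++ res, c⟩ ((p ++ false :: false :: q) ++ y) := by
    intro y
    rw [List.append_assoc, lift_append]
    simp only [eCap0, List.append_assoc, List.cons_append]
  simp only [e3]
  rw [sumB_add]
  rfl

theorem kstep_cross (t : Trace) (res : List ℕ) (ht : KGood t res) (i : ℕ) (s : Bool)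
    (hi : i + 2 ≤ t.names.length) : KGood (kstep t (.cross i s)) res ∧
      kop (.cross i s) (kcnt t res) = kcnt (kstep t (.cross i s)) res ∧
      (kstep t (.cross i s)).names.length = t.names.length := by
  obtain ⟨f, l, c⟩ := t
  simp only at hi
  have h1 := step_cross ⟨f, l ++ res, c⟩ ht i s (by simp; omega)
  have hlen0 : (l.drop i).length = l.length - i := List.length_drop
  rcases hd : l.drop i with _ | ⟨a, _ | ⟨b, r⟩⟩
  · rw [hd] at hlen0; simp at hlen0; omega
  · rw [hd] at hlen0; simp at hlen0; omega
  rw [hd] at hlen0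
  simp only [List.length_cons] at hlen0
  have hil : i ≤ l.length := by omega
  have hd' : (l ++ res).drop i = a :: b :: (r ++ res) := by
    rw [List.drop_append_of_le_length hil, hd]
    rfl
  have ht' : (l ++ res).take i = l.take i := List.take_append_of_le_length hil
  have e1 : Trace.step ⟨f, l ++ res, c⟩ (.cross i s) =
      ⟨f, (l.take i ++ b :: a :: r) ++ res, c⟩ := by
    simp only [Trace.step, hd', ht']
    simp only [List.append_assoc, List.cons_append]
  have e2 : kstep ⟨f, l, c⟩ (.cross i s) = ⟨f, l.take i ++ b :: a :: r, c⟩ := by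
    show Trace.step ⟨f, l, c⟩ (.cross i s) = _
    simp only [Trace.step, hd]
  rw [e1] at h1
  rw [e2]
  have hlen : (l.take i ++ b :: a :: r).length = l.length := by
    simp
    omega
  refine ⟨h1.1, ?_, hlen⟩
  have hs2 := kcnt_supp ⟨f, l.take i ++ b :: a :: r, c⟩ res
  rw [show (Trace.names ⟨f, l.take i ++ b :: a :: r, c⟩).length = l.length from hlen] at hs2
  have hs0 := kcnt_supp ⟨f, l, c⟩ res
  funext x
  by_cases hx : x.length = l.length
  · obtain ⟨p, q, rfl, hp⟩ := split_list x i (by omega)
    subst hp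
    simp only [List.length_append] at hx
    rcases q with _ | ⟨v, _ | ⟨w, q⟩⟩
    · simp at hx; omega
    · simp at hx; omega
    show lift eX0 p.length (kcnt ⟨f, l, c⟩ res) (p ++ v :: w :: q) = _
    rw [lift_append]
    unfold kcnt
    rw [← h1.2.1]
    have e3 : ∀ y : List Bool, lift eX0 p.length (cnt ⟨f, l ++ res, c⟩)
        ((p ++ v :: w :: q) ++ y) = cnt ⟨f, l ++ res, c⟩ ((p ++ w :: v :: q) ++ y) := by
      intro y
      rw [List.append_assoc, List.cons_append, List.cons_append, lift_append]
      simp only [eX0, List.append_assoc, List.cons_append]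
    simp only [e3]
    rfl
  · have r1 : kcnt ⟨f, l.take i ++ b :: a :: r, c⟩ res x = 0 := by
      by_contra h
      exact hx (hs2 x h)
    rw [r1]
    show lift eX0 i (kcnt ⟨f, l, c⟩ res) x = 0
    by_cases hxi : x.length < i
    · exact lift_short _ _ _ _ hxi
    · obtain ⟨p, q, rfl, hp⟩ := split_list x i (by omega)
      subst hp
      rw [lift_append]
      rcases q with _ | ⟨v, _ | ⟨w, q⟩⟩
      · rfl
      · rfl
      · simp only [eX0]
        by_contra h
        apply hx
        have h2 := hs0 _ h
        simp only [List.length_append, List.length_cons] at h2 ⊢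
        exact h2

open Classical in
theorem cnt_move (f c a : ℕ) (P Q R : List ℕ) (v : Bool) (P' Q' R' : List Bool)
    (hP : P.length = P'.length) (hQ : Q.length = Q'.length) :
    cnt ⟨f, (P ++ Q) ++ a :: R, c⟩ ((P' ++ Q') ++ v :: R') =
      cnt ⟨f, (P ++ a :: Q) ++ R, c⟩ ((P' ++ v :: Q') ++ R') := by
  have key : (∃ φ : ℕ → Bool, ((P ++ Q) ++ a :: R).map φ = (P' ++ Q') ++ v :: R') ↔
      ∃ φ : ℕ → Bool, ((P ++ a :: Q) ++ R).map φ = (P' ++ v :: Q') ++ R' := by
    constructor
    · rintro ⟨φ, h⟩
      refine ⟨φ, ?_⟩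
      rw [map_append_iff _ _ _ _ _ (by simp [hP, hQ]), map_append_iff _ _ _ _ _ hP] at h
      simp only [List.map_cons, List.cons.injEq] at h
      obtain ⟨⟨h1, h2⟩, h3, h4⟩ := h
      rw [map_append_iff _ _ _ _ _ (by simp [hP, hQ]), map_append_iff _ _ _ _ _ hP]
      simp only [List.map_cons, List.cons.injEq]
      exact ⟨⟨h1, h3, h2⟩, h4⟩
    · rintro ⟨φ, h⟩
      refine ⟨φ, ?_⟩
      rw [map_append_iff _ _ _ _ _ (by simp [hP, hQ]), map_append_iff _ _ _ _ _ hP] at h
      simp only [List.map_cons, List.cons.injEq] at h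
      obtain ⟨⟨h1, h3, h2⟩, h4⟩ := h
      rw [map_append_iff _ _ _ _ _ (by simp [hP, hQ]), map_append_iff _ _ _ _ _ hP]
      simp only [List.map_cons, List.cons.injEq]
      exact ⟨⟨h1, h2⟩, h3, h4⟩
  rw [cnt_of_iff key, cnt_of_iff Iff.rfl]

theorem good_perm {f c : ℕ} {l l' : List ℕ} (h : l.Perm l') (hg : Good ⟨f, l, c⟩) :
    Good ⟨f, l', c⟩ := by
  obtain ⟨h1, h2⟩ := hg
  refine ⟨fun a ha => h1 a (h.mem_iff.2 ha), fun a ha => ?_⟩
  have h3 := h2 a (h.mem_iff.2 ha)
  simp only at h3 ⊢
  rw [← h.count_eq]
  exact h3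

theorem kstep_dies (t : Trace) (res : List ℕ) (ht : KGood t res) (i : ℕ)
    (hi : i + 1 ≤ t.names.length) : ∃ a : ℕ, KGood (kstep t (.dies i)) (a :: res) ∧
      kop (.dies i) (kcnt t res) = kcnt (kstep t (.dies i)) (a :: res) ∧
      (kstep t (.dies i)).names.length + 1 = t.names.length := by
  obtain ⟨f, l, c⟩ := t
  simp only at hi
  obtain ⟨p, q, rfl, hp⟩ := split_list l i (by omega)
  subst hp
  rcases q with _ | ⟨a, q⟩
  · simp at hi
  have e2 : kstep ⟨f, p ++ a :: q, c⟩ (.dies p.length) = ⟨f, p ++ q, c⟩ := by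
    show (⟨f, (p ++ a :: q).take p.length ++ (p ++ a :: q).drop (p.length + 1), c⟩ : Trace) = _
    simp [List.drop_append]
  rw [e2]
  have hlen : (p ++ q).length + 1 = (p ++ a :: q).length := by
    simp
    omega
  refine ⟨a, ?_, ?_, hlen⟩
  · refine good_perm ?_ ht
    show (p ++ a :: q ++ res).Perm (p ++ q ++ a :: res)
    rw [List.append_assoc, List.append_assoc]
    exact (List.perm_middle (l₁ := q) (l₂ := res)).symm.append_left p
  · have hs0 := kcnt_supp ⟨f, p ++ a :: q, c⟩ res
    have hs2 := kcnt_supp ⟨f, p ++ q, c⟩ (a :: res)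
    funext x
    by_cases hx : x.length = (p ++ q).length
    · obtain ⟨p', q', rfl, hp'⟩ := split_list x p.length (by rw [hx]; simp)
      show lift kE p.length (kcnt ⟨f, p ++ a :: q, c⟩ res) (p' ++ q') = _
      rw [← hp', lift_append]
      have hq' : q.length = q'.length := by
        simp only [List.length_append] at hx
        omega
      show kcnt ⟨f, p ++ a :: q, c⟩ res (p' ++ true :: q') +
        kcnt ⟨f, p ++ a :: q, c⟩ res (p' ++ false :: q') =
        sumB (res.length + 1) (fun y => cnt ⟨f, (p ++ q) ++ a :: res, c⟩ ((p' ++ q') ++ y))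
      unfold sumB
      unfold kcnt
      congr 1
      · refine sumB_congr _ _ _ fun y _ => ?_
        exact (cnt_move f c a p q res true p' q' y hp'.symm hq').symm
      · refine sumB_congr _ _ _ fun y _ => ?_
        exact (cnt_move f c a p q res false p' q' y hp'.symm hq').symm
    · have r1 : kcnt ⟨f, p ++ q, c⟩ (a :: res) x = 0 := by
        by_contra h
        exact hx (hs2 x h)
      rw [r1]
      show lift kE p.length (kcnt ⟨f, p ++ a :: q, c⟩ res) x = 0
      by_cases hxi : x.length < p.length
      · exact lift_short _ _ _ _ hxi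
      · obtain ⟨p', q', rfl, hp'⟩ := split_list x p.length (by omega)
        rw [← hp', lift_append]
        have r2 : ∀ v : Bool, kcnt ⟨f, p ++ a :: q, c⟩ res (p' ++ v :: q') = 0 := by
          intro v
          by_contra h
          apply hx
          have h2 := hs0 _ h
          simp only [List.length_append, List.length_cons] at h2 ⊢
          omega
        show kcnt ⟨f, p ++ a :: q, c⟩ res (p' ++ true :: q') +
          kcnt ⟨f, p ++ a :: q, c⟩ res (p' ++ false :: q') = 0
        rw [r2, r2, add_zero]

theorem kstep_born (t : Trace) (res : List ℕ) (ht : KGood t res) (i : ℕ) (u : Bool)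
    (hi : i ≤ t.names.length) : ∃ a : ℕ, KGood (kstep t (.born i u)) (a :: res) ∧
      kop (.born i u) (kcnt t res) = kcnt (kstep t (.born i u)) (a :: res) ∧
      (kstep t (.born i u)).names.length = t.names.length + 1 := by
  obtain ⟨f, l, c⟩ := t
  simp only at hi
  obtain ⟨p, q, rfl, hp⟩ := split_list l i (by omega)
  subst hp
  have h1 := step_cup ⟨f, (p ++ q) ++ res, c⟩ ht p.length u (by simp)
  have e1 : Trace.step ⟨f, (p ++ q) ++ res, c⟩ (.cup p.length u) =
      ⟨f + 1, (p ++ f :: f :: q) ++ res, c⟩ := by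
    simp [Trace.step]
  have e2 : kstep ⟨f, p ++ q, c⟩ (.born p.length u) = ⟨f + 1, p ++ f :: q, c⟩ := by
    show (⟨f + 1, (p ++ q).take p.length ++ f :: (p ++ q).drop p.length, c⟩ : Trace) = _
    simp
  rw [e1] at h1
  rw [e2]
  have hlen : (p ++ f :: q).length = (p ++ q).length + 1 := by
    simp
    omega
  refine ⟨f, ?_, ?_, hlen⟩
  · refine good_perm ?_ h1.1
    show (p ++ f :: f :: q ++ res).Perm (p ++ f :: q ++ f :: res)
    have e3 : p ++ f :: f :: q ++ res = p ++ (f :: (f :: q ++ res)) := by simp
    have e4 : p ++ f :: q ++ f :: res = p ++ ((f :: q) ++ f :: res) := by simp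
    rw [e3, e4]
    exact (List.perm_middle (l₁ := f :: q) (l₂ := res)).symm.append_left p
  · have hs0 := kcnt_supp ⟨f, p ++ q, c⟩ res
    have hs2 := kcnt_supp ⟨f + 1, p ++ f :: q, c⟩ (f :: res)
    funext x
    by_cases hx : x.length = (p ++ f :: q).length
    · obtain ⟨p', q', rfl, hp'⟩ := split_list x p.length (by rw [hx]; simp)
      rcases q' with _ | ⟨w, q'⟩
      · simp only [List.length_append, List.length_cons, List.length_nil] at hx
        omega
      show lift kB p.length (kcnt ⟨f, p ++ q, c⟩ res) (p' ++ w :: q') = _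
      rw [← hp', lift_append]
      have hq' : q.length = q'.length := by
        simp only [List.length_append, List.length_cons] at hx
        omega
      show kcnt ⟨f, p ++ q, c⟩ res (p' ++ q') =
        sumB (res.length + 1) (fun y => cnt ⟨f + 1, (p ++ f :: q) ++ f :: res, c⟩
          ((p' ++ w :: q') ++ y))
      have key : ∀ (v : Bool) (y : List Bool),
          cnt ⟨f + 1, (p ++ f :: q) ++ f :: res, c⟩ ((p' ++ w :: q') ++ v :: y) =
          if v = w then cnt ⟨f, (p ++ q) ++ res, c⟩ ((p' ++ q') ++ y) else 0 := by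
        intro v y
        have e7 : (f :: q).length = (w :: q').length := by
          rw [List.length_cons, List.length_cons, hq']
        have e5 := cnt_move (f + 1) c f p (f :: q) res v p' (w :: q') y hp'.symm e7
        rw [e5, ← h1.2.1]
        have e6 : (p' ++ v :: w :: q') ++ y = p' ++ (v :: w :: (q' ++ y)) := by simp
        rw [e6, ← hp', lift_append]
        simp only [eCup0, List.append_assoc]
      unfold sumB
      simp only [key]
      unfold kcnt
      cases w
      · simp only [reduceCtorEq, if_false, if_true]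
        rw [sumB_zero, zero_add]
      · simp only [reduceCtorEq, if_false, if_true]
        rw [sumB_zero, add_zero]
    · have r1 : kcnt ⟨f + 1, p ++ f :: q, c⟩ (f :: res) x = 0 := by
        by_contra h
        exact hx (hs2 x h)
      rw [r1]
      show lift kB p.length (kcnt ⟨f, p ++ q, c⟩ res) x = 0
      by_cases hxi : x.length < p.length
      · exact lift_short _ _ _ _ hxi
      · obtain ⟨p', q', rfl, hp'⟩ := split_list x p.length (by omega)
        rw [← hp', lift_append]
        rcases q' with _ | ⟨w, q'⟩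
        · rfl
        · show kcnt ⟨f, p ++ q, c⟩ res (p' ++ q') = 0
          by_contra h
          apply hx
          have h2 := hs0 _ h
          simp only [List.length_append, List.length_cons] at h2 ⊢
          omega

/-- number of endpoints -/
def nEnd (D : List KSlice) : ℕ := D.countP KSlice.isEnd

theorem krun_cnt (D : List KSlice) : ∀ (t : Trace) (res : List ℕ) (m : ℕ), KGood t res →
    KOk (kforget D) t.names.length m → ∃ res' : List ℕ, res'.length = res.length + nEnd D ∧
      KGood (D.foldl kstep t) res' ∧ krun D (kcnt t res) = kcnt (D.foldl kstep t) res' ∧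
      (D.foldl kstep t).names.length = m := by
  induction D with
  | nil =>
    intro t res m ht h
    exact ⟨res, rfl, ht, rfl, h⟩
  | cons s D ih =>
    intro t res m ht h
    obtain ⟨h1, h2⟩ := h
    cases s with
    | cup i u =>
      obtain ⟨g1, g2, g3⟩ := kstep_cup t res ht i u h1
      obtain ⟨res', k1, k2, k3, k4⟩ := ih _ res m g1 (by rw [g3]; exact h2)
      rw [← g2] at k3
      exact ⟨res', k1, k2, k3, k4⟩
    | cap i =>
      obtain ⟨r1, g0, g1, g2, g3⟩ := kstep_cap t res ht i h1
      have e : (kstep t (.cap i)).names.length = t.names.length - 2 := by omega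
      obtain ⟨res', k1, k2, k3, k4⟩ := ih _ r1 m g1 (by rw [e]; exact h2)
      rw [← g2] at k3
      rw [g0] at k1
      exact ⟨res', k1, k2, k3, k4⟩
    | cross i p =>
      have h1' : i + 2 ≤ t.names.length := h1
      obtain ⟨g1, g2, g3⟩ := kstep_cross t res ht i p h1'
      have e : t.names.length - 2 + 2 = t.names.length := by omega
      obtain ⟨res', k1, k2, k3, k4⟩ := ih _ res m g1 (by
        rw [g3]
        have h3 : KOk (kforget D) (t.names.length - 2 + 2) m := h2
        rw [e] at h3
        exact h3)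
      rw [← g2] at k3
      exact ⟨res', k1, k2, k3, k4⟩
    | born i u =>
      obtain ⟨a, g1, g2, g3⟩ := kstep_born t res ht i u h1
      obtain ⟨res', k1, k2, k3, k4⟩ := ih _ (a :: res) m g1 (by rw [g3]; exact h2)
      rw [← g2] at k3
      refine ⟨res', ?_, k2, k3, k4⟩
      rw [k1]
      show (a :: res).length + nEnd D = res.length + nEnd (.born i u :: D)
      unfold nEnd
      rw [List.countP_cons_of_pos (by rfl), List.length_cons]
      omega
    | dies i =>
      obtain ⟨a, g1, g2, g3⟩ := kstep_dies t res ht i h1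
      have e : (kstep t (.dies i)).names.length = t.names.length - 1 := by omega
      obtain ⟨res', k1, k2, k3, k4⟩ := ih _ (a :: res) m g1 (by rw [e]; exact h2)
      rw [← g2] at k3
      refine ⟨res', ?_, k2, k3, k4⟩
      rw [k1]
      show (a :: res).length + nEnd D = res.length + nEnd (.dies i :: D)
      unfold nEnd
      rw [List.countP_cons_of_pos (by rfl), List.length_cons]
      omega

/-- the vacuum -/
def kinit : List Bool → ℤ := fun l => if l.length = 0 then 1 else 0

/-- [KS] The number of two-colourings of a diagram with two endpoints is `2 ^ (circles + 1)`. -/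
theorem thm_KS (D : List KSlice) (h : KOk (kforget D) 0 0) (h2 : nEnd D = 2) :
    krun D kinit [] = 2 ^ circles D * 2 := by
  have h0 : kcnt ⟨0, [], 0⟩ [] = kinit := by
    funext l
    show cnt ⟨0, [] ++ [], 0⟩ (l ++ []) = kinit l
    unfold cnt kinit
    rw [List.append_nil]
    cases l <;> simp
  obtain ⟨res, k1, k2, k3, k4⟩ := krun_cnt D ⟨0, [], 0⟩ [] 0 ⟨by simp, by simp⟩ h
  rw [h2, List.length_nil, Nat.zero_add] at k1
  have hn : (D.foldl kstep ⟨0, [], 0⟩).names = [] := List.eq_nil_of_length_eq_zero k4
  rw [← h0, k3]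
  unfold kcnt
  unfold KGood at k2
  rw [hn] at k2 ⊢
  rcases res with _ | ⟨a, _ | ⟨b, _ | ⟨x, r⟩⟩⟩
  · simp at k1
  · simp at k1
  · have hab : a = b := by
      by_contra hne
      have h3 := k2.2 a (by simp)
      have h4 : ¬ b = a := fun h => hne h.symm
      simp [h4] at h3
    subst hab
    have hc : ∀ v w : Bool, cnt ⟨(D.foldl kstep ⟨0, [], 0⟩).fresh, [] ++ [a, a],
        (D.foldl kstep ⟨0, [], 0⟩).closed⟩ [v, w] = if v = w then 2 ^ circles D else 0 := by
      intro v w
      have key : (∃ φ : ℕ → Bool, ([] ++ [a, a] : List ℕ).map φ = [v, w]) ↔ v = w := by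
        constructor
        · rintro ⟨φ, hφ⟩
          simp only [List.nil_append, List.map_cons, List.map_nil, List.cons.injEq,
            and_true] at hφ
          rw [← hφ.1, ← hφ.2]
        · rintro rfl
          exact ⟨fun _ => v, by simp⟩
      rw [cnt_of_iff key]
      by_cases hvw : v = w
      · rw [if_pos hvw, if_pos hvw]
        rfl
      · rw [if_neg hvw, if_neg hvw]
    show sumB 2 (fun y => cnt ⟨_, [] ++ [a, a], _⟩ ([] ++ y)) = _
    simp only [sumB, List.nil_append] at hc ⊢
    rw [hc, hc, hc, hc]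
    simp
    ring
  · simp at k1

end Pool.GEN
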