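import Pool.Agent.ARK.KdDef

/-!
# Products of knotoids of tangles

`kn w` (`ARK/Kd.lean`) is the knotoid of a tangle `w` with four ends: two opposite ends of `w` are
joined by an arc which runs around the upper right end; the lower left end is the tail, the upper
right end is the head. In the product the tail of the next knotoid is attached to the head.
-/

set_option autoImplicit false

namespace Pool.GEN

open Pool.Agent.ARB Pool.Agent.ARK

/-- put `j` strands to the left of a word -/
def shK (j : ℕ) (w : KWord) : KWord := w.map fun s => ⟨s.k, s.i + j⟩

/-- A word on one strand without strands above it: the strand enters the first tangle from the lower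
left, the upper right end of the tangle enters the next tangle in the same way, and so on; the
strand ends after the last tangle. The other two ends of each tangle are joined by an arc which runs
around everything that follows. -/
def kp : List Word → KWord
  | [] => [⟨.E, 0⟩]
  | w :: ws => ⟨.U, 1⟩ :: (emb w ++ (shK 1 (kp ws) ++ [⟨.N, 0⟩]))

/-- The product of the knotoids `kn w` of the tangles `w` of a list; `knp [w] = kn w`. -/
def knp (ws : List Word) : KWord := ⟨.B, 0⟩ :: kp ws

theorem knp_single (w : Word) : knp [w] = kn w := rfl

theorem knp_nil : knp [] = triv := rfl

end Pool.GEN
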