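import Pool.Agent.GEN.St

/-!
# GEN / RUN: a block of a chain of crossings between two places with the colour `x`
-/

set_option autoImplicit false

namespace Pool.GEN

open Pool.LSG

private theorem run_A {κ : Type} (x : κ) (sd : κ → Bool) (β : Bool) (y0 : κ)
    (hy : y0 = x ∨ sd y0 ≠ β) : ∀ (ks : List (Cr κ)) (x0 : κ), Chn x0 y0 ks →
    (∀ k ∈ ks, k.l = x ∨ k.r = x ∨ sd k.l = sd k.r) → x0 ≠ x → sd x0 = β →
    ∃ ks2 ks3, ks = ks2 ++ ks3 ∧ lastr x0 ks2 = x := by
  intro ks
  induction ks with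
  | nil =>
    intro x0 h _ h1 h2
    have h3 : x0 = y0 := h
    rw [← h3] at hy
    rcases hy with hy | hy
    · exact absurd hy h1
    · exact absurd h2 hy
  | cons k ks ih =>
    intro x0 h hs h1 h2
    obtain ⟨h3, h4⟩ : k.l = x0 ∧ Chn k.r y0 ks := h
    by_cases hr : k.r = x
    · exact ⟨[k], ks, rfl, hr⟩
    · have h5 : sd k.l = sd k.r := by
        rcases hs k (List.mem_cons_self ..) with h | h | h
        · exact absurd (h3.symm.trans h) h1
        · exact absurd h hr
        · exact h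
      obtain ⟨ks2, ks3, h6, h7⟩ := ih k.r h4 (fun k' hk' => hs k' (List.mem_cons_of_mem _ hk')) hr
        (by rw [← h5, h3]; exact h2)
      exact ⟨k :: ks2, ks3, by rw [h6]; rfl, h7⟩

/-- [RUN] -/
theorem thm_RUN : St_RUN := by
  intro κ x sd β x0 y0 ks
  induction ks generalizing x0 with
  | nil =>
    intro _ _ _ _ _ h
    obtain ⟨k, hk, -⟩ := h
    simp at hk
  | cons k ks ih =>
    intro h hs hne hx hy hex
    obtain ⟨h3, h4⟩ : k.l = x0 ∧ Chn k.r y0 ks := h
    have hs' : ∀ k' ∈ ks, k'.l = x ∨ k'.r = x ∨ sd k'.l = sd k'.r :=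
      fun k' hk' => hs k' (List.mem_cons_of_mem _ hk')
    by_cases hr : k.r ≠ x ∧ sd k.r = β
    · obtain ⟨hr1, hr2⟩ := hr
      have h5 : x0 = x := by
        rcases hs k (List.mem_cons_self ..) with h | h | h
        · exact h3.symm.trans h
        · exact absurd h hr1
        · rcases hx with hx | hx
          · exact hx
          · exact absurd (by rw [← h3, h]; exact hr2) hx
      obtain ⟨ks2, ks3, h6, h7⟩ := run_A x sd β y0 hy ks k.r h4 hs' hr1 hr2
      exact ⟨[], k :: ks2, ks3, by rw [h6]; rfl, by simp, h5, h7⟩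
    · have hro : k.r = x ∨ sd k.r ≠ β := by
        by_cases h : k.r = x
        · exact Or.inl h
        · exact Or.inr fun h' => hr ⟨h, h'⟩
      have hex' : ∃ k ∈ ks, (k.l ≠ x ∧ sd k.l = β) ∨ (k.r ≠ x ∧ sd k.r = β) := by
        obtain ⟨k', hk', h6⟩ := hex
        rcases List.mem_cons.1 hk' with h7 | h7
        · exfalso
          rw [h7] at h6
          rcases h6 with ⟨h8, h9⟩ | ⟨h8, h9⟩
          · rw [h3] at h8 h9
            rcases hx with hx | hx
            · exact h8 hx
            · exact hx h9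
          · exact hr ⟨h8, h9⟩
        · exact ⟨k', h7, h6⟩
      obtain ⟨ks1, ks2, ks3, h6, h7, h8, h9⟩ := ih k.r h4 hs'
        (fun k' hk' => hne k' (List.mem_cons_of_mem _ hk')) hro hy hex'
      exact ⟨k :: ks1, ks2, ks3, by rw [h6]; rfl, h7, h8, h9⟩

end Pool.GEN
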