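import Pool.Agent.GEN.Defs

/-!
# GEN: statements with proofs in the docstrings

A module `M` proves `theorem thm_M : St_M` (in `Pool/Agent/GEN/M.lean`, namespace `Pool.GEN`) from the
statements named in its offer as hypotheses. Everything in `LSG/St.lean` is proved and available as
`Pool.LSG.thm_VaI`, `thm_VaC`, `thm_Rel`, `all_RelI`, `all_RC`, `all_SL`, `all_Fa`, `all_Isl`, `all_TL`, `all_T1`, `thm_Is`,
`thm_Mp`, `thm_Fl`, `thm_SC`, `all_Rot`, ... (`LSG/All.lean`); `Pool.LSG.T1.claim`, `Pool.LSG.T1.FB`, `T1.lone`, `T1.Co`,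
`T1.R4` are in `LSG/T1.lean`. `~` is planar isotopy or isotopy. Private lemmas of LSG may be copied.
-/

set_option autoImplicit false

namespace Pool.GEN

open LaurentPolynomial Pool.Agent.ARB Pool.Agent.Helper2 Pool.ALT Pool.LSP Pool.LSG

/-! ### algebra (modules U8, SC8, NX8, AK8, K28, SCA, PR, FLT) -/

/-- [U8] PROOF. (2) `s * t * s' - 1`: take `t * s'`. (3) `loopVal = -(T 2 + T (-2)) = -T (-2) * (T 4 + 1)` is `0` modulo
`T 4 + 1`, so `T 4 + 1` would divide `1`: put `T 1 = 1` and reduce modulo 2 (`LP → ℤ → ZMod 2`). (4) `n = 0`: the same. A prime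
`p` dividing `n`: then `T 4 + 1` divides `1` in `(ZMod p)[T, T⁻¹]`, so `X ^ 4 + 1` divides `X ^ m` in `(ZMod p)[X]`; but it is
coprime to `X` and of degree 4. (5) `f = s * x`, so `T 4 + 1` divides `s * x - 1`. (6) clear. -/
def St_U8 : Prop := (∀ s : LP, Un s → U8 s) ∧ (∀ s t : LP, U8 (s * t) → U8 s ∧ U8 t) ∧
  (∀ x : LP, ¬ U8 (loopVal * x)) ∧ (∀ n : ℤ, U8 (n : LP) → n = 1 ∨ n = -1) ∧
  (∀ f s x : LP, ((T 4 : LP) + 1) ^ 3 ∣ f - 1 → f = s * x → U8 s) ∧
  ∀ s t : LP, U8 s → U8 t → U8 (s * t)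

/-- [SC8] `St_SC` with `U8` (the proof of `LSG/SC.lean` with `St_U8` in place of the facts on units). -/
def St_SC8 : Prop :=
  (∀ D D' : Word, Ok D 0 0 → D ≠ [] → Iso 0 D D' → U8 (bracket (toD D)) → U8 (bracket (toD D'))) ∧
  (∀ (u v A : Word) (j n : ℕ), Ok u 0 n → j + 2 ≤ n → Ok A 2 0 → Ok v (n - 2) 0 →
    U8 (bracket (toD (u ++ (Pool.Agent.ARB.sh j A ++ v)))) →
      U8 (bracket (toD (pU 0 :: A))) ∧ U8 (bracket (toD (u ++ (pN j :: v))))) ∧
  ∀ (u v : Word) (n i : ℕ), Ok u 0 n → i ≤ n → Ok v n 0 → u ++ v ≠ [] →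
    ¬ U8 (bracket (toD (u ++ (pU i :: pN i :: v))))

/-- [NX8] `St_NX` with `U8` (the proof of `LSG/NX.lean`, from SC8). -/
def St_NX8 : Prop := ∀ A : Word, Ok A 2 0 → nX A = 0 → U8 (bracket (toD (pU 0 :: A))) →
  Iso 2 A [pN 0]

/-- [AK8] `St_AK` with `U8` (from U8; the formula for the bracket of `DW w` is in `LSP/A15.lean`: the sum over
the sets `A` of crossings of `T (s (n - 2 |A|)) * loopVal ^ (l A)`). PROOF. Modulo `T 4 + 1` only the `A` with
`l A = 0` remain, these are the spanning trees of `gE` with the marked vertices identified (rank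
formula: `l A = 0` forces `|A|` = number of regions minus 1, the same for all of them), so the bracket is
`m * T k`, `m` the number of these sets. `U8` gives `m = 1` (U8 (4), (6)). If no edge is a loop or a bridge of the
graph with identified marked vertices (bridge of it = loop of the dual graph `gO`), every edge lies in
some tree and misses some other, and there is an edge: `m ≥ 2`. -/
def St_AK8 : Prop := ∀ (e : Bool) (w : Word) (h : Ok w 2 2), AltW e w → 1 ≤ nX w →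
  U8 (bracket (toD (DW w))) →
  (∃ k, (gE w h).u k = (gE w h).v k ∨ Jn (gE w h) k (gE w h).a (gE w h).b) ∨
    ∃ k, (gO w h).u k = (gO w h).v k

/-- [K28] `St_K2` with `U8` (the proof of `LSG/K2.lean`, from AK8, NX8, SC8). -/
def St_K28 : Prop := ∀ (e : Bool) (A : Word), Ok A 2 0 → AltW e A →
  U8 (bracket (toD (pU 0 :: A))) → Iso 2 A [pN 0]

/-- [SCA] Words `2 → 0` and `0 → 0` in a good model (see `sc_A`, `sc_exp`, `sc_br` in `LSG/SC.lean`: expand in
states; a word without crossings `2 → 0` acts as `δ ^ k • cap`, one `0 → 0` as `δ ^ k`, and `k ≥ 1` if it is not empty). -/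
def St_SCA : Prop := ∀ (V : Type) [AddCommGroup V] [Module LP V] (M : Model LP V), Good M →
  (∀ (A : Word) (j n : ℕ) (x : V), Ok A 2 0 → j + 2 ≤ n → M.Supp n x →
    runW M (Pool.Agent.ARB.sh j A) x = bracket (toD (pU 0 :: A)) • M.cap j x) ∧
  ∀ (J : Word) (j n : ℕ) (x : V), Ok J 0 0 → J ≠ [] → j ≤ n → M.Supp n x →
    runW M (Pool.Agent.ARB.sh j J) x = (loopVal * bracket (toD J)) • x

/-- [PR] Bracket pairs (from U8). PROOF. (1) expand in states (`sc_exp` in `LSG/SC.lean`), words without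
crossings have a normal form (`Pool.ALT.St_NF`, proved in `ALT/Mo/NF.lean`). (2) in a model:
`runW M (sh j (rotW w)) x = M.cap j (runW M (sh (j+1) w) (M.cup (j+2) x))`, relations `rel2`, `rel3`. (3) `w'` has a pair
by (1); in the model of `thm_Vert` (or the one of `ALK/Gr.lean`, `pair_unique`) `thm_Inv` (for `sh j w`, `sh j w'`)
gives a unit `u` with `(g', b') = (u * g, u * b)`. (4), (5) `Pool.ALT.ex_sum` and (1). (6) (2). (7) (3). -/
def St_PR : Prop :=
  (∀ w : Word, Ok w 2 2 → ∃ g b : LP, HasPair w g b) ∧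
  (∀ (w : Word) (g b : LP), Ok w 2 2 → HasPair w g b → HasPair (rotW w) b g) ∧
  (∀ (w w' : Word) (g b : LP), Ok w 2 2 → Iso 2 w w' → HasPair w g b →
    ∃ u : LP, Un u ∧ HasPair w' (u * g) (u * b)) ∧
  (∀ w w' : Word, Ok w 2 2 → Ok w' 2 2 → FacP w → FacP (w ++ w')) ∧
  (∀ w w' : Word, Ok w 2 2 → Ok w' 2 2 → FacP w → FacP (w' ++ w)) ∧
  (∀ w : Word, Ok w 2 2 → FacP w → FacP (rotW w)) ∧
  ∀ w w' : Word, Ok w 2 2 → Iso 2 w w' → FacP w → FacP w'

/-- [FLT] Closed components (from U8; `St_CT`, `St_DU`, `St_HP`, ... of `ALT/Mo/St.lean` are proved, see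
`ALT/Mo/All.lean`). PROOF. The letters of [DU] in `ALT/Mo/St.lean`: `N A + M A = k A + 3`, `M' A + t A = M A` and
`N A = N' A + 1 - t A` where `M' A = nc (gO.sp ⊥ (univ \ A) ⊔ gO.ab)`, `N' A = nc (gE.sp ⊥ A ⊔ gE.ab)`. Hence
`k A = N' A + M' A - 2`. `N' A ≥ N' univ`, `M' A ≥ M' ∅`. If the two numbers of the statement (both are `≥ 1`) are not
both `1` then all `k A ≥ 1`, so in `St_HP` both coefficients are multiples of `loopVal`; `FacP` by U8 (3). -/
def St_FLT : Prop := ∀ (e : Bool) (w : Word) (h : Ok w 2 2), AltW e w →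
  (nc ((gO w h).sp ⊥ Finset.univ ⊔ (gO w h).ab) = 1 ∧
    nc ((gE w h).sp ⊥ Finset.univ ⊔ (gE w h).ab) = 1) ∨ FacP w

/-! ### graphs (modules GL, CN, PRF) -/

/-- [GL] A separation of the edges gives a separating vertex (general graphs, `ALT/Tu/Part.lean`).
PROOF. `S' = univ \ S`. Let `H : Gr (Quotient (g.sp ⊥ S) ⊕ Quotient (g.sp ⊥ S')) V` be the graph whose edge `v` joins the
classes of `v` (marked vertices arbitrary). `nc (H.sp ⊥ univ) = 1`: adjacent vertices of `g` have the same class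
for `S` or for `S'`, so all edges of `H` are in one class, and every vertex of `H` is on an edge.
(a) There is `x` with two elements in its `S`-class and two elements in its `S'`-class. Otherwise, as `S`
contains an edge `k`, which is not a loop, `x = g.u k` has an `S`-class `P` with two elements, all elements
of `P` have one-element `S'`-classes, so no edge leaves `P` (an edge of `S` stays in `P`, an edge of `S'` at a vertex of
`P` would be a loop), `P` is everything, `S'` has no edges: contradiction.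
(b) `H` has `≥ |V| + 1` vertices, so `nc (H.sp ⊥ (univ \ {x})) ≥ |V| + 1 - (|V| - 1) = 2` (`nc_le_add_card`, `nc_bot`). So
the two ends of the edge `x` are not joined in `τ = H.sp ⊥ (univ \ {x})` (`sp_insert_of`). Let
`sd v = decide (τ (inl [v]) (inl [x]))`. For an edge `k` of `S` with ends `≠ x` the `S`-classes of the ends agree; for one
of `S'` the `S'`-classes agree, and the `S`-class of an end `v ≠ x` is joined to its `S'`-class by the edge `v` of
`H`. `two`: `true`: a `v ≠ x` in the `S`-class of `x` (`inl [v] = inl [x]`), and it is an end of an edge (of `S`: its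
class has two elements). `false`: a `v ≠ x` in the `S'`-class of `x`: `inl [v] ~ inr [v] = inr [x]`, not `~ inl [x]`. -/
def St_GL : Prop := ∀ {V E : Type} [Fintype V] [Fintype E] [DecidableEq E] (g : Gr V E),
  nc (g.sp ⊥ Finset.univ) = 1 → (∀ k, g.u k ≠ g.v k) → ∀ S : Finset E, S.Nonempty →
  (Finset.univ \ S).Nonempty →
  Fintype.card V + 1 ≤ nc (g.sp ⊥ S) + nc (g.sp ⊥ (Finset.univ \ S)) → ∃ x sd, Sep g x sd

/-- [CN] PROOF. `sep` (second and third part of `St_CT`; `Nf` exists by `St_JO`, `St_NF`): `gO.sp ⊥ (univ \ A)` joins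
its marked vertices iff `gE.sp ⊥ A` does not. `A = univ`: `gO.sp ⊥ ∅ = ⊥` does not join them, so `gE.sp ⊥ univ` does:
`gE.sp ⊥ univ ⊔ gE.ab = gE.sp ⊥ univ`. `A = ∅`: the same for `gO`. -/
def St_CN : Prop := ∀ (w : Word) (h : Ok w 2 2), (gE w h).a ≠ (gE w h).b → (gO w h).a ≠ (gO w h).b →
  nc ((gO w h).sp ⊥ Finset.univ ⊔ (gO w h).ab) = 1 →
  nc ((gE w h).sp ⊥ Finset.univ ⊔ (gE w h).ab) = 1 →
  nc ((gE w h).sp ⊥ Finset.univ) = 1 ∧ nc ((gO w h).sp ⊥ Finset.univ) = 1

/-- [PRF] A tangle which is not a leaf (see the proof of `St_LF` in `ALT/Mo/St.lean`, `ALT/Mo/LF.lean`).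
PROOF. The letters of [DU], `κ = 1`, `κ' = nc (gE.sp ⊥ univ ⊔ gE.ab) = 1`. `loops (NW (jo (seq A) w)) = N A + M' A - 1 =
2 N A + |A| - |V|` where `|V| = card (Reg true w)`. So if `prN` fails for `a`, which is the state of a nonempty proper
`A` (`St_SJ`: `a k = xor (seq A k) e`), then `2 N A + 2 N Aᶜ + n - 2 |V| ≥ n + 1`, `N A + N Aᶜ ≥ |V| + 1`: `S = A`.
`loops (DW (jo (seq A) w)) = N A + M' A + 2 t A - 2 = N' A + M A - 1`; with `N' A = M A + |Aᶜ| + κ' - |V'|`, where
`|V'| = card (Reg false w)` (from [DU]: `N' A - M A = N A + ... `: `N' A = N A - 1 + t A`, `M A = M' A + t A`,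
`M' A + |V| = N A + |A| + κ`, so `N' A - M A = |V| - |A| - κ - 1`; for `A = univ` this is `κ' - |V'| = |V| - n - κ - 1`), so
it is `2 M A + |Aᶜ| - |V'|`, and `M A = nc (gO.sp ⊥ (univ \ A))`. If `prD` fails: `S = univ \ A` in the graph `gO`. -/
def St_PRF : Prop := ∀ (e : Bool) (w : Word) (h : Ok w 2 2), AltW e w → 2 ≤ nX w →
  nc ((gO w h).sp ⊥ Finset.univ ⊔ (gO w h).ab) = 1 →
  nc ((gE w h).sp ⊥ Finset.univ ⊔ (gE w h).ab) = 1 → IsLeaf w ∨
  (∃ S : Finset (Fin (nX w)), S.Nonempty ∧ (Finset.univ \ S).Nonempty ∧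
    Fintype.card (Reg true w) + 1 ≤ nc ((gE w h).sp ⊥ S) + nc ((gE w h).sp ⊥ (Finset.univ \ S))) ∨
  ∃ S : Finset (Fin (nX w)), S.Nonempty ∧ (Finset.univ \ S).Nonempty ∧
    Fintype.card (Reg false w) + 1 ≤ nc ((gO w h).sp ⊥ S) + nc ((gO w h).sp ⊥ (Finset.univ \ S))

/-! ### from graphs to colourings (modules BR2, ST) -/

/-- [BR2] More from the proof of BR (`LSG/BR.lean`, first part): the colours are the classes of local
regions, `fE`, `fO` are `Subtype.val`, the letter `k` of the decorated word has the corners `ed true 2 w k`,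
`ed false 2 w k`. -/
def St_BR2 : Prop := ∀ (e : Bool) (V : Word), Ok V 4 0 → AltW e V → ∀ h : Ok (wV V) 2 2,
  ∃ (κ : Type) (pr : κ → Bool) (c : ℕ → κ) (W : Wd (Cr κ)) (fE : Reg true (wV V) → κ)
    (fO : Reg false (wV V) → κ), fgt W = V ∧ Dec e pr c 4 W ∧ (∀ x, Fa x c 4 W) ∧
    Function.Injective fE ∧ Function.Injective fO ∧ (∀ x, pr (fE x) = true) ∧
    (∀ x, pr (fO x) = false) ∧ c 0 = fE (gE _ h).a ∧ c 2 = fE (gE _ h).b ∧ c 1 = fO (gO _ h).a ∧
    c 3 = fO (gO _ h).b ∧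
    (∀ a, Lt a W → ∃ k, Ev e a (fE ((gE _ h).u k)) (fE ((gE _ h).v k)) ∧
      Ev (!e) a (fO ((gO _ h).u k)) (fO ((gO _ h).v k))) ∧
    ∀ k, ∃ a, Lt a W ∧ Ev e a (fE ((gE _ h).u k)) (fE ((gE _ h).v k)) ∧
      Ev (!e) a (fO ((gO _ h).u k)) (fO ((gO _ h).v k))

/-- [ST] (from BR2, CN) The decorated word, the connectedness of the two graphs and separating vertices in
terms of colours. PROOF. A path in `gO` (`nc = 1`: `gO.sp ⊥ univ` relates everything) gives `Rch`, and `Rch` is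
symmetric (`Ev` is). `NoN` if it is not the case that some letter has `Ev e' a y y`; then the two ends of every `k` are
different in `gE` and in `gO` (the opposite corners of a letter of the other parity: `Ev e' a y y` is for `e' = e`
or `!e`). `Sep (gE) x sd`: `x' = fE x`, `sd' (fE v) = sd v` (injective; false elsewhere). For `a` in `W` take `k`; if
`Ev e a u v` then `{u, v}` are the two colours of `k`. `nX V = 1`: one edge `k`, `gE` is connected, `a ≠ b`, so `k`
joins the marked vertices (and there are no other regions). -/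
def St_ST : Prop := ∀ (e : Bool) (V : Word), Ok V 4 0 → AltW e V → ∀ h : Ok (wV V) 2 2,
  (gE _ h).a ≠ (gE _ h).b → (gO _ h).a ≠ (gO _ h).b →
  nc ((gO _ h).sp ⊥ Finset.univ ⊔ (gO _ h).ab) = 1 →
  nc ((gE _ h).sp ⊥ Finset.univ ⊔ (gE _ h).ab) = 1 →
  ∃ (κ : Type) (pr : κ → Bool) (c : ℕ → κ) (W : Wd (Cr κ)), fgt W = V ∧ Dec e pr c 4 W ∧
    (∀ x, Fa x c 4 W) ∧ ((∃ a e' x, Lt a W ∧ Ev e' a x x) ∨
      (Nice e pr c W ∧ (∀ k, (gE _ h).u k ≠ (gE _ h).v k) ∧ (∀ k, (gO _ h).u k ≠ (gO _ h).v k) ∧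
        (nX V = 1 → ∃ a, Lt a W ∧ Ev e a (c 0) (c 2)) ∧
        (∀ x sd, Sep (gE _ h) x sd → ∃ x' sd', pr x' = true ∧ SpD e W x' sd' ∧
          ∀ β, ∃ a, Lt a W ∧ Lab e x' sd' a β) ∧
        ∀ x sd, Sep (gO _ h) x sd → ∃ x' sd', pr x' = false ∧ SpD (!e) W x' sd' ∧
          ∀ β, ∃ a, Lt a W ∧ Lab (!e) x' sd' a β))

/-! ### islands around a region (modules LL, PALL, LF2, RUN, EXP) -/

/-- [IB] Basic facts on `isls`, `iscs` (from Isl, VaC). All by induction on the list.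
(1)-(3) clear. (4) islands in different gaps commute: `PIso.comm` for `isls 0 ks2 : 0 → 4 m` (to the right of `g` strands)
and `isls 0 ks3`; or St_Is (7) piece by piece. (5) Isl (1), (2). (6) Isl (3): `k.b = z ≠ x`, the gap `h + 4` above the first
island has again the colour `z`. (7) the gaps of the row above: `h - 1 + 4 i` has the colour `lastr (c (h - 1)) ks1`
(`i = ks1.length`), and a gap of colour `z` is `h + 4 i` with `i ≤ ks.length`, if `k.l`, `k.t`, `k.r` are `≠ z` for all `k` and `h` is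
the only gap below with the colour `z`; the neighbours of these gaps. (8) an island in the gap `h + 4 i`. -/
def St_IB : Prop :=
  (∀ {α : Type} (h : ℕ) (ks1 ks2 : List α),
    isls h (ks1 ++ ks2) = isls h ks1 ++ isls (h + 4 * ks1.length) ks2) ∧
  (∀ {α : Type} (h N : ℕ) (ks : List α), h ≤ N → Okd (isls h ks) N (N + 4 * ks.length)) ∧
  (∀ {α : Type} (h j : ℕ) (ks : List α), shd j (isls h ks) = isls (h + j) ks ∧
    nXd (isls h ks) = ks.length ∧ ∀ k, Lt k (isls h ks) ↔ k ∈ ks) ∧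
  (∀ {α : Type} [Rt α] (g N : ℕ) (ks2 ks3 : List α), g ≤ N →
    PIso N (isls g ks2 ++ isls (g + 4 * ks2.length) ks3) (isls g ks3 ++ isls g ks2)) ∧
  (∀ {κ : Type} (e : Bool) (pr : κ → Bool) (c : ℕ → κ) (N h : ℕ) (z : κ) (ks : List (Cr κ))
    (V : Wd (Cr κ)), h ≤ N → c h = z → (∀ k ∈ ks, k.b = z) →
    (Vl c (isls h ks ++ V) ↔ Vl (iscs h ks c) V) ∧
    (Dec e pr c N (isls h ks ++ V) → Dec e pr (iscs h ks c) (N + 4 * ks.length) V ∧
      ∀ k ∈ ks, Gl e pr k)) ∧
  (∀ {κ : Type} (c : ℕ → κ) (N h : ℕ) (z x : κ) (ks : List (Cr κ)) (V : Wd (Cr κ)), h ≤ N →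
    c h = z → (∀ k ∈ ks, k.b = z) → x ≠ z → Okd V (N + 4 * ks.length) 0 →
    Fa x c N (isls h ks ++ V) → Fa x (iscs h ks c) (N + 4 * ks.length) V) ∧
  (∀ {κ : Type} (c : ℕ → κ) (N h : ℕ) (z : κ) (ks : List (Cr κ)), 1 ≤ h → h + 1 ≤ N → c h = z →
    (∀ ks1 ks2, ks = ks1 ++ ks2 →
      iscs h ks c (h - 1 + 4 * ks1.length) = lastr (c (h - 1)) ks1 ∧
      iscs h ks c (h + 4 * ks1.length) = z ∧
      iscs h ks c (h + 1 + 4 * ks1.length) = match ks2 with | [] => c (h + 1) | k :: _ => k.l) ∧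
    ((∀ j ≤ N, c j = z → j = h) → (∀ k ∈ ks, k.l ≠ z ∧ k.t ≠ z ∧ k.r ≠ z) →
      ∀ j ≤ N + 4 * ks.length, iscs h ks c j = z → ∃ i ≤ ks.length, j = h + 4 * i)) ∧
  ∀ {α : Type} [Rt α] (h N : ℕ) (ks1 ks2 : List α) (a : α), h ≤ N →
    PIso N (isls h (ks1 ++ ks2) ++ isl (h + 4 * ks1.length) a) (isls h (ks1 ++ (a :: ks2)))

/-- [LL] A region without crossings which meets the boundary in one gap `g`: its two neighbours are the
same region. PROOF. `β j = decide (j = g)` refines `W` (`T1.lone`) to `W1` over `κ × Bool`; put `ρ` = the colour is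
`(z, true)`, a colouring of the regions which is true at the gap `g` only, and no corner of a crossing has
`ρ` true. Let `f` be any further colouring by `Prop` or `Bool` (`St_RelI` (1): to show `f (g-1) = f (g+1)` for all `f` with
`VU f W`; refine once more, or take the colouring by pairs). For a row of pairs `(ρ j, f j)`, `j ≤ n`, let `D` be the
number of `1 ≤ j < n` with `ρ j` and `f (j-1) ≠ f (j+1)`. CLAIM: `D` modulo 2 is the same below and above
each piece, provided that `ρ 0`, `ρ n` are false. `X i`: the values at `i`, `i+1`, `i+2` below and `i+1` above have `ρ`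
false, only `f (i+1)` changes. `U i`: the row `.., x_i, t, x_i, x_(i+1), ..`: the terms `i`, `i+1`, `i+2` above are
`ρ_i [f_(i-1) ≠ f_t]`, `0`, `ρ_i [f_t ≠ f_(i+1)]`, their sum is `ρ_i [f_(i-1) ≠ f_(i+1)]` modulo 2. `N i`: the same from above
to below. `ρ` is false in the gaps `0` and `n` of every row (all leftmost gaps are one region, `St_VaC` (6), and
`Rel w 0 n` for the rest of the word). At the top `D = 0`, below `D = [f (g-1) ≠ f (g+1)]`. -/
def St_LL : Prop := ∀ {κ : Type} (c : ℕ → κ) (N g : ℕ) (z : κ) (W : Wd (Cr κ)), Okd W N 0 → Vl c W →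
  1 ≤ g → g + 1 ≤ N → c g = z → (∀ a, Lt a W → ¬ T1.Co z a) → (∀ j ≤ N, Rel W g j → j = g) →
  Rel W (g - 1) (g + 1)

/-- [PALL] All crossings at a region `z` which meets the boundary in one gap `h`, from left to right (from IB, LL).
PROOF. (1) CLAIM: for all `m`, if `isls h ks ++ V` is isotopic to `W`, all `k` in `ks` have `k.b = z`, `FB z` (`T1.FB`) holds for
`V` with the row `iscs h ks c`, and `V` has `m` crossings with a corner `z`, then there is such a form without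
crossings with a corner `z` in `V` (induction on the number of crossings of `V`). `T1.claim` for such a letter `a`:
`V ~ isl s a' ++ V'`, `a'.b = z`, the gap `s` has the colour `z`, so `s = h + 4 i`, `i ≤ ks.length` (the other gaps of the
row are: gaps of `W`, corners `l`, `t`, `r` of islands: `l`, `r` have another parity (`Gl`), `t ≠ z` by `NoN`), and
`isls h ks ++ isl (h + 4 i) a' ~ isls h (ks.insertIdx i a')` (the islands to the right move by four strands,
`PIso.comm`/`St_Is` (7)). `FB` for `V'`: a refinement of `V'` with all gaps `z` false: make the bits of the colours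
`≠ z` false, extend it to `isl s a' ++ V'` (the corners `b` = gap are false) and use `FB` for `V`.
Start: `ks = []`, `FB` from `Fa`.
(2) Let `g i = h + 4 i`. If `Rel V (g i) (g j)`, `i < j`: SL: `V ~ shd (g i) A ++ B`, `A` on `4 (j - i)` strands, and
`isls h (ks1 ++ ks2 ++ ks3) ~ isls h ks1 ++ isls (g i) ks3 ++ isls (g i) ks2`, so `J = isls 0 ks2 ++ A` is a closed
component (`ks2` has `j - i` elements): `SplD` with `u = isls h ks1 ++ isls (g i) ks3`, `v = B`. (3) Otherwise every gap `g i`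
is related to no other gap (equal colours: only gaps `z`), LL: `Rel V (g i - 1) (g i + 1)`, so the colours of these
gaps are equal: `Chn`. -/
def St_PALL : Prop := ∀ {κ : Type} (e : Bool) (pr : κ → Bool) (c : ℕ → κ) (N h : ℕ) (z : κ)
  (W : Wd (Cr κ)), Dec e pr c N W → Fa z c N W → NoN W → 1 ≤ h → h + 1 ≤ N → c h = z →
  (∀ j ≤ N, c j = z → j = h) → SplD N W ∨ ∃ (ks : List (Cr κ)) (V : Wd (Cr κ)),
    Okd V (N + 4 * ks.length) 0 ∧ PIso N W (isls h ks ++ V) ∧ (∀ k ∈ ks, k.b = z) ∧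
    (∀ a, Lt a V → ¬ T1.Co z a) ∧ Chn (c (h - 1)) (c (h + 1)) ks

/-- [LF2] If the same region `x` lies on the right of two different places in the sequence of islands there
is a local factor (from IB). PROOF. The gap `h - 1 + 4 i` above the islands (`i ≤` length) has the colour
`lastr (c (h - 1)) (first i islands)` (`i = 0`: it is the gap `h - 1` of `W`; `i ≥ 1`: the right corner of the island
`i`). `Fa x` holds above the islands (Isl (3), all `k.b = z ≠ x`), so with `i = ks1.length`, `j = i + ks2.length`: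
`Rel V (h - 1 + 4 i) (h - 1 + 4 j)`, SL: `V ~ shd (h - 1 + 4 i) A ++ B`, `A` on `4 ks2.length` strands. As in PALL
`isls h (ks1 ++ ks2 ++ ks3) ~ u ++ isls (h + 4 i) ks2`, `u = isls h ks1 ++ isls (h + 4 i) ks3`, and
`isls (h + 4 i) ks2 ++ shd (h - 1 + 4 i) A = shd (h - 1 + 4 i) (isls 1 ks2 ++ A)`: `J = isls 1 ks2 ++ A` (`1 → 1`: the strand and
the ends of the islands, `A` leaves the last one), `v = B`. -/
def St_LF2 : Prop := ∀ {κ : Type} (c : ℕ → κ) (N h : ℕ) (z x : κ) (W V : Wd (Cr κ))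
  (ks1 ks2 ks3 : List (Cr κ)), Okd W N 0 → Vl c W → Fa x c N W → 1 ≤ h → h + 1 ≤ N → c h = z → x ≠ z →
  Okd V (N + 4 * (ks1 ++ (ks2 ++ ks3)).length) 0 → PIso N W (isls h (ks1 ++ (ks2 ++ ks3)) ++ V) →
  (∀ k ∈ ks1 ++ (ks2 ++ ks3), k.b = z) → ks2 ≠ [] → lastr (c (h - 1)) ks1 = x →
  lastr (c (h - 1)) (ks1 ++ ks2) = x → FacD N W

/-- [RUN] PROOF. Let `lam k` be `sd k.l` if `k.l ≠ x`, else `sd k.r` (then `k.r ≠ x`). If `k.l ≠ x` then `sd k.l = lam k`, if
`k.r ≠ x` then `sd k.r = lam k`. The hypothesis gives a `k` with `lam k = β`. Take a maximal block `ks2` of consecutive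
elements with `lam = β` around it. Its left colour `lastr x0 ks1` is `x`: if it is `x0` (`ks1 = []`) and `≠ x`, then the first
element of `ks2` has `k.l = x0`, `lam k = sd x0 ≠ β`; otherwise it is the right colour of the element before, which
has `lam ≠ β`, and the left colour of the first element of `ks2`. The same on the right. (Induction: first drop
the elements with `lam ≠ β` from the left, then take the elements with `lam = β`.) -/
def St_RUN : Prop := ∀ {κ : Type} (x : κ) (sd : κ → Bool) (β : Bool) (x0 y0 : κ)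
  (ks : List (Cr κ)), Chn x0 y0 ks → (∀ k ∈ ks, k.l = x ∨ k.r = x ∨ sd k.l = sd k.r) →
  (∀ k ∈ ks, k.l ≠ k.r) → (x0 = x ∨ sd x0 ≠ β) → (y0 = x ∨ sd y0 ≠ β) →
  (∃ k ∈ ks, (k.l ≠ x ∧ sd k.l = β) ∨ (k.r ≠ x ∧ sd k.r = β)) →
  ∃ ks1 ks2 ks3, ks = ks1 ++ (ks2 ++ ks3) ∧ ks2 ≠ [] ∧ lastr x0 ks1 = x ∧
    lastr x0 (ks1 ++ ks2) = x

/-- [EXP] An interior odd region `z` can be brought to the boundary. (from T1, Isl, Mp, Fa)
PROOF. Let the distance of an odd colour `y` be the length of a shortest path (`Rch` steps: `y_(i+1)` and `y_i`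
are the odd colours of a crossing) from `c 1` or `c 3` to `y`; `z` is reached from `c 1`. Take a shortest path
`y_0, ..., y_r = z`, `y_0 = c 1` or `c 3`, `r ≥ 1`, the distance of `y_i` is `i`, crossings `a_i` with `Ev (!e) a_i y_(i-1) y_i`.
Induction on `i`: `W ~ P_i ++ W_i`, `P_i` = islands `isl g_0 a_1' ++ isl (g_0 + 2) a_2' ++ ... ++ isl (g_0 + 2 (i-1)) a_i'`
(each in the top corner of the previous one), `g_0 = 1` or `3`, `a_j'.b = y_(j-1)`, `a_j'.t = y_j`, `W_i` on `4 + 4 i` strands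
with the row `d_i`; the gap `h_i = g_0 + 2 i` has the colour `y_i`, no other gap has it (the odd colours of the row are
`c 1`, `c 3`, `y_1, ..., y_i`, of distance `≤ i`, once each except for `y_0, ..., y_(i-1)`; even gaps have even colours);
`Dec e pr d_i W_i` (Isl (2)); `Fa y` holds for `W_i` for all `y` not in `{y_0, ..., y_(i-1)}` (Isl (3)); every letter of `W` is,
up to rotation, a letter of `W_i` or one of `a_1, ..., a_i` (Mp (5): apply it to `P b` = `b` is a rotation of `a`).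
Step: `a_(i+1)` is a letter of `W_i` up to rotation, because its odd colours are `y_i`, `y_(i+1)`; T1 at the gap `h_i`
(`Fa y_i` holds), with the colour `y_i` gives `W_i ~ isl h_i a' ++ W_(i+1)`, `a'.b = y_i`, so `a'.t = y_(i+1)`.
End: `i = r`, `k0 = a_r'`; a crossing of `W` with a corner `z` is not `a_1, ..., a_(r-1)`. -/
def St_EXP : Prop := ∀ {κ : Type} (e : Bool) (pr : κ → Bool) (c : ℕ → κ) (W : Wd (Cr κ)) (z : κ),
  Nice e pr c W → Rch e W (c 1) z → z ≠ c 1 → z ≠ c 3 →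
  ∃ (P W' : Wd (Cr κ)) (N h : ℕ) (d : ℕ → κ) (k0 : Cr κ), Okd P 4 N ∧ PIso 4 W (P ++ W') ∧
    Dec e pr d N W' ∧ 1 ≤ h ∧ h + 1 ≤ N ∧ d h = z ∧ (∀ j ≤ N, d j = z → j = h) ∧ Fa z d N W' ∧
    (∀ y, pr y = true → Fa y d N W') ∧ Gl e pr k0 ∧ k0.t = z ∧ k0.l = d (h - 1) ∧ k0.r = d (h + 1) ∧
    (∃ a, Lt a W ∧ T1.R4 a k0) ∧
    ∀ a, Lt a W → T1.Co z a → T1.R4 a k0 ∨ ∃ a', Lt a' W' ∧ T1.R4 a a'

/-! ### the decomposition (modules CHG, CA, CB, DS, ADJ2) -/

/-- [CHG] PROOF. Every letter of `W` has a label (`NoN`: one of its even colours is `≠ x`) and only one (`SpD`). Walk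
from an odd colour of a letter with label `true` to an odd colour of a letter with label `false` (`Rch`, symmetric):
the letters of consecutive steps share the odd colour between them; some consecutive pair (or a pair at
the ends) has different labels. -/
def St_CHG : Prop := ∀ {κ : Type} (e : Bool) (pr : κ → Bool) (c : ℕ → κ) (W : Wd (Cr κ)) (x : κ)
  (sd : κ → Bool), Nice e pr c W → SpD e W x sd → (∀ β, ∃ a, Lt a W ∧ Lab e x sd a β) →
  ∃ z, Rch e W (c 1) z ∧ pr z = false ∧ ∀ β, ∃ a z', Lt a W ∧ Lab e x sd a β ∧ Ev (!e) a z z'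

/-- [CA] The marked regions `c 0`, `c 2` are not separated by `x` (from PALL, LF2, RUN, EXP).
PROOF. `z = c 1` or `z = c 3`: `h = 1` or `3`, `W' = W`, `N = 4`, `P = []`, `d = c`, the neighbours of the gap `h` are the gaps with
the colours `c 0`, `c 2` (`c 4 = c 0`: `Fa`/`Rel w 0 4`), use `β`. Otherwise EXP (with `β' = ! (label of k0)`); the
neighbours are `k0.l`, `k0.r`, which are `x` or on the side of `k0`. PALL for `W'`: `SplD` (also of `W`: put `P` below) or
islands `ks`. The letter of `W` with label `β'` at `z` (`k0` has the other label, the label is invariant under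
rotation) is up to rotation a letter of `W'`, so of `isls h ks ++ V` (Mp (5)), so an element `k` of `ks` up to rotation
(the letters of `V` have no corner `z`), `k.b = z` is odd, so its even colours are `k.l`, `k.r` (`Gl`; `Dec` for `W'`
and Mp). RUN with `x0 = d (h - 1)`, `y0 = d (h + 1)`, LF2 (`Fa x`, `x` is even, so `≠ z`): `FacD` for `W'`, so for `W`. -/
def St_CA : Prop := ∀ {κ : Type} (e : Bool) (pr : κ → Bool) (c : ℕ → κ) (W : Wd (Cr κ)) (x z : κ)
  (sd : κ → Bool) (β : Bool), Nice e pr c W → SpD e W x sd → pr x = true → Rch e W (c 1) z →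
  pr z = false → (∀ β', ∃ a z', Lt a W ∧ Lab e x sd a β' ∧ Ev (!e) a z z') →
  (c 0 = x ∨ sd (c 0) ≠ β) → (c 2 = x ∨ sd (c 2) ≠ β) → SplD 4 W ∨ FacD 4 W

/-- [CB] `x` separates `c 0` and `c 2` (from PALL; T1, Isl, SL, Mp).
PROOF. (1) PALL at the gap 1 (`z = c 1`): `ks` with `Chn (c 0) (c 2) ks`. The first element has `k.l = c 0`, and going along
the sequence the right colours are on the side `sd (c 0)` as long as they are not `x`; the last one is `c 2`, so some
`p` in `ks` has `p.r = x`, `p.l ≠ x`, `sd p.l = sd (c 0)`, `p.b = c 1`; the first one: all before have right colours on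
the side of `c 0`. (2) PALL at the gap 3: `q` with `q.b = c 3`, `q.r = x`, `q.l ≠ x`, `sd q.l = sd (c 2)` (`c 4 = c 0`).
(3) `p`, `q` are letters of `W` up to rotation (Mp (5)). T1 for `p` at gap 1: `W ~ isl 1 p ++ V1` (a rotation of `p` with
the lower corner `c 1` is `p`, because `p.t ≠ p.b`, and `p.l`, `p.r` have the other parity). `q` is not a rotation of `p`
(`Ev e q q.l x`, `sd q.l = sd (c 2) ≠ sd p.l`), so it is a letter of `V1` up to rotation. `V1` has the row
`c0, c1, p.l, p.t, x, c1, c2, c3, c4` (Isl (2)), `Fa y` for `y ≠ c 1`; T1 for `q` at the gap 7: `V1 ~ isl 7 q ++ V2`, row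
`c0, c1, p.l, p.t, x, c1, c2, c3, q.l, q.t, x, c3, c4`. `Rel V2 4 10`, SL: `V2 ~ shd 4 A ++ B`, `A` on the strands `4, .., 9`, `B` on
`6` strands. (4) `R = U 0 :: (isl 4 q ++ shd 1 A)` (`2 → 2`), `L = isl 1 p ++ (N 4 :: B)` (`4 → 0`): `shd 1 R ++ L =
[U 1] ++ isl 5 q ++ shd 2 A ++ isl 1 p ++ [N 4] ++ B ~ isl 1 p ++ [U 5] ++ isl 9 q ++ shd 6 A ++ [N 4] ++ B` (the island `p` in
the gap 1 moves down) `~ isl 1 p ++ isl 7 q ++ shd 4 A ++ [U 5, N 4] ++ B` (`N 4` moves down through `shd 6 A`, `isl 9 q`)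
`~ isl 1 p ++ isl 7 q ++ shd 4 A ++ B` (`zag`: `[U 5, N 4] ~ []`). -/
def St_CB : Prop := ∀ {κ : Type} (e : Bool) (pr : κ → Bool) (c : ℕ → κ) (W : Wd (Cr κ)) (x : κ)
  (sd : κ → Bool), Nice e pr c W → SpD e W x sd → pr x = true → c 0 ≠ x → c 2 ≠ x →
  sd (c 0) ≠ sd (c 2) → SplD 4 W ∨ SumD W

/-- [DS] (from CHG, CA, CB) If `c 0 ≠ x`, `c 2 ≠ x`, `sd (c 0) ≠ sd (c 2)` use CB, otherwise there is `β` as in CA. -/
def St_DS : Prop := ∀ {κ : Type} (e : Bool) (pr : κ → Bool) (c : ℕ → κ) (W : Wd (Cr κ)) (x : κ)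
  (sd : κ → Bool), Nice e pr c W → SpD e W x sd → pr x = true →
  (∀ β, ∃ a, Lt a W ∧ Lab e x sd a β) → SplD 4 W ∨ FacD 4 W ∨ SumD W

/-- [ADJ2] (from T1, Isl, SL, Is, Mp; see the proof of `St_Adj`, `LSG/Adj.lean`) A crossing between the left and the
right region. PROOF. T1 at gap 2: `W ~ isl 2 a' ++ V`, `a'.b = c 2`, position 3, so `a'.p = !e`, `a'.t = c 0`. In `V` (`8 → 0`)
the gaps 0 and 4 have the colour `c 0`: `V ~ A ++ B`, both on four strands. Forget the colours: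
`wV (isl 2 (!e) ++ A ++ B) ~ [U 2, U 3] ++ [U 2, U 3, X 4 e] ++ A ++ B` (Is (2)) `~ [U 2, U 3] ++ [X 4 e] ++ [U 6, U 7] ++ A ++ B`
(the outer cups are made later: `[U 2, U 3, U 2, U 3] ~ [U 2, U 3, U 6, U 7]`) `~ [U 2, U 3] ++ A ++ [X 0 e] ++ [U 2, U 3] ++ B`
(`A`, on the four strands on the left, moves down). -/
def St_ADJ2 : Prop := ∀ {κ : Type} (e : Bool) (pr : κ → Bool) (c : ℕ → κ) (W : Wd (Cr κ)),
  Nice e pr c W → (∃ a, Lt a W ∧ Ev e a (c 0) (c 2)) →
  ∃ A B : Word, Ok A 4 0 ∧ Ok B 4 0 ∧ AltW e A ∧ AltW e B ∧ nX A + nX B + 1 = nX (fgt W) ∧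
    Iso 2 (wV (fgt W)) (wV A ++ (pX 0 e :: wV B))

/-! ### words without decorations (modules UD, FO, RTW, SM, RED2, STEP) -/

/-- [UD] Forget the colours (Mp: `fgt`; alternation and number of crossings are invariant under planar
isotopy: Mp (4) with `Q b a` = `a.p = e ↔ b` and Mp (6)); letters of `R` in `shd 1 R` are shifted by one. -/
def St_UD : Prop := ∀ {κ : Type} (e : Bool) (pr : κ → Bool) (c : ℕ → κ) (W : Wd (Cr κ)),
  Dec e pr c 4 W → (SplD 4 W → SplW e (fgt W)) ∧ (FacD 4 W → FacW e (fgt W)) ∧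
    (SumD W → SumW e (fgt W))

/-- [FO] (from U8, K28, SCA, PR) PROOF. `SplW`: `wV V ~ U 2 :: U 3 :: u ++ sh j J ++ v` has the pair of `U 2 :: U 3 :: u ++ v`
(`Ok`, PR (1)) multiplied by `loopVal * bracket (toD J)` (SCA), which is not `U8`; PR (7). `FacW`: by planar isotopy
`sh j J ~ U (j+1) :: sh j A`, `A = J ++ [N 0]` (`2 → 0`, `zag`/`zig` above `J`: `[U (j+1)] ++ sh j J ++ [N j] ~ sh j J ++ [U (j+1), N j]`);
`A` is alternating (with `e` or `!e`, parity of `j`). If `s = bracket (toD (U 0 :: A))` is not `U8`: the pair of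
`U 2 :: U 3 :: u ++ (U (j+1) :: sh j A) ++ v` is `s` times the pair of `U 2 :: U 3 :: u ++ [U (j+1), N j] ++ v`: `FacP`. Otherwise
K28: `A ~ [N 0]`, `V ~ u ++ [U (j+1), N j] ++ v ~ u ++ v =: V'`, which has `nX J` crossings less. -/
def St_FO : Prop := ∀ (e : Bool) (V : Word), Ok V 4 0 → AltW e V → (SplW e V → FacP (wV V)) ∧
  (FacW e V → FacP (wV V) ∨ ∃ V' : Word, Ok V' 4 0 ∧ AltW e V' ∧ nX V' < nX V ∧ Iso 4 V V')

/-- [RTW] PROOF. `rotW (wV (rt V)) = [U 2] ++ [U 3, U 4, U 1] ++ sh 2 V ++ [N 1, N 0]`; the four ends of `V` are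
strands `2, .., 5`; move `N 1`, `N 0` down: they do not touch `sh 2 V` after `U 1`..., planar: strands after the cups
(letters = the two ends of a cup): `a f f' b c d e e' d' c'`, `V` on `f' b c d`, then `N 1` joins `f, e`, `N 0` joins `a, e'`: the
word is `~ [U 2, U 3] ++ V` with `V` on `a b c d` (`f' f e e' a` is one strand). Second part: `sh 1 V` commutes with
the cups and the cap of `rt`, twice (for `rt (rt V)`...): not needed. -/
def St_RTW : Prop := ∀ V : Word, Ok V 4 0 → Ok (wV V) 2 2 ∧ Ok (rt V) 4 0 ∧ nX (rt V) = nX V ∧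
  (∀ e, AltW e V → AltW (!e) (rt V)) ∧ Iso 2 (wV V) (rotW (wV (rt V)))

/-- [SM] (from RTW) PROOF. `M = rt L`: `rt (sh 1 R ++ L) = U 0 :: (sh 2 R ++ sh 1 L ++ [N 0]) ~ R ++ rt L` (`U 0` passes `R`),
`wV (R ++ rt L) ~ R ++ wV (rt L)` (the cups `U 2`, `U 3` are to the right of `R`). -/
def St_SM : Prop := ∀ (e : Bool) (V : Word), Ok V 4 0 → AltW e V → SumW e V → ∃ R M : Word,
  Ok R 2 2 ∧ Ok M 4 0 ∧ AltW (!e) R ∧ AltW (!e) M ∧ nX R < nX V ∧ nX M < nX V ∧
  Iso 2 (wV V) (rotW (R ++ wV M))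

/-- [RED2] (from K28, SCA, PR, BR2 or `all_BR`; see `LSG/Red.lean`) PROOF. BR: `W`, `c 0 = c 2` or `c 1 = c 3`.
`c 0 = c 2`: `Rel W 0 2`, SL: `V ~ A ++ B`, both on two strands (alternating with `e`), `wV V ~ A ++ [U 0, U 1] ++ B`. If
`bracket (toD (U 0 :: A))` or `bracket (toD (U 0 :: B))` is not `U8` then `FacP` (SCA: replace `A` by `N 0` times a scalar);
otherwise `A ~ B ~ N 0` (K28) and `wV V ~ [N 0, U 0, U 1, N 0] ~ [N 0, U 0] ~ rotW []`: `T = rot zero`.
`c 1 = c 3`: `Rel W 1 3`, `V ~ sh 1 A ++ B`, `wV V ~ [U 2, U 3] ++ sh 1 A ++ B`, `A ~ B ~ N 0`: `[U 2, U 3, N 1, N 0] ~ []`: `T = zero`. -/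
def St_RED2 : Prop := ∀ (e : Bool) (V : Word), Ok V 4 0 → AltW e V → ∀ h : Ok (wV V) 2 2,
  (gE _ h).a = (gE _ h).b ∨ (gO _ h).a = (gO _ h).b → GoodT 0 (wV V) ∨ FacP (wV V)

/-- [STEP] (from GL, CN, PRF, ST, DS, ADJ2, UD; `all_NL`, `all_Rot`) PROOF. ST. A letter with equal opposite corners:
`all_NL` (first alternative). Otherwise `Nice`. `nX V = 1`: ADJ2. `nX V ≥ 2`: PRF for `wV V` (`nX (wV V) = nX V`): a leaf, or
a separation of `gE`: GL, ST, DS, UD; or a separation of `gO`: GL, ST: `SpD (!e) W x' sd'`; then `all_Rot`: `rtW W` is decorated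
with `!e`, `fun x => !pr x`, `crt c`, and has the same letters, so `Nice (!e) _ (crt c) (rtW W)` (`crt c` is `c 1, c 2, c 3, c 4 = c 0`
at `0, .., 3`; `Rch (!e) (rtW W)` uses `Ev (!!e) = Ev e`; the reachability of the even regions is in `Nice`),
`fgt (rtW W) = rt V`: DS, UD. -/
def St_STEP : Prop := ∀ (e : Bool) (V : Word), Ok V 4 0 → AltW e V → 1 ≤ nX V →
  ∀ h : Ok (wV V) 2 2, (gE _ h).a ≠ (gE _ h).b → (gO _ h).a ≠ (gO _ h).b →
  nc ((gO _ h).sp ⊥ Finset.univ ⊔ (gO _ h).ab) = 1 →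
  nc ((gE _ h).sp ⊥ Finset.univ ⊔ (gE _ h).ab) = 1 →
  (∃ V' : Word, Ok V' 4 0 ∧ AltW e V' ∧ nX V' < nX V ∧ Iso 4 V V') ∨
  (∃ A B : Word, Ok A 4 0 ∧ Ok B 4 0 ∧ AltW e A ∧ AltW e B ∧ nX A + nX B + 1 = nX V ∧
    Iso 2 (wV V) (wV A ++ (pX 0 e :: wV B))) ∨ IsLeaf (wV V) ∨
  (SplW e V ∨ FacW e V ∨ SumW e V) ∨ (SplW (!e) (rt V) ∨ FacW (!e) (rt V) ∨ SumW (!e) (rt V))

/-! ### the theorems (modules DLV, TR, FINL, FINK) -/

/-- [DLV] (from PR, FLT, FO, RTW, SM, RED2, STEP) PROOF. Strong induction on `nX V` (for all `e`). FLT for `wV V`: `FacP` or the two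
numbers are 1. Equal marked vertices: RED2. `nX V = 0`: by `St_CT` (`A = ∅ = univ`) the marked vertices of `gE` or of `gO`
are equal (`sp_empty`). Otherwise STEP: (1) fewer crossings: induction and `Iso 2 (wV V) (wV V')`; (2) induction for `A`,
`B`: trees `T_A`, `T_B`: `sum T_A (sum (cross e) T_B)`, or `FacP` of one part: PR (4), (5), (7); (3) `T = leaf (wV V)`;
(4) FO, SM: `rot (sum T_R T_M)` (for `R` apply the induction hypothesis to `R ++ [N 1, N 0]`, see DL); (5) the same for `rt V`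
(with `!e`) gives the claim for `wV (rt V)` (`GoodT`, `FacP`, or fewer crossings), then RTW: `wV V ~ rotW (wV (rt V))`:
`rot T`, PR (6), (7). Prove the cases (4) for a general word as a lemma first. Second part: `V = w ++ [N 1, N 0]`,
`wV V = [U 2, U 3] ++ w ++ [N 1, N 0] ~ w ++ [U 2, U 3, N 1, N 0] ~ w`. -/
def St_DLV : Prop :=
  (∀ (e : Bool) (V : Word), Ok V 4 0 → AltW e V → GoodT (nX V) (wV V) ∨ FacP (wV V)) ∧
  ∀ (e : Bool) (w : Word), Ok w 2 2 → AltW e w → GoodT (nX w) w ∨ FacP w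

/-- an alternating tangle with four ends -/
def AltT (w : Word) : Prop := Ok w 2 2 ∧ ∃ e, AltW e w

/-- [TR] (from PR, DLV) PROOF. Induction on `T`. -/
def St_TR : Prop := ∀ T : Pool.Agent.ALT.Tree, (∀ w, T.Leaf w → AltT w) → Ok T.word 2 2 ∧
  ((∃ T' : Pool.Agent.ALT.Tree, (∀ w', T'.Leaf w' → IsLeaf w' ∧ ∃ w, T.Leaf w ∧ nX w' ≤ nX w) ∧
    Iso 2 T.word T'.word) ∨ FacP T.word)

/-- [FINL] (from U8, PR, TR; `fin_both`, `all_leaf`, `bad_cross`, `not_BadX` as in
`Results/MP_42db45_gt/AlgAlternating.lean`; `Pool.ALT.ex_br`) PROOF. `FacP T.word`: `bracket (toD (forget D))` is a unit times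
`s * g + loopVal * (s * b)`; `fPoly D` is a unit times the bracket, so `U8 s` by U8 (5): contradiction (compare `mod_bracket`
or the proof of `fin_both`). Otherwise `Iso 0 (NW T.word) (NW T'.word)` and `fin_both` for `T'`. -/
def St_FINL : Prop := ∀ (D : List Slice), IsDiagram D → ∀ T : Pool.Agent.ALT.Tree,
  (∀ w, T.Leaf w → AltT w) → Iso 0 (forget D) (NW T.word) →
  ((LaurentPolynomial.T 4 : LP) + 1) ^ 3 ∣ fPoly D - 1 →
  Iso 0 (forget D) O1 ∨ (fPoly D ≠ 1 ∧ ∃ w0 w, T.Leaf w0 ∧ AltT w ∧ nX w ≤ nX w0 ∧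
    Pool.Agent.ALT.OneLeaf (forget D) w)

open Pool.Agent.ARK in
/-- [FINK] (from U8, PR, TR; `ALK/Fin.lean`: the proof of `kfin`, which uses only that `kbracket D` is a unit; `thm_Kbr'`,
`thm_Kis`) PROOF. `kbracket D = g + b` for the pair of `T.word` (`thm_Kbr'`), a unit (because `kPoly D` is one). `FacP`: `s` divides a unit, but is not `U8`. Otherwise `Iso 2 T.word T'.word`, the pair of
`T'.word` is a unit times `(g, b)`, so `g' + b'` is a unit and the proof of `kfin` for `T'` gives `Iso 2 T'.word []` or `rotW []`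
(or `BadLeaf`, excluded by `bad_cross`, `not_BadX`); `thm_Kis.1` for `T.word`. -/
def St_FINK : Prop := ∀ T : Pool.Agent.ALT.Tree, (∀ w, T.Leaf w → AltT w) → ∀ D : List KSlice,
  kforget D = kn T.word →
  (∃ k : ℤ, kPoly D = LaurentPolynomial.T k ∨ kPoly D = -LaurentPolynomial.T k) →
  KIso 0 (kforget D) triv

end Pool.GEN
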