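import Pool.Agent.ARB.Defs

/-!
# Conway combinations of alternating tangles: the definitions used in the statements

Diagrams in Morse position are words of elementary pieces, read from bottom to top (`Word`, see
`ARB/Defs.lean`); `Iso n` is isotopy (planar isotopy and Reidemeister moves) of words on `n` strands.
-/

set_option autoImplicit false

namespace Pool.GEN

open Pool.Agent.ARB

/-- `w` is an alternating diagram, in Morse position, of a tangle with four ends (two below and two
above): the sign `p` of a crossing `X p` depends only on the parity of its position `i`. In other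
words all crossings have the same type with respect to the checkerboard colouring of the regions
of the diagram. -/
structure AltTangle (w : Word) : Prop where
  ok : Ok w 2 2
  alt : ∃ e : Bool, ∀ (p : Bool) (i : ℕ), pX i p ∈ w → (p = e ↔ i % 2 = 0)

/-- Conway combinations: obtained from crossings and from tangles with four ends, the leaves, by
sums and rotations. -/
inductive Comb where
  | zero
  | cross (p : Bool)
  | leaf (w : Word)
  | sum (S T : Comb)
  | rot (T : Comb)

/-- the diagram of a combination -/
def Comb.word : Comb → Word
  | .zero => []
  | .cross p => [pX 0 p]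
  | .leaf w => w
  | .sum S T => S.word ++ T.word
  | .rot T => rotW T.word

/-- `w` is one of the leaves -/
def Comb.Leaf (w : Word) : Comb → Prop
  | .zero => False
  | .cross _ => False
  | .leaf w' => w = w'
  | .sum S T => S.Leaf w ∨ T.Leaf w
  | .rot T => T.Leaf w

/-- number of crossings -/
def crs : Word → ℕ
  | [] => 0
  | ⟨.X _, _⟩ :: w => crs w + 1
  | ⟨.U, _⟩ :: w => crs w
  | ⟨.N, _⟩ :: w => crs w

/-- two 1-1 tangles next to each other -/
def bd (J J' : Word) : Word := J ++ sh 1 J'

/-- `D` is isotopic to the numerator closure of the sum of `w` and a rational tangle, with 1-1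
tangles `J0, ..., J3` on the four strands which join them. -/
def OneLeaf (D w : Word) : Prop := ∃ R : Arb, Rat R ∧ ∃ J0 J1 J2 J3 : Word, Ok J0 1 1 ∧
  Ok J1 1 1 ∧ Ok J2 1 1 ∧ Ok J3 1 1 ∧ Iso 0 D (NW (w ++ (bd J0 J1 ++ (R.word ++ bd J2 J3))))

end Pool.GEN
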