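import Pool.Agent.GEN.Statement
import Pool.Agent.ALT.Statement

/-!
# GEN: translation of the definitions used in the statements
-/

set_option autoImplicit false

namespace Pool.GEN

open Pool.Agent.ARB

/-- the same combination, as a `Tree` -/
def Comb.tree : Comb → Pool.Agent.ALT.Tree
  | .zero => .zero
  | .cross p => .cross p
  | .leaf w => .leaf w
  | .sum S T => .sum S.tree T.tree
  | .rot T => .rot T.tree

theorem Comb.tree_word (T : Comb) : T.tree.word = T.word := by
  induction T with
  | zero => rfl
  | cross p => rfl
  | leaf w => rfl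
  | sum S T hS hT =>
    show S.tree.word ++ T.tree.word = S.word ++ T.word
    rw [hS, hT]
  | rot T hT =>
    show rotW T.tree.word = rotW T.word
    rw [hT]

theorem Comb.tree_leaf (T : Comb) (w : Word) : T.tree.Leaf w ↔ T.Leaf w := by
  induction T with
  | zero => exact Iff.rfl
  | cross p => exact Iff.rfl
  | leaf w' => exact Iff.rfl
  | sum S T hS hT =>
    show S.tree.Leaf w ∨ T.tree.Leaf w ↔ S.Leaf w ∨ T.Leaf w
    rw [hS, hT]
  | rot T hT => exact hT

theorem crs_eq (w : Word) : crs w = Pool.ALT.nX w := by
  induction w with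
  | nil => rfl
  | cons s w h =>
    obtain ⟨k, i⟩ := s
    cases k with
    | U => exact h
    | N => exact h
    | X p => exact congrArg (· + 1) h

theorem oneLeaf_iff (D w : Word) : OneLeaf D w ↔ Pool.Agent.ALT.OneLeaf D w := Iff.rfl

end Pool.GEN
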